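import Pool.Agent.Run7.h221.Pou

/-!
The upper bound for the sampling numbers.
-/

open MeasureTheory Filter Topology
open scoped ENNReal

namespace Run7.h221

noncomputable section

set_option linter.unusedSectionVars false

theorem sampling_level (𝕜 : Type) [RCLike 𝕜] (d l : ℕ) (hl : 1 ≤ l) {p r η b e : ℝ} (hp : 1 ≤ p)
    (hη : 1 / p < η) (hη1 : η < 1) (hηr : η ≤ r) (he : 0 ≤ e)
    (hrate : Rate 𝕜 d l p r b e) : ∃ C : ℝ, 1 ≤ C ∧ ∀ n m : ℕ,
      C * 2 ^ n * ((n : ℝ) + 1) ^ b ≤ m →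
      samplingNumber m (HNClass 𝕜 d l r (ENNReal.ofReal p)) ⊤
        ≤ ENNReal.ofReal (C * ((n : ℝ) + 1) ^ e * 2 ^ (-((r - 1 / p) * n))) := by
  classical
  obtain ⟨C, hC1, hC⟩ := hrate
  have hp0 : 0 < p := by linarith
  have hpi : 0 < 1 / p := by positivity
  obtain ⟨C₂, hC₂1, hC₂⟩ := HL.toHC (E := 𝕜) hl hp (lt_trans hpi hη) hη1 hηr d
  obtain ⟨C₃, hC₃1, hC₃⟩ := HC.modulus (E := 𝕜) hp hη d
  refine ⟨C + 1, by linarith, ?_⟩
  intro n m hm
  obtain ⟨Y, hYc, J₀, hJ₀⟩ := hC n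
  set A : ℝ := ((n : ℝ) + 1) ^ e * 2 ^ (-((r - 1 / p) * n)) with hA
  have hn1 : (1 : ℝ) ≤ (n : ℝ) + 1 := by
    have : (0 : ℝ) ≤ n := Nat.cast_nonneg _
    linarith
  have hA0 : 0 < A := by positivity
  -- choice of the level
  obtain ⟨s, hs1, hs2⟩ : ∃ s : ℕ, J₀ ≤ s ∧ C₃ * C₂ * 2 ^ (-((η - 1 / p) * s)) ≤ A := by
    have hq1 : (2 : ℝ) ^ (-(η - 1 / p)) < 1 :=
      Real.rpow_lt_one_of_one_lt_of_neg (by norm_num) (by linarith)
    have hq0 : 0 ≤ (2 : ℝ) ^ (-(η - 1 / p)) := by positivity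
    have h1 := tendsto_pow_atTop_nhds_zero_of_lt_one hq0 hq1
    have h2 : Tendsto (fun s : ℕ => C₃ * C₂ * ((2 : ℝ) ^ (-(η - 1 / p))) ^ s) atTop (𝓝 0) := by
      have := h1.const_mul (C₃ * C₂)
      rwa [mul_zero] at this
    have h3 : ∀ᶠ s : ℕ in atTop, C₃ * C₂ * ((2 : ℝ) ^ (-(η - 1 / p))) ^ s ≤ A :=
      (h2.eventually (gt_mem_nhds hA0)).mono fun _ h => h.le
    obtain ⟨s, hs, hs'⟩ := ((eventually_ge_atTop J₀).and h3).exists
    refine ⟨s, hs, ?_⟩
    have h4 : (2 : ℝ) ^ (-((η - 1 / p) * s)) = ((2 : ℝ) ^ (-(η - 1 / p))) ^ s := by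
      rw [← Real.rpow_natCast, ← Real.rpow_mul (by norm_num)]
      congr 1; ring
    rw [h4]; exact hs'
  set J := s + 1 with hJ
  have hstp : stp J < stp s := by
    have := stp_two_mul s
    have := stp_pos (s + 1)
    rw [hJ]; linarith
  choose Φ hΦ1 hΦ2 using fun k : (Fin d → Fin (2 ^ J)) =>
    hJ₀ J (by omega) (fun j => (k j : ℕ)) (fun j => (k j).2)
  have hYm : Y.card ≤ m := by
    have h1 : (Y.card : ℝ) ≤ m := by
      refine hYc.trans (le_trans ?_ hm)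
      have h2 : (0 : ℝ) ≤ 2 ^ n * ((n : ℝ) + 1) ^ b := by positivity
      nlinarith
    exact_mod_cast h1
  have hmain := sampling_of_local (F := HNClass 𝕜 d l r (ENNReal.ofReal p)) (m := m) hYm
    (fun k : (Fin d → Fin (2 ^ J)) => (fun j => pt J (k j) : Tor d)) (δ := stp s)
    (by
      intro x
      choose k hk1 hk2 using fun j => exists_pt_near J (x j)
      refine ⟨fun j => ⟨k j, hk1 j⟩, ?_⟩
      rw [dist_pi_lt_iff (stp_pos s)]
      intro j
      rw [dist_eq_norm]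
      exact (hk2 j).trans_lt hstp) Φ hΦ1 (B := (C + 1) * A)
    (by
      intro k x hx f hf
      have h1 := HL_of_HNClass hf
      have h2 := hΦ2 k 1 zero_le_one f h1
      have h3 := hC₂ 1 zero_le_one f h1
      choose τ hτ1 hτ2 using fun j => circ_rep (x j - pt J (k j))
      rw [dist_pi_lt_iff (stp_pos s)] at hx
      have h4 := hC₃ (C₂ * 1) (by positivity) f h3 s (fun j => pt J (k j)) τ (by
        intro j
        rw [hτ2 j, ← dist_eq_norm]
        exact (hx j).le)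
      have h5 : ((fun j => pt J (k j) : Tor d) + fun j => ((τ j : ℝ) : Circ)) = x := by
        funext j
        rw [Pi.add_apply, hτ1 j]
        abel
      rw [h5, mul_one] at h4
      calc ‖f x - Φ k f‖ = ‖(f x - f (fun j => pt J (k j))) + (f (fun j => pt J (k j)) - Φ k f)‖ := by
            congr 1; abel
        _ ≤ _ := norm_add_le _ _
        _ ≤ A + C * A := by
          apply add_le_add (h4.trans hs2)
          refine h2.trans_eq ?_
          rw [hA]; ring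
        _ = _ := by ring)
  refine hmain.trans_eq ?_
  rw [hA]; congr 1; ring

/-- From levels to the asymptotic bound. -/
theorem asymp {σ : ℕ → ℝ≥0∞} {α b e C B : ℝ} (hα : 0 < α) (hb : 0 ≤ b) (he : 0 ≤ e) (hC : 1 ≤ C)
    (h1 : ∀ n m : ℕ, C * 2 ^ n * ((n : ℝ) + 1) ^ b ≤ m →
      σ m ≤ ENNReal.ofReal (C * ((n : ℝ) + 1) ^ e * 2 ^ (-(α * n))))
    (hB : 0 ≤ B) (h2 : ∀ m, σ m ≤ ENNReal.ofReal B) :
    ∃ C' : ℝ, 0 < C' ∧ ∀ m : ℕ, 2 ≤ m →
      σ m ≤ ENNReal.ofReal (C' * (m : ℝ) ^ (-α) * (Real.log m) ^ (e + α * b)) := by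
  set c₁ : ℝ := 3 / Real.log 2 with hc₁
  have hlog2 : 0 < Real.log 2 := Real.log_pos (by norm_num)
  have hlog2' : Real.log 2 < 1 := by
    have := Real.log_two_lt_d9; linarith
  have hc₁pos : 0 < c₁ := by positivity
  set C' : ℝ := C * (2 * C) ^ α * c₁ ^ (e + α * b) + B * C ^ α / (Real.log 2) ^ (e + α * b) + 1
    with hC'
  have hp1 : 0 ≤ C * (2 * C) ^ α * c₁ ^ (e + α * b) := by positivity
  have hp2 : 0 ≤ B * C ^ α / (Real.log 2) ^ (e + α * b) := by positivity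
  refine ⟨C', by rw [hC']; positivity, ?_⟩
  intro m hm
  have hm2 : (2 : ℝ) ≤ m := by exact_mod_cast hm
  have hm0 : (0 : ℝ) < m := by linarith
  have hlogm : Real.log 2 ≤ Real.log m := Real.log_le_log (by norm_num) hm2
  have hlogm0 : 0 < Real.log m := by linarith
  have hexp : 0 ≤ e + α * b := by positivity
  by_cases hmC : C ≤ m
  · -- choice of the level
    set P : ℕ → Prop := fun n => C * 2 ^ n * ((n : ℝ) + 1) ^ b ≤ m with hP
    classical
    set n := Nat.findGreatest P m with hn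
    have hP0 : P 0 := by simp [hP, hmC]
    have hPn : P n := Nat.findGreatest_spec (Nat.zero_le m) hP0
    have h2n : ∀ k : ℕ, P k → (2 : ℝ) ^ k ≤ m := by
      intro k hk
      have h3 : (1 : ℝ) ≤ ((k : ℝ) + 1) ^ b := by
        apply Real.one_le_rpow _ hb
        have : (0 : ℝ) ≤ k := Nat.cast_nonneg _
        linarith
      have h4 : (0 : ℝ) < 2 ^ k := by positivity
      have h5 : (2 : ℝ) ^ k ≤ C * 2 ^ k * ((k : ℝ) + 1) ^ b := by
        calc (2 : ℝ) ^ k = 1 * 2 ^ k * 1 := by ring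
          _ ≤ C * 2 ^ k * ((k : ℝ) + 1) ^ b := by gcongr
      exact h5.trans hk
    have hPn1 : ¬ P (n + 1) := by
      intro h
      have h3 := h2n _ h
      have h4 : n + 1 ≤ m := by
        have h5 := Nat.lt_two_pow_self (n := n + 1)
        have h6 : (2 : ℝ) ^ (n + 1) = ((2 ^ (n + 1) : ℕ) : ℝ) := by push_cast; ring
        rw [h6] at h3
        have h7 : 2 ^ (n + 1) ≤ m := by exact_mod_cast h3
        omega
      exact Nat.findGreatest_is_greatest (P := P) (n := m) (k := n + 1) (by omega) h4 h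
    have h3 := h1 n m hPn
    refine h3.trans (ENNReal.ofReal_le_ofReal ?_)
    have h4 : (m : ℝ) < C * 2 ^ (n + 1) * (((n + 1 : ℕ) : ℝ) + 1) ^ b := by
      simp only [hP] at hPn1
      push Not at hPn1
      exact hPn1
    have h5 : (n : ℝ) + 2 ≤ c₁ * Real.log m := by
      have h6 := h2n n hPn
      have h7 : (n : ℝ) * Real.log 2 ≤ Real.log m := by
        have := Real.log_le_log (by positivity) h6
        rwa [Real.log_pow] at this
      have h8 : (n : ℝ) ≤ Real.log m / Real.log 2 := by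
        rw [le_div_iff₀ hlog2]; exact h7
      have h9 : 1 ≤ Real.log m / Real.log 2 := by
        rw [le_div_iff₀ hlog2]; linarith
      have h10 : c₁ * Real.log m = 3 * (Real.log m / Real.log 2) := by rw [hc₁]; ring
      rw [h10]; linarith
    have hn0 : (0 : ℝ) ≤ n := Nat.cast_nonneg _
    have h6 : (2 : ℝ) ^ (-(α * n)) ≤ (2 * C) ^ α * (m : ℝ) ^ (-α) * ((n : ℝ) + 2) ^ (α * b) := by
      have h7 : (m : ℝ) ≤ (2 * C) * 2 ^ (n : ℝ) * ((n : ℝ) + 2) ^ b := by
        refine h4.le.trans_eq ?_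
        rw [Real.rpow_natCast]
        push_cast
        rw [show (n : ℝ) + 1 + 1 = n + 2 by ring]
        ring
      have h8 : (m : ℝ) ^ α ≤ ((2 * C) * 2 ^ (n : ℝ) * ((n : ℝ) + 2) ^ b) ^ α :=
        Real.rpow_le_rpow hm0.le h7 hα.le
      rw [Real.mul_rpow (by positivity) (by positivity),
        Real.mul_rpow (by positivity) (by positivity), ← Real.rpow_mul (by norm_num),
        ← Real.rpow_mul (by positivity)] at h8
      have h9 : (m : ℝ) ^ α * (m : ℝ) ^ (-α) = 1 := by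
        rw [← Real.rpow_add hm0]; simp
      have h10 : (2 : ℝ) ^ ((n : ℝ) * α) * (2 : ℝ) ^ (-(α * n)) = 1 := by
        rw [← Real.rpow_add (by norm_num)]
        rw [show (n : ℝ) * α + -(α * n) = 0 by ring, Real.rpow_zero]
      calc (2 : ℝ) ^ (-(α * n)) = ((m : ℝ) ^ α * (m : ℝ) ^ (-α)) * 2 ^ (-(α * n)) := by
            rw [h9, one_mul]
        _ ≤ (((2 * C) ^ α * 2 ^ ((n : ℝ) * α) * ((n : ℝ) + 2) ^ (b * α)) * (m : ℝ) ^ (-α))
            * 2 ^ (-(α * n)) := by gcongr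
        _ = (2 * C) ^ α * (m : ℝ) ^ (-α) * ((n : ℝ) + 2) ^ (b * α)
            * ((2 : ℝ) ^ ((n : ℝ) * α) * (2 : ℝ) ^ (-(α * n))) := by ring
        _ = _ := by rw [h10, mul_one, mul_comm b α]
    calc C * ((n : ℝ) + 1) ^ e * 2 ^ (-(α * n))
        ≤ C * ((n : ℝ) + 2) ^ e
          * ((2 * C) ^ α * (m : ℝ) ^ (-α) * ((n : ℝ) + 2) ^ (α * b)) := by
          gcongr
          linarith
      _ = C * (2 * C) ^ α * (m : ℝ) ^ (-α) * (((n : ℝ) + 2) ^ e * ((n : ℝ) + 2) ^ (α * b)) := by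
          ring
      _ = C * (2 * C) ^ α * (m : ℝ) ^ (-α) * ((n : ℝ) + 2) ^ (e + α * b) := by
          rw [← Real.rpow_add (by positivity)]
      _ ≤ C * (2 * C) ^ α * (m : ℝ) ^ (-α) * (c₁ * Real.log m) ^ (e + α * b) := by
          gcongr
      _ = (C * (2 * C) ^ α * c₁ ^ (e + α * b)) * (m : ℝ) ^ (-α)
          * (Real.log m) ^ (e + α * b) := by
          rw [Real.mul_rpow (by positivity) hlogm0.le]; ring
      _ ≤ C' * (m : ℝ) ^ (-α) * (Real.log m) ^ (e + α * b) := by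
          gcongr
          rw [hC']; linarith
  · push Not at hmC
    refine (h2 m).trans (ENNReal.ofReal_le_ofReal ?_)
    have h3 : C ^ (-α) ≤ (m : ℝ) ^ (-α) :=
      Real.rpow_le_rpow_of_nonpos hm0 hmC.le (by linarith)
    have h4 : (Real.log 2) ^ (e + α * b) ≤ (Real.log m) ^ (e + α * b) :=
      Real.rpow_le_rpow hlog2.le hlogm hexp
    have h5 : C ^ α * C ^ (-α) = 1 := by
      rw [← Real.rpow_add (by linarith)]; simp
    have h6 : 0 < (Real.log 2) ^ (e + α * b) := by positivity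
    calc B = (B * C ^ α / (Real.log 2) ^ (e + α * b)) * C ^ (-α) * (Real.log 2) ^ (e + α * b) := by
          field_simp
          rw [mul_assoc, h5, mul_one]
      _ ≤ (B * C ^ α / (Real.log 2) ^ (e + α * b)) * (m : ℝ) ^ (-α)
          * (Real.log m) ^ (e + α * b) := by gcongr
      _ ≤ _ := by
          gcongr
          rw [hC']; linarith

/-- The upper bound for the sampling numbers in the uniform norm. -/
theorem upper (𝕜 : Type) [RCLike 𝕜] (d l : ℕ) (hd : 2 ≤ d) (p r η : ℝ) (hp1 : 1 < p) (hp2 : p < 2)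
    (hη : 1 / p < η) (hη1 : η < 1) (hηr : η ≤ r) (hl : r < l) :
    ∃ C : ℝ, 0 < C ∧ ∀ m : ℕ, 2 ≤ m →
      samplingNumber m (HNClass 𝕜 d l r (ENNReal.ofReal p)) ⊤
        ≤ ENNReal.ofReal (C * (m : ℝ) ^ (-(r - 1 / p))
          * (Real.log m) ^ (((d : ℝ) - 1) * (1 + r - 1 / p)
            - (η - 1 / p) * (2 - p) / (p * η))) := by
  have hp0 : 0 < p := by linarith
  have hpi : 0 < 1 / p := by positivity
  have hη0 : 0 < η := lt_trans hpi hη
  have hl1 : 1 ≤ l := by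
    have h1 : (0 : ℝ) < l := by linarith
    exact_mod_cast h1
  obtain ⟨d', rfl⟩ := Nat.exists_eq_add_of_le' hd
  have hrate := rate_all 𝕜 l hl1 hp1 hp2 hη hη1 hηr d'
  have hgam := gam_le_one hp1 hp2 hη hη1
  have hd0 : (0 : ℝ) ≤ d' := Nat.cast_nonneg _
  have he : (0 : ℝ) ≤ (d' : ℝ) + 1 - gam p η := by linarith
  obtain ⟨C, hC1, hC⟩ := sampling_level 𝕜 (d' + 2) l hl1 hp1.le hη hη1 hηr he hrate
  obtain ⟨C₂, hC₂1, hC₂⟩ := HL.toHC (E := 𝕜) hl1 hp1.le hη0 hη1 hηr (d' + 2)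
  obtain ⟨C₃, hC₃1, hC₃⟩ := HC.sup_bound (E := 𝕜) hp1.le hη (d' + 2)
  obtain ⟨C', hC'0, hC'⟩ := asymp (σ := fun m =>
      samplingNumber m (HNClass 𝕜 (d' + 2) l r (ENNReal.ofReal p)) ⊤)
    (α := r - 1 / p) (b := (d' : ℝ) + 1) (e := (d' : ℝ) + 1 - gam p η) (C := C) (B := C₃ * C₂)
    (by linarith) (by positivity) he hC1 hC (by positivity) (by
      intro m
      apply sampling_trivial
      intro f hf x
      have h1 := hC₂ 1 zero_le_one f (HL_of_HNClass hf)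
      have h2 := hC₃ _ (by positivity) f h1 x
      rwa [mul_one] at h2)
  refine ⟨C', hC'0, ?_⟩
  intro m hm
  refine (hC' m hm).trans_eq ?_
  congr 3
  unfold gam
  push_cast
  ring

end

end Run7.h221
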