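import Pool.Agent.Run7.h221.Defs

/-!
Averages over dyadic intervals and the passage from `L_p` norms to `ℓ_p` sums over dyadic grids.
-/

open MeasureTheory
open scoped ENNReal

namespace Run7.h221

noncomputable section

set_option linter.unusedSectionVars false

variable {E : Type*} [NormedAddCommGroup E] [NormedSpace ℝ E]

/-- The dyadic step `2π / 2^s`. -/
def stp (s : ℕ) : ℝ := 2 * Real.pi / 2 ^ s

lemma stp_pos (s : ℕ) : 0 < stp s := by unfold stp; positivity

lemma stp_two_mul (s : ℕ) : 2 * stp (s + 1) = stp s := by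
  unfold stp; rw [pow_succ]; field_simp

lemma pow_mul_stp (s : ℕ) : (2 : ℝ) ^ s * stp s = 2 * Real.pi := by
  unfold stp; field_simp

/-- Average over an interval of length `h` in the first variable. -/
def avg {X : Type*} (h : ℝ) (f : Circ × X → E) : Circ × X → E :=
  fun z => h⁻¹ • ∫ u in (0 : ℝ)..h, f (z.1 + (u : Circ), z.2)

/-- First difference with step `h` in the first variable. -/
def shiftDiff {E : Type*} [AddCommGroup E] {X : Type*} (h : ℝ) (f : Circ × X → E) : Circ × X → E :=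
  fun z => f (z.1 + (h : Circ), z.2) - f z

lemma cont_coe : Continuous (fun u : ℝ => (u : Circ)) := AddCircle.continuous_mk' _

lemma shiftDiff_continuous {X : Type*} [TopologicalSpace X] {f : Circ × X → E}
    (hf : Continuous f) (h : ℝ) : Continuous (shiftDiff h f) := by
  unfold shiftDiff
  fun_prop

lemma avg_continuous {X : Type*} [TopologicalSpace X] {f : Circ × X → E}
    (hf : Continuous f) (h : ℝ) : Continuous (avg h f) := by
  unfold avg
  refine Continuous.const_smul ?_ _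
  apply intervalIntegral.continuous_parametric_intervalIntegral_of_continuous'
  have h1 := cont_coe
  change Continuous (fun w : (Circ × X) × ℝ => f (w.1.1 + (w.2 : Circ), w.1.2))
  exact hf.comp (((continuous_fst.comp continuous_fst).add (h1.comp continuous_snd)).prodMk
    (continuous_snd.comp continuous_fst))

lemma avg_sub {X : Type*} [TopologicalSpace X] {f : Circ × X → E} (hf : Continuous f)
    {h : ℝ} (_hh : 0 < h) (z : Circ × X) :
    avg (2 * h) f z - avg h f z = (1 / 2 : ℝ) • avg h (shiftDiff h f) z := by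
  have hc : ∀ y : Circ, Continuous (fun u : ℝ => f (y + (u : Circ), z.2)) := by
    intro y
    have h1 := cont_coe
    exact hf.comp ((continuous_const.add h1).prodMk continuous_const)
  have hi : ∀ y : Circ, ∀ a b : ℝ,
      IntervalIntegrable (fun u : ℝ => f (y + (u : Circ), z.2)) volume a b :=
    fun y a b => (hc y).intervalIntegrable a b
  have h1 : ∫ u in (0 : ℝ)..(2 * h), f (z.1 + (u : Circ), z.2)
      = (∫ u in (0 : ℝ)..h, f (z.1 + (u : Circ), z.2))
        + ∫ u in (0 : ℝ)..h, f (z.1 + (h : Circ) + (u : Circ), z.2) := by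
    rw [← intervalIntegral.integral_add_adjacent_intervals (hi z.1 0 h) (hi z.1 h (2 * h))]
    congr 1
    have h2 : ∫ u in (0 : ℝ)..h, f (z.1 + (h : Circ) + (u : Circ), z.2)
        = ∫ u in (0 : ℝ)..h, (fun v : ℝ => f (z.1 + (v : Circ), z.2)) (u + h) := by
      apply intervalIntegral.integral_congr
      intro u _
      simp only
      congr 2
      rw [AddCircle.coe_add]
      abel
    rw [h2, intervalIntegral.integral_comp_add_right (fun v : ℝ => f (z.1 + (v : Circ), z.2))]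
    congr 1 <;> ring
  have h3 : ∫ u in (0 : ℝ)..h, shiftDiff h f (z.1 + (u : Circ), z.2)
      = (∫ u in (0 : ℝ)..h, f (z.1 + (h : Circ) + (u : Circ), z.2))
        - ∫ u in (0 : ℝ)..h, f (z.1 + (u : Circ), z.2) := by
    rw [← intervalIntegral.integral_sub (hi _ 0 h) (hi _ 0 h)]
    apply intervalIntegral.integral_congr
    intro u _
    simp only [shiftDiff]
    congr 3
    abel
  unfold avg
  rw [h1, h3, smul_smul]
  have h4 : (2 * h)⁻¹ = 1 / 2 * h⁻¹ := by
    rw [mul_inv]; ring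
  rw [h4, smul_add, smul_sub]
  have h5 : h⁻¹ • (∫ u in (0 : ℝ)..h, f (z.1 + (u : Circ), z.2))
      = (1 / 2 * h⁻¹) • (∫ u in (0 : ℝ)..h, f (z.1 + (u : Circ), z.2))
        + (1 / 2 * h⁻¹) • (∫ u in (0 : ℝ)..h, f (z.1 + (u : Circ), z.2)) := by
    rw [← add_smul]; congr 1; ring
  rw [h5]
  abel

lemma enorm_avg_rpow_le {G : ℝ → E} (hG : Continuous G) {h p : ℝ} (hh : 0 < h) (hp : 1 ≤ p) :
    ‖h⁻¹ • ∫ u in (0 : ℝ)..h, G u‖ₑ ^ p
      ≤ (ENNReal.ofReal h)⁻¹ * ∫⁻ u in Set.Ioc 0 h, ‖G u‖ₑ ^ p := by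
  have hp0 : 0 < p := by linarith
  set ρ : Measure ℝ := (ENNReal.ofReal h)⁻¹ • volume.restrict (Set.Ioc 0 h) with hρ
  have hne : ENNReal.ofReal h ≠ 0 := by simpa using hh
  have hprob : IsProbabilityMeasure ρ := by
    constructor
    rw [hρ]
    simp only [Measure.smul_apply, Measure.restrict_apply MeasurableSet.univ, Set.univ_inter,
      Real.volume_Ioc, sub_zero, smul_eq_mul]
    exact ENNReal.inv_mul_cancel hne ENNReal.ofReal_ne_top
  have h1 : ‖h⁻¹ • ∫ u in (0 : ℝ)..h, G u‖ₑ ≤ ∫⁻ u, ‖G u‖ₑ ∂ρ := by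
    rw [enorm_smul, hρ, lintegral_smul_measure, intervalIntegral.integral_of_le hh.le]
    have h2 : ‖h⁻¹‖ₑ = (ENNReal.ofReal h)⁻¹ := by
      rw [enorm_inv hh.ne', Real.enorm_of_nonneg hh.le]
    rw [h2, smul_eq_mul]
    gcongr
    exact enorm_integral_le_lintegral_enorm _
  have hm : AEStronglyMeasurable G ρ := hG.aestronglyMeasurable
  have h3 : eLpNorm G 1 ρ ≤ eLpNorm G (ENNReal.ofReal p) ρ := by
    apply eLpNorm_le_eLpNorm_of_exponent_le _ hm
    rw [ENNReal.one_le_ofReal]; exact hp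
  rw [eLpNorm_one_eq_lintegral_enorm, eLpNorm_eq_lintegral_rpow_enorm_toReal (by simpa using hp0)
    ENNReal.ofReal_ne_top, ENNReal.toReal_ofReal hp0.le] at h3
  calc ‖h⁻¹ • ∫ u in (0 : ℝ)..h, G u‖ₑ ^ p ≤ ((∫⁻ u, ‖G u‖ₑ ^ p ∂ρ) ^ (1 / p)) ^ p := by
        gcongr
        exact h1.trans h3
    _ = ∫⁻ u, ‖G u‖ₑ ^ p ∂ρ := by
        rw [← ENNReal.rpow_mul, one_div, inv_mul_cancel₀ hp0.ne', ENNReal.rpow_one]
    _ = _ := by rw [hρ, lintegral_smul_measure, smul_eq_mul]

lemma sum_lintegral_Ioc (φ : ℝ → ℝ≥0∞) {h : ℝ} (hh : 0 ≤ h) (n : ℕ) :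
    ∑ k ∈ Finset.range n, ∫⁻ u in Set.Ioc (k * h) ((k + 1) * h), φ u
      = ∫⁻ u in Set.Ioc 0 (n * h), φ u := by
  induction n with
  | zero => simp
  | succ n ih =>
    rw [Finset.sum_range_succ, ih, ← lintegral_union measurableSet_Ioc]
    · rw [Set.Ioc_union_Ioc_eq_Ioc (by positivity) (by nlinarith)]
      push_cast
      rfl
    · rw [Set.Ioc_disjoint_Ioc]
      exact le_trans (min_le_left _ _) (le_max_right _ _)

lemma lintegral_Ioc_shift (φ : ℝ → ℝ≥0∞) (a h : ℝ) :
    ∫⁻ u in Set.Ioc 0 h, φ (a + u) = ∫⁻ u in Set.Ioc a (a + h), φ u := by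
  have h1 : MeasurePreserving (fun u : ℝ => a + u) volume volume :=
    measurePreserving_add_left volume a
  have h2 : MeasurableEmbedding (fun u : ℝ => a + u) := measurableEmbedding_addLeft a
  have h3 := h1.setLIntegral_comp_preimage_emb h2 φ (Set.Ioc a (a + h))
  rw [← h3]
  congr 2
  ext u
  simp

lemma sum_grid_lintegral {φ : Circ → ℝ≥0∞} (i : ℕ) (y0 : Circ) :
    ∑ k ∈ Finset.range (2 ^ i), ∫⁻ u in Set.Ioc 0 (stp i),
        φ (y0 + ((k * stp i : ℝ) : Circ) + (u : Circ))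
      = ENNReal.ofReal (2 * Real.pi) * ∫⁻ y, φ y ∂(AddCircle.haarAddCircle : Measure Circ) := by
  have h1 : ∀ k : ℕ, ∫⁻ u in Set.Ioc 0 (stp i), φ (y0 + ((k * stp i : ℝ) : Circ) + (u : Circ))
      = ∫⁻ u in Set.Ioc ((k : ℝ) * stp i) ((k + 1) * stp i), φ (y0 + (u : Circ)) := by
    intro k
    have := lintegral_Ioc_shift (fun v => φ (y0 + (v : Circ))) (k * stp i) (stp i)
    rw [show ((k : ℝ) + 1) * stp i = k * stp i + stp i by ring, ← this]
    congr 1
    ext u
    rw [AddCircle.coe_add, ← add_assoc]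
  simp_rw [h1]
  rw [sum_lintegral_Ioc (fun v => φ (y0 + (v : Circ))) (stp_pos i).le (2 ^ i)]
  have h2 : ((2 ^ i : ℕ) : ℝ) * stp i = 0 + 2 * Real.pi := by
    push_cast; rw [pow_mul_stp]; ring
  rw [h2, AddCircle.lintegral_preimage (2 * Real.pi) 0 (fun y => φ (y0 + y))]
  rw [lintegral_add_left_eq_self (μ := (volume : Measure Circ)) φ y0]
  rw [AddCircle.volume_eq_smul_haarAddCircle, lintegral_smul_measure, smul_eq_mul]

/-- The counting measure on the dyadic grid of level `s` with base point `y0`. -/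
def grid (s : ℕ) (y0 : Circ) : Measure Circ :=
  ∑ k ∈ Finset.range (2 ^ s), Measure.dirac (y0 + ((k * stp s : ℝ) : Circ))

instance (s : ℕ) (y0 : Circ) : IsFiniteMeasure (grid s y0) := by
  unfold grid; infer_instance

lemma lintegral_grid {φ : Circ → ℝ≥0∞} (s : ℕ) (y0 : Circ) :
    ∫⁻ y, φ y ∂(grid s y0)
      = ∑ k ∈ Finset.range (2 ^ s), φ (y0 + ((k * stp s : ℝ) : Circ)) := by
  unfold grid
  rw [lintegral_finsetSum_measure]
  simp

end

end Run7.h221
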