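import Pool.Agent.Run7.h221.Diff

/-!
Marchaud's inequality for the classes, and slices.
-/

open MeasureTheory Filter Topology
open scoped ENNReal

namespace Run7.h221

noncomputable section

set_option linter.unusedSectionVars false

variable {E : Type*} [NormedAddCommGroup E] [NormedSpace ℝ E] {d : ℕ}

/-- The weight `1` for order zero, `|t| ^ r` for positive order. -/
def wt (r : ℝ) (k : ℕ) (t : ℝ) : ℝ := if k = 0 then 1 else |t| ^ r

lemma wt_nonneg (r : ℝ) (k : ℕ) (t : ℝ) : 0 ≤ wt r k t := by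
  unfold wt; split_ifs <;> positivity

lemma wt_zero (r t : ℝ) : wt r 0 t = 1 := by simp [wt]

lemma wt_pos (r : ℝ) {k : ℕ} (hk : k ≠ 0) (t : ℝ) : wt r k t = |t| ^ r := by simp [wt, hk]

/-- Bound for the mixed differences of order `k`. -/
def Bd (p r K : ℝ) (f : Tor d → E) (k : Fin d → ℕ) : Prop :=
  ∀ t : Fin d → ℝ, nrm p (dOp k t f) ≤ K * ∏ j, wt r (k j) (t j)

lemma single_add_self (j0 : Fin d) (τ : ℝ) :
    (Pi.single j0 ((τ : ℝ) : Circ) + Pi.single j0 ((τ : ℝ) : Circ) : Tor d)
      = Pi.single j0 (((2 * τ : ℝ)) : Circ) := by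
  have h : (2 * τ : ℝ) = τ + τ := by ring
  rw [← Pi.single_add, h, AddCircle.coe_add]

lemma marchaud_coord {p r : ℝ} (hp : 1 ≤ p) (hr0 : 0 < r) (hr : r < 1) (l : ℕ) :
    ∃ C : ℝ, 1 ≤ C ∧ ∀ K : ℝ, 0 ≤ K → ∀ g : Tor d → E, Continuous g → ∀ j0 : Fin d,
      nrm p g ≤ K →
      (∀ τ : ℝ, nrm p ((fwdDiff (Pi.single j0 ((τ : ℝ) : Circ)))^[l] g) ≤ K * |τ| ^ r) →
      ∀ k : ℕ, 1 ≤ k → k ≤ l →
      ∀ τ : ℝ, nrm p ((fwdDiff (Pi.single j0 ((τ : ℝ) : Circ)))^[k] g) ≤ C * K * |τ| ^ r := by
  have hq : (2 : ℝ) ^ (r - 1) < 1 := by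
    apply Real.rpow_lt_one_of_one_lt_of_neg (by norm_num); linarith
  have hpos : 0 < 1 - (2 : ℝ) ^ (r - 1) := by linarith
  have main : ∀ m : ℕ, ∃ C : ℝ, 1 ≤ C ∧ ∀ K : ℝ, 0 ≤ K → ∀ g : Tor d → E, Continuous g →
      ∀ j0 : Fin d, nrm p g ≤ K →
      (∀ τ : ℝ, nrm p ((fwdDiff (Pi.single j0 ((τ : ℝ) : Circ)))^[l] g) ≤ K * |τ| ^ r) →
      ∀ k : ℕ, 1 ≤ k → k ≤ l → l ≤ k + m →
      ∀ τ : ℝ, nrm p ((fwdDiff (Pi.single j0 ((τ : ℝ) : Circ)))^[k] g) ≤ C * K * |τ| ^ r := by
    intro m
    induction m with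
    | zero =>
      refine ⟨1, le_rfl, ?_⟩
      intro K hK g hg j0 h0 h1 k hk1 hk2 hk3 τ
      have : k = l := by omega
      subst this
      rw [one_mul]; exact h1 τ
    | succ m ih =>
      obtain ⟨C, hC1, hC⟩ := ih
      refine ⟨C + (2 ^ l + l * C / (1 - 2 ^ (r - 1))), ?_, ?_⟩
      · have h1 : (0 : ℝ) ≤ 2 ^ l + l * C / (1 - 2 ^ (r - 1)) := by positivity
        linarith
      intro K hK g hg j0 h0 h1 k hk1 hk2 hk3 τ
      have hτ : 0 ≤ |τ| ^ r := by positivity
      by_cases hkm : l ≤ k + m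
      · refine (hC K hK g hg j0 h0 h1 k hk1 hk2 hkm τ).trans ?_
        have h2 : (0 : ℝ) ≤ 2 ^ l + l * C / (1 - 2 ^ (r - 1)) := by positivity
        gcongr
        linarith
      · have hnext : ∀ τ : ℝ, nrm p ((fwdDiff (Pi.single j0 ((τ : ℝ) : Circ)))^[k + 1] g)
            ≤ C * K * |τ| ^ r :=
          hC K hK g hg j0 h0 h1 (k + 1) (by omega) (by omega) (by omega)
        have hb := marchaud_seq (r := r) (k := k) hk1 hr0 hr
          (u := fun τ => nrm p ((fwdDiff (Pi.single j0 ((τ : ℝ) : Circ)))^[k] g))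
          (v := fun τ => nrm p ((fwdDiff (Pi.single j0 ((τ : ℝ) : Circ)))^[k + 1] g))
          (A := 2 ^ l * K) (B := C * K) (by positivity) (by positivity)
          (by
            intro τ
            refine (nrm_fwdDiff_iter_le hp hg _ k).trans ?_
            have h3 : (2 : ℝ) ^ k ≤ 2 ^ l := pow_le_pow_right₀ (by norm_num) hk2
            have h4 := nrm_nonneg p g
            gcongr) hnext
          (by
            intro τ
            have := marchaud_step hp (Pi.single j0 ((τ : ℝ) : Circ)) k hg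
            rw [single_add_self] at this
            exact this) τ
        refine hb.trans ?_
        have h5 : (k : ℝ) ≤ l := by exact_mod_cast hk2
        have h6 : (k : ℝ) * (C * K) / (1 - 2 ^ (r - 1)) ≤ l * (C * K) / (1 - 2 ^ (r - 1)) := by
          gcongr
        calc (2 ^ l * K + k * (C * K) / (1 - 2 ^ (r - 1))) * |τ| ^ r
            ≤ (2 ^ l * K + l * (C * K) / (1 - 2 ^ (r - 1))) * |τ| ^ r := by gcongr
          _ = (2 ^ l + l * C / (1 - 2 ^ (r - 1))) * K * |τ| ^ r := by ring
          _ ≤ _ := by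
            apply mul_le_mul_of_nonneg_right _ hτ
            apply mul_le_mul_of_nonneg_right _ hK
            linarith
  obtain ⟨C, hC1, hC⟩ := main l
  exact ⟨C, hC1, fun K hK g hg j0 h0 h1 k hk1 hk2 τ =>
    hC K hK g hg j0 h0 h1 k hk1 hk2 (by omega) τ⟩

theorem marchaud_multi {p r : ℝ} (hp : 1 ≤ p) (hr0 : 0 < r) (hr : r < 1) {l : ℕ} (hl : 1 ≤ l)
    (S : Finset (Fin d)) :
    ∃ C : ℝ, 1 ≤ C ∧ ∀ K : ℝ, 0 ≤ K → ∀ f : Tor d → E, Continuous f →
      (∀ k : Fin d → ℕ, (∀ j, k j = 0 ∨ k j = l) → Bd p r K f k) →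
      ∀ k : Fin d → ℕ, (∀ j ∈ S, k j ≤ l) → (∀ j, j ∉ S → k j = 0 ∨ k j = l) →
        Bd p r (C * K) f k := by
  classical
  induction S using Finset.induction_on with
  | empty =>
    refine ⟨1, le_rfl, ?_⟩
    intro K _ f _ h k _ hk
    rw [one_mul]
    exact h k fun j => hk j (by simp)
  | insert j0 S hj0 ih =>
    obtain ⟨C, hC1, hC⟩ := ih
    obtain ⟨C', hC'1, hC'⟩ := marchaud_coord (d := d) (E := E) hp hr0 hr l
    refine ⟨C' * C, by nlinarith, ?_⟩
    intro K hK f hf h k hk1 hk2 t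
    have hK' : 0 ≤ C * K := by positivity
    have hW : 0 ≤ ∏ j ∈ Finset.univ.erase j0, wt r (k j) (t j) :=
      Finset.prod_nonneg fun j _ => wt_nonneg _ _ _
    -- bounds from the induction hypothesis for updated orders
    have hup : ∀ m : ℕ, (m = 0 ∨ m = l) → ∀ τ : ℝ,
        nrm p (dOp (Function.update k j0 m) (Function.update t j0 τ) f)
          ≤ C * K * (wt r m τ * ∏ j ∈ Finset.univ.erase j0, wt r (k j) (t j)) := by
      intro m hm τ
      have h1 := hC K hK f hf h (Function.update k j0 m) (by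
        intro j hj
        have : j ≠ j0 := by rintro rfl; exact hj0 hj
        rw [Function.update_of_ne this]
        exact hk1 j (Finset.mem_insert_of_mem hj)) (by
        intro j hj
        by_cases hjj : j = j0
        · subst hjj; rw [Function.update_self]; exact hm
        · rw [Function.update_of_ne hjj]
          exact hk2 j (by simp [hjj, hj])) (Function.update t j0 τ)
      refine h1.trans_eq ?_
      congr 1
      rw [← Finset.mul_prod_erase Finset.univ _ (Finset.mem_univ j0)]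
      simp only [Function.update_self]
      congr 1
      apply Finset.prod_congr rfl
      intro j hj
      have : j ≠ j0 := Finset.ne_of_mem_erase hj
      rw [Function.update_of_ne this, Function.update_of_ne this]
    have hprod : ∏ j, wt r (k j) (t j)
        = wt r (k j0) (t j0) * ∏ j ∈ Finset.univ.erase j0, wt r (k j) (t j) :=
      (Finset.mul_prod_erase Finset.univ _ (Finset.mem_univ j0)).symm
    rw [hprod]
    by_cases hk0 : k j0 = 0
    · have h2 := hup 0 (Or.inl rfl) (t j0)
      rw [Function.update_eq_self] at h2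
      have h3 : Function.update k j0 0 = k := by rw [← hk0, Function.update_eq_self]
      rw [h3] at h2
      rw [hk0]
      refine h2.trans ?_
      have : C * K ≤ C' * C * K := by nlinarith
      have h4 := wt_nonneg r 0 (t j0)
      gcongr
    · have hkl : k j0 ≤ l := hk1 j0 (Finset.mem_insert_self _ _)
      set g := dOp (Function.update k j0 0) t f with hg
      have hgc : Continuous g := dOp_continuous _ _ hf
      set W := ∏ j ∈ Finset.univ.erase j0, wt r (k j) (t j) with hWdef
      have hg0 : nrm p g ≤ C * K * W := by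
        have h2 := hup 0 (Or.inl rfl) (t j0)
        rw [Function.update_eq_self, wt_zero, one_mul] at h2
        exact h2
      have hgl : ∀ τ : ℝ, nrm p ((fwdDiff (Pi.single j0 ((τ : ℝ) : Circ)))^[l] g)
          ≤ (C * K * W) * |τ| ^ r := by
        intro τ
        have h2 := hup l (Or.inr rfl) τ
        rw [dOp_update, wt_pos r (by omega)] at h2
        refine h2.trans_eq ?_
        ring
      have h3 := hC' (C * K * W) (by positivity) g hgc j0 hg0 hgl (k j0) (by omega) hkl (t j0)
      rw [dOp_peel k t f j0, wt_pos r hk0]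
      refine h3.trans_eq ?_
      ring

/-- The class with first differences. -/
structure HC (p r K : ℝ) (f : Tor d → E) : Prop where
  cont : Continuous f
  bd : ∀ k : Fin d → ℕ, (∀ j, k j ≤ 1) → Bd p r K f k

theorem HC_of_HNClass {𝕜 : Type} [RCLike 𝕜] {p r : ℝ} (hp : 1 ≤ p) (hr0 : 0 < r) (hr : r < 1)
    {l : ℕ} (hl : 1 ≤ l) (d : ℕ) : ∃ C : ℝ, 1 ≤ C ∧
      ∀ f ∈ HNClass 𝕜 d l r (ENNReal.ofReal p), HC p r C (f : Tor d → 𝕜) := by
  classical
  obtain ⟨C, hC1, hC⟩ := marchaud_multi (E := 𝕜) hp hr0 hr hl (Finset.univ : Finset (Fin d))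
  refine ⟨C, hC1, ?_⟩
  intro f hf
  refine ⟨f.continuous, ?_⟩
  intro k hk
  have h1 := hC 1 (by norm_num) f f.continuous ?_ k (fun j _ => (hk j).trans hl)
    (fun j hj => absurd (Finset.mem_univ j) hj)
  · rwa [mul_one] at h1
  · intro k hk t
    rw [one_mul]
    set e : Finset (Fin d) := Finset.univ.filter fun j => k j ≠ 0 with he
    have h2 : mixedDiff l e t f = dOp k t f := by
      rw [mixedDiff_eq]
      congr 1
      ext j
      by_cases h : k j = 0
      · simp [he, h]
      · rcases hk j with h' | h'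
        · exact absurd h' h
        · simp [he, h]
          exact h'.symm
    have h3 : ∏ j, wt r (k j) (t j) = ∏ j ∈ e, |t j| ^ r := by
      rw [he, Finset.prod_filter]
      apply Finset.prod_congr rfl
      intro j _
      unfold wt
      by_cases h : k j = 0 <;> simp [h]
    rw [h3, ← h2, ← nrm_le_iff (by rw [h2]; exact dOp_continuous _ _ f.continuous)
      (Finset.prod_nonneg fun j _ => by positivity)]
    by_cases hne : e.Nonempty
    · exact hf.2 e hne t
    · rw [Finset.not_nonempty_iff_eq_empty] at hne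
      rw [hne, Finset.prod_empty, ENNReal.ofReal_one, mixedDiff_eq]
      have h4 : dOp (fun j => if j ∈ (∅ : Finset (Fin d)) then l else 0) t (f : Tor d → 𝕜) = f := by
        have h5 : (fun j => if j ∈ (∅ : Finset (Fin d)) then l else 0) = (0 : Fin d → ℕ) := by
          ext j; simp
        rw [h5, dOp_zero]
      rw [h4]
      exact hf.1

end

end Run7.h221
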