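import Pool.Agent.Run7.h221.Interp

/-!
The hierarchical surplus operators of high order at dyadic points.
-/

open Filter Topology

namespace Run7.h221

noncomputable section

set_option linter.unusedSectionVars false

variable {F : Type*} [AddCommGroup F] [Module ℝ F]

lemma pt_period (s m : ℕ) : pt s (m + 2 ^ s) = pt s m := by
  rw [pt_add]
  have : pt s (2 ^ s) = 0 := by
    unfold pt
    rw [show (((2 ^ s : ℕ) : ℝ) * stp s) = 2 * Real.pi by push_cast; exact pow_mul_stp s]
    exact AddCircle.coe_period _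
  rw [this, add_zero]

lemma pt_mod (s m : ℕ) : pt s (m % 2 ^ s) = pt s m := by
  have h : ∀ q r : ℕ, pt s (r + 2 ^ s * q) = pt s r := by
    intro q r
    induction q with
    | zero => simp
    | succ q ih =>
      rw [mul_add, mul_one, ← add_assoc, pt_period, ih]
  conv_rhs => rw [← Nat.mod_add_div m (2 ^ s)]
  rw [h]

/-- Relative position in the cell of level `s`. -/
def tht (J s k : ℕ) : ℝ := ((k % 2 ^ (J - s) : ℕ) : ℝ) / 2 ^ (J - s)

lemma tht_mem (J s k : ℕ) : tht J s k ∈ Set.Icc (0 : ℝ) 1 := by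
  unfold tht
  constructor
  · positivity
  · rw [div_le_one (by positivity)]
    exact_mod_cast (Nat.mod_lt k (by positivity : 0 < 2 ^ (J - s))).le

/-- Local polynomial interpolation of level `s` at the dyadic point `pt J k`. -/
def IP (l s J k : ℕ) (h : Circ → F) : F :=
  ∑ i ∈ Finset.range l, lam l i (tht J s k) • h (pt s (k / 2 ^ (J - s) + i))

/-- The surplus operator of level `t`. -/
def Wo (l t J k : ℕ) (h : Circ → F) : F :=
  if t = 0 then h 0 else IP l t J k h - IP l (t - 1) J k h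

lemma IP_zero {l J k : ℕ} (hl : 1 ≤ l) (_hk : k < 2 ^ J) (h : Circ → F) :
    IP l 0 J k h = h 0 := by
  unfold IP
  have h1 : ∀ i ∈ Finset.range l, lam l i (tht J 0 k) • h (pt 0 (k / 2 ^ (J - 0) + i))
      = lam l i (tht J 0 k) • h 0 := by
    intro i _
    rw [← pt_mod]
    simp [Nat.mod_one, pt_zero]
  rw [Finset.sum_congr rfl h1, ← Finset.sum_smul, lam_sum hl, one_smul]

lemma IP_exact {l J s k : ℕ} (hl : 1 ≤ l) (hd : 2 ^ (J - s) ∣ k) (h : Circ → F) :
    IP l s J k h = h (pt s (k / 2 ^ (J - s))) := by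
  unfold IP
  have hθ : tht J s k = 0 := by
    unfold tht
    rw [Nat.mod_eq_zero_of_dvd hd]; simp
  rw [hθ, Finset.sum_eq_single 0]
  · rw [lam_zero (by omega), if_pos rfl, one_smul, add_zero]
  · intro i hi hi0
    rw [Finset.mem_range] at hi
    rw [lam_zero hi, if_neg hi0, zero_smul]
  · intro h0
    exact absurd (Finset.mem_range.2 (by omega)) h0

lemma Wo_telescope {l J k : ℕ} (hl : 1 ≤ l) (hk : k < 2 ^ J) (h : Circ → F) (T : ℕ) :
    ∑ t ∈ Finset.range (T + 1), Wo l t J k h = IP l T J k h := by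
  induction T with
  | zero =>
    rw [zero_add, Finset.sum_range_one, IP_zero hl hk]
    simp [Wo]
  | succ T ih =>
    rw [Finset.sum_range_succ, ih]
    simp [Wo]

lemma Wo_telescope' {l J k : ℕ} (hl : 1 ≤ l) (hk : k < 2 ^ J) (h : Circ → F) :
    h (pt J k) = ∑ t ∈ Finset.range (J + 1), Wo l t J k h := by
  rw [Wo_telescope hl hk, IP_exact hl (by simp)]
  simp

lemma Wo_eq_zero {l t J k : ℕ} (hl : 1 ≤ l) (ht : 1 ≤ t) (htJ : t ≤ J)
    (hd : 2 ^ (J - (t - 1)) ∣ k) (h : Circ → F) : Wo l t J k h = 0 := by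
  have hd' : 2 ^ (J - t) ∣ k := (pow_dvd_pow 2 (by omega)).trans hd
  unfold Wo
  rw [if_neg (by omega), IP_exact hl hd', IP_exact hl hd, sub_eq_zero]
  congr 1
  have h1 : k / 2 ^ (J - t) = 2 * (k / 2 ^ (J - (t - 1))) := by
    obtain ⟨q, rfl⟩ := hd
    rw [Nat.mul_div_cancel_left _ (by positivity)]
    rw [show J - (t - 1) = (J - t) + 1 by omega, pow_succ, mul_assoc,
      Nat.mul_div_cancel_left _ (by positivity)]
  rw [h1]
  obtain ⟨t', rfl⟩ : ∃ t', t = t' + 1 := ⟨t - 1, by omega⟩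
  rw [pt_two_mul]
  rfl

lemma fwdDiff_pt (t c l : ℕ) (h : Circ → F) :
    (fwdDiff 1)^[l] (fun j : ℕ => h (pt t (c + j)))
      = fun j : ℕ => ((fwdDiff ((stp t : ℝ) : Circ))^[l] h) (pt t (c + j)) := by
  induction l generalizing h with
  | zero => rfl
  | succ l ih =>
    rw [Function.iterate_succ_apply, Function.iterate_succ_apply]
    have h1 : fwdDiff 1 (fun j : ℕ => h (pt t (c + j)))
        = fun j : ℕ => (fwdDiff ((stp t : ℝ) : Circ) h) (pt t (c + j)) := by
      funext j
      simp only [fwdDiff]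
      rw [← add_assoc, pt_add t (c + j) 1]
      congr 3
      simp [pt]
    rw [h1, ih]

lemma Wo_repr {l t J k : ℕ} (hl : 1 ≤ l) (ht : 1 ≤ t) (htJ : t ≤ J) (h : Circ → F) :
    Wo l t J k h = ∑ j ∈ Finset.range (2 * l),
      mcf l (k / 2 ^ (J - t) % 2) (tht J t k) j
        • ((fwdDiff ((stp t : ℝ) : Circ))^[l] h) (pt t (2 * (k / 2 ^ (J - t) / 2) + j)) := by
  obtain ⟨t', rfl⟩ : ∃ t', t = t' + 1 := ⟨t - 1, by omega⟩
  set M := k / 2 ^ (J - (t' + 1)) with hM
  set θ := tht J (t' + 1) k with hθ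
  have hp : (2 : ℕ) ^ (J - t') = 2 ^ (J - (t' + 1)) * 2 := by
    rw [← pow_succ]; congr 1; omega
  have h1 := mcf_repr (F := F) (l := l) (ε := M % 2) (by omega) hl θ
    (fun j => h (pt (t' + 1) (2 * (M / 2) + j)))
  rw [fwdDiff_pt] at h1
  rw [← h1]
  unfold Wo IP
  rw [if_neg (by omega)]
  congr 1
  · apply Finset.sum_congr rfl
    intro i _
    rw [← hM, ← add_assoc, Nat.div_add_mod]
  · simp only [Nat.add_sub_cancel]
    apply Finset.sum_congr rfl
    intro i _
    have h2 : k / 2 ^ (J - t') = M / 2 := by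
      rw [hp, ← Nat.div_div_eq_div_mul]
    have h3 : tht J t' k = (θ + (M % 2 : ℕ)) / 2 := by
      rw [hθ]
      unfold tht
      have h4 : k % 2 ^ (J - t') = k % 2 ^ (J - (t' + 1)) + 2 ^ (J - (t' + 1)) * (M % 2) := by
        rw [hp, Nat.mod_mul]
      rw [h4]
      have h5 : (2 : ℝ) ^ (J - t') = 2 ^ (J - (t' + 1)) * 2 := by exact_mod_cast hp
      rw [h5]
      push_cast
      field_simp
    rw [h2, h3, ← mul_add, pt_two_mul]

/-- One-dimensional operator: identity at level zero, `l`-th difference otherwise. -/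
def opc (l t : ℕ) (h : Circ → F) : Circ → F :=
  if t = 0 then h else (fwdDiff ((stp t : ℝ) : Circ))^[l] h

/-- Discrete hierarchical coefficient of level `s` of a function on `[0, 2^J)`. -/
def dcoef (J s : ℕ) (U : ℕ → F) (m : ℕ) : F :=
  if s = 0 then U 0 else if m % 2 = 1 then U (m * 2 ^ (J - s)) - U ((m - 1) * 2 ^ (J - s)) else 0

lemma dcoef_telescope (J k : ℕ) (hk : k < 2 ^ J) (U : ℕ → F) (j : ℕ) (hj : j ≤ J) :
    U (k / 2 ^ (J - j) * 2 ^ (J - j))
      = ∑ s ∈ Finset.range (j + 1), dcoef J s U (k / 2 ^ (J - s)) := by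
  induction j with
  | zero =>
    simp only [zero_add, Finset.sum_range_one, dcoef, if_true, Nat.sub_zero]
    rw [Nat.div_eq_of_lt hk, zero_mul]
  | succ j ih =>
    rw [Finset.sum_range_succ, ← ih (by omega)]
    have h1 : k / 2 ^ (J - j) = k / 2 ^ (J - (j + 1)) / 2 := by
      rw [Nat.div_div_eq_div_mul, ← pow_succ]
      congr 2; omega
    have hp : (2 : ℕ) ^ (J - j) = 2 * 2 ^ (J - (j + 1)) := by
      rw [← pow_succ']; congr 1; omega
    set m := k / 2 ^ (J - (j + 1)) with hm
    rw [h1, hp]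
    unfold dcoef
    rw [if_neg (by omega)]
    by_cases hodd : m % 2 = 1
    · rw [if_pos hodd]
      have h2 : m - 1 = m / 2 * 2 := by omega
      rw [h2, mul_assoc]
      abel
    · rw [if_neg hodd]
      have h2 : m / 2 * 2 = m := by omega
      rw [← mul_assoc, h2, add_zero]

lemma dcoef_telescope' (J k : ℕ) (hk : k < 2 ^ J) (U : ℕ → F) :
    U k = ∑ s ∈ Finset.range (J + 1), dcoef J s U (k / 2 ^ (J - s)) := by
  have := dcoef_telescope J k hk U J le_rfl
  simpa using this

lemma dcoef_sum {ι : Type*} (J s : ℕ) (S : Finset ι) (U : ι → ℕ → F) (m : ℕ) :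
    dcoef J s (fun z => ∑ i ∈ S, U i z) m = ∑ i ∈ S, dcoef J s (U i) m := by
  unfold dcoef
  split_ifs
  · rfl
  · rw [Finset.sum_sub_distrib]
  · simp

/-- The key representation of the hierarchical coefficients of a surplus. -/
theorem dcoef_Wo (l : ℕ) (hl : 1 ≤ l) : ∃ C : ℝ, 1 ≤ C ∧
    ∀ (J s t m : ℕ), s ≤ J → t ≤ J → m < 2 ^ s → ∃ β : ℕ → ℝ,
      (∀ j < 2 * l, |β j| ≤ C * 2 ^ (-((s : ℝ) - t))) ∧
      ∀ {F : Type} [AddCommGroup F] [Module ℝ F] (h : Circ → F),
        dcoef J s (fun z => Wo l t J z h) m = if t ≤ s then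
          ∑ j ∈ Finset.range (2 * l), β j • opc l t h (pt t (2 * (m / 2 ^ (s - t + 1)) + j))
          else 0 := by
  obtain ⟨C, hC1, hC⟩ := mcf_bound l
  refine ⟨C, hC1, ?_⟩
  intro J s t m hs ht hm
  by_cases hts : t ≤ s
  swap
  · refine ⟨fun _ => 0, fun j _ => by rw [abs_zero]; positivity, ?_⟩
    intro F _ _ h
    rw [if_neg hts]
    have hz : ∀ c : ℕ, Wo l t J (c * 2 ^ (J - s)) h = 0 := by
      intro c
      apply Wo_eq_zero hl (by omega) ht
      exact Dvd.dvd.mul_left (pow_dvd_pow 2 (by omega)) c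
    unfold dcoef
    split_ifs
    · have := hz 0
      simpa using this
    · beta_reduce
      rw [hz, hz, sub_zero]
    · rfl
  by_cases ht0 : t = 0
  · subst ht0
    by_cases hs0 : s = 0
    · subst hs0
      refine ⟨fun j => if j = 0 then 1 else 0, ?_, ?_⟩
      · intro j _
        simp only [Nat.cast_zero, sub_zero, neg_zero, Real.rpow_zero, mul_one]
        split_ifs
        · rw [abs_one]; exact hC1
        · rw [abs_zero]; linarith
      · intro F _ _ h
        have hm0 : m = 0 := by simpa using hm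
        subst hm0
        rw [if_pos le_rfl, Finset.sum_eq_single 0]
        · simp [dcoef, Wo, opc, pt_zero]
        · intro j _ hj
          simp [hj]
        · intro h0
          exact absurd (Finset.mem_range.2 (by omega)) h0
    · refine ⟨fun _ => 0, fun j _ => by rw [abs_zero]; positivity, ?_⟩
      intro F _ _ h
      rw [if_pos hts]
      simp [dcoef, Wo, hs0]
  -- now 1 ≤ t ≤ s
  have ht1 : 1 ≤ t := by omega
  have hs0 : s ≠ 0 := by omega
  by_cases hodd : m % 2 = 1
  swap
  · refine ⟨fun _ => 0, fun j _ => by rw [abs_zero]; positivity, ?_⟩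
    intro F _ _ h
    rw [if_pos hts]
    simp [dcoef, hs0, hodd]
  have hq : ∀ c : ℕ, c * 2 ^ (J - s) / 2 ^ (J - t) = c / 2 ^ (s - t) := by
    intro c
    rw [show J - t = (s - t) + (J - s) by omega, pow_add, Nat.mul_div_mul_right _ _ (by positivity)]
  have hθ : ∀ c : ℕ, tht J t (c * 2 ^ (J - s)) = ((c % 2 ^ (s - t) : ℕ) : ℝ) / 2 ^ (s - t) := by
    intro c
    unfold tht
    have e : J - t = (s - t) + (J - s) := by omega
    rw [e, pow_add, pow_add, Nat.mul_mod_mul_right]
    push_cast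
    field_simp
  rcases Nat.eq_or_lt_of_le hts with heq | hlt
  · -- s = t
    subst heq
    refine ⟨mcf l 1 0, ?_, ?_⟩
    · intro j hj
      simp only [sub_self, neg_zero, Real.rpow_zero, mul_one]
      exact (hC 1 le_rfl 0 ⟨le_rfl, zero_le_one⟩ j hj).1
    · intro F _ _ h
      rw [if_pos le_rfl]
      unfold dcoef
      rw [if_neg hs0, if_pos hodd]
      have hz : Wo l t J ((m - 1) * 2 ^ (J - t)) h = 0 := by
        apply Wo_eq_zero hl ht1 ht
        obtain ⟨q, hq⟩ : 2 ∣ m - 1 := by omega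
        rw [hq, mul_comm 2 q, mul_assoc, ← pow_succ']
        exact Dvd.dvd.mul_left (pow_dvd_pow 2 (by omega)) q
      beta_reduce
      rw [hz, sub_zero, Wo_repr hl ht1 ht, hq, hθ]
      simp only [Nat.sub_self, pow_zero, Nat.div_one, Nat.mod_one, Nat.cast_zero, zero_div,
        zero_add, pow_one, hodd, opc]
      rw [if_neg (by omega)]
  · -- t < s
    have hdiv : (m - 1) / 2 ^ (s - t) = m / 2 ^ (s - t) := by
      rw [show s - t = 1 + (s - t - 1) by omega, pow_add, pow_one, ← Nat.div_div_eq_div_mul,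
        ← Nat.div_div_eq_div_mul]
      congr 1; omega
    have hmod : m % 2 ^ (s - t) = (m - 1) % 2 ^ (s - t) + 1 := by
      have h1 := Nat.div_add_mod m (2 ^ (s - t))
      have h2 := Nat.div_add_mod (m - 1) (2 ^ (s - t))
      rw [hdiv] at h2
      omega
    set ε := m / 2 ^ (s - t) % 2 with hε
    set θ := tht J t (m * 2 ^ (J - s)) with hθd
    set θ' := tht J t ((m - 1) * 2 ^ (J - s)) with hθd'
    have hθθ : θ - θ' = 1 / 2 ^ (s - t) := by
      rw [hθd, hθd', hθ, hθ, hmod]
      push_cast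
      ring
    refine ⟨fun j => mcf l ε θ j - mcf l ε θ' j, ?_, ?_⟩
    · intro j hj
      refine ((hC ε (by omega) θ (tht_mem _ _ _) j hj).2 θ' (tht_mem _ _ _)).trans ?_
      rw [hθθ, abs_of_pos (by positivity)]
      apply mul_le_mul_of_nonneg_left _ (by linarith)
      have : (2 : ℝ) ^ (-((s : ℝ) - t)) = 1 / 2 ^ (s - t) := by
        rw [Real.rpow_neg (by norm_num), one_div, ← Real.rpow_natCast]
        congr 2
        push_cast [hts]
        rfl
      rw [this]
    · intro F _ _ h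
      rw [if_pos hts]
      unfold dcoef
      rw [if_neg hs0, if_pos hodd]
      beta_reduce
      rw [Wo_repr hl ht1 ht, Wo_repr hl ht1 ht, hq, hq, hdiv,
        ← Finset.sum_sub_distrib]
      apply Finset.sum_congr rfl
      intro j _
      rw [← sub_smul]
      simp only [opc]
      rw [if_neg (by omega), Nat.div_div_eq_div_mul, ← pow_succ]

end

end Run7.h221
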