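import Pool.Agent.Run7.h221.OpL
import Pool.Agent.Run7.h221.Wop

/-!
The class with differences of order `l`, its slices.
-/

open MeasureTheory Filter Topology
open scoped ENNReal

namespace Run7.h221

noncomputable section

set_option linter.unusedSectionVars false

variable {E : Type} [NormedAddCommGroup E] [NormedSpace ℝ E] {d : ℕ}

/-- The class with differences of order `l`. -/
structure HL (l : ℕ) (p r K : ℝ) (f : Tor d → E) : Prop where
  cont : Continuous f
  bd : ∀ k : Fin d → ℕ, (∀ j, k j = 0 ∨ k j = l) → Bd p r K f k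

theorem HL_of_HNClass {𝕜 : Type} [RCLike 𝕜] {p r : ℝ} {l : ℕ} {d : ℕ}
    {f : C(Tor d, 𝕜)} (hf : f ∈ HNClass 𝕜 d l r (ENNReal.ofReal p)) :
    HL l p r 1 (f : Tor d → 𝕜) := by
  classical
  refine ⟨f.continuous, ?_⟩
  intro k hk t
  rw [one_mul]
  set e : Finset (Fin d) := Finset.univ.filter fun j => k j ≠ 0 with he
  have h2 : mixedDiff l e t f = dOp k t f := by
    rw [mixedDiff_eq]
    congr 1
    ext j
    by_cases h : k j = 0
    · simp [he, h]
    · rcases hk j with h' | h'
      · exact absurd h' h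
      · simp [he, h]
        exact h'.symm
  have h3 : ∏ j, wt r (k j) (t j) = ∏ j ∈ e, |t j| ^ r := by
    rw [he, Finset.prod_filter]
    apply Finset.prod_congr rfl
    intro j _
    unfold wt
    by_cases h : k j = 0 <;> simp [h]
  rw [h3, ← h2, ← nrm_le_iff (by rw [h2]; exact dOp_continuous _ _ f.continuous)
    (Finset.prod_nonneg fun _ _ => by positivity)]
  by_cases hne : e.Nonempty
  · exact hf.2 e hne t
  · rw [Finset.not_nonempty_iff_eq_empty] at hne
    rw [hne, Finset.prod_empty, ENNReal.ofReal_one, mixedDiff_eq]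
    have h4 : dOp (fun j => if j ∈ (∅ : Finset (Fin d)) then l else 0) t (f : Tor d → 𝕜) = f := by
      have h5 : (fun j => if j ∈ (∅ : Finset (Fin d)) then l else 0) = (0 : Fin d → ℕ) := by
        ext j; simp
      rw [h5, dOp_zero]
    rw [h4]
    exact hf.1

lemma prod_wt_nonneg (r : ℝ) (k : Fin d → ℕ) (t : Fin d → ℝ) :
    0 ≤ ∏ j, wt r (k j) (t j) := Finset.prod_nonneg fun j _ => wt_nonneg _ _ _

lemma HL.mono {l : ℕ} {p r K K' : ℝ} {f : Tor d → E} (h : HL l p r K f) (hK : K ≤ K') :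
    HL l p r K' f :=
  ⟨h.cont, fun k hk t => (h.bd k hk t).trans
    (mul_le_mul_of_nonneg_right hK (prod_wt_nonneg _ _ _))⟩

lemma HC.mono {p r K K' : ℝ} {f : Tor d → E} (h : HC p r K f) (hK : K ≤ K') :
    HC p r K' f :=
  ⟨h.cont, fun k hk t => (h.bd k hk t).trans
    (mul_le_mul_of_nonneg_right hK (prod_wt_nonneg _ _ _))⟩

lemma fwdDiff_iter_add {M G : Type*} [AddCommGroup M] [AddCommGroup G] (a : M) (m : ℕ)
    (f g : M → G) : (fwdDiff a)^[m] (f + g) = (fwdDiff a)^[m] f + (fwdDiff a)^[m] g := by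
  have h := fwdDiff_iter_sub a m (f + g) g
  rw [add_sub_cancel_right] at h
  rw [h]; abel

lemma dOp_add {G : Type*} [AddCommGroup G] (k : Fin d → ℕ) (t : Fin d → ℝ) (f g : Tor d → G) :
    dOp k t (f + g) = dOp k t f + dOp k t g := by
  have h := dOp_sub k t (f + g) g
  rw [add_sub_cancel_right] at h
  rw [h]; abel

lemma fwdDiff_smul' {M : Type*} [AddCommGroup M] (a : M) (c : ℝ) (f : M → E) :
    fwdDiff a (c • f) = c • fwdDiff a f := by
  funext x; simp only [fwdDiff, Pi.smul_apply, smul_sub]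

lemma fwdDiff_iter_smul {M : Type*} [AddCommGroup M] (a : M) (m : ℕ) (c : ℝ) (f : M → E) :
    (fwdDiff a)^[m] (c • f) = c • (fwdDiff a)^[m] f := by
  induction m generalizing f with
  | zero => rfl
  | succ m ih => rw [Function.iterate_succ_apply, fwdDiff_smul', ih, Function.iterate_succ_apply]

lemma foldD_smul (L : List (Fin d)) (k : Fin d → ℕ) (t : Fin d → ℝ) (c : ℝ) (f : Tor d → E) :
    foldD L k t (c • f) = c • foldD L k t f := by
  induction L with
  | nil => rfl
  | cons j L ih => rw [foldD_cons, foldD_cons, ih, fwdDiff_iter_smul]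

lemma dOp_smul (k : Fin d → ℕ) (t : Fin d → ℝ) (c : ℝ) (f : Tor d → E) :
    dOp k t (c • f) = c • dOp k t f := foldD_smul _ _ _ _ _

lemma HL.add {l : ℕ} {p r K K' : ℝ} (hp : 1 ≤ p) {f g : Tor d → E} (hf : HL l p r K f)
    (hg : HL l p r K' g) : HL l p r (K + K') (f + g) := by
  refine ⟨hf.cont.add hg.cont, fun k hk t => ?_⟩
  rw [dOp_add, add_mul]
  exact (nrm_add_le hp (dOp_continuous _ _ hf.cont) (dOp_continuous _ _ hg.cont)).trans
    (add_le_add (hf.bd k hk t) (hg.bd k hk t))

lemma HL.smul {l : ℕ} {p r K : ℝ} {f : Tor d → E} (hf : HL l p r K f) (c : ℝ) :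
    HL l p r (|c| * K) (c • f) := by
  refine ⟨hf.cont.const_smul c, fun k hk t => ?_⟩
  rw [dOp_smul, nrm_smul, mul_assoc]
  exact mul_le_mul_of_nonneg_left (hf.bd k hk t) (abs_nonneg _)

lemma HL.zero {l : ℕ} {p r K : ℝ} (hK : 0 ≤ K) : HL l p r K (0 : Tor d → E) := by
  refine ⟨continuous_const, fun k _ t => ?_⟩
  have h : dOp k t (0 : Tor d → E) = 0 := by
    have := dOp_sub k t (0 : Tor d → E) 0
    rw [sub_self, sub_self] at this
    exact this
  rw [h]
  have h2 : nrm p (0 : Tor d → E) = 0 := by unfold nrm; simp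
  rw [h2]
  exact mul_nonneg hK (prod_wt_nonneg _ _ _)

lemma HL.sum {l : ℕ} {p r : ℝ} (hp : 1 ≤ p) {ι : Type*} (s : Finset ι) {K : ι → ℝ}
    {f : ι → Tor d → E} (h : ∀ i ∈ s, HL l p r (K i) (f i)) :
    HL l p r (∑ i ∈ s, K i) (∑ i ∈ s, f i) := by
  classical
  induction s using Finset.induction_on with
  | empty => simpa using HL.zero le_rfl
  | insert a s ha ih =>
    rw [Finset.sum_insert ha, Finset.sum_insert ha]
    exact (h a (Finset.mem_insert_self _ _)).add hp
      (ih fun i hi => h i (Finset.mem_insert_of_mem hi))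

/-! ### Slices -/

lemma shiftDiff_iter_apply {X : Type*} (τ : ℝ) (m : ℕ) (G : Circ × X → E) (y : Circ) (x : X) :
    ((shiftDiff τ)^[m] G) (y, x) = ((fwdDiff ((τ : ℝ) : Circ))^[m] (fun y => G (y, x))) y := by
  induction m generalizing G with
  | zero => rfl
  | succ m ih =>
    rw [Function.iterate_succ_apply, Function.iterate_succ_apply, ih]
    rfl

lemma HL.slc_bound {l : ℕ} {p r K : ℝ} {f : Tor (d + 1) → E} (hK : 0 ≤ K) (hf : HL l p r K f)
    (k : Fin d → ℕ) (hk : ∀ j, k j = 0 ∨ k j = l) (t : Fin d → ℝ) :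
    eLpNorm (slc k t f) (ENNReal.ofReal p) (haarC.prod (torMeas d))
      ≤ ENNReal.ofReal (K * ∏ j, wt r (k j) (t j)) := by
  have hW := prod_wt_nonneg r k t
  rw [slc_eq, eLpNorm_cons (dOp_continuous _ _ hf.cont),
    nrm_le_iff (dOp_continuous _ _ hf.cont) (by positivity)]
  refine (hf.bd (Fin.cons 0 k) ?_ _).trans_eq ?_
  · intro j
    refine Fin.cases ?_ (fun i => ?_) j
    · simp
    · simpa using hk i
  · rw [Fin.prod_univ_succ]
    simp [wt_zero]

lemma HL.slc_diff_bound {l : ℕ} (hl : 1 ≤ l) {p r K : ℝ} {f : Tor (d + 1) → E} (hK : 0 ≤ K)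
    (hf : HL l p r K f) (k : Fin d → ℕ) (hk : ∀ j, k j = 0 ∨ k j = l) (t : Fin d → ℝ) (τ : ℝ) :
    eLpNorm ((shiftDiff τ)^[l] (slc k t f)) (ENNReal.ofReal p) (haarC.prod (torMeas d))
      ≤ ENNReal.ofReal (K * (∏ j, wt r (k j) (t j)) * |τ| ^ r) := by
  have hW := prod_wt_nonneg r k t
  have h1 : (shiftDiff τ)^[l] (slc k t f)
      = fun z => dOp (Fin.cons l k) (Fin.cons τ t) f (Fin.cons z.1 z.2) := by
    funext z
    rw [dOp_cons, show z = (z.1, z.2) from rfl, shiftDiff_iter_apply]
    rfl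
  rw [h1, eLpNorm_cons (dOp_continuous _ _ hf.cont),
    nrm_le_iff (dOp_continuous _ _ hf.cont) (by positivity)]
  refine (hf.bd (Fin.cons l k) ?_ _).trans_eq ?_
  · intro j
    refine Fin.cases ?_ (fun i => ?_) j
    · simp
    · simpa using hk i
  · rw [Fin.prod_univ_succ]
    simp only [Fin.cons_zero, Fin.cons_succ]
    rw [wt_pos r (by omega)]
    ring

lemma dOp_fwdDiff_param (k : Fin d → ℕ) (t : Fin d → ℝ) (τ : Circ) (m : ℕ)
    (H : Circ → Tor d → E) (y : Circ) :
    dOp k t (fun x => ((fwdDiff τ)^[m] (fun y => H y x)) y)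
      = fun x => ((fwdDiff τ)^[m] (fun y => dOp k t (H y) x)) y := by
  induction m generalizing H with
  | zero => rfl
  | succ m ih =>
    have h1 : (fun x => ((fwdDiff τ)^[m + 1] (fun y => H y x)) y)
        = fun x => ((fwdDiff τ)^[m] (fun y => (H (y + τ) - H y) x)) y := rfl
    rw [h1, ih (fun y => H (y + τ) - H y)]
    funext x
    rw [Function.iterate_succ_apply]
    have h2 : (fun y => dOp k t (H (y + τ) - H y) x)
        = fwdDiff τ (fun y => dOp k t (H y) x) := by
      funext y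
      rw [dOp_sub]
      rfl
    rw [h2]

/-- The slice theorem for the elementary operators. -/
theorem HL.slice_op [CompleteSpace E] (l : ℕ) (hl : 1 ≤ l) {p r η : ℝ} (hp : 1 ≤ p)
    (hη : 1 / p < η) (hη1 : η < 1) (hηr : η ≤ r) (d : ℕ) : ∃ C : ℝ, 1 ≤ C ∧
    ∀ (K : ℝ) (_ : 0 ≤ K) (f : Tor (d + 1) → E) (_ : HL l p r K f) (s : ℕ) (y : Circ),
      HL l p r (C * K * 2 ^ (-((r - 1 / p) * s)))
        (fun x : Tor d => opc l s (fun y => f (Fin.cons y x)) y) := by
  obtain ⟨C, hC1, hC⟩ := opl_grid (E := E) l hl hp hη hη1 hηr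
  refine ⟨C, hC1, ?_⟩
  intro K hK f hf s y
  have hcont : Continuous (fun z : Circ × Tor d => f (Fin.cons z.1 z.2)) :=
    continuous_cons hf.cont
  have heq : (fun x : Tor d => opc l s (fun y => f (Fin.cons y x)) y)
      = fun x => opl l s (fun z : Circ × Tor d => f (Fin.cons z.1 z.2)) (y, x) := by
    funext x
    unfold opc opl
    split_ifs
    · rfl
    · rw [shiftDiff_iter_apply]
  have hc : Continuous (fun x : Tor d => opc l s (fun y => f (Fin.cons y x)) y) := by
    rw [heq]
    exact (opl_continuous l s hcont).comp (Continuous.prodMk continuous_const continuous_id)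
  refine ⟨hc, ?_⟩
  intro k hk t
  have hW := prod_wt_nonneg r k t
  rw [← nrm_le_iff (dOp_continuous _ _ hc) (by positivity)]
  have h1 : dOp k t (fun x : Tor d => opc l s (fun y => f (Fin.cons y x)) y)
      = fun x => opl l s (slc k t f) (y, x) := by
    by_cases hs : s = 0
    · simp only [opc, opl, hs, if_true]
      rfl
    · simp only [opc, opl, hs, if_false]
      rw [dOp_fwdDiff_param k t ((stp s : ℝ) : Circ) l (fun y x => f (Fin.cons y x)) y]
      funext x
      rw [shiftDiff_iter_apply]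
      rfl
  rw [h1]
  have hsc := slc_continuous k t hf.cont
  refine (eLpNorm_slice_le hp (opl_continuous l s hsc) s y).trans ?_
  refine (hC (torMeas d) hsc (K := K * ∏ j, wt r (k j) (t j)) (by positivity)
    (hf.slc_bound hK k hk t) (fun τ => hf.slc_diff_bound hl hK k hk t τ) s y).trans ?_
  exact ENNReal.ofReal_le_ofReal (le_of_eq (by ring))

/-- The slice theorem for the surplus operators. -/
theorem HL.slice_Wo [CompleteSpace E] (l : ℕ) (hl : 1 ≤ l) {p r η : ℝ} (hp : 1 ≤ p)
    (hη : 1 / p < η) (hη1 : η < 1) (hηr : η ≤ r) (d : ℕ) : ∃ C : ℝ, 1 ≤ C ∧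
    ∀ (K : ℝ) (_ : 0 ≤ K) (f : Tor (d + 1) → E) (_ : HL l p r K f) (J s k : ℕ), s ≤ J →
      HL l p r (C * K * 2 ^ (-((r - 1 / p) * s)))
        (fun x : Tor d => Wo l s J k (fun y => f (Fin.cons y x))) := by
  obtain ⟨C, hC1, hC⟩ := HL.slice_op (E := E) l hl hp hη hη1 hηr d
  obtain ⟨C', hC'1, hC'⟩ := mcf_bound l
  have hl1 : (1 : ℝ) ≤ 2 * l := by
    have : (1 : ℝ) ≤ l := by exact_mod_cast hl
    linarith
  refine ⟨2 * l * (C' * C), by nlinarith [mul_le_mul hC'1 hC1 (by norm_num) (by linarith)], ?_⟩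
  intro K hK f hf J s k hsJ
  have hCC : 0 ≤ C' * C := by positivity
  by_cases hs : s = 0
  · subst hs
    have h1 := hC K hK f hf 0 0
    have h2 : (fun x : Tor d => Wo l 0 J k (fun y => f (Fin.cons y x)))
        = fun x : Tor d => opc l 0 (fun y => f (Fin.cons y x)) 0 := by
      funext x; simp [Wo, opc]
    rw [h2]
    apply h1.mono
    have h3 : 0 ≤ C * K := by positivity
    have h4 : C * K ≤ C' * (C * K) := by nlinarith
    have h5 : C' * (C * K) ≤ 2 * l * (C' * (C * K)) := by
      have : 0 ≤ C' * (C * K) := by positivity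
      nlinarith
    apply mul_le_mul_of_nonneg_right _ (by positivity)
    nlinarith
  · have h2 : (fun x : Tor d => Wo l s J k (fun y => f (Fin.cons y x)))
        = ∑ j ∈ Finset.range (2 * l), mcf l (k / 2 ^ (J - s) % 2) (tht J s k) j •
          (fun x : Tor d => opc l s (fun y => f (Fin.cons y x))
            (pt s (2 * (k / 2 ^ (J - s) / 2) + j))) := by
      funext x
      rw [Finset.sum_apply, Wo_repr hl (by omega) hsJ]
      simp only [Pi.smul_apply, opc, hs, if_false]
    rw [h2]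
    have h3 := HL.sum (l := l) (p := p) (r := r) hp (Finset.range (2 * l))
      (K := fun _ => C' * (C * K * 2 ^ (-((r - 1 / p) * s))))
      (f := fun j => mcf l (k / 2 ^ (J - s) % 2) (tht J s k) j •
          (fun x : Tor d => opc l s (fun y => f (Fin.cons y x))
            (pt s (2 * (k / 2 ^ (J - s) / 2) + j)))) (by
        intro j hj
        rw [Finset.mem_range] at hj
        apply ((hC K hK f hf s _).smul _).mono
        have h4 := (hC' (k / 2 ^ (J - s) % 2) (by omega) (tht J s k) (tht_mem _ _ _) j hj).1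
        gcongr)
    apply h3.mono
    rw [Finset.sum_const, Finset.card_range, nsmul_eq_mul]
    push_cast
    exact le_of_eq (by ring)

end

end Run7.h221
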