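import Pool.Agent.Run7.h221.Slice

/-!
Hierarchical coefficients of functions of two variables.
-/

open MeasureTheory Filter Topology
open scoped ENNReal

namespace Run7.h221

noncomputable section

set_option linter.unusedSectionVars false

variable {E : Type*} [NormedAddCommGroup E] [NormedSpace ℝ E] {d : ℕ}

section general

variable {X : Type*} [TopologicalSpace X] [CompactSpace X] [SecondCountableTopology X]
  [MeasurableSpace X] [BorelSpace X]

/-- Identity at level zero, first difference with the dyadic step at the other levels. -/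
def op1 {X : Type*} (s : ℕ) (G : Circ × X → E) : Circ × X → E :=
  if s = 0 then G else shiftDiff (stp s) G

lemma op1_continuous (s : ℕ) {G : Circ × X → E} (hG : Continuous G) :
    Continuous (op1 s G) := by
  unfold op1
  split_ifs
  · exact hG
  · exact shiftDiff_continuous hG _

theorem op1_grid [CompleteSpace E] {p r K : ℝ} (hp : 1 ≤ p) (hr : 1 / p < r) (ν : Measure X)
    [IsFiniteMeasure ν] {G : Circ × X → E} (hG : Continuous G) (hK : 0 ≤ K)
    (h0 : eLpNorm G (ENNReal.ofReal p) (haarC.prod ν) ≤ ENNReal.ofReal K)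
    (h1 : ∀ τ : ℝ, eLpNorm (shiftDiff τ G) (ENNReal.ofReal p) (haarC.prod ν)
      ≤ ENNReal.ofReal (K * |τ| ^ r)) (s : ℕ) (y : Circ) :
    eLpNorm (op1 s G) (ENNReal.ofReal p) ((grid s y).prod ν)
      ≤ ENNReal.ofReal (cS p r * K * 2 ^ (-((r - 1 / p) * s))) := by
  have hp0 : 0 < p := by linarith
  have hr0 : 0 < r := lt_trans (by positivity) hr
  have h2pi := one_le_two_pi_rpow hr0
  have hcB := one_le_cB hr
  by_cases hs : s = 0
  · subst hs
    have h := lemB hp hr ν hG (s := 0) (B := (2 * Real.pi) ^ r * K) (by positivity)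
      (h0.trans (ENNReal.ofReal_le_ofReal (by nlinarith))) ?_ y
    · have h2 : op1 0 G = G := by simp [op1]
      rw [h2]
      refine h.trans (ENNReal.ofReal_le_ofReal ?_)
      unfold cS
      have h3 : 0 ≤ cB p r * ((2 * Real.pi) ^ r * K) := by positivity
      simp only [Nat.cast_zero, zero_div, mul_zero, neg_zero, Real.rpow_zero, one_mul, mul_one]
      nlinarith
    · intro i
      refine (h1 _).trans (ENNReal.ofReal_le_ofReal ?_)
      rw [abs_of_pos (stp_pos _), stp_rpow]
      have h2 : (2 : ℝ) ^ (-(r * (0 + i + 1 : ℕ))) ≤ 2 ^ (-(r * i)) := by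
        apply Real.rpow_le_rpow_of_exponent_le (by norm_num)
        push_cast
        nlinarith
      calc K * ((2 * Real.pi) ^ r * 2 ^ (-(r * (0 + i + 1 : ℕ))))
          ≤ K * ((2 * Real.pi) ^ r * 2 ^ (-(r * i))) := by gcongr
        _ = _ := by ring
  · have h2 : op1 s G = shiftDiff (stp s) G := by simp [op1, hs]
    rw [h2]
    have h := lemB hp hr ν (shiftDiff_continuous hG (stp s)) (s := s)
      (B := 2 * (2 * Real.pi) ^ r * K * 2 ^ (-(r * s))) (by positivity) ?_ ?_ y
    · refine h.trans (ENNReal.ofReal_le_ofReal (le_of_eq ?_))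
      have h3 : (2 : ℝ) ^ ((s : ℝ) / p) * 2 ^ (-(r * s)) = 2 ^ (-((r - 1 / p) * s)) := by
        rw [← Real.rpow_add (by norm_num)]
        congr 1; field_simp; ring
      rw [← h3]
      unfold cS
      ring
    · refine (h1 _).trans (ENNReal.ofReal_le_ofReal ?_)
      rw [abs_of_pos (stp_pos _), stp_rpow]
      have h4 : 0 ≤ K * ((2 * Real.pi) ^ r * 2 ^ (-(r * s))) := by positivity
      calc K * ((2 * Real.pi) ^ r * 2 ^ (-(r * s)))
          ≤ 2 * (K * ((2 * Real.pi) ^ r * 2 ^ (-(r * s)))) := by linarith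
        _ = _ := by ring
    · intro i
      rw [shiftDiff_comm]
      refine (eLpNorm_shiftDiff_le hp (shiftDiff_continuous hG _) (stp s)).trans ?_
      refine (mul_le_mul_right (h1 (stp (s + i + 1))) 2).trans ?_
      rw [show (2 : ℝ≥0∞) = ENNReal.ofReal 2 by simp, ← ENNReal.ofReal_mul (by norm_num)]
      apply ENNReal.ofReal_le_ofReal
      rw [abs_of_pos (stp_pos _), stp_rpow]
      have h2 : (2 : ℝ) ^ (-(r * (s + i + 1 : ℕ))) ≤ 2 ^ (-(r * s)) * 2 ^ (-(r * i)) := by
        rw [← Real.rpow_add (by norm_num)]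
        apply Real.rpow_le_rpow_of_exponent_le (by norm_num)
        push_cast
        nlinarith
      calc 2 * (K * ((2 * Real.pi) ^ r * 2 ^ (-(r * (s + i + 1 : ℕ)))))
          ≤ 2 * (K * ((2 * Real.pi) ^ r * (2 ^ (-(r * s)) * 2 ^ (-(r * i))))) := by gcongr
        _ = _ := by ring

end general

/-- First difference in the second variable. -/
def sd2 (τ : ℝ) (G : Circ × Circ → E) : Circ × Circ → E :=
  fun z => G (z.1, z.2 + (τ : Circ)) - G z

/-- `op1` in the second variable. -/
def op2 (s : ℕ) (G : Circ × Circ → E) : Circ × Circ → E :=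
  if s = 0 then G else sd2 (stp s) G

lemma sd2_continuous (τ : ℝ) {G : Circ × Circ → E} (hG : Continuous G) :
    Continuous (sd2 τ G) := by
  unfold sd2
  fun_prop

lemma op2_continuous (s : ℕ) {G : Circ × Circ → E} (hG : Continuous G) :
    Continuous (op2 s G) := by
  unfold op2
  split_ifs
  · exact hG
  · exact sd2_continuous _ hG

lemma op2_swap (s : ℕ) (G : Circ × Circ → E) :
    op2 s G = (op1 s (G ∘ Prod.swap)) ∘ Prod.swap := by
  unfold op2 op1
  split_ifs
  · rfl
  · rfl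

lemma eLpNorm_swap {μ ν : Measure Circ} [IsFiniteMeasure μ] [IsFiniteMeasure ν] {p : ℝ≥0∞}
    {G : Circ × Circ → E} (hG : Continuous G) :
    eLpNorm (G ∘ Prod.swap) p (μ.prod ν) = eLpNorm G p (ν.prod μ) :=
  eLpNorm_comp_measurePreserving hG.aestronglyMeasurable Measure.measurePreserving_swap

/-- The class of functions on the product of two circles. -/
structure HC2 (p r K : ℝ) (G : Circ × Circ → E) : Prop where
  cont : Continuous G
  b0 : eLpNorm G (ENNReal.ofReal p) (haarC.prod haarC) ≤ ENNReal.ofReal K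
  b1 : ∀ τ : ℝ, eLpNorm (shiftDiff τ G) (ENNReal.ofReal p) (haarC.prod haarC)
    ≤ ENNReal.ofReal (K * |τ| ^ r)
  b2 : ∀ τ : ℝ, eLpNorm (sd2 τ G) (ENNReal.ofReal p) (haarC.prod haarC)
    ≤ ENNReal.ofReal (K * |τ| ^ r)
  b12 : ∀ σ τ : ℝ, eLpNorm (shiftDiff σ (sd2 τ G)) (ENNReal.ofReal p) (haarC.prod haarC)
    ≤ ENNReal.ofReal (K * |σ| ^ r * |τ| ^ r)

lemma vec_add_single_zero (y x a : Circ) :
    ((![y, x] : Tor 2) + Pi.single 0 a) = ![y + a, x] := by
  ext i; fin_cases i <;> simp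

lemma vec_add_single_one (y x a : Circ) :
    ((![y, x] : Tor 2) + Pi.single 1 a) = ![y, x + a] := by
  ext i; fin_cases i <;> simp

lemma dOp_two (k : Fin 2 → ℕ) (t : Fin 2 → ℝ) (f : Tor 2 → E) :
    dOp k t f = (fwdDiff (Pi.single 0 ((t 0 : ℝ) : Circ)))^[k 0]
      ((fwdDiff (Pi.single 1 ((t 1 : ℝ) : Circ)))^[k 1] f) := rfl

lemma eLpNorm_pair {p : ℝ≥0∞} {G : Tor 2 → E} (hG : Continuous G) :
    eLpNorm (fun z : Circ × Circ => G ![z.1, z.2]) p (haarC.prod haarC)
      = eLpNorm G p (torMeas 2) := by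
  have h := measurePreserving_piFinTwo (fun _ : Fin 2 => haarC)
  have hc : Continuous (fun z : Circ × Circ => G ![z.1, z.2]) := by
    apply hG.comp
    apply continuous_pi
    intro i
    fin_cases i
    · exact continuous_fst
    · exact continuous_snd
  have h2 := eLpNorm_comp_measurePreserving (p := p) (hc.aestronglyMeasurable) h
  refine h2.symm.trans ?_
  have h3 : ((fun z : Circ × Circ => G ![z.1, z.2])
      ∘ (MeasurableEquiv.piFinTwo (fun _ : Fin 2 => Circ))) = G := by
    funext x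
    simp only [Function.comp]
    congr 1
    funext i
    fin_cases i <;> rfl
  rw [h3]
  rfl

lemma HC.toHC2 {p r K : ℝ} (hK : 0 ≤ K) {f : Tor 2 → E} (hf : HC p r K f) :
    HC2 p r K (fun z : Circ × Circ => f ![z.1, z.2]) := by
  have hc : Continuous (fun z : Circ × Circ => f ![z.1, z.2]) := by
    apply hf.cont.comp
    apply continuous_pi
    intro i
    fin_cases i
    · exact continuous_fst
    · exact continuous_snd
  have main : ∀ (k0 k1 : ℕ) (t0 t1 : ℝ), k0 ≤ 1 → k1 ≤ 1 →
      eLpNorm (fun z : Circ × Circ => dOp ![k0, k1] ![t0, t1] f ![z.1, z.2])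
        (ENNReal.ofReal p) (haarC.prod haarC)
        ≤ ENNReal.ofReal (K * (wt r k0 t0 * wt r k1 t1)) := by
    intro k0 k1 t0 t1 h0 h1
    have hw := wt_nonneg r k0 t0
    have hw' := wt_nonneg r k1 t1
    rw [eLpNorm_pair (dOp_continuous _ _ hf.cont), nrm_le_iff (dOp_continuous _ _ hf.cont)
      (by positivity)]
    have h2 := hf.bd ![k0, k1] (by intro j; fin_cases j <;> simp [h0, h1]) ![t0, t1]
    rw [Fin.prod_univ_two] at h2
    exact h2
  refine ⟨hc, ?_, ?_, ?_, ?_⟩
  · have := main 0 0 0 0 (by norm_num) (by norm_num)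
    simpa [wt, dOp_two] using this
  · intro τ
    have h := main 1 0 τ 0 (by norm_num) (by norm_num)
    have h2 : (fun z : Circ × Circ => dOp ![1, 0] ![τ, 0] f ![z.1, z.2])
        = shiftDiff τ (fun z : Circ × Circ => f ![z.1, z.2]) := by
      funext z
      simp only [dOp_two, shiftDiff, Matrix.cons_val_zero, Matrix.cons_val_one,
        Function.iterate_one, Function.iterate_zero, id, fwdDiff, vec_add_single_zero]
    rw [h2] at h
    simpa [wt] using h
  · intro τ
    have h := main 0 1 0 τ (by norm_num) (by norm_num)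
    have h2 : (fun z : Circ × Circ => dOp ![0, 1] ![0, τ] f ![z.1, z.2])
        = sd2 τ (fun z : Circ × Circ => f ![z.1, z.2]) := by
      funext z
      simp only [dOp_two, sd2, Matrix.cons_val_zero, Matrix.cons_val_one,
        Function.iterate_one, Function.iterate_zero, id, fwdDiff, vec_add_single_one]
    rw [h2] at h
    simpa [wt] using h
  · intro σ τ
    have h := main 1 1 σ τ (by norm_num) (by norm_num)
    have h2 : (fun z : Circ × Circ => dOp ![1, 1] ![σ, τ] f ![z.1, z.2])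
        = shiftDiff σ (sd2 τ (fun z : Circ × Circ => f ![z.1, z.2])) := by
      funext z
      simp only [dOp_two, sd2, shiftDiff, Matrix.cons_val_zero, Matrix.cons_val_one,
        Function.iterate_one, fwdDiff, vec_add_single_one, vec_add_single_zero]
    rw [h2] at h
    simpa [wt, mul_assoc] using h

lemma sd1_op2 (τ : ℝ) (s : ℕ) (G : Circ × Circ → E) :
    shiftDiff τ (op2 s G) = op2 s (shiftDiff τ G) := by
  unfold op2
  split_ifs
  · rfl
  · funext z
    simp only [shiftDiff, sd2]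
    abel

theorem HC2.grid_grid [CompleteSpace E] {p r K : ℝ} (hp : 1 ≤ p) (hr : 1 / p < r)
    (hK : 0 ≤ K) {G : Circ × Circ → E} (hG : HC2 p r K G) (s₁ s₂ : ℕ) (y₁ y₂ : Circ) :
    eLpNorm (op1 s₁ (op2 s₂ G)) (ENNReal.ofReal p) ((grid s₁ y₁).prod (grid s₂ y₂))
      ≤ ENNReal.ofReal (cS p r ^ 2 * K * 2 ^ (-((r - 1 / p) * (s₁ + s₂ : ℕ)))) := by
  have hp0 : 0 < p := by linarith
  have hr0 : 0 < r := lt_trans (by positivity) hr
  have hcS := one_le_cS hr0 hr
  set K' : ℝ := cS p r * K * 2 ^ (-((r - 1 / p) * s₂)) with hK'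
  have hK'0 : 0 ≤ K' := by positivity
  have hsw : Continuous (Prod.swap : Circ × Circ → Circ × Circ) := continuous_swap
  -- bound for op2 of G
  have key : ∀ (H : Circ × Circ → E) (B : ℝ), Continuous H → 0 ≤ B →
      eLpNorm H (ENNReal.ofReal p) (haarC.prod haarC) ≤ ENNReal.ofReal B →
      (∀ τ : ℝ, eLpNorm (sd2 τ H) (ENNReal.ofReal p) (haarC.prod haarC)
        ≤ ENNReal.ofReal (B * |τ| ^ r)) →
      eLpNorm (op2 s₂ H) (ENNReal.ofReal p) (haarC.prod (grid s₂ y₂))
        ≤ ENNReal.ofReal (cS p r * B * 2 ^ (-((r - 1 / p) * s₂))) := by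
    intro H B hH hB h0 h1
    rw [op2_swap, eLpNorm_swap (op1_continuous _ (hH.comp hsw))]
    apply op1_grid hp hr haarC (hH.comp hsw) hB
    · rw [eLpNorm_swap hH]; exact h0
    · intro τ
      have h2 : shiftDiff τ (H ∘ Prod.swap) = (sd2 τ H) ∘ Prod.swap := rfl
      rw [h2, eLpNorm_swap (sd2_continuous _ hH)]
      exact h1 τ
  have h := op1_grid hp hr (grid s₂ y₂) (op2_continuous s₂ hG.cont) hK'0
    (key G K hG.cont hK hG.b0 hG.b2) ?_ s₁ y₁
  · refine h.trans (ENNReal.ofReal_le_ofReal (le_of_eq ?_))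
    rw [hK']
    have h3 : (2 : ℝ) ^ (-((r - 1 / p) * (s₁ + s₂ : ℕ)))
        = 2 ^ (-((r - 1 / p) * s₂)) * 2 ^ (-((r - 1 / p) * s₁)) := by
      rw [← Real.rpow_add (by norm_num)]
      congr 1; push_cast; ring
    rw [h3]; ring
  · intro τ
    rw [sd1_op2]
    refine (key (shiftDiff τ G) (K * |τ| ^ r) (shiftDiff_continuous hG.cont _) (by positivity)
      (hG.b1 τ) ?_).trans (ENNReal.ofReal_le_ofReal (le_of_eq ?_))
    · intro σ
      have h2 : sd2 σ (shiftDiff τ G) = shiftDiff τ (sd2 σ G) := by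
        funext z
        simp only [shiftDiff, sd2]
        abel
      rw [h2]
      exact hG.b12 τ σ
    · rw [hK']; ring

/-- Double sum form. -/
theorem HC2.sum_sum [CompleteSpace E] {p r K : ℝ} (hp : 1 ≤ p) (hr : 1 / p < r)
    (hK : 0 ≤ K) {G : Circ × Circ → E} (hG : HC2 p r K G) (s₁ s₂ : ℕ) (y₁ y₂ : Circ) :
    ∑ k₁ ∈ Finset.range (2 ^ s₁), ∑ k₂ ∈ Finset.range (2 ^ s₂),
      ‖op1 s₁ (op2 s₂ G) (y₁ + ((k₁ * stp s₁ : ℝ) : Circ), y₂ + ((k₂ * stp s₂ : ℝ) : Circ))‖ ^ p
      ≤ (cS p r ^ 2 * K * 2 ^ (-((r - 1 / p) * (s₁ + s₂ : ℕ)))) ^ p := by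
  have hp0 : 0 < p := by linarith
  have hr0 : 0 < r := lt_trans (by positivity) hr
  have hcS := one_le_cS hr0 hr
  have h := hG.grid_grid hp hr hK s₁ s₂ y₁ y₂
  have h2 := ENNReal.rpow_le_rpow h hp0.le
  rw [eLpNorm_rpow_eq hp, ENNReal.ofReal_rpow_of_nonneg (by positivity) hp0.le] at h2
  have hm : AEMeasurable (fun z : Circ × Circ => ‖op1 s₁ (op2 s₂ G) z‖ₑ ^ p)
      ((grid s₁ y₁).prod (grid s₂ y₂)) :=
    ((op1_continuous s₁ (op2_continuous s₂ hG.cont)).enorm.measurable.pow_const _).aemeasurable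
  rw [lintegral_prod _ hm, lintegral_grid] at h2
  simp_rw [lintegral_grid] at h2
  rw [← ENNReal.ofReal_le_ofReal_iff (by positivity)]
  refine le_trans (le_of_eq ?_) h2
  rw [ENNReal.ofReal_sum_of_nonneg (fun i _ => Finset.sum_nonneg fun j _ => by positivity)]
  apply Finset.sum_congr rfl
  intro k₁ _
  rw [ENNReal.ofReal_sum_of_nonneg (fun i _ => by positivity)]
  apply Finset.sum_congr rfl
  intro k₂ _
  rw [← ENNReal.ofReal_rpow_of_nonneg (norm_nonneg _) hp0.le, ofReal_norm]

end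

end Run7.h221
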