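import Pool.Agent.Run7.h221.ClsL

/-!
Two-dimensional coefficient bounds for the surplus operators of order `l`.
-/

open MeasureTheory Filter Topology
open scoped ENNReal

namespace Run7.h221

noncomputable section

set_option linter.unusedSectionVars false

variable {E : Type} [NormedAddCommGroup E] [NormedSpace ℝ E]

/-- `l`-th difference in the second variable (identity at level zero). -/
def op2l (l s : ℕ) (G : Circ × Circ → E) : Circ × Circ → E :=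
  if s = 0 then G else (fwdDiff (((0 : Circ)), ((stp s : ℝ) : Circ)))^[l] G

lemma swap_fwdDiff (l : ℕ) (τ : Circ) (G : Circ × Circ → E) :
    (fwdDiff (((0 : Circ)), τ))^[l] G
      = ((fwdDiff ((τ, (0 : Circ))))^[l] (G ∘ Prod.swap)) ∘ Prod.swap := by
  induction l generalizing G with
  | zero => rfl
  | succ l ih =>
    rw [Function.iterate_succ_apply, ih, Function.iterate_succ_apply]
    rfl

lemma op2l_swap (l s : ℕ) (G : Circ × Circ → E) :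
    op2l l s G = (opl l s (G ∘ Prod.swap)) ∘ Prod.swap := by
  unfold op2l opl
  split_ifs
  · rfl
  · rw [swap_fwdDiff, shiftDiff_iter_eq]

lemma op2l_continuous (l s : ℕ) {G : Circ × Circ → E} (hG : Continuous G) :
    Continuous (op2l l s G) := by
  rw [op2l_swap]
  exact (opl_continuous l s (hG.comp continuous_swap)).comp continuous_swap

/-- The class of functions on the product of two circles. -/
structure HL2 (l : ℕ) (p r K : ℝ) (G : Circ × Circ → E) : Prop where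
  cont : Continuous G
  b0 : eLpNorm G (ENNReal.ofReal p) (haarC.prod haarC) ≤ ENNReal.ofReal K
  b1 : ∀ τ : ℝ, eLpNorm ((fwdDiff ((((τ : ℝ) : Circ)), (0 : Circ)))^[l] G) (ENNReal.ofReal p)
    (haarC.prod haarC) ≤ ENNReal.ofReal (K * |τ| ^ r)
  b2 : ∀ τ : ℝ, eLpNorm ((fwdDiff (((0 : Circ)), ((τ : ℝ) : Circ)))^[l] G) (ENNReal.ofReal p)
    (haarC.prod haarC) ≤ ENNReal.ofReal (K * |τ| ^ r)
  b12 : ∀ σ τ : ℝ, eLpNorm ((fwdDiff ((((σ : ℝ) : Circ)), (0 : Circ)))^[l]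
    ((fwdDiff (((0 : Circ)), ((τ : ℝ) : Circ)))^[l] G)) (ENNReal.ofReal p)
    (haarC.prod haarC) ≤ ENNReal.ofReal (K * |σ| ^ r * |τ| ^ r)

lemma fwdDiff_iter_pair0 (m : ℕ) (a : Circ) (f : Tor 2 → E) (z : Circ × Circ) :
    ((fwdDiff (Pi.single 0 a))^[m] f) ![z.1, z.2]
      = ((fwdDiff ((a, (0 : Circ))))^[m] (fun z : Circ × Circ => f ![z.1, z.2])) z := by
  induction m generalizing f with
  | zero => rfl
  | succ m ih =>
    rw [Function.iterate_succ_apply, Function.iterate_succ_apply, ih]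
    have h : (fun z : Circ × Circ => fwdDiff (Pi.single 0 a) f ![z.1, z.2])
        = fwdDiff ((a, (0 : Circ))) (fun z : Circ × Circ => f ![z.1, z.2]) := by
      funext z
      simp only [fwdDiff, vec_add_single_zero, Prod.fst_add, Prod.snd_add, add_zero]
    rw [h]

lemma fwdDiff_iter_pair1 (m : ℕ) (a : Circ) (f : Tor 2 → E) (z : Circ × Circ) :
    ((fwdDiff (Pi.single 1 a))^[m] f) ![z.1, z.2]
      = ((fwdDiff (((0 : Circ), a)))^[m] (fun z : Circ × Circ => f ![z.1, z.2])) z := by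
  induction m generalizing f with
  | zero => rfl
  | succ m ih =>
    rw [Function.iterate_succ_apply, Function.iterate_succ_apply, ih]
    have h : (fun z : Circ × Circ => fwdDiff (Pi.single 1 a) f ![z.1, z.2])
        = fwdDiff (((0 : Circ), a)) (fun z : Circ × Circ => f ![z.1, z.2]) := by
      funext z
      simp only [fwdDiff, vec_add_single_one, Prod.fst_add, Prod.snd_add, add_zero]
    rw [h]

lemma HL.toHL2 {l : ℕ} (hl : 1 ≤ l) {p r K : ℝ} (hK : 0 ≤ K) {f : Tor 2 → E}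
    (hf : HL l p r K f) : HL2 l p r K (fun z : Circ × Circ => f ![z.1, z.2]) := by
  have hc : Continuous (fun z : Circ × Circ => f ![z.1, z.2]) := by
    apply hf.cont.comp
    apply continuous_pi
    intro i
    fin_cases i
    · exact continuous_fst
    · exact continuous_snd
  have main : ∀ (k0 k1 : ℕ) (t0 t1 : ℝ), (k0 = 0 ∨ k0 = l) → (k1 = 0 ∨ k1 = l) →
      eLpNorm (fun z : Circ × Circ => dOp ![k0, k1] ![t0, t1] f ![z.1, z.2])
        (ENNReal.ofReal p) (haarC.prod haarC)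
        ≤ ENNReal.ofReal (K * (wt r k0 t0 * wt r k1 t1)) := by
    intro k0 k1 t0 t1 h0 h1
    have hw := wt_nonneg r k0 t0
    have hw' := wt_nonneg r k1 t1
    rw [eLpNorm_pair (dOp_continuous _ _ hf.cont), nrm_le_iff (dOp_continuous _ _ hf.cont)
      (by positivity)]
    have h2 := hf.bd ![k0, k1] (by intro j; fin_cases j <;> simp [h0, h1]) ![t0, t1]
    rw [Fin.prod_univ_two] at h2
    exact h2
  have hdop : ∀ (k0 k1 : ℕ) (t0 t1 : ℝ),
      (fun z : Circ × Circ => dOp ![k0, k1] ![t0, t1] f ![z.1, z.2])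
        = (fwdDiff ((((t0 : ℝ) : Circ)), (0 : Circ)))^[k0]
          ((fwdDiff (((0 : Circ)), ((t1 : ℝ) : Circ)))^[k1]
            (fun z : Circ × Circ => f ![z.1, z.2])) := by
    intro k0 k1 t0 t1
    funext z
    rw [dOp_two, fwdDiff_iter_pair0]
    have h : (fun z : Circ × Circ => ((fwdDiff (Pi.single 1 ((![t0, t1] 1 : ℝ) : Circ)))^[![k0, k1] 1] f)
        ![z.1, z.2]) = (fwdDiff (((0 : Circ)), ((t1 : ℝ) : Circ)))^[k1]
            (fun z : Circ × Circ => f ![z.1, z.2]) := by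
      funext z
      exact fwdDiff_iter_pair1 _ _ _ _
    rw [h]
    rfl
  have hl0 : l ≠ 0 := by omega
  refine ⟨hc, ?_, ?_, ?_, ?_⟩
  · have h := main 0 0 0 0 (Or.inl rfl) (Or.inl rfl)
    rw [hdop] at h
    simpa [wt] using h
  · intro τ
    have h := main l 0 τ 0 (Or.inr rfl) (Or.inl rfl)
    rw [hdop] at h
    simpa [wt, hl0] using h
  · intro τ
    have h := main 0 l 0 τ (Or.inl rfl) (Or.inr rfl)
    rw [hdop] at h
    simpa [wt, hl0] using h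
  · intro σ τ
    have h := main l l σ τ (Or.inr rfl) (Or.inr rfl)
    rw [hdop] at h
    simpa [wt, hl0, mul_assoc] using h

theorem HL2.grid_grid [CompleteSpace E] (l : ℕ) (hl : 1 ≤ l) {p r η : ℝ} (hp : 1 ≤ p)
    (hη : 1 / p < η) (hη1 : η < 1) (hηr : η ≤ r) : ∃ C : ℝ, 1 ≤ C ∧
    ∀ (K : ℝ) (_ : 0 ≤ K) (G : Circ × Circ → E) (_ : HL2 l p r K G) (s₁ s₂ : ℕ) (y₁ y₂ : Circ),
    eLpNorm (opl l s₁ (op2l l s₂ G)) (ENNReal.ofReal p) ((grid s₁ y₁).prod (grid s₂ y₂))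
      ≤ ENNReal.ofReal (C * K * 2 ^ (-((r - 1 / p) * (s₁ + s₂ : ℕ)))) := by
  obtain ⟨C, hC1, hC⟩ := opl_grid (E := E) l hl hp hη hη1 hηr
  refine ⟨C * C, by nlinarith, ?_⟩
  intro K hK G hG s₁ s₂ y₁ y₂
  have hsw : Continuous (Prod.swap : Circ × Circ → Circ × Circ) := continuous_swap
  -- bound for op2l of H
  have key : ∀ (H : Circ × Circ → E) (B : ℝ), Continuous H → 0 ≤ B →
      eLpNorm H (ENNReal.ofReal p) (haarC.prod haarC) ≤ ENNReal.ofReal B →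
      (∀ τ : ℝ, eLpNorm ((fwdDiff (((0 : Circ)), ((τ : ℝ) : Circ)))^[l] H) (ENNReal.ofReal p)
        (haarC.prod haarC) ≤ ENNReal.ofReal (B * |τ| ^ r)) →
      eLpNorm (op2l l s₂ H) (ENNReal.ofReal p) (haarC.prod (grid s₂ y₂))
        ≤ ENNReal.ofReal (C * B * 2 ^ (-((r - 1 / p) * s₂))) := by
    intro H B hH hB h0 h1
    rw [op2l_swap, eLpNorm_swap (opl_continuous _ _ (hH.comp hsw))]
    apply hC haarC (hH.comp hsw) hB
    · rw [eLpNorm_swap hH]; exact h0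
    · intro τ
      have h2 : (shiftDiff τ)^[l] (H ∘ Prod.swap)
          = ((fwdDiff (((0 : Circ)), ((τ : ℝ) : Circ)))^[l] H) ∘ Prod.swap := by
        rw [swap_fwdDiff, shiftDiff_iter_eq]
        rfl
      rw [h2, eLpNorm_swap (fwdDiff_iter_continuous _ hH _)]
      exact h1 τ
  set K' : ℝ := C * K * 2 ^ (-((r - 1 / p) * s₂)) with hK'
  have hK'0 : 0 ≤ K' := by positivity
  have h := hC (grid s₂ y₂) (op2l_continuous l s₂ hG.cont) hK'0
    (key G K hG.cont hK hG.b0 hG.b2) ?_ s₁ y₁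
  · refine h.trans (ENNReal.ofReal_le_ofReal (le_of_eq ?_))
    rw [hK']
    have h3 : (2 : ℝ) ^ (-((r - 1 / p) * (s₁ + s₂ : ℕ)))
        = 2 ^ (-((r - 1 / p) * s₂)) * 2 ^ (-((r - 1 / p) * s₁)) := by
      rw [← Real.rpow_add (by norm_num)]
      congr 1; push_cast; ring
    rw [h3]; ring
  · intro τ
    have hcomm : (shiftDiff τ)^[l] (op2l l s₂ G)
        = op2l l s₂ ((fwdDiff ((((τ : ℝ) : Circ)), (0 : Circ)))^[l] G) := by
      rw [shiftDiff_iter_eq]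
      unfold op2l
      split_ifs
      · rfl
      · rw [fwdDiff_iter_comm]
    rw [hcomm]
    refine (key _ (K * |τ| ^ r) (fwdDiff_iter_continuous _ hG.cont _) (by positivity)
      (hG.b1 τ) ?_).trans (ENNReal.ofReal_le_ofReal (le_of_eq ?_))
    · intro σ
      rw [fwdDiff_iter_comm]
      exact hG.b12 τ σ
    · rw [hK']; ring

/-- Double sum form. -/
theorem HL2.sum_sum [CompleteSpace E] (l : ℕ) (hl : 1 ≤ l) {p r η : ℝ} (hp : 1 ≤ p)
    (hη : 1 / p < η) (hη1 : η < 1) (hηr : η ≤ r) : ∃ C : ℝ, 1 ≤ C ∧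
    ∀ (K : ℝ) (_ : 0 ≤ K) (G : Circ × Circ → E) (_ : HL2 l p r K G) (s₁ s₂ : ℕ) (y₁ y₂ : Circ),
    ∑ k₁ ∈ Finset.range (2 ^ s₁), ∑ k₂ ∈ Finset.range (2 ^ s₂),
      ‖opl l s₁ (op2l l s₂ G) (y₁ + ((k₁ * stp s₁ : ℝ) : Circ),
        y₂ + ((k₂ * stp s₂ : ℝ) : Circ))‖ ^ p
      ≤ (C * K * 2 ^ (-((r - 1 / p) * (s₁ + s₂ : ℕ)))) ^ p := by
  obtain ⟨C, hC1, hC⟩ := HL2.grid_grid (E := E) l hl hp hη hη1 hηr
  refine ⟨C, hC1, ?_⟩
  intro K hK G hG s₁ s₂ y₁ y₂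
  have hp0 : 0 < p := by linarith
  have h := hC K hK G hG s₁ s₂ y₁ y₂
  have h2 := ENNReal.rpow_le_rpow h hp0.le
  rw [eLpNorm_rpow_eq hp, ENNReal.ofReal_rpow_of_nonneg (by positivity) hp0.le] at h2
  have hm : AEMeasurable (fun z : Circ × Circ => ‖opl l s₁ (op2l l s₂ G) z‖ₑ ^ p)
      ((grid s₁ y₁).prod (grid s₂ y₂)) :=
    ((opl_continuous l s₁ (op2l_continuous l s₂ hG.cont)).enorm.measurable.pow_const
      _).aemeasurable
  rw [lintegral_prod _ hm, lintegral_grid] at h2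
  simp_rw [lintegral_grid] at h2
  rw [← ENNReal.ofReal_le_ofReal_iff (by positivity)]
  refine le_trans (le_of_eq ?_) h2
  rw [ENNReal.ofReal_sum_of_nonneg (fun i _ => Finset.sum_nonneg fun j _ => by positivity)]
  apply Finset.sum_congr rfl
  intro k₁ _
  rw [ENNReal.ofReal_sum_of_nonneg (fun i _ => by positivity)]
  apply Finset.sum_congr rfl
  intro k₂ _
  rw [← ENNReal.ofReal_rpow_of_nonneg (norm_nonneg _) hp0.le, ofReal_norm]

/-! ### Surplus of level `t`, hierarchical coefficient of level `s` -/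

/-- Two-dimensional surplus at a dyadic point. -/
def W2 (l J : ℕ) (t : ℕ × ℕ) (G : Circ → Circ → E) (z₁ z₂ : ℕ) : E :=
  Wo l t.2 J z₂ (Wo l t.1 J z₁ G)

/-- The discrete hierarchical coefficient of level `s` of a function on `[0,2^J)^2`. -/
def dcoef2 (J : ℕ) (s : ℕ × ℕ) (U : ℕ → ℕ → E) (m₁ m₂ : ℕ) : E :=
  dcoef J s.2 (fun z₂ => dcoef J s.1 (fun z₁ => U z₁ z₂) m₁) m₂

lemma dcoef2_telescope (J k₁ k₂ : ℕ) (hk₁ : k₁ < 2 ^ J) (hk₂ : k₂ < 2 ^ J)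
    (U : ℕ → ℕ → E) :
    U k₁ k₂ = ∑ s₁ ∈ Finset.range (J + 1), ∑ s₂ ∈ Finset.range (J + 1),
      dcoef2 J (s₁, s₂) U (k₁ / 2 ^ (J - s₁)) (k₂ / 2 ^ (J - s₂)) := by
  rw [dcoef_telescope' J k₁ hk₁ (fun z₁ => U z₁ k₂)]
  apply Finset.sum_congr rfl
  intro s₁ _
  rw [dcoef_telescope' J k₂ hk₂ (fun z₂ => dcoef J s₁ (fun z₁ => U z₁ z₂) (k₁ / 2 ^ (J - s₁)))]
  rfl

lemma dcoef2_sum {ι : Type*} (J : ℕ) (s : ℕ × ℕ) (S : Finset ι) (U : ι → ℕ → ℕ → E)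
    (m₁ m₂ : ℕ) :
    dcoef2 J s (fun z₁ z₂ => ∑ i ∈ S, U i z₁ z₂) m₁ m₂ = ∑ i ∈ S, dcoef2 J s (U i) m₁ m₂ := by
  unfold dcoef2
  have h : (fun z₂ => dcoef J s.1 (fun z₁ => ∑ i ∈ S, U i z₁ z₂) m₁)
      = fun z₂ => ∑ i ∈ S, dcoef J s.1 (fun z₁ => U i z₁ z₂) m₁ := by
    funext z₂
    exact dcoef_sum J s.1 S (fun i z₁ => U i z₁ z₂) m₁
  rw [h]
  exact dcoef_sum J s.2 S (fun i z₂ => dcoef J s.1 (fun z₁ => U i z₁ z₂) m₁) m₂

lemma Wo_sub {F : Type*} [AddCommGroup F] [Module ℝ F] (l t J k : ℕ) (g h : Circ → F) :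
    Wo l t J k (g - h) = Wo l t J k g - Wo l t J k h := by
  unfold Wo IP
  split_ifs
  · rfl
  · simp only [Pi.sub_apply, smul_sub, Finset.sum_sub_distrib]
    abel

lemma Wo_zero {F : Type*} [AddCommGroup F] [Module ℝ F] (l t J k : ℕ) :
    Wo l t J k (0 : Circ → F) = 0 := by
  have := Wo_sub l t J k (0 : Circ → F) 0
  rw [sub_self, sub_self] at this
  exact this

lemma dcoef_W2 (l J : ℕ) (s : ℕ × ℕ) (t : ℕ × ℕ) (G : Circ → Circ → E) (m₁ m₂ : ℕ) :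
    dcoef2 J s (W2 l J t G) m₁ m₂
      = dcoef J s.2 (fun z₂ => Wo l t.2 J z₂ (dcoef J s.1 (fun z₁ => Wo l t.1 J z₁ G) m₁)) m₂ := by
  unfold dcoef2 W2
  congr 1
  funext z₂
  unfold dcoef
  split_ifs
  · rfl
  · rw [Wo_sub]
  · rw [Wo_zero]

lemma fwdDiff_iter_smulF {M F : Type*} [AddCommGroup M] [AddCommGroup F] [Module ℝ F] (a : M)
    (m : ℕ) (c : ℝ) (f : M → F) : (fwdDiff a)^[m] (c • f) = c • (fwdDiff a)^[m] f := by
  induction m generalizing f with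
  | zero => rfl
  | succ m ih =>
    have h : fwdDiff a (c • f) = c • fwdDiff a f := by
      funext x; simp only [fwdDiff, Pi.smul_apply, smul_sub]
    rw [Function.iterate_succ_apply, h, ih, Function.iterate_succ_apply]

lemma opc_sum_smul {F : Type*} [AddCommGroup F] [Module ℝ F] {ι : Type*} (l t : ℕ)
    (S : Finset ι) (β : ι → ℝ) (g : ι → Circ → F) :
    opc l t (∑ i ∈ S, β i • g i) = ∑ i ∈ S, β i • opc l t (g i) := by
  classical
  unfold opc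
  split_ifs
  · rfl
  · generalize ((stp t : ℝ) : Circ) = a
    induction S using Finset.induction_on with
    | empty =>
      rw [Finset.sum_empty, Finset.sum_empty]
      have := fwdDiff_iter_sub a l (0 : Circ → F) 0
      rw [sub_self, sub_self] at this
      exact this
    | insert i S hi ih =>
      rw [Finset.sum_insert hi, Finset.sum_insert hi, fwdDiff_iter_add, ih, fwdDiff_iter_smulF]

/-- Sum over fine indices of a function of the coarse index. -/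
lemma sum_coarse (s e t : ℕ) (hst : s = t + e) (ψ : ℕ → ℝ) (hψ : ∀ k, 0 ≤ ψ k) :
    ∑ m ∈ Finset.range (2 ^ s), ψ (2 * (m / 2 ^ (e + 1)))
      ≤ 2 ^ (e + 1) * ∑ k ∈ Finset.range (2 ^ t), ψ k := by
  subst hst
  have hmaps : ∀ m ∈ Finset.range (2 ^ (t + e)), 2 * (m / 2 ^ (e + 1)) ∈ Finset.range (2 ^ t) := by
    intro m hm
    rw [Finset.mem_range] at hm ⊢
    have h1 : 2 ^ e * (2 * (m / 2 ^ (e + 1))) ≤ m := by
      have := Nat.mul_div_le m (2 ^ (e + 1))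
      rw [pow_succ] at this ⊢
      rw [← mul_assoc]
      exact this
    by_contra hcon
    push Not at hcon
    have h2 : 2 ^ e * 2 ^ t ≤ 2 ^ e * (2 * (m / 2 ^ (e + 1))) := Nat.mul_le_mul_left _ hcon
    rw [pow_add] at hm
    nlinarith
  rw [← Finset.sum_fiberwise_of_maps_to hmaps, Finset.mul_sum]
  apply Finset.sum_le_sum
  intro k _
  have h3 : ∀ m ∈ (Finset.range (2 ^ (t + e))).filter (fun m => 2 * (m / 2 ^ (e + 1)) = k),
      ψ (2 * (m / 2 ^ (e + 1))) = ψ k := by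
    intro m hm
    rw [Finset.mem_filter] at hm
    rw [hm.2]
  rw [Finset.sum_congr rfl h3, Finset.sum_const, nsmul_eq_mul]
  apply mul_le_mul_of_nonneg_right _ (hψ k)
  have h4 : ((Finset.range (2 ^ (t + e))).filter (fun m => 2 * (m / 2 ^ (e + 1)) = k)).card
      ≤ 2 ^ (e + 1) := by
    have h5 : (Finset.range (2 ^ (t + e))).filter (fun m => 2 * (m / 2 ^ (e + 1)) = k)
        ⊆ Finset.Ico (k / 2 * 2 ^ (e + 1)) (k / 2 * 2 ^ (e + 1) + 2 ^ (e + 1)) := by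
      intro m hm
      rw [Finset.mem_filter] at hm
      rw [Finset.mem_Ico]
      have h6 : k / 2 = m / 2 ^ (e + 1) := by omega
      rw [h6]
      have h7 := Nat.div_add_mod m (2 ^ (e + 1))
      have h8 := Nat.mod_lt m (show 0 < 2 ^ (e + 1) by positivity)
      rw [mul_comm] at h7
      omega
    refine (Finset.card_le_card h5).trans ?_
    rw [Nat.card_Ico, Nat.add_sub_cancel_left]
  exact_mod_cast h4

lemma pt_add_coe (t k i : ℕ) : pt t (k + i) = pt t i + ((k * stp t : ℝ) : Circ) := by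
  rw [pt_add, add_comm]; rfl

/-- The bound for the hierarchical coefficients of a surplus. -/
theorem HL2.coef_bound [CompleteSpace E] (l : ℕ) (hl : 1 ≤ l) {p r η : ℝ} (hp : 1 ≤ p)
    (hη : 1 / p < η) (hη1 : η < 1) (hηr : η ≤ r) : ∃ C : ℝ, 1 ≤ C ∧
    ∀ (K : ℝ) (_ : 0 ≤ K) (G : Circ × Circ → E) (_ : HL2 l p r K G) (J : ℕ) (s t : ℕ × ℕ),
    s.1 ≤ J → s.2 ≤ J → t.1 ≤ s.1 → t.2 ≤ s.2 →
    ∑ m₁ ∈ Finset.range (2 ^ s.1), ∑ m₂ ∈ Finset.range (2 ^ s.2),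
      ‖dcoef2 J s (W2 l J t (fun y x => G (y, x))) m₁ m₂‖ ^ p
      ≤ (C * K * (2 ^ (-((1 - 1 / p) * ((s.1 - t.1 : ℕ) + (s.2 - t.2 : ℕ))))
        * 2 ^ (-((r - 1 / p) * (t.1 + t.2 : ℕ))))) ^ p := by
  obtain ⟨C, hC1, hC⟩ := HL2.sum_sum (E := E) l hl hp hη hη1 hηr
  obtain ⟨C', hC'1, hC'⟩ := dcoef_Wo l hl
  have hp0 : 0 < p := by linarith
  have hl1 : (1 : ℝ) ≤ 2 * l := by
    have : (1 : ℝ) ≤ l := by exact_mod_cast hl
    linarith
  refine ⟨(2 * l) ^ 2 * 4 * (C' * C') * C, ?_, ?_⟩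
  · have h1 : 1 ≤ (2 * (l : ℝ)) ^ 2 := one_le_pow₀ hl1
    have h2 : 1 ≤ C' * C' := by nlinarith
    have h3 : 1 ≤ (2 * (l : ℝ)) ^ 2 * 4 := by linarith
    have h4 : 1 ≤ (2 * (l : ℝ)) ^ 2 * 4 * (C' * C') := by nlinarith
    nlinarith
  intro K hK G hG J s t hs1 hs2 ht1 ht2
  set Q : Circ × Circ → E := op2l l t.2 (opl l t.1 G) with hQ
  have hQ' : Q = opl l t.1 (op2l l t.2 G) := by
    rw [hQ]
    unfold op2l opl
    split_ifs
    · rfl
    · rfl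
    · rfl
    · rw [shiftDiff_iter_eq, shiftDiff_iter_eq, fwdDiff_iter_comm]
  set e₁ := s.1 - t.1 with he₁
  set e₂ := s.2 - t.2 with he₂
  set P : ℝ := 2 ^ (-((r - 1 / p) * (t.1 + t.2 : ℕ))) with hP
  -- representation
  have hrep : ∀ m₁ ∈ Finset.range (2 ^ s.1), ∀ m₂ ∈ Finset.range (2 ^ s.2),
      ‖dcoef2 J s (W2 l J t (fun y x => G (y, x))) m₁ m₂‖
        ≤ (C' * 2 ^ (-(e₁ : ℝ))) * (C' * 2 ^ (-(e₂ : ℝ))) *
          ∑ w ∈ Finset.range (2 * l) ×ˢ Finset.range (2 * l),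
            ‖Q (pt t.1 (2 * (m₁ / 2 ^ (e₁ + 1)) + w.1), pt t.2 (2 * (m₂ / 2 ^ (e₂ + 1)) + w.2))‖ := by
    intro m₁ hm₁ m₂ hm₂
    obtain ⟨β₁, hβ₁, hr₁⟩ := hC' J s.1 t.1 m₁ hs1 (ht1.trans hs1) (Finset.mem_range.1 hm₁)
    obtain ⟨β₂, hβ₂, hr₂⟩ := hC' J s.2 t.2 m₂ hs2 (ht2.trans hs2) (Finset.mem_range.1 hm₂)
    rw [dcoef_W2, hr₁, if_pos ht1, hr₂, if_pos ht2, opc_sum_smul]
    simp only [Finset.sum_apply, Pi.smul_apply]
    have hop : ∀ (y x : Circ), opc l t.2 (opc l t.1 (fun y x => G (y, x)) y) x = Q (y, x) := by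
      intro y x
      have h1 : opc l t.1 (fun y x => G (y, x)) y = fun x => (opl l t.1 G) (y, x) := by
        funext x
        unfold opc opl
        split_ifs
        · rfl
        · rw [shiftDiff_iter_apply]
          have h2 : ∀ (m : ℕ) (a : Circ) (H : Circ → Circ → E),
              (fwdDiff a)^[m] H y x = (fwdDiff a)^[m] (fun y => H y x) y := by
            intro m a H
            induction m generalizing H with
            | zero => rfl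
            | succ m ih => exact ih (fwdDiff a H)
          exact h2 _ _ _
      rw [h1, hQ, op2l_swap]
      unfold opc opl
      simp only [Function.comp]
      by_cases h0 : t.2 = 0
      · simp only [h0, if_true]; rfl
      · simp only [h0, if_false]
        rw [Prod.swap_prod_mk, shiftDiff_iter_apply]
        rfl
    rw [Finset.mul_sum]
    refine (norm_sum_le _ _).trans ?_
    rw [Finset.sum_product_right]
    apply Finset.sum_le_sum
    intro j hj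
    rw [norm_smul]
    have hb₂ := hβ₂ j (Finset.mem_range.1 hj)
    refine (mul_le_mul_of_nonneg_left (norm_sum_le _ _) (norm_nonneg _)).trans ?_
    rw [Finset.mul_sum]
    apply Finset.sum_le_sum
    intro i hi
    rw [norm_smul, hop]
    have hb₁ := hβ₁ i (Finset.mem_range.1 hi)
    have e1 : ((s.1 : ℝ) - t.1) = (e₁ : ℝ) := by rw [he₁]; push_cast [ht1]; rfl
    have e2 : ((s.2 : ℝ) - t.2) = (e₂ : ℝ) := by rw [he₂]; push_cast [ht2]; rfl
    rw [e1] at hb₁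
    rw [e2] at hb₂
    rw [Real.norm_eq_abs, Real.norm_eq_abs, ← mul_assoc]
    apply mul_le_mul_of_nonneg_right _ (norm_nonneg _)
    rw [mul_comm]
    exact mul_le_mul hb₁ hb₂ (abs_nonneg _) (by positivity)
  -- p-th powers
  set A : ℝ := (C' * 2 ^ (-(e₁ : ℝ))) * (C' * 2 ^ (-(e₂ : ℝ))) with hA
  have hA0 : 0 ≤ A := by positivity
  set I := Finset.range (2 * l) ×ˢ Finset.range (2 * l) with hI
  have hIc : (I.card : ℝ) = (2 * l) ^ 2 := by
    rw [hI, Finset.card_product, Finset.card_range]; push_cast; ring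
  have hpow : ∀ m₁ ∈ Finset.range (2 ^ s.1), ∀ m₂ ∈ Finset.range (2 ^ s.2),
      ‖dcoef2 J s (W2 l J t (fun y x => G (y, x))) m₁ m₂‖ ^ p
        ≤ A ^ p * (((2 * l : ℝ) ^ 2) ^ (p - 1) * ∑ w ∈ I,
          ‖Q (pt t.1 (2 * (m₁ / 2 ^ (e₁ + 1)) + w.1), pt t.2 (2 * (m₂ / 2 ^ (e₂ + 1)) + w.2))‖ ^ p) := by
    intro m₁ hm₁ m₂ hm₂
    have h1 := Real.rpow_le_rpow (norm_nonneg _) (hrep m₁ hm₁ m₂ hm₂) hp0.le
    refine h1.trans ?_
    rw [Real.mul_rpow hA0 (Finset.sum_nonneg fun _ _ => norm_nonneg _)]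
    apply mul_le_mul_of_nonneg_left _ (by positivity)
    have h2 := Real.rpow_sum_le_const_mul_sum_rpow I (fun w =>
      ‖Q (pt t.1 (2 * (m₁ / 2 ^ (e₁ + 1)) + w.1), pt t.2 (2 * (m₂ / 2 ^ (e₂ + 1)) + w.2))‖) hp
    simp only [abs_norm] at h2
    rw [hIc] at h2
    exact h2
  -- sum over m
  have hsum : ∀ w ∈ I, ∑ m₁ ∈ Finset.range (2 ^ s.1), ∑ m₂ ∈ Finset.range (2 ^ s.2),
      ‖Q (pt t.1 (2 * (m₁ / 2 ^ (e₁ + 1)) + w.1), pt t.2 (2 * (m₂ / 2 ^ (e₂ + 1)) + w.2))‖ ^ p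
        ≤ 2 ^ (e₁ + 1) * (2 ^ (e₂ + 1) * (C * K * P) ^ p) := by
    intro w _
    have h1 := hC K hK G hG t.1 t.2 (pt t.1 w.1) (pt t.2 w.2)
    rw [← hQ'] at h1
    have h2 : ∀ m₁ ∈ Finset.range (2 ^ s.1), ∑ m₂ ∈ Finset.range (2 ^ s.2),
        ‖Q (pt t.1 (2 * (m₁ / 2 ^ (e₁ + 1)) + w.1), pt t.2 (2 * (m₂ / 2 ^ (e₂ + 1)) + w.2))‖ ^ p
        ≤ (fun k₁ => 2 ^ (e₂ + 1) * ∑ k₂ ∈ Finset.range (2 ^ t.2),
          ‖Q (pt t.1 (k₁ + w.1), pt t.2 (k₂ + w.2))‖ ^ p) (2 * (m₁ / 2 ^ (e₁ + 1))) := by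
      intro m₁ _
      exact sum_coarse s.2 e₂ t.2 (by omega) (fun k₂ =>
        ‖Q (pt t.1 (2 * (m₁ / 2 ^ (e₁ + 1)) + w.1), pt t.2 (k₂ + w.2))‖ ^ p)
        (fun k => by positivity)
    refine (Finset.sum_le_sum h2).trans ?_
    refine (sum_coarse s.1 e₁ t.1 (by omega) (fun k₁ => 2 ^ (e₂ + 1) *
      ∑ k₂ ∈ Finset.range (2 ^ t.2), ‖Q (pt t.1 (k₁ + w.1), pt t.2 (k₂ + w.2))‖ ^ p)
        (fun k => by positivity)).trans ?_
    apply mul_le_mul_of_nonneg_left _ (by positivity)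
    rw [← Finset.mul_sum]
    apply mul_le_mul_of_nonneg_left _ (by positivity)
    simp only [pt_add_coe]
    exact h1
  have htotal : ∑ m₁ ∈ Finset.range (2 ^ s.1), ∑ m₂ ∈ Finset.range (2 ^ s.2),
      ‖dcoef2 J s (W2 l J t (fun y x => G (y, x))) m₁ m₂‖ ^ p
      ≤ A ^ p * (((2 * l : ℝ) ^ 2) ^ (p - 1) * ((2 * l : ℝ) ^ 2 *
        (2 ^ (e₁ + 1) * (2 ^ (e₂ + 1) * (C * K * P) ^ p)))) := by
    refine (Finset.sum_le_sum fun m₁ hm₁ => Finset.sum_le_sum fun m₂ hm₂ =>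
      hpow m₁ hm₁ m₂ hm₂).trans ?_
    simp_rw [← Finset.mul_sum]
    apply mul_le_mul_of_nonneg_left _ (by positivity)
    apply mul_le_mul_of_nonneg_left _ (by positivity)
    have hcomm : ∑ m₁ ∈ Finset.range (2 ^ s.1), ∑ m₂ ∈ Finset.range (2 ^ s.2), ∑ w ∈ I,
        ‖Q (pt t.1 (2 * (m₁ / 2 ^ (e₁ + 1)) + w.1), pt t.2 (2 * (m₂ / 2 ^ (e₂ + 1)) + w.2))‖ ^ p
        = ∑ w ∈ I, ∑ m₁ ∈ Finset.range (2 ^ s.1), ∑ m₂ ∈ Finset.range (2 ^ s.2),
        ‖Q (pt t.1 (2 * (m₁ / 2 ^ (e₁ + 1)) + w.1),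
          pt t.2 (2 * (m₂ / 2 ^ (e₂ + 1)) + w.2))‖ ^ p := by
      have h1 : ∀ m₁, ∑ m₂ ∈ Finset.range (2 ^ s.2), ∑ w ∈ I,
        ‖Q (pt t.1 (2 * (m₁ / 2 ^ (e₁ + 1)) + w.1), pt t.2 (2 * (m₂ / 2 ^ (e₂ + 1)) + w.2))‖ ^ p
        = ∑ w ∈ I, ∑ m₂ ∈ Finset.range (2 ^ s.2),
        ‖Q (pt t.1 (2 * (m₁ / 2 ^ (e₁ + 1)) + w.1),
          pt t.2 (2 * (m₂ / 2 ^ (e₂ + 1)) + w.2))‖ ^ p := fun m₁ => Finset.sum_comm
      simp_rw [h1]
      rw [Finset.sum_comm]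
    rw [hcomm, ← hIc, ← nsmul_eq_mul]
    exact Finset.sum_le_card_nsmul _ _ _ hsum
  refine htotal.trans ?_
  -- algebra
  have hd : (2 : ℝ) ^ (-((1 - 1 / p) * ((e₁ : ℝ) + e₂)))
      = 2 ^ (-(e₁ : ℝ)) * 2 ^ (-(e₂ : ℝ)) * (2 ^ (e₁ : ℝ) * 2 ^ (e₂ : ℝ)) ^ (1 / p) := by
    rw [← Real.rpow_add (by norm_num), ← Real.rpow_add (by norm_num),
      ← Real.rpow_mul (by norm_num), ← Real.rpow_add (by norm_num)]
    congr 1; ring
  have h4 : (4 : ℝ) ≤ 4 ^ p := by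
    calc (4 : ℝ) = 4 ^ (1 : ℝ) := by norm_num
      _ ≤ 4 ^ p := Real.rpow_le_rpow_of_exponent_le (by norm_num) hp
  have hL0 : (0 : ℝ) < (2 * l) ^ 2 := by positivity
  have hLp : ((2 * l : ℝ) ^ 2) ^ (p - 1) * (2 * l : ℝ) ^ 2 = ((2 * l : ℝ) ^ 2) ^ p := by
    conv_lhs => rw [← Real.rpow_one ((2 * l : ℝ) ^ 2)]
    rw [← Real.rpow_mul hL0.le, one_mul, ← Real.rpow_add hL0]
    congr 1; ring
  have hPP : (C * K * P) ^ p * (2 ^ (e₁ : ℝ) * 2 ^ (e₂ : ℝ))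
      = (C * K * P * (2 ^ (e₁ : ℝ) * 2 ^ (e₂ : ℝ)) ^ (1 / p)) ^ p := by
    rw [Real.mul_rpow (by positivity) (by positivity) (z := p) (x := C * K * P),
      ← Real.rpow_mul (by positivity) (1 / p) p, one_div_mul_cancel hp0.ne', Real.rpow_one]
  have hpw₁ : (2 : ℝ) ^ (e₁ + 1) = 2 * 2 ^ (e₁ : ℝ) := by
    rw [Real.rpow_natCast, pow_succ]; ring
  have hpw₂ : (2 : ℝ) ^ (e₂ + 1) = 2 * 2 ^ (e₂ : ℝ) := by
    rw [Real.rpow_natCast, pow_succ]; ring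
  calc A ^ p * (((2 * l : ℝ) ^ 2) ^ (p - 1) * ((2 * l : ℝ) ^ 2 *
        (2 ^ (e₁ + 1) * (2 ^ (e₂ + 1) * (C * K * P) ^ p))))
      = A ^ p * ((((2 * l : ℝ) ^ 2) ^ (p - 1) * (2 * l : ℝ) ^ 2) * 4 *
        ((C * K * P) ^ p * (2 ^ (e₁ : ℝ) * 2 ^ (e₂ : ℝ)))) := by rw [hpw₁, hpw₂]; ring
    _ = A ^ p * (((2 * l : ℝ) ^ 2) ^ p * 4 *
        (C * K * P * (2 ^ (e₁ : ℝ) * 2 ^ (e₂ : ℝ)) ^ (1 / p)) ^ p) := by rw [hLp, hPP]
    _ ≤ A ^ p * (((2 * l : ℝ) ^ 2) ^ p * 4 ^ p *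
        (C * K * P * (2 ^ (e₁ : ℝ) * 2 ^ (e₂ : ℝ)) ^ (1 / p)) ^ p) := by gcongr
    _ = _ := by
      rw [← Real.mul_rpow (by positivity) (by positivity),
        ← Real.mul_rpow (by positivity) (by positivity),
        ← Real.mul_rpow (by positivity) (by positivity)]
      congr 1
      rw [hd, hA]
      ring

end

end Run7.h221
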