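import Pool.Agent.Run7.h221.Stair

/-!
Error of the net functional on step functions.
-/

namespace Run7.h221

noncomputable section

variable {E : Type*} [NormedAddCommGroup E] [NormedSpace ℝ E]

lemma coef_sup_le {s₁ s₂ : ℕ} {c : ℕ → ℕ → E} {p L : ℝ} (hp : 1 ≤ p) (hL : 0 ≤ L)
    (hcL : ∑ m₁ ∈ Finset.range (2 ^ s₁), ∑ m₂ ∈ Finset.range (2 ^ s₂), ‖c m₁ m₂‖ ^ p ≤ L ^ p)
    {m₁ m₂ : ℕ} (h₁ : m₁ < 2 ^ s₁) (h₂ : m₂ < 2 ^ s₂) : ‖c m₁ m₂‖ ≤ L := by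
  have hp0 : 0 < p := by linarith
  rw [← Real.rpow_le_rpow_iff (norm_nonneg _) hL hp0]
  refine le_trans ?_ hcL
  refine le_trans ?_ (Finset.single_le_sum
    (f := fun m₁ => ∑ m₂ ∈ Finset.range (2 ^ s₂), ‖c m₁ m₂‖ ^ p)
    (fun m₁ _ => Finset.sum_nonneg fun m₂ _ => by positivity) (Finset.mem_range.2 h₁))
  exact Finset.single_le_sum (f := fun m₂ => ‖c m₁ m₂‖ ^ p)
    (fun m₂ _ => by positivity) (Finset.mem_range.2 h₂)

lemma AB_norm_le {J N : ℕ} {Z : Finset (ℕ × ℕ)} (hZ : IsNet J N Z) (hNJ : N ≤ J)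
    {x₁ x₂ a₁ a₂ : ℕ}
    (h₁ : x₁ < 2 ^ J) (h₂ : x₂ < 2 ^ J) (ha : a₁ + a₂ + 2 ≤ N) {s₁ s₂ : ℕ} (hs1 : s₁ ≤ J)
    (hs2 : s₂ ≤ J) {c : ℕ → ℕ → E} {p L : ℝ} (hp : 1 ≤ p) (hL : 0 ≤ L)
    (hcL : ∑ m₁ ∈ Finset.range (2 ^ s₁), ∑ m₂ ∈ Finset.range (2 ^ s₂), ‖c m₁ m₂‖ ^ p ≤ L ^ p) :
    ‖AB J N Z x₁ x₂ (fun z₁ z₂ => c (z₁ / 2 ^ (J - s₁)) (z₂ / 2 ^ (J - s₂))) a₁ a₂‖ ≤ L := by
  unfold AB
  rw [norm_smul, norm_inv, norm_pow, Real.norm_ofNat, inv_mul_le_iff₀ (by positivity)]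
  refine (norm_sum_le _ _).trans ?_
  have h3 : ∀ z ∈ box J Z x₁ x₂ a₁ a₂,
      ‖(fun z₁ z₂ => c (z₁ / 2 ^ (J - s₁)) (z₂ / 2 ^ (J - s₂))) z.1 z.2‖ ≤ L := by
    intro z hz
    simp only [box, Finset.mem_filter] at hz
    have hlt := hZ.lt z hz.1
    exact coef_sup_le hp hL hcL (div_lt_pow hs1 hlt.1) (div_lt_pow hs2 hlt.2)
  refine (Finset.sum_le_card_nsmul _ _ _ h3).trans ?_
  rw [box_card hZ hNJ h₁ h₂ ha, nsmul_eq_mul]
  push_cast
  exact le_rfl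

theorem net_error {J N n k : ℕ} (hN : N = n + k) (hk : 2 ≤ k) (hNJ : N ≤ J)
    {Z : Finset (ℕ × ℕ)} (hZ : IsNet J N Z) {x₁ x₂ : ℕ} (h₁ : x₁ < 2 ^ J) (h₂ : x₂ < 2 ^ J)
    {s₁ s₂ : ℕ} (hs₁ : s₁ ≤ J) (hs₂ : s₂ ≤ J) (c : ℕ → ℕ → E) {p L : ℝ} (hp : 1 ≤ p)
    (hL : 0 ≤ L)
    (hcL : ∑ m₁ ∈ Finset.range (2 ^ s₁), ∑ m₂ ∈ Finset.range (2 ^ s₂), ‖c m₁ m₂‖ ^ p ≤ L ^ p) :
    ‖c (x₁ / 2 ^ (J - s₁)) (x₂ / 2 ^ (J - s₂))
      - (∑ a ∈ Finset.range (n + 1), AB J N Z x₁ x₂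
          (fun z₁ z₂ => c (z₁ / 2 ^ (J - s₁)) (z₂ / 2 ^ (J - s₂))) (n - a) a
        - ∑ a ∈ Finset.range n, AB J N Z x₁ x₂
          (fun z₁ z₂ => c (z₁ / 2 ^ (J - s₁)) (z₂ / 2 ^ (J - s₂))) (n - 1 - a) a)‖
      ≤ (if s₁ + s₂ ≤ n then 0 else 2 + 2 * ((s₁ + s₂ - n : ℕ) : ℝ)) * L
        + 4 * ((n : ℝ) ^ (1 - 1 / p) * (2 : ℝ) ^ (-(((k - 2 : ℕ) : ℝ) / p)) * L) := by
  classical
  have hp0 : 0 < p := by linarith
  set v : ℕ → ℕ → E := fun z₁ z₂ => c (z₁ / 2 ^ (J - s₁)) (z₂ / 2 ^ (J - s₂)) with hv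
  set A : ℕ → ℕ → E := AB J N Z x₁ x₂ v with hA
  set R : ℝ := (n : ℝ) ^ (1 - 1 / p) * (2 : ℝ) ^ (-(((k - 2 : ℕ) : ℝ) / p)) * L with hR
  have hp1 : 0 ≤ 1 - 1 / p := by
    rw [sub_nonneg, div_le_one hp0]; exact hp
  have hR0 : 0 ≤ R := by positivity
  have hvx : ‖v x₁ x₂‖ ≤ L := coef_sup_le hp hL hcL (div_lt_pow hs₁ h₁) (div_lt_pow hs₂ h₂)
  have hAle : ∀ a₁ a₂, a₁ + a₂ + 2 ≤ N → ‖A a₁ a₂‖ ≤ L := fun a₁ a₂ ha =>
    AB_norm_le hZ hNJ h₁ h₂ ha hs₁ hs₂ hp hL hcL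
  -- far sums are bounded by `R`
  have hfarR : ∀ (m e : ℕ), m ≤ n → k - 2 ≤ e →
      (m : ℝ) ^ (1 - 1 / p) * (2 : ℝ) ^ (-((e : ℝ) / p)) * L ≤ R := by
    intro m e hm he
    have e1 : (m : ℝ) ^ (1 - 1 / p) ≤ (n : ℝ) ^ (1 - 1 / p) :=
      Real.rpow_le_rpow (by positivity) (by exact_mod_cast hm) hp1
    have e2 : (2 : ℝ) ^ (-((e : ℝ) / p)) ≤ (2 : ℝ) ^ (-(((k - 2 : ℕ) : ℝ) / p)) := by
      apply Real.rpow_le_rpow_of_exponent_le (by norm_num)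
      have : ((k - 2 : ℕ) : ℝ) ≤ e := by exact_mod_cast he
      have := div_le_div_of_nonneg_right this hp0.le
      linarith
    rw [hR]
    gcongr
  set b := min s₂ n with hb
  have hbn : b ≤ n := min_le_right _ _
  have hbs : b ≤ s₂ := min_le_left _ _
  rw [staircase A n b hbn]
  -- part zero
  have hpart0 : ‖v x₁ x₂ - A (n - b) b‖ ≤ (if s₁ + s₂ ≤ n then 0 else 2) * L := by
    by_cases hs : s₁ + s₂ ≤ n
    · rw [if_pos hs]
      have hbe : b = s₂ := by omega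
      rw [hbe, hA, AB_type0 hZ hNJ h₁ h₂ (by omega) (by omega) le_rfl c]
      simp [hv]
    · rw [if_neg hs]
      refine (norm_sub_le _ _).trans ?_
      have := hAle (n - b) b (by omega)
      linarith
  -- part one
  set G1 := (Finset.range b).filter (fun a => s₁ ≤ n - 1 - a ∧ N ≤ n - a + s₂) with hG1
  set G3 := (Finset.range b).filter (fun a => ¬ s₁ ≤ n - 1 - a) with hG3
  have hG1F : ∀ a ∈ G1, a ≤ n ∧ a < s₂ ∧ s₁ ≤ n - a ∧ N ≤ n - a + 1 + s₂ := by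
    intro a ha
    simp only [hG1, Finset.mem_filter, Finset.mem_range] at ha
    omega
  have hG1F' : ∀ a ∈ G1, a ≤ n - 1 ∧ a < s₂ ∧ s₁ ≤ n - 1 - a ∧ N ≤ n - 1 - a + 1 + s₂ := by
    intro a ha
    simp only [hG1, Finset.mem_filter, Finset.mem_range] at ha
    omega
  have hG1card : G1.card ≤ n := by
    refine (Finset.card_filter_le _ _).trans ?_
    rw [Finset.card_range]; exact hbn
  have hfar1 : ∑ a ∈ G1, ‖A (n - a) a‖ ≤ R :=
    (AB_far_sum hZ hNJ h₁ h₂ hs₂ c hp hL hcL hs₁ (tot := n) (by omega) G1 hG1F).trans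
      (hfarR _ _ hG1card (by omega))
  have hfar1' : ∑ a ∈ G1, ‖A (n - 1 - a) a‖ ≤ R :=
    (AB_far_sum hZ hNJ h₁ h₂ hs₂ c hp hL hcL hs₁ (tot := n - 1) (by omega) G1 hG1F').trans
      (hfarR _ _ hG1card (by omega))
  have hG3card : (G3.card : ℝ) ≤ if s₁ + s₂ ≤ n then 0 else ((s₁ + s₂ - n : ℕ) : ℝ) := by
    have h3 : G3.card ≤ if s₁ + s₂ ≤ n then 0 else s₁ + s₂ - n := by
      by_cases hs : s₁ + s₂ ≤ n
      · rw [if_pos hs, Nat.le_zero, Finset.card_eq_zero, hG3, Finset.filter_eq_empty_iff]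
        intro a ha
        rw [Finset.mem_range] at ha
        omega
      · rw [if_neg hs]
        have h4 : G3 ⊆ Finset.Ico (n - s₁) b := by
          intro a ha
          simp only [hG3, Finset.mem_filter, Finset.mem_range, Finset.mem_Ico] at ha ⊢
          omega
        refine (Finset.card_le_card h4).trans ?_
        rw [Nat.card_Ico]
        omega
    refine (Nat.cast_le.2 h3).trans (le_of_eq ?_)
    split_ifs <;> simp
  have hpart1 : ‖∑ a ∈ Finset.range b, (A (n - a) a - A (n - 1 - a) a)‖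
      ≤ 2 * R + (if s₁ + s₂ ≤ n then 0 else ((s₁ + s₂ - n : ℕ) : ℝ)) * (2 * L) := by
    refine (norm_sum_le _ _).trans ?_
    have hterm : ∀ a ∈ Finset.range b, ‖A (n - a) a - A (n - 1 - a) a‖
        ≤ (if a ∈ G1 then ‖A (n - a) a‖ + ‖A (n - 1 - a) a‖ else 0)
          + (if a ∈ G3 then 2 * L else 0) := by
      intro a ha
      have ha' := Finset.mem_range.1 ha
      by_cases h3 : s₁ ≤ n - 1 - a
      · have hn3 : a ∉ G3 := by simp [hG3, h3]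
        rw [if_neg hn3, add_zero]
        by_cases h4 : N ≤ n - a + s₂
        · have hn1 : a ∈ G1 := by simp [hG1, ha', h3, h4]
          rw [if_pos hn1]
          exact norm_sub_le _ _
        · have hn1 : a ∉ G1 := by simp [hG1, h4]
          rw [if_neg hn1, hA]
          rw [AB_type1 hZ hNJ h₁ h₂ (by omega) (by omega) (by omega) c,
            AB_type1 hZ hNJ h₁ h₂ h3 (by omega) (by omega) c, sub_self, norm_zero]
      · have hn3 : a ∈ G3 := by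
          simp only [hG3, Finset.mem_filter, Finset.mem_range]
          exact ⟨ha', h3⟩
        rw [if_pos hn3]
        have h5 := hAle (n - a) a (by omega)
        have h6 := hAle (n - 1 - a) a (by omega)
        have h7 : 0 ≤ (if a ∈ G1 then ‖A (n - a) a‖ + ‖A (n - 1 - a) a‖ else 0) := by
          split_ifs <;> positivity
        have h8 := norm_sub_le (A (n - a) a) (A (n - 1 - a) a)
        linarith
    refine (Finset.sum_le_sum hterm).trans ?_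
    rw [Finset.sum_add_distrib, ← Finset.sum_filter, ← Finset.sum_filter]
    have hf1 : (Finset.range b).filter (fun a => a ∈ G1) = G1 := by
      rw [Finset.filter_mem_eq_inter, Finset.inter_eq_right]
      exact Finset.filter_subset _ _
    have hf3 : (Finset.range b).filter (fun a => a ∈ G3) = G3 := by
      rw [Finset.filter_mem_eq_inter, Finset.inter_eq_right]
      exact Finset.filter_subset _ _
    rw [hf1, hf3, Finset.sum_add_distrib, Finset.sum_const, nsmul_eq_mul]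
    have h9 : (G3.card : ℝ) * (2 * L)
        ≤ (if s₁ + s₂ ≤ n then 0 else ((s₁ + s₂ - n : ℕ) : ℝ)) * (2 * L) :=
      mul_le_mul_of_nonneg_right hG3card (by positivity)
    linarith
  -- part two
  set G2 := (Finset.range (n - b)).filter (fun a => a < s₁ ∧ N ≤ n - a + s₁) with hG2
  have hcL' : ∑ m₁ ∈ Finset.range (2 ^ s₂), ∑ m₂ ∈ Finset.range (2 ^ s₁),
      ‖(fun m n => c n m) m₁ m₂‖ ^ p ≤ L ^ p := by
    rw [Finset.sum_comm]; exact hcL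
  have hAsw : ∀ a₁ a₂, A a₁ a₂ = AB J N (Z.image Prod.swap) x₂ x₁
      (fun z₁ z₂ => (fun m n => c n m) (z₁ / 2 ^ (J - s₂)) (z₂ / 2 ^ (J - s₁))) a₂ a₁ := by
    intro a₁ a₂
    rw [hA, ← AB_swap]
  have hG2F : ∀ a ∈ G2, a ≤ n ∧ a < s₁ ∧ s₂ ≤ n - a ∧ N ≤ n - a + 1 + s₁ := by
    intro a ha
    simp only [hG2, Finset.mem_filter, Finset.mem_range] at ha
    omega
  have hG2F' : ∀ a ∈ G2, a ≤ n - 1 ∧ a < s₁ ∧ s₂ ≤ n - 1 - a ∧ N ≤ n - 1 - a + 1 + s₁ := by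
    intro a ha
    simp only [hG2, Finset.mem_filter, Finset.mem_range] at ha
    omega
  have hG2card : G2.card ≤ n := by
    refine (Finset.card_filter_le _ _).trans ?_
    rw [Finset.card_range]; omega
  have hfar2 : ∑ a ∈ G2, ‖A a (n - a)‖ ≤ R := by
    have h3 : ∀ a ∈ G2, ‖A a (n - a)‖ = ‖AB J N (Z.image Prod.swap) x₂ x₁
      (fun z₁ z₂ => (fun m n => c n m) (z₁ / 2 ^ (J - s₂)) (z₂ / 2 ^ (J - s₁))) (n - a) a‖ := by
      intro a _; rw [hAsw]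
    rw [Finset.sum_congr rfl h3]
    exact (AB_far_sum hZ.swap hNJ h₂ h₁ hs₁ _ hp hL hcL' hs₂ (tot := n) (by omega) G2 hG2F).trans
      (hfarR _ _ hG2card (by omega))
  have hfar2' : ∑ a ∈ G2, ‖A a (n - 1 - a)‖ ≤ R := by
    have h3 : ∀ a ∈ G2, ‖A a (n - 1 - a)‖ = ‖AB J N (Z.image Prod.swap) x₂ x₁
      (fun z₁ z₂ => (fun m n => c n m) (z₁ / 2 ^ (J - s₂)) (z₂ / 2 ^ (J - s₁)))
        (n - 1 - a) a‖ := by
      intro a _; rw [hAsw]
    rw [Finset.sum_congr rfl h3]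
    exact (AB_far_sum hZ.swap hNJ h₂ h₁ hs₁ _ hp hL hcL' hs₂ (tot := n - 1) (by omega) G2
      hG2F').trans (hfarR _ _ hG2card (by omega))
  have hpart2 : ‖∑ a ∈ Finset.range (n - b), (A a (n - a) - A a (n - 1 - a))‖ ≤ 2 * R := by
    refine (norm_sum_le _ _).trans ?_
    have hterm : ∀ a ∈ Finset.range (n - b), ‖A a (n - a) - A a (n - 1 - a)‖
        ≤ (if a ∈ G2 then ‖A a (n - a)‖ + ‖A a (n - 1 - a)‖ else 0) := by
      intro a ha
      have ha' := Finset.mem_range.1 ha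
      have hbs2 : b = s₂ := by omega
      by_cases h3 : a < s₁
      · by_cases h4 : N ≤ n - a + s₁
        · have hn1 : a ∈ G2 := by simp [hG2, ha', h3, h4]
          rw [if_pos hn1]
          exact norm_sub_le _ _
        · have hn1 : a ∉ G2 := by simp [hG2, h4]
          rw [if_neg hn1, hAsw, hAsw]
          rw [AB_type1 hZ.swap hNJ h₂ h₁ (by omega) h3 (by omega) (fun m n => c n m),
            AB_type1 hZ.swap hNJ h₂ h₁ (by omega) h3 (by omega) (fun m n => c n m), sub_self,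
            norm_zero]
      · have hn1 : a ∉ G2 := by simp [hG2, h3]
        rw [if_neg hn1, hA]
        rw [AB_type0 hZ hNJ h₁ h₂ (by omega) (by omega) (by omega) c,
          AB_type0 hZ hNJ h₁ h₂ (by omega) (by omega) (by omega) c, sub_self, norm_zero]
    refine (Finset.sum_le_sum hterm).trans ?_
    rw [← Finset.sum_filter]
    have hf1 : (Finset.range (n - b)).filter (fun a => a ∈ G2) = G2 := by
      rw [Finset.filter_mem_eq_inter, Finset.inter_eq_right]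
      exact Finset.filter_subset _ _
    rw [hf1, Finset.sum_add_distrib]
    linarith
  -- conclusion
  have hsplit : v x₁ x₂ - (A (n - b) b + ∑ a ∈ Finset.range b, (A (n - a) a - A (n - 1 - a) a)
        + ∑ a ∈ Finset.range (n - b), (A a (n - a) - A a (n - 1 - a)))
      = (v x₁ x₂ - A (n - b) b) - ∑ a ∈ Finset.range b, (A (n - a) a - A (n - 1 - a) a)
        - ∑ a ∈ Finset.range (n - b), (A a (n - a) - A a (n - 1 - a)) := by abel
  have hvdef : c (x₁ / 2 ^ (J - s₁)) (x₂ / 2 ^ (J - s₂)) = v x₁ x₂ := rfl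
  rw [hvdef, hsplit]
  refine (norm_sub_le _ _).trans ?_
  refine (add_le_add (norm_sub_le _ _) le_rfl).trans ?_
  have hfin : (if s₁ + s₂ ≤ n then (0 : ℝ) else 2 + 2 * ((s₁ + s₂ - n : ℕ) : ℝ)) * L
      = (if s₁ + s₂ ≤ n then 0 else 2) * L
        + (if s₁ + s₂ ≤ n then 0 else ((s₁ + s₂ - n : ℕ) : ℝ)) * (2 * L) := by
    split_ifs <;> ring
  rw [hfin]
  linarith

end

end Run7.h221
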