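import Pool.Agent.Run7.h221.Tele
import Pool.Agent.Run7.h221.NetErr

/-!
Linear combinations of point evaluations.
-/

namespace Run7.h221

noncomputable section

set_option linter.unusedSectionVars false

open scoped Classical in
/-- `Φ` is a linear combination of the evaluations at the points of `Y`. -/
def IsComb {E : Type*} [NormedAddCommGroup E] [NormedSpace ℝ E] {d : ℕ} (Y : Finset (Tor d))
    (Φ : (Tor d → E) → E) : Prop :=
  ∃ w : Tor d → ℝ, ∀ f, Φ f = ∑ y ∈ Y, w y • f y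

variable {E : Type*} [NormedAddCommGroup E] [NormedSpace ℝ E] {d : ℕ} {Y : Finset (Tor d)}

lemma IsComb.zero : IsComb Y (fun _ : Tor d → E => (0 : E)) :=
  ⟨0, fun f => by simp⟩

lemma IsComb.eval {x : Tor d} (hx : x ∈ Y) : IsComb Y (fun f : Tor d → E => f x) := by
  classical
  refine ⟨Pi.single x 1, fun f => ?_⟩
  rw [Finset.sum_eq_single x]
  · simp
  · intro y _ hy
    simp [hy]
  · intro h; exact absurd hx h

lemma IsComb.add {Φ Ψ : (Tor d → E) → E} (hΦ : IsComb Y Φ) (hΨ : IsComb Y Ψ) :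
    IsComb Y (fun f => Φ f + Ψ f) := by
  obtain ⟨w, hw⟩ := hΦ
  obtain ⟨w', hw'⟩ := hΨ
  refine ⟨w + w', fun f => ?_⟩
  beta_reduce
  rw [hw, hw', ← Finset.sum_add_distrib]
  simp [add_smul]

lemma IsComb.smul {Φ : (Tor d → E) → E} (hΦ : IsComb Y Φ) (c : ℝ) :
    IsComb Y (fun f => c • Φ f) := by
  obtain ⟨w, hw⟩ := hΦ
  refine ⟨c • w, fun f => ?_⟩
  beta_reduce
  rw [hw, Finset.smul_sum]
  simp [smul_smul]

lemma IsComb.sub {Φ Ψ : (Tor d → E) → E} (hΦ : IsComb Y Φ) (hΨ : IsComb Y Ψ) :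
    IsComb Y (fun f => Φ f - Ψ f) := by
  have := hΦ.add (hΨ.smul (-1))
  simpa [sub_eq_add_neg] using this

lemma IsComb.sum {ι : Type*} (s : Finset ι) {Φ : ι → (Tor d → E) → E}
    (h : ∀ i ∈ s, IsComb Y (Φ i)) : IsComb Y (fun f => ∑ i ∈ s, Φ i f) := by
  classical
  induction s using Finset.induction_on with
  | empty => simpa using IsComb.zero
  | insert a s ha ih =>
    have h1 : (fun f => ∑ i ∈ insert a s, Φ i f) = fun f => Φ a f + ∑ i ∈ s, Φ i f := by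
      funext f; rw [Finset.sum_insert ha]
    rw [h1]
    exact (h a (Finset.mem_insert_self _ _)).add
      (ih fun i hi => h i (Finset.mem_insert_of_mem hi))

lemma IsComb.mono {Y' : Finset (Tor d)} {Φ : (Tor d → E) → E} (hΦ : IsComb Y Φ) (h : Y ⊆ Y') :
    IsComb Y' Φ := by
  classical
  obtain ⟨w, hw⟩ := hΦ
  refine ⟨fun y => if y ∈ Y then w y else 0, fun f => ?_⟩
  rw [hw, ← Finset.sum_subset h]
  · apply Finset.sum_congr rfl
    intro y hy
    simp [hy]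
  · intro y _ hy
    simp [hy]

lemma IsComb.congr {Φ Ψ : (Tor d → E) → E} (hΦ : IsComb Y Φ) (h : ∀ f, Ψ f = Φ f) :
    IsComb Y Ψ := by
  obtain ⟨w, hw⟩ := hΦ
  exact ⟨w, fun f => by rw [h, hw]⟩

lemma cons_inj (y : Circ) : Function.Injective (fun x : Tor d => (Fin.cons y x : Tor (d + 1))) := by
  intro x x' h
  exact (Fin.cons_injective2 h).2

lemma IsComb.slice {Φ : (Tor d → E) → E} (hΦ : IsComb Y Φ) (y : Circ)
    {Y' : Finset (Tor (d + 1))} (h : ∀ x ∈ Y, (Fin.cons y x : Tor (d + 1)) ∈ Y') :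
    IsComb Y' (fun f : Tor (d + 1) → E => Φ (fun x => f (Fin.cons y x))) := by
  classical
  obtain ⟨w, hw⟩ := hΦ
  have h1 : IsComb (Y.image fun x => (Fin.cons y x : Tor (d + 1)))
      (fun f : Tor (d + 1) → E => Φ (fun x => f (Fin.cons y x))) := by
    refine ⟨fun z => w (Fin.tail z), fun f => ?_⟩
    beta_reduce
    rw [hw, Finset.sum_image (fun _ _ _ _ h => cons_inj y h)]
    apply Finset.sum_congr rfl
    intro x _
    rw [Fin.tail_cons]
  apply h1.mono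
  intro z hz
  rw [Finset.mem_image] at hz
  obtain ⟨x, hx, rfl⟩ := hz
  exact h x hx

/-- Coefficients are combinations of two values. -/
lemma coef_comb (s m : ℕ) (hm : m < 2 ^ s) : ∃ ε δ : ℝ, ∀ h : Circ → E,
    coef s h m = ε • h (pt s m) + δ • h (pt s (m - 1)) := by
  by_cases hs : s = 0
  · subst hs
    have : m = 0 := by simpa using hm
    subst this
    refine ⟨1, 0, fun h => ?_⟩
    simp [coef, pt_zero]
  · by_cases ho : m % 2 = 1
    · refine ⟨1, -1, fun h => ?_⟩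
      simp only [coef, hs, if_false, ho, if_true]
      simp [sub_eq_add_neg]
    · refine ⟨0, 0, fun h => ?_⟩
      simp only [coef, hs, if_false, ho]
      simp

lemma comb_coef2 {Y : Finset (Tor 2)} (s₁ s₂ m₁ m₂ : ℕ) (h₁ : m₁ < 2 ^ s₁) (h₂ : m₂ < 2 ^ s₂)
    (hY : ∀ j₁ j₂, j₁ < 2 ^ s₁ → j₂ < 2 ^ s₂ → (![pt s₁ j₁, pt s₂ j₂] : Tor 2) ∈ Y) :
    IsComb Y (fun f : Tor 2 → E => coef2 s₁ s₂ (fun z : Circ × Circ => f ![z.1, z.2]) m₁ m₂) := by
  obtain ⟨ε, δ, h⟩ := coef_comb (E := E) s₁ m₁ h₁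
  obtain ⟨ε', δ', h'⟩ := coef_comb (E := E) s₂ m₂ h₂
  have e1 : IsComb Y (fun f : Tor 2 → E =>
      ε • (ε' • f ![pt s₁ m₁, pt s₂ m₂] + δ' • f ![pt s₁ m₁, pt s₂ (m₂ - 1)])
      + δ • (ε' • f ![pt s₁ (m₁ - 1), pt s₂ m₂] + δ' • f ![pt s₁ (m₁ - 1), pt s₂ (m₂ - 1)])) :=
    ((((IsComb.eval (hY m₁ m₂ h₁ h₂)).smul ε').add
      ((IsComb.eval (hY m₁ (m₂ - 1) h₁ (by omega))).smul δ')).smul ε).add
    ((((IsComb.eval (hY (m₁ - 1) m₂ (by omega) h₂)).smul ε').add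
      ((IsComb.eval (hY (m₁ - 1) (m₂ - 1) (by omega) (by omega))).smul δ')).smul δ)
  apply e1.congr
  intro f
  unfold coef2
  rw [h, h', h']

/-! ### Sums over levels -/

lemma summable_sq_geom {α : ℝ} (hα : 0 < α) :
    Summable (fun i : ℕ => ((i : ℝ) + 1) ^ 2 * 2 ^ (-(α * i))) := by
  have hq : (2 : ℝ) ^ (-α) < 1 := by
    apply Real.rpow_lt_one_of_one_lt_of_neg (by norm_num); linarith
  have hq0 : 0 < (2 : ℝ) ^ (-α) := by positivity
  have h1 := summable_pow_mul_geometric_of_norm_lt_one (R := ℝ) 2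
    (r := (2 : ℝ) ^ (-α)) (by rw [Real.norm_of_nonneg hq0.le]; exact hq)
  have h2 := (summable_nat_add_iff 1).2 h1
  have h3 := h2.mul_left ((2 : ℝ) ^ α)
  refine h3.congr fun i => ?_
  have h4 : (2 : ℝ) ^ (-(α * i)) = ((2 : ℝ) ^ (-α)) ^ i := by
    rw [← Real.rpow_natCast, ← Real.rpow_mul (by norm_num)]
    congr 1; ring
  rw [h4, pow_succ]
  have h5 : (2 : ℝ) ^ α * (2 : ℝ) ^ (-α) = 1 := by
    rw [← Real.rpow_add (by norm_num)]; simp
  push_cast
  calc (2 : ℝ) ^ α * (((i : ℝ) + 1) ^ 2 * (((2 : ℝ) ^ (-α)) ^ i * 2 ^ (-α)))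
      = ((2 : ℝ) ^ α * (2 : ℝ) ^ (-α)) * (((i : ℝ) + 1) ^ 2 * ((2 : ℝ) ^ (-α)) ^ i) := by ring
    _ = _ := by rw [h5, one_mul]

/-- The constant for sums over levels. -/
def cG (α : ℝ) : ℝ := ∑' i : ℕ, ((i : ℝ) + 1) ^ 2 * 2 ^ (-(α * i))

lemma one_le_cG {α : ℝ} (hα : 0 < α) : 1 ≤ cG α := by
  have h := (summable_sq_geom hα).le_tsum 0 (fun i _ => by positivity)
  simpa [cG] using h

lemma sum_levels {α : ℝ} (hα : 0 < α) (J n : ℕ) :
    ∑ s ∈ (Finset.range (J + 1) ×ˢ Finset.range (J + 1)).filter (fun s => n ≤ s.1 + s.2),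
      (1 + ((s.1 + s.2 - n : ℕ) : ℝ)) * 2 ^ (-(α * (s.1 + s.2 : ℕ)))
      ≤ cG α * ((n : ℝ) + 1) * 2 ^ (-(α * n)) := by
  set D := (Finset.range (J + 1) ×ˢ Finset.range (J + 1)).filter (fun s => n ≤ s.1 + s.2)
    with hD
  set φ : ℕ → ℝ := fun m => (1 + ((m - n : ℕ) : ℝ)) * 2 ^ (-(α * (m : ℕ))) with hφ
  have hmaps : ∀ s ∈ D, s.1 + s.2 - n ∈ Finset.range (2 * J + 1) := by
    intro s hs
    simp only [hD, Finset.mem_filter, Finset.mem_product, Finset.mem_range] at hs ⊢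
    omega
  have h1 : ∑ s ∈ D, (1 + ((s.1 + s.2 - n : ℕ) : ℝ)) * 2 ^ (-(α * (s.1 + s.2 : ℕ)))
      = ∑ i ∈ Finset.range (2 * J + 1), ∑ s ∈ D.filter (fun s => s.1 + s.2 - n = i),
        φ (s.1 + s.2) := (Finset.sum_fiberwise_of_maps_to hmaps _).symm
  rw [h1]
  have h2 : ∀ i ∈ Finset.range (2 * J + 1),
      ∑ s ∈ D.filter (fun s => s.1 + s.2 - n = i), φ (s.1 + s.2)
        ≤ ((n : ℝ) + 1) * 2 ^ (-(α * n)) * (((i : ℝ) + 1) ^ 2 * 2 ^ (-(α * i))) := by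
    intro i _
    have h3 : ∀ s ∈ D.filter (fun s => s.1 + s.2 - n = i), φ (s.1 + s.2) = φ (n + i) := by
      intro s hs
      simp only [hD, Finset.mem_filter] at hs
      congr 1; omega
    rw [Finset.sum_congr rfl h3, Finset.sum_const, nsmul_eq_mul]
    have h4 : (D.filter (fun s => s.1 + s.2 - n = i)).card ≤ n + i + 1 := by
      rw [← Finset.Nat.card_antidiagonal (n + i)]
      apply Finset.card_le_card
      intro s hs
      simp only [hD, Finset.mem_filter] at hs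
      rw [Finset.HasAntidiagonal.mem_antidiagonal]
      omega
    have h5 : ((D.filter (fun s => s.1 + s.2 - n = i)).card : ℝ) ≤ (n + 1) * (i + 1) := by
      have : ((D.filter (fun s => s.1 + s.2 - n = i)).card : ℝ) ≤ n + i + 1 := by
        exact_mod_cast h4
      have h6 : (0 : ℝ) ≤ (n : ℝ) * i := by positivity
      nlinarith
    have h7 : φ (n + i) = (i + 1) * (2 ^ (-(α * n)) * 2 ^ (-(α * i))) := by
      simp only [hφ]
      rw [← Real.rpow_add (by norm_num), Nat.add_sub_cancel_left]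
      push_cast
      rw [show -(α * ((n : ℝ) + i)) = -(α * n) + -(α * i) by ring]
      ring
    rw [h7]
    calc _ ≤ ((n + 1) * (i + 1) : ℝ) * ((i + 1) * (2 ^ (-(α * n)) * 2 ^ (-(α * i)))) := by
          gcongr
      _ = _ := by ring
  refine (Finset.sum_le_sum h2).trans ?_
  rw [← Finset.mul_sum]
  have h3 : ∑ i ∈ Finset.range (2 * J + 1), (((i : ℝ) + 1) ^ 2 * 2 ^ (-(α * i))) ≤ cG α :=
    (summable_sq_geom hα).sum_le_tsum _ (fun i _ => by positivity)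
  calc _ ≤ ((n : ℝ) + 1) * 2 ^ (-(α * n)) * cG α := by gcongr
    _ = _ := by ring

end

end Run7.h221
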