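import Mathlib

/-!
Sampling numbers of the mixed Hölder-Nikol'skii classes: definitions.
-/

open MeasureTheory
open scoped ENNReal

namespace Run7.h221

noncomputable section

instance factTwoPi : Fact (0 < 2 * Real.pi) := ⟨Real.two_pi_pos⟩

/-- The circle, that is the real line modulo `2π`. -/
abbrev Circ : Type := AddCircle (2 * Real.pi)

/-- The torus of dimension `d`. -/
abbrev Tor (d : ℕ) : Type := Fin d → Circ

/-- Normalised Lebesgue (Haar probability) measure on the torus. -/
def torMeas (d : ℕ) : Measure (Tor d) :=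
  Measure.pi fun _ => AddCircle.haarAddCircle

/-- The mixed difference: for each coordinate `j` in `e` the `l`-th forward difference with
step `t j` in the variable `x j` is applied. -/
def mixedDiff {E : Type*} [AddCommGroup E] {d : ℕ} (l : ℕ) (e : Finset (Fin d))
    (t : Fin d → ℝ) (f : Tor d → E) : Tor d → E :=
  (List.finRange d).foldr
    (fun j g => if j ∈ e then (fwdDiff (Pi.single j ((t j : ℝ) : Circ)))^[l] g else g) f

/-- The mixed Hölder-Nikol'skii class, as a set of continuous functions: the `L_p` norm is at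
most `1`, and the `L_p` norm of every mixed `l`-th difference in the variables in a nonempty
set `e` with steps `t j` is at most the product over `j ∈ e` of `|t j| ^ r`. -/
def HNClass (𝕜 : Type) [RCLike 𝕜] (d l : ℕ) (r : ℝ) (p : ℝ≥0∞) : Set C(Tor d, 𝕜) :=
  {f | eLpNorm f p (torMeas d) ≤ 1 ∧
    ∀ e : Finset (Fin d), e.Nonempty → ∀ t : Fin d → ℝ,
      eLpNorm (mixedDiff l e t f) p (torMeas d) ≤ ENNReal.ofReal (∏ j ∈ e, |t j| ^ r)}

/-- The `m`-th sampling number of a set `F` of continuous functions in `L_q`: the infimum, over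
`m` points `x i` and `m` continuous functions `ψ i`, of the supremum over `f` in `F` of the
`L_q` norm of `f - ∑ i, f (x i) * ψ i`. -/
def samplingNumber {𝕜 : Type} [RCLike 𝕜] {d : ℕ} (m : ℕ) (F : Set C(Tor d, 𝕜)) (q : ℝ≥0∞) :
    ℝ≥0∞ :=
  ⨅ (x : Fin m → Tor d) (ψ : Fin m → C(Tor d, 𝕜)), ⨆ f ∈ F,
    eLpNorm (fun y => f y - ∑ i, f (x i) * ψ i y) q (torMeas d)

end

end Run7.h221
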