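import Pool.Agent.Run7.h221.LemB

/-!
Mixed differences of general orders, real norms of continuous functions, Marchaud's inequality.
-/

open MeasureTheory Filter Topology
open scoped ENNReal

namespace Run7.h221

noncomputable section

set_option linter.unusedSectionVars false

variable {E : Type*} [NormedAddCommGroup E] [NormedSpace ℝ E]

section algebra

variable {M G : Type*} [AddCommGroup M] [AddCommGroup G]

lemma fwdDiff_comm (a b : M) (f : M → G) :
    fwdDiff a (fwdDiff b f) = fwdDiff b (fwdDiff a f) := by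
  ext x
  simp only [fwdDiff]
  rw [show x + a + b = x + b + a by abel]
  abel

lemma fwdDiff_iter_comm (a b : M) (m n : ℕ) (f : M → G) :
    (fwdDiff a)^[m] ((fwdDiff b)^[n] f) = (fwdDiff b)^[n] ((fwdDiff a)^[m] f) := by
  have h : Function.Commute (fwdDiff (G := G) a) (fwdDiff b) := fun f => fwdDiff_comm a b f
  exact (h.iterate_iterate m n) f

/-- Fold of iterated differences over a list of coordinates. -/
def foldD {d : ℕ} {G : Type*} [AddCommGroup G] (L : List (Fin d)) (k : Fin d → ℕ) (t : Fin d → ℝ)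
    (f : Tor d → G) : Tor d → G :=
  L.foldr (fun j g => (fwdDiff (Pi.single j ((t j : ℝ) : Circ)))^[k j] g) f

/-- Mixed difference with orders `k j` and steps `t j`. -/
def dOp {d : ℕ} {G : Type*} [AddCommGroup G] (k : Fin d → ℕ) (t : Fin d → ℝ)
    (f : Tor d → G) : Tor d → G := foldD (List.finRange d) k t f

variable {d : ℕ}

lemma foldD_nil (k : Fin d → ℕ) (t : Fin d → ℝ) (f : Tor d → G) : foldD [] k t f = f := rfl

lemma foldD_cons (j : Fin d) (L : List (Fin d)) (k : Fin d → ℕ) (t : Fin d → ℝ)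
    (f : Tor d → G) : foldD (j :: L) k t f
      = (fwdDiff (Pi.single j ((t j : ℝ) : Circ)))^[k j] (foldD L k t f) := rfl

lemma mixedDiff_eq (l : ℕ) (e : Finset (Fin d)) (t : Fin d → ℝ) (f : Tor d → G) :
    mixedDiff l e t f = dOp (fun j => if j ∈ e then l else 0) t f := by
  unfold mixedDiff dOp foldD
  congr 1
  ext j g x
  by_cases h : j ∈ e <;> simp [h]

lemma foldD_congr (L : List (Fin d)) {k k' : Fin d → ℕ} {t t' : Fin d → ℝ}
    (h : ∀ j ∈ L, k j = k' j) (ht : ∀ j ∈ L, k j ≠ 0 → t j = t' j) (f : Tor d → G) :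
    foldD L k t f = foldD L k' t' f := by
  induction L with
  | nil => rfl
  | cons j L ih =>
    rw [foldD_cons, foldD_cons, ih (fun i hi => h i (List.mem_cons_of_mem _ hi))
      (fun i hi => ht i (List.mem_cons_of_mem _ hi)), h j List.mem_cons_self]
    by_cases h0 : k j = 0
    · rw [h j List.mem_cons_self] at h0
      rw [h0]; rfl
    · rw [ht j List.mem_cons_self h0]

lemma foldD_peel (L : List (Fin d)) (hL : L.Nodup) (k : Fin d → ℕ) (t : Fin d → ℝ)
    (f : Tor d → G) {j0 : Fin d} (hj : j0 ∈ L) :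
    foldD L k t f = (fwdDiff (Pi.single j0 ((t j0 : ℝ) : Circ)))^[k j0]
      (foldD L (Function.update k j0 0) t f) := by
  induction L with
  | nil => simp at hj
  | cons j L ih =>
    rw [foldD_cons, foldD_cons]
    rw [List.nodup_cons] at hL
    by_cases h : j = j0
    · subst h
      have h1 : foldD L k t f = foldD L (Function.update k j 0) t f := by
        apply foldD_congr
        · intro i hi
          rw [Function.update_of_ne]
          rintro rfl
          exact hL.1 hi
        · intros; rfl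
      rw [h1, Function.update_self]
      rfl
    · have hj' : j0 ∈ L := by
        rcases List.mem_cons.1 hj with h' | h'
        · exact absurd h'.symm h
        · exact h'
      rw [ih hL.2 hj', fwdDiff_iter_comm, Function.update_of_ne h]

lemma dOp_peel (k : Fin d → ℕ) (t : Fin d → ℝ) (f : Tor d → G) (j0 : Fin d) :
    dOp k t f = (fwdDiff (Pi.single j0 ((t j0 : ℝ) : Circ)))^[k j0]
      (dOp (Function.update k j0 0) t f) :=
  foldD_peel _ (List.nodup_finRange d) k t f (List.mem_finRange j0)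

lemma dOp_update_zero (k : Fin d → ℕ) (t : Fin d → ℝ) (f : Tor d → G) (j0 : Fin d) (τ : ℝ) :
    dOp (Function.update k j0 0) (Function.update t j0 τ) f = dOp (Function.update k j0 0) t f := by
  apply foldD_congr
  · intros; rfl
  · intro j _ hj
    have : j ≠ j0 := by
      rintro rfl
      simp at hj
    rw [Function.update_of_ne this]

lemma dOp_update (k : Fin d → ℕ) (t : Fin d → ℝ) (f : Tor d → G) (j0 : Fin d) (m : ℕ) (τ : ℝ) :
    dOp (Function.update k j0 m) (Function.update t j0 τ) f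
      = (fwdDiff (Pi.single j0 ((τ : ℝ) : Circ)))^[m] (dOp (Function.update k j0 0) t f) := by
  rw [dOp_peel _ _ f j0, Function.update_self, Function.update_self, Function.update_idem,
    dOp_update_zero]

lemma dOp_zero (t : Fin d → ℝ) (f : Tor d → G) : dOp 0 t f = f := by
  unfold dOp
  generalize List.finRange d = L
  induction L with
  | nil => rfl
  | cons j L ih => rw [foldD_cons, ih]; rfl

lemma fwdDiff_iter_sub (a : M) (m : ℕ) (f g : M → G) :
    (fwdDiff a)^[m] (f - g) = (fwdDiff a)^[m] f - (fwdDiff a)^[m] g := by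
  induction m generalizing f g with
  | zero => rfl
  | succ m ih =>
    rw [Function.iterate_succ_apply, Function.iterate_succ_apply, Function.iterate_succ_apply,
      ← ih]
    congr 1
    ext x
    simp only [fwdDiff, Pi.sub_apply]
    abel

lemma foldD_sub (L : List (Fin d)) (k : Fin d → ℕ) (t : Fin d → ℝ) (f g : Tor d → G) :
    foldD L k t (f - g) = foldD L k t f - foldD L k t g := by
  induction L with
  | nil => rfl
  | cons j L ih => rw [foldD_cons, foldD_cons, foldD_cons, ih, fwdDiff_iter_sub]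

lemma dOp_sub (k : Fin d → ℕ) (t : Fin d → ℝ) (f g : Tor d → G) :
    dOp k t (f - g) = dOp k t f - dOp k t g := foldD_sub _ _ _ _ _

end algebra

lemma fwdDiff_continuous {M : Type*} [TopologicalSpace M] [AddCommGroup M]
    [IsTopologicalAddGroup M] (a : M) {f : M → E} (hf : Continuous f) :
    Continuous (fwdDiff a f) := by
  unfold fwdDiff
  fun_prop

lemma fwdDiff_iter_continuous {M : Type*} [TopologicalSpace M] [AddCommGroup M]
    [IsTopologicalAddGroup M] (a : M) {f : M → E} (hf : Continuous f) (m : ℕ) :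
    Continuous ((fwdDiff a)^[m] f) := by
  induction m generalizing f with
  | zero => exact hf
  | succ m ih =>
    rw [Function.iterate_succ_apply]
    exact ih (fwdDiff_continuous a hf)

lemma foldD_continuous {d : ℕ} (L : List (Fin d)) (k : Fin d → ℕ) (t : Fin d → ℝ)
    {f : Tor d → E} (hf : Continuous f) : Continuous (foldD L k t f) := by
  induction L with
  | nil => exact hf
  | cons j L ih => rw [foldD_cons]; exact fwdDiff_iter_continuous _ ih _

lemma dOp_continuous {d : ℕ} (k : Fin d → ℕ) (t : Fin d → ℝ)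
    {f : Tor d → E} (hf : Continuous f) : Continuous (dOp k t f) := foldD_continuous _ _ _ hf

/-- Real-valued `L_p` norm on the torus. -/
def nrm {d : ℕ} (p : ℝ) (g : Tor d → E) : ℝ :=
  (eLpNorm g (ENNReal.ofReal p) (torMeas d)).toReal

instance (d : ℕ) : IsProbabilityMeasure (torMeas d) := by
  unfold torMeas; infer_instance

instance (d : ℕ) : (torMeas d).IsAddLeftInvariant := by
  unfold torMeas; infer_instance

instance (d : ℕ) : (torMeas d).IsAddRightInvariant := by
  unfold torMeas; infer_instance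

variable {d : ℕ}

lemma memLp_of_cont {p : ℝ≥0∞} {g : Tor d → E} (hg : Continuous g) :
    MemLp g p (torMeas d) := by
  obtain ⟨C, hC⟩ := (isCompact_univ (X := Tor d)).exists_bound_of_continuousOn hg.continuousOn
  exact MemLp.of_bound hg.aestronglyMeasurable C (ae_of_all _ fun x => hC x (Set.mem_univ x))

lemma eLpNorm_ne_top_of_cont {p : ℝ≥0∞} {g : Tor d → E} (hg : Continuous g) :
    eLpNorm g p (torMeas d) ≠ ⊤ := (memLp_of_cont hg).eLpNorm_ne_top

lemma nrm_nonneg (p : ℝ) (g : Tor d → E) : 0 ≤ nrm p g := ENNReal.toReal_nonneg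

lemma nrm_le_iff {p : ℝ} {g : Tor d → E} (hg : Continuous g) {B : ℝ} (hB : 0 ≤ B) :
    eLpNorm g (ENNReal.ofReal p) (torMeas d) ≤ ENNReal.ofReal B ↔ nrm p g ≤ B := by
  unfold nrm
  rw [← ENNReal.le_ofReal_iff_toReal_le (eLpNorm_ne_top_of_cont hg) hB]

lemma nrm_add_le {p : ℝ} (hp : 1 ≤ p) {f g : Tor d → E} (hf : Continuous f) (hg : Continuous g) :
    nrm p (f + g) ≤ nrm p f + nrm p g := by
  unfold nrm
  rw [← ENNReal.toReal_add (eLpNorm_ne_top_of_cont hf) (eLpNorm_ne_top_of_cont hg)]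
  apply ENNReal.toReal_mono
  · exact ENNReal.add_ne_top.2 ⟨eLpNorm_ne_top_of_cont hf, eLpNorm_ne_top_of_cont hg⟩
  · exact eLpNorm_add_le hf.aestronglyMeasurable hg.aestronglyMeasurable
      (by rw [ENNReal.one_le_ofReal]; exact hp)

lemma nrm_smul {p : ℝ} (c : ℝ) (g : Tor d → E) : nrm p (c • g) = |c| * nrm p g := by
  unfold nrm
  rw [eLpNorm_const_smul, ENNReal.toReal_mul]
  simp

lemma nrm_neg {p : ℝ} (g : Tor d → E) : nrm p (-g) = nrm p g := by
  unfold nrm
  rw [eLpNorm_neg]

lemma nrm_sub_le {p : ℝ} (hp : 1 ≤ p) {f g : Tor d → E} (hf : Continuous f) (hg : Continuous g) :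
    nrm p (f - g) ≤ nrm p f + nrm p g := by
  rw [sub_eq_add_neg]
  refine (nrm_add_le hp hf hg.neg).trans ?_
  rw [nrm_neg]

lemma eLpNorm_translate {p : ℝ≥0∞} {g : Tor d → E} (hg : Continuous g) (a : Tor d) :
    eLpNorm (fun x => g (x + a)) p (torMeas d) = eLpNorm g p (torMeas d) := by
  have h := (measurePreserving_add_right (torMeas d) a)
  exact eLpNorm_comp_measurePreserving hg.aestronglyMeasurable h

lemma nrm_translate {p : ℝ} {g : Tor d → E} (hg : Continuous g) (a : Tor d) :
    nrm p (fun x => g (x + a)) = nrm p g := by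
  unfold nrm
  rw [eLpNorm_translate hg]

lemma nrm_fwdDiff_le {p : ℝ} (hp : 1 ≤ p) {g : Tor d → E} (hg : Continuous g) (a : Tor d) :
    nrm p (fwdDiff a g) ≤ 2 * nrm p g := by
  have h1 : fwdDiff a g = (fun x => g (x + a)) - g := by
    ext x; rfl
  rw [h1]
  refine (nrm_sub_le hp (by fun_prop) hg).trans ?_
  rw [nrm_translate hg]; linarith

lemma nrm_fwdDiff_iter_le {p : ℝ} (hp : 1 ≤ p) {g : Tor d → E} (hg : Continuous g) (a : Tor d)
    (k : ℕ) : nrm p ((fwdDiff a)^[k] g) ≤ 2 ^ k * nrm p g := by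
  induction k generalizing g with
  | zero => simp
  | succ k ih =>
    rw [Function.iterate_succ_apply]
    refine (ih (fwdDiff_continuous a hg)).trans ?_
    have := nrm_fwdDiff_le hp hg a
    rw [pow_succ]
    have h2 : (0 : ℝ) < 2 ^ k := by positivity
    nlinarith

lemma marchaud_step {p : ℝ} (hp : 1 ≤ p) (a : Tor d) (k : ℕ) {g : Tor d → E}
    (hg : Continuous g) :
    nrm p ((fwdDiff a)^[k] g) ≤ (1 / 2) ^ k * nrm p ((fwdDiff (a + a))^[k] g)
      + (k / 2) * nrm p ((fwdDiff a)^[k + 1] g) := by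
  induction k generalizing g with
  | zero => simp
  | succ k ih =>
    set g' := fwdDiff (a + a) g with hg'
    have hg'c : Continuous g' := fwdDiff_continuous _ hg
    have h1 := ih hg'c
    -- the basic identity
    have hid : ∀ w : Tor d → E, fwdDiff (a + a) w = (2 : ℝ) • fwdDiff a w + (fwdDiff a)^[2] w := by
      intro w
      ext x
      simp only [Function.iterate_succ, Function.iterate_zero, Function.comp, id, fwdDiff,
        Pi.add_apply, two_smul, add_assoc]
      abel
    have h2 : (fwdDiff a)^[k + 1] g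
        = (1 / 2 : ℝ) • ((fwdDiff a)^[k] g' - (fwdDiff a)^[k + 2] g) := by
      have h3 : (fwdDiff a)^[k] g' = (2 : ℝ) • (fwdDiff a)^[k + 1] g + (fwdDiff a)^[k + 2] g := by
        have h4 : (fwdDiff a)^[k] g' = fwdDiff (a + a) ((fwdDiff a)^[k] g) := by
          rw [hg']
          exact fwdDiff_iter_comm a (a + a) k 1 g
        rw [h4, hid, ← Function.iterate_succ_apply' (fwdDiff a) k g,
          ← Function.iterate_add_apply, add_comm 2 k]
      rw [h3, add_sub_cancel_right, smul_smul]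
      norm_num
    have h5 : nrm p ((fwdDiff a)^[k + 1] g')
        ≤ 2 * nrm p ((fwdDiff a)^[k + 2] g) := by
      have h6 : (fwdDiff a)^[k + 1] g'
          = (fun x => ((fwdDiff a)^[k + 2] g) (x + a)) + (fwdDiff a)^[k + 2] g := by
        have h4 : (fwdDiff a)^[k + 1] g' = fwdDiff (a + a) ((fwdDiff a)^[k + 1] g) := by
          rw [hg']
          exact fwdDiff_iter_comm a (a + a) (k + 1) 1 g
        rw [h4, show k + 2 = (k + 1) + 1 by ring, Function.iterate_succ_apply' (fwdDiff a) (k + 1)]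
        set w := (fwdDiff a)^[k + 1] g
        ext x
        simp only [fwdDiff, Pi.add_apply, add_assoc]
        abel
      rw [h6]
      have hc := fwdDiff_iter_continuous a hg (k + 2)
      refine (nrm_add_le hp (by fun_prop) hc).trans ?_
      rw [nrm_translate hc]; linarith
    have h7 : nrm p ((fwdDiff a)^[k + 1] g)
        ≤ 1 / 2 * (nrm p ((fwdDiff a)^[k] g') + nrm p ((fwdDiff a)^[k + 2] g)) := by
      rw [h2, nrm_smul, abs_of_pos (by norm_num : (0 : ℝ) < 1 / 2)]
      gcongr
      exact nrm_sub_le hp (fwdDiff_iter_continuous a hg'c k)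
        (fwdDiff_iter_continuous a hg (k + 2))
    have h8 : (fwdDiff (a + a))^[k] g' = (fwdDiff (a + a))^[k + 1] g := by
      rw [Function.iterate_succ_apply]
    rw [h8] at h1
    have hk : (0 : ℝ) ≤ k / 2 := by positivity
    have h9 := mul_le_mul_of_nonneg_left h5 hk
    rw [pow_succ]
    push_cast
    rw [show k + 1 + 1 = k + 2 by ring]
    nlinarith [h1, h7, h9]

lemma marchaud_seq {r : ℝ} {k : ℕ} (hk : 1 ≤ k) (hr0 : 0 < r) (hr : r < 1) {u v : ℝ → ℝ}
    {A B : ℝ} (hA : 0 ≤ A) (hB : 0 ≤ B) (hu : ∀ τ, u τ ≤ A) (hv : ∀ τ, v τ ≤ B * |τ| ^ r)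
    (h : ∀ τ, u τ ≤ (1 / 2) ^ k * u (2 * τ) + (k / 2) * v τ) (τ : ℝ) :
    u τ ≤ (A + k * B / (1 - 2 ^ (r - 1))) * |τ| ^ r := by
  have hq : (2 : ℝ) ^ (r - 1) < 1 := by
    apply Real.rpow_lt_one_of_one_lt_of_neg (by norm_num); linarith
  have hq0 : 0 < (2 : ℝ) ^ (r - 1) := by positivity
  have hpos : 0 < 1 - (2 : ℝ) ^ (r - 1) := by linarith
  set C : ℝ := A + k * B / (1 - 2 ^ (r - 1)) with hC
  have hCA : A ≤ C := by
    have : 0 ≤ k * B / (1 - 2 ^ (r - 1)) := by positivity
    linarith
  have hC0 : 0 ≤ C := hA.trans hCA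
  have hpow : ((1 : ℝ) / 2) ^ k * 2 ^ r ≤ 2 ^ (r - 1) := by
    have h1 : ((1 : ℝ) / 2) ^ k ≤ 1 / 2 := by
      calc ((1 : ℝ) / 2) ^ k ≤ (1 / 2) ^ 1 :=
            pow_le_pow_of_le_one (by norm_num) (by norm_num) hk
        _ = 1 / 2 := by norm_num
    have h2 : (2 : ℝ) ^ (r - 1) = 1 / 2 * 2 ^ r := by
      rw [Real.rpow_sub (by norm_num), Real.rpow_one]; ring
    rw [h2]
    have : (0 : ℝ) < 2 ^ r := by positivity
    nlinarith
  have key : ∀ n : ℕ, ∀ τ : ℝ, 1 ≤ 2 ^ n * |τ| → u τ ≤ C * |τ| ^ r := by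
    intro n
    induction n with
    | zero =>
      intro τ hτ
      rw [pow_zero, one_mul] at hτ
      have h1 : 1 ≤ |τ| ^ r := Real.one_le_rpow hτ hr0.le
      calc u τ ≤ A := hu τ
        _ ≤ C := hCA
        _ ≤ C * |τ| ^ r := le_mul_of_one_le_right hC0 h1
    | succ n ih =>
      intro τ hτ
      have h1 : 1 ≤ 2 ^ n * |2 * τ| := by
        rw [abs_mul, abs_of_pos (by norm_num : (0 : ℝ) < 2)]
        rw [pow_succ] at hτ
        linarith
      have h2 := ih (2 * τ) h1
      have h3 := h τ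
      have h4 : |2 * τ| ^ r = 2 ^ r * |τ| ^ r := by
        rw [abs_mul, abs_of_pos (by norm_num : (0 : ℝ) < 2),
          Real.mul_rpow (by norm_num) (abs_nonneg _)]
      rw [h4] at h2
      have h5 : 0 ≤ |τ| ^ r := by positivity
      have hk2 : (0 : ℝ) ≤ k / 2 := by positivity
      have h6 : u τ ≤ (1 / 2) ^ k * (C * (2 ^ r * |τ| ^ r)) + (k / 2) * (B * |τ| ^ r) := by
        refine h3.trans (add_le_add ?_ ?_)
        · gcongr
        · exact mul_le_mul_of_nonneg_left (hv τ) hk2
      have h7 : k * B ≤ (C - A) * (1 - 2 ^ (r - 1)) := by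
        rw [hC]
        field_simp
        linarith
      have h8 : (1 / 2 : ℝ) ^ k * (C * (2 ^ r * |τ| ^ r)) ≤ 2 ^ (r - 1) * C * |τ| ^ r := by
        calc (1 / 2 : ℝ) ^ k * (C * (2 ^ r * |τ| ^ r))
            = ((1 / 2) ^ k * 2 ^ r) * (C * |τ| ^ r) := by ring
          _ ≤ 2 ^ (r - 1) * (C * |τ| ^ r) := by gcongr
          _ = _ := by ring
      have h9 : (k : ℝ) / 2 * (B * |τ| ^ r) ≤ (C * (1 - 2 ^ (r - 1))) * |τ| ^ r := by
        have : (k : ℝ) / 2 * B ≤ C * (1 - 2 ^ (r - 1)) := by
          have h10 : (k : ℝ) / 2 * B ≤ k * B := by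
            have : (0 : ℝ) ≤ k * B := by positivity
            linarith
          nlinarith
        calc (k : ℝ) / 2 * (B * |τ| ^ r) = (k / 2 * B) * |τ| ^ r := by ring
          _ ≤ _ := by gcongr
      calc u τ ≤ 2 ^ (r - 1) * C * |τ| ^ r + (C * (1 - 2 ^ (r - 1))) * |τ| ^ r := by linarith
        _ = C * |τ| ^ r := by ring
  by_cases hτ : τ = 0
  · subst hτ
    have h1 := h 0
    have h2 := hv 0
    rw [mul_zero] at h1
    rw [abs_zero, Real.zero_rpow hr0.ne', mul_zero] at h2 ⊢
    have h3 : ((1 : ℝ) / 2) ^ k ≤ 1 / 2 := by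
      calc ((1 : ℝ) / 2) ^ k ≤ (1 / 2) ^ 1 :=
            pow_le_pow_of_le_one (by norm_num) (by norm_num) hk
        _ = 1 / 2 := by norm_num
    have hk2 : (0 : ℝ) ≤ k / 2 := by positivity
    have h4 : (k : ℝ) / 2 * v 0 ≤ 0 := mul_nonpos_of_nonneg_of_nonpos hk2 h2
    by_contra hcon
    push Not at hcon
    nlinarith
  · have h1 : 0 < |τ| := abs_pos.2 hτ
    obtain ⟨n, hn⟩ := pow_unbounded_of_one_lt (1 / |τ|) (by norm_num : (1 : ℝ) < 2)
    apply key n τ
    rw [div_lt_iff₀ h1] at hn
    exact hn.le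

end

end Run7.h221
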