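import Pool.Agent.Run7.h221.ClsL

/-!
Embedding into classes of lower smoothness, the uniform bound and the modulus of continuity.
-/

open MeasureTheory Filter Topology
open scoped ENNReal

namespace Run7.h221

noncomputable section

set_option linter.unusedSectionVars false

variable {E : Type} [NormedAddCommGroup E] [NormedSpace ℝ E] {d : ℕ}

lemma small_rep (t : ℝ) : ∃ t' : ℝ, ((t' : ℝ) : Circ) = ((t : ℝ) : Circ) ∧ |t'| ≤ 2 * Real.pi ∧
    |t'| ≤ |t| := by
  by_cases h : |t| ≤ 2 * Real.pi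
  · exact ⟨t, rfl, h, le_rfl⟩
  · push Not at h
    refine ⟨toIcoMod Real.two_pi_pos 0 t, ?_, ?_, ?_⟩
    · rw [← self_sub_toIcoDiv_zsmul, AddCircle.coe_sub, AddCircle.coe_zsmul,
        AddCircle.coe_period, smul_zero, sub_zero]
    · have := toIcoMod_mem_Ico Real.two_pi_pos 0 t
      rw [zero_add] at this
      rw [abs_of_nonneg this.1]; exact this.2.le
    · have := toIcoMod_mem_Ico Real.two_pi_pos 0 t
      rw [zero_add] at this
      rw [abs_of_nonneg this.1]; exact this.2.le.trans h.le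

lemma foldD_congr_coe (L : List (Fin d)) (k : Fin d → ℕ) {t t' : Fin d → ℝ}
    (h : ∀ j, ((t j : ℝ) : Circ) = ((t' j : ℝ) : Circ)) (f : Tor d → E) :
    foldD L k t f = foldD L k t' f := by
  induction L with
  | nil => rfl
  | cons j L ih => rw [foldD_cons, foldD_cons, ih, h j]

/-- Lowering the smoothness. -/
theorem HL.toHC {l : ℕ} (hl : 1 ≤ l) {p r η : ℝ} (hp : 1 ≤ p) (hη0 : 0 < η) (hη1 : η < 1)
    (hηr : η ≤ r) (d : ℕ) : ∃ C : ℝ, 1 ≤ C ∧ ∀ K : ℝ, 0 ≤ K → ∀ f : Tor d → E,
      HL l p r K f → HC p η (C * K) f := by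
  obtain ⟨C, hC1, hC⟩ := marchaud_multi (E := E) hp hη0 hη1 hl (Finset.univ : Finset (Fin d))
  have hr0 : r ≠ 0 := by intro h; linarith
  set M : ℝ := (2 * Real.pi) ^ (r - η) with hM
  have hpi : (1 : ℝ) ≤ 2 * Real.pi := by linarith [Real.pi_gt_three]
  have hM1 : 1 ≤ M := Real.one_le_rpow hpi (by linarith)
  refine ⟨C * M ^ d, ?_, ?_⟩
  · have := one_le_pow₀ hM1 (n := d)
    nlinarith
  intro K hK f hf
  refine ⟨hf.cont, ?_⟩
  intro k hk
  rw [mul_assoc]
  refine hC (M ^ d * K) (by positivity) f hf.cont ?_ k (fun j _ => (hk j).trans hl)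
    (fun j hj => absurd (Finset.mem_univ j) hj)
  intro k hk t
  choose t' h1 h2 h3 using fun j => small_rep (t j)
  have h4 : dOp k t f = dOp k t' f := foldD_congr_coe _ _ (fun j => (h1 j).symm) _
  rw [h4]
  refine (hf.bd k hk t').trans ?_
  have h5 : ∀ j, wt r (k j) (t' j) ≤ M * wt η (k j) (t j) := by
    intro j
    unfold wt
    split_ifs
    · linarith
    · have h6 : |t' j| ^ r = |t' j| ^ (r - η) * |t' j| ^ η := by
        by_cases h0 : t' j = 0
        · rw [h0, abs_zero, Real.zero_rpow hr0,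
            Real.zero_rpow hη0.ne', mul_zero]
        · rw [← Real.rpow_add (abs_pos.2 h0)]
          congr 1; ring
      rw [h6]
      apply mul_le_mul
      · exact Real.rpow_le_rpow (abs_nonneg _) (h2 j) (by linarith)
      · exact Real.rpow_le_rpow (abs_nonneg _) (h3 j) hη0.le
      · positivity
      · positivity
  calc K * ∏ j, wt r (k j) (t' j) ≤ K * ∏ j, (M * wt η (k j) (t j)) := by
        apply mul_le_mul_of_nonneg_left _ hK
        exact Finset.prod_le_prod (fun j _ => wt_nonneg _ _ _) (fun j _ => h5 j)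
    _ = M ^ d * K * ∏ j, wt η (k j) (t j) := by
        rw [Finset.prod_mul_distrib, Finset.prod_const, Finset.card_univ, Fintype.card_fin]
        ring

/-- The uniform bound. -/
theorem HC.sup_bound [CompleteSpace E] {p η : ℝ} (hp : 1 ≤ p) (hη : 1 / p < η) (d : ℕ) :
    ∃ C : ℝ, 1 ≤ C ∧ ∀ K : ℝ, 0 ≤ K → ∀ f : Tor d → E, HC p η K f → ∀ x, ‖f x‖ ≤ C * K := by
  have hp0 : 0 < p := by linarith
  have hη0 : 0 < η := lt_trans (by positivity) hη
  induction d with
  | zero =>
    refine ⟨1, le_rfl, ?_⟩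
    intro K hK f hf x
    have h1 := hf.bd 0 (fun j => by simp) 0
    rw [dOp_zero] at h1
    simp only [Finset.univ_eq_empty, Finset.prod_empty, mul_one] at h1
    rw [one_mul]
    refine le_trans (le_of_eq ?_) h1
    unfold nrm torMeas
    rw [Measure.pi_of_empty _ x]
    have hconst : f = fun _ => f x := by
      funext y; rw [Subsingleton.elim y x]
    rw [hconst, eLpNorm_const' _ (by simpa using hp0) ENNReal.ofReal_ne_top]
    simp
  | succ d ih =>
    obtain ⟨C, hC1, hC⟩ := ih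
    have hcS := one_le_cS hη0 hη
    refine ⟨C * cS p η, by nlinarith, ?_⟩
    intro K hK f hf x
    have h1 := hf.slice_eval hp hη hK (x 0)
    have h2 := hC (cS p η * K) (by positivity) _ h1 (Fin.tail x)
    rw [Fin.cons_self_tail] at h2
    rw [mul_assoc]; exact h2

/-- The uniform modulus of continuity. -/
theorem HC.modulus [CompleteSpace E] {p η : ℝ} (hp : 1 ≤ p) (hη : 1 / p < η) (d : ℕ) :
    ∃ C : ℝ, 1 ≤ C ∧ ∀ K : ℝ, 0 ≤ K → ∀ f : Tor d → E, HC p η K f → ∀ (s : ℕ) (x : Tor d)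
      (τ : Fin d → ℝ), (∀ j, |τ j| ≤ stp s) →
      ‖f (x + fun j => ((τ j : ℝ) : Circ)) - f x‖ ≤ C * K * 2 ^ (-((η - 1 / p) * s)) := by
  have hp0 : 0 < p := by linarith
  have hη0 : 0 < η := lt_trans (by positivity) hη
  have hcS := one_le_cS hη0 hη
  induction d with
  | zero =>
    refine ⟨1, le_rfl, ?_⟩
    intro K hK f hf s x τ _
    rw [Subsingleton.elim (x + fun j => ((τ j : ℝ) : Circ)) x, sub_self, norm_zero]
    positivity
  | succ d ih =>
    obtain ⟨C, hC1, hC⟩ := ih
    obtain ⟨C', hC'1, hC'⟩ := HC.sup_bound (E := E) hp hη d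
    refine ⟨(C' + C) * cS p η, by nlinarith, ?_⟩
    intro K hK f hf s x τ hτ
    set y : Circ := x 0 with hy
    set x' : Tor d := Fin.tail x with hx'
    set τ' : Fin d → ℝ := Fin.tail τ with hτ'
    have h1 : (x + fun j => ((τ j : ℝ) : Circ))
        = Fin.cons (y + ((τ 0 : ℝ) : Circ)) (x' + fun j => ((τ' j : ℝ) : Circ)) := by
      funext j
      refine Fin.cases ?_ (fun i => ?_) j
      · simp [hy]
      · simp [hx', hτ', Fin.tail]
    have h2 : x = Fin.cons y x' := (Fin.cons_self_tail x).symm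
    have h3 := hC' _ (by positivity) _ (hf.slice_diff hp hη hK s (hτ 0) y)
      (x' + fun j => ((τ' j : ℝ) : Circ))
    have h4 := hC _ (by positivity) _ (hf.slice_eval hp hη hK y) s x' τ' (fun j => hτ _)
    rw [h1]
    conv_lhs => rw [h2]
    calc ‖f (Fin.cons (y + ((τ 0 : ℝ) : Circ)) (x' + fun j => ((τ' j : ℝ) : Circ)))
          - f (Fin.cons y x')‖
        = ‖(f (Fin.cons (y + ((τ 0 : ℝ) : Circ)) (x' + fun j => ((τ' j : ℝ) : Circ)))
            - f (Fin.cons y (x' + fun j => ((τ' j : ℝ) : Circ))))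
          + (f (Fin.cons y (x' + fun j => ((τ' j : ℝ) : Circ))) - f (Fin.cons y x'))‖ := by
          congr 1; abel
      _ ≤ _ := norm_add_le _ _
      _ ≤ C' * (cS p η * K * 2 ^ (-((η - 1 / p) * s)))
          + C * (cS p η * K) * 2 ^ (-((η - 1 / p) * s)) := add_le_add h3 h4
      _ = _ := by ring

end

end Run7.h221
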