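import Pool.Agent.Run7.h221.Par2

/-!
The induction on the dimension.
-/

open MeasureTheory Filter Topology
open scoped ENNReal

namespace Run7.h221

noncomputable section

set_option linter.unusedSectionVars false

variable {E : Type} [NormedAddCommGroup E] [NormedSpace ℝ E] {d : ℕ}

lemma IsComb.map_sum_smul {Y : Finset (Tor d)} {Φ : (Tor d → E) → E} (h : IsComb Y Φ)
    {ι : Type*} (S : Finset ι) (c : ι → ℝ) (g : ι → Tor d → E) :
    Φ (fun x => ∑ i ∈ S, c i • g i x) = ∑ i ∈ S, c i • Φ (g i) := by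
  obtain ⟨w, hw⟩ := h
  simp only [hw, Finset.smul_sum]
  rw [Finset.sum_comm]
  apply Finset.sum_congr rfl
  intro i _
  apply Finset.sum_congr rfl
  intro y _
  rw [smul_comm]

lemma IsComb.slice_Wo {Y : Finset (Tor d)} {Φ : (Tor d → E) → E} (h : IsComb Y Φ) {l s J k : ℕ}
    (hl : 1 ≤ l) {Y' : Finset (Tor (d + 1))}
    (hY : ∀ j, j < 2 ^ s → ∀ x ∈ Y, (Fin.cons (pt s j) x : Tor (d + 1)) ∈ Y') :
    IsComb Y' (fun f : Tor (d + 1) → E =>
      Φ (fun x => Wo l s J k (fun y => f (Fin.cons y x)))) := by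
  obtain ⟨w, P, hP, hW⟩ := Wo_pts (l := l) (t := s) (J := J) (k := k) hl
  have e1 : IsComb Y' (fun f : Tor (d + 1) → E => ∑ i ∈ Finset.range (2 * l), w i •
      Φ (fun x => f (Fin.cons (P i) x))) := by
    apply IsComb.sum
    intro i _
    apply IsComb.smul
    apply h.slice
    intro x hx
    obtain ⟨a, j, ha, hj, hPi⟩ := hP i
    rw [hPi]
    obtain ⟨e, rfl⟩ := Nat.exists_eq_add_of_le ha
    rw [← pt_scale a e j]
    apply hY _ _ x hx
    rw [pow_add]
    exact Nat.mul_lt_mul_of_pos_right hj (by positivity)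
  apply e1.congr
  intro f
  rw [← h.map_sum_smul]
  congr 1
  funext x
  exact hW _

open scoped Classical in
/-- The points for the next dimension. -/
def nextY (Y : ℕ → Finset (Tor d)) (n : ℕ) : Finset (Tor (d + 1)) :=
  (Finset.range (n + 1)).biUnion fun s =>
    (Finset.range (2 ^ s) ×ˢ Y (n - s)).image fun q => (Fin.cons (pt s q.1) q.2 : Tor (d + 1))

lemma mem_nextY {Y : ℕ → Finset (Tor d)} {n s j : ℕ} (hs : s ≤ n) (hj : j < 2 ^ s) {x : Tor d}
    (hx : x ∈ Y (n - s)) : (Fin.cons (pt s j) x : Tor (d + 1)) ∈ nextY Y n := by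
  classical
  unfold nextY
  rw [Finset.mem_biUnion]
  refine ⟨s, Finset.mem_range.2 (by omega), ?_⟩
  rw [Finset.mem_image]
  exact ⟨(j, x), by simp [hj, hx], rfl⟩

lemma nextY_card {Y : ℕ → Finset (Tor d)} {C b : ℝ} (hb : 0 ≤ b) (hC : 0 ≤ C)
    (hY : ∀ n, ((Y n).card : ℝ) ≤ C * 2 ^ n * ((n : ℝ) + 1) ^ b) (n : ℕ) :
    ((nextY Y n).card : ℝ) ≤ C * 2 ^ n * ((n : ℝ) + 1) ^ (b + 1) := by
  classical
  have h1 : (nextY Y n).card ≤ ∑ s ∈ Finset.range (n + 1), 2 ^ s * (Y (n - s)).card := by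
    unfold nextY
    refine Finset.card_biUnion_le.trans (Finset.sum_le_sum fun s _ => ?_)
    refine Finset.card_image_le.trans ?_
    rw [Finset.card_product, Finset.card_range]
  have h2 : ((nextY Y n).card : ℝ)
      ≤ ∑ s ∈ Finset.range (n + 1), (2 : ℝ) ^ s * ((Y (n - s)).card : ℝ) := by
    exact_mod_cast h1
  refine h2.trans ?_
  have h3 : ∀ s ∈ Finset.range (n + 1), (2 : ℝ) ^ s * ((Y (n - s)).card : ℝ)
      ≤ C * 2 ^ n * ((n : ℝ) + 1) ^ b := by
    intro s hs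
    rw [Finset.mem_range] at hs
    have h4 : ((n - s : ℕ) : ℝ) + 1 ≤ (n : ℝ) + 1 := by
      have : ((n - s : ℕ) : ℝ) ≤ (n : ℝ) := by exact_mod_cast Nat.sub_le n s
      linarith
    calc (2 : ℝ) ^ s * ((Y (n - s)).card : ℝ)
        ≤ 2 ^ s * (C * 2 ^ (n - s) * (((n - s : ℕ) : ℝ) + 1) ^ b) := by
          gcongr
          exact hY _
      _ ≤ 2 ^ s * (C * 2 ^ (n - s) * ((n : ℝ) + 1) ^ b) := by
          gcongr
      _ = C * ((2 : ℝ) ^ s * 2 ^ (n - s)) * ((n : ℝ) + 1) ^ b := by ring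
      _ = _ := by
        rw [← pow_add]
        congr 3; omega
  refine (Finset.sum_le_sum h3).trans ?_
  rw [Finset.sum_const, Finset.card_range, nsmul_eq_mul, Real.rpow_add (by positivity),
    Real.rpow_one]
  push_cast
  exact le_of_eq (by ring)

theorem Rate.succ [CompleteSpace E] {l : ℕ} (hl : 1 ≤ l) {p r η : ℝ} (hp : 1 ≤ p)
    (hη : 1 / p < η) (hη1 : η < 1) (hηr : η ≤ r) {b e : ℝ} (hb : 0 ≤ b) (he : 0 ≤ e)
    (h : Rate E d l p r b e) : Rate E (d + 1) l p r (b + 1) (e + 1) := by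
  obtain ⟨C, hC1, hC⟩ := h
  choose Y hYc J₀ hJ₀ using hC
  obtain ⟨C₁, hC₁1, hC₁⟩ := HL.slice_Wo (E := E) l hl hp hη hη1 hηr d
  have hp0 : 0 < p := by linarith
  have hpi : 0 < 1 / p := by positivity
  obtain ⟨C₂, hC₂1, hC₂⟩ := HL.toHC (E := E) hl hp (lt_trans hpi hη) hη1 hηr d
  obtain ⟨C₃, hC₃1, hC₃⟩ := HC.sup_bound (E := E) hp hη d
  set α : ℝ := r - 1 / p with hα
  have hα0 : 0 < α := by rw [hα]; linarith
  set g : ℝ := 1 / (1 - 2 ^ (-α)) with hg
  have hq1 : (2 : ℝ) ^ (-α) < 1 := Real.rpow_lt_one_of_one_lt_of_neg (by norm_num) (by linarith)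
  have hq0 : 0 < (2 : ℝ) ^ (-α) := by positivity
  have hg1 : 1 ≤ g := by
    rw [hg, le_div_iff₀ (by linarith)]; linarith
  have hg0 : 0 < g := by linarith
  set A : ℝ := C * C₁ + C₃ * C₂ * C₁ * g with hA
  have hA1 : C ≤ A := by
    have h1 : C ≤ C * C₁ := by nlinarith
    have h2 : 0 ≤ C₃ * C₂ * C₁ * g := by positivity
    linarith
  refine ⟨A, hC1.trans hA1, ?_⟩
  intro n
  refine ⟨nextY Y n, ?_, max n ((Finset.range (n + 1)).sup J₀), ?_⟩
  · refine (nextY_card hb (by linarith) hYc n).trans ?_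
    gcongr
  intro J hJ k hk
  have hnJ : n ≤ J := (le_max_left _ _).trans hJ
  have hJs : ∀ s ≤ n, J₀ (n - s) ≤ J := by
    intro s _
    exact ((Finset.le_sup (f := J₀) (Finset.mem_range.2 (by omega : n - s < n + 1))).trans
      (le_max_right _ _)).trans hJ
  choose! Φ hΦ1 hΦ2 using fun s (hs : s ≤ n) => hJ₀ (n - s) J (hJs s hs) (Fin.tail k)
    (fun j => hk _)
  refine ⟨fun f => ∑ s ∈ Finset.range (n + 1),
    Φ s (fun x => Wo l s J (k 0) (fun y => f (Fin.cons y x))), ?_, ?_⟩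
  · apply IsComb.sum
    intro s hs
    rw [Finset.mem_range] at hs
    exact (hΦ1 s (by omega)).slice_Wo hl (fun j hj x hx => mem_nextY (by omega) hj hx)
  · intro K hK f hf
    beta_reduce
    set x' : Tor d := fun j => pt J (Fin.tail k j) with hx'
    set G : ℕ → Tor d → E := fun s x => Wo l s J (k 0) (fun y => f (Fin.cons y x)) with hG
    have hGs : ∀ s ≤ J, HL l p r (C₁ * K * 2 ^ (-(α * s))) (G s) := by
      intro s hs
      exact hC₁ K hK f hf J s (k 0) hs
    have h1 : f (fun j => pt J (k j)) = ∑ s ∈ Finset.range (J + 1), G s x' := by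
      have h2 := Wo_telescope' (J := J) hl (hk 0) (fun y => f (Fin.cons y x'))
      rw [← h2]
      congr 1
      funext j
      refine Fin.cases ?_ (fun i => ?_) j
      · simp
      · simp [hx', Fin.tail]
    have h3 : ∑ s ∈ Finset.range (J + 1), G s x'
        = ∑ s ∈ Finset.range (n + 1), G s x' + ∑ s ∈ Finset.Ico (n + 1) (J + 1), G s x' := by
      rw [Finset.range_eq_Ico, Finset.range_eq_Ico,
        Finset.sum_Ico_consecutive _ (by omega) (by omega)]
    rw [h1, h3]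
    have h4 : ∑ s ∈ Finset.range (n + 1), G s x' + ∑ s ∈ Finset.Ico (n + 1) (J + 1), G s x'
        - ∑ s ∈ Finset.range (n + 1), Φ s (G s)
        = ∑ s ∈ Finset.range (n + 1), (G s x' - Φ s (G s))
          + ∑ s ∈ Finset.Ico (n + 1) (J + 1), G s x' := by
      rw [Finset.sum_sub_distrib]; abel
    rw [h4]
    have hpart1 : ‖∑ s ∈ Finset.range (n + 1), (G s x' - Φ s (G s))‖
        ≤ C * C₁ * K * ((n : ℝ) + 1) ^ (e + 1) * 2 ^ (-(α * n)) := by
      refine (norm_sum_le _ _).trans ?_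
      have h5 : ∀ s ∈ Finset.range (n + 1), ‖G s x' - Φ s (G s)‖
          ≤ C * C₁ * K * ((n : ℝ) + 1) ^ e * 2 ^ (-(α * n)) := by
        intro s hs
        rw [Finset.mem_range] at hs
        have h6 := hΦ2 s (by omega) (C₁ * K * 2 ^ (-(α * s))) (by positivity) (G s)
          (hGs s (by omega))
        refine h6.trans ?_
        have h7 : ((n - s : ℕ) : ℝ) + 1 ≤ (n : ℝ) + 1 := by
          have : ((n - s : ℕ) : ℝ) ≤ (n : ℝ) := by exact_mod_cast Nat.sub_le n s
          linarith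
        calc C * (C₁ * K * 2 ^ (-(α * s))) * (((n - s : ℕ) : ℝ) + 1) ^ e
              * 2 ^ (-(α * ((n - s : ℕ) : ℝ)))
            ≤ C * (C₁ * K * 2 ^ (-(α * s))) * ((n : ℝ) + 1) ^ e
              * 2 ^ (-(α * ((n - s : ℕ) : ℝ))) := by gcongr
          _ = C * C₁ * K * ((n : ℝ) + 1) ^ e
              * (2 ^ (-(α * s)) * 2 ^ (-(α * ((n - s : ℕ) : ℝ)))) := by ring
          _ = _ := by
              rw [← Real.rpow_add (by norm_num)]
              congr 2
              rw [Nat.cast_sub (by omega)]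
              ring
      refine (Finset.sum_le_sum h5).trans ?_
      rw [Finset.sum_const, Finset.card_range, nsmul_eq_mul, Real.rpow_add (by positivity),
        Real.rpow_one]
      push_cast
      exact le_of_eq (by ring)
    have hpart2 : ‖∑ s ∈ Finset.Ico (n + 1) (J + 1), G s x'‖
        ≤ C₃ * C₂ * C₁ * g * K * 2 ^ (-(α * n)) := by
      refine (norm_sum_le _ _).trans ?_
      have h5 : ∀ s ∈ Finset.Ico (n + 1) (J + 1), ‖G s x'‖
          ≤ C₃ * C₂ * C₁ * K * 2 ^ (-(α * n)) * ((2 : ℝ) ^ (-α)) ^ (s - (n + 1)) := by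
        intro s hs
        rw [Finset.mem_Ico] at hs
        have h6 := hC₃ _ (by positivity) _
          (hC₂ (C₁ * K * 2 ^ (-(α * s))) (by positivity) _ (hGs s (by omega))) x'
        refine h6.trans ?_
        have h7 : (2 : ℝ) ^ (-(α * s)) ≤ 2 ^ (-(α * n)) * ((2 : ℝ) ^ (-α)) ^ (s - (n + 1)) := by
          rw [← Real.rpow_natCast, ← Real.rpow_mul (by norm_num),
            ← Real.rpow_add (by norm_num)]
          apply Real.rpow_le_rpow_of_exponent_le (by norm_num)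
          rw [Nat.cast_sub (by omega)]
          push_cast
          nlinarith
        calc C₃ * (C₂ * (C₁ * K * 2 ^ (-(α * s))))
            = C₃ * C₂ * C₁ * K * 2 ^ (-(α * s)) := by ring
          _ ≤ C₃ * C₂ * C₁ * K * (2 ^ (-(α * n)) * ((2 : ℝ) ^ (-α)) ^ (s - (n + 1))) := by
              gcongr
          _ = _ := by ring
      refine (Finset.sum_le_sum h5).trans ?_
      rw [← Finset.mul_sum]
      have h8 : ∑ s ∈ Finset.Ico (n + 1) (J + 1), ((2 : ℝ) ^ (-α)) ^ (s - (n + 1)) ≤ g := by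
        rw [Finset.sum_Ico_eq_sum_range]
        have h9 : ∀ i ∈ Finset.range (J + 1 - (n + 1)),
            ((2 : ℝ) ^ (-α)) ^ (n + 1 + i - (n + 1)) = ((2 : ℝ) ^ (-α)) ^ i := by
          intro i _
          congr 1; omega
        rw [Finset.sum_congr rfl h9, hg]
        have h10 := (summable_geometric_of_lt_one hq0.le hq1).sum_le_tsum
          (Finset.range (J + 1 - (n + 1))) (fun i _ => by positivity)
        rw [tsum_geometric_of_lt_one hq0.le hq1] at h10
        rw [one_div]; exact h10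
      calc C₃ * C₂ * C₁ * K * 2 ^ (-(α * n)) * _
          ≤ C₃ * C₂ * C₁ * K * 2 ^ (-(α * n)) * g := by gcongr
        _ = _ := by ring
    refine (norm_add_le _ _).trans ((add_le_add hpart1 hpart2).trans ?_)
    have h11 : (1 : ℝ) ≤ ((n : ℝ) + 1) ^ (e + 1) := by
      apply Real.one_le_rpow _ (by linarith)
      have : (0 : ℝ) ≤ n := Nat.cast_nonneg _
      linarith
    have h12 : C₃ * C₂ * C₁ * g * K * 2 ^ (-(α * n))
        ≤ C₃ * C₂ * C₁ * g * K * ((n : ℝ) + 1) ^ (e + 1) * 2 ^ (-(α * n)) := by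
      have h13 : 0 ≤ C₃ * C₂ * C₁ * g * K * 2 ^ (-(α * n)) := by positivity
      calc C₃ * C₂ * C₁ * g * K * 2 ^ (-(α * n))
          = (C₃ * C₂ * C₁ * g * K * 2 ^ (-(α * n))) * 1 := by ring
        _ ≤ (C₃ * C₂ * C₁ * g * K * 2 ^ (-(α * n))) * ((n : ℝ) + 1) ^ (e + 1) := by gcongr
        _ = _ := by ring
    calc C * C₁ * K * ((n : ℝ) + 1) ^ (e + 1) * 2 ^ (-(α * n))
          + C₃ * C₂ * C₁ * g * K * 2 ^ (-(α * n))
        ≤ C * C₁ * K * ((n : ℝ) + 1) ^ (e + 1) * 2 ^ (-(α * n))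
          + C₃ * C₂ * C₁ * g * K * ((n : ℝ) + 1) ^ (e + 1) * 2 ^ (-(α * n)) := by gcongr
      _ = _ := by rw [hA]; ring

lemma gam_le_one {p η : ℝ} (hp : 1 < p) (hp2 : p < 2) (hη : 1 / p < η) (_hη1 : η < 1) :
    gam p η ≤ 1 := by
  have hp0 : 0 < p := by linarith
  have hpi : 0 < 1 / p := by positivity
  have hη0 : 0 < η := lt_trans hpi hη
  unfold gam
  rw [div_le_one (by positivity)]
  have h1 : 0 < η - 1 / p := by linarith
  have h2 : (η - 1 / p) * (2 - p) ≤ (η - 1 / p) * 1 := by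
    apply mul_le_mul_of_nonneg_left _ h1.le
    linarith
  nlinarith

theorem rate_all (E : Type) [NormedAddCommGroup E] [NormedSpace ℝ E] [CompleteSpace E] (l : ℕ)
    (hl : 1 ≤ l) {p r η : ℝ} (hp : 1 < p) (hp2 : p < 2)
    (hη : 1 / p < η) (hη1 : η < 1) (hηr : η ≤ r) (d : ℕ) :
    Rate E (d + 2) l p r (d + 1) (d + 1 - gam p η) := by
  have hgam := gam_le_one hp hp2 hη hη1
  induction d with
  | zero =>
    simpa using rate_two E l hl hp hp2 hη hη1 hηr
  | succ d ih =>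
    have h := Rate.succ hl hp.le hη hη1 hηr (by positivity)
      (by have : (0 : ℝ) ≤ d := Nat.cast_nonneg _; linarith) ih
    have e1 : ((d + 1 : ℕ) : ℝ) + 1 = (d : ℝ) + 1 + 1 := by push_cast; ring
    have e2 : ((d + 1 : ℕ) : ℝ) + 1 - gam p η = (d : ℝ) + 1 - gam p η + 1 := by push_cast; ring
    rw [e2, e1]
    exact h

end

end Run7.h221
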