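import Pool.Agent.Run7.h221.Tele

/-!
Local polynomial interpolation on dyadic grids of the circle.
-/

open Filter Topology

namespace Run7.h221

noncomputable section

set_option linter.unusedSectionVars false

/-! ### Lagrange basis at the nodes `0, …, l-1` -/

/-- Lagrange basis value. -/
def lam (l i : ℕ) (θ : ℝ) : ℝ :=
  (Lagrange.basis (Finset.range l) (fun i : ℕ => (i : ℝ)) i).eval θ

lemma node_inj (l : ℕ) : Set.InjOn (fun i : ℕ => (i : ℝ)) (Finset.range l : Set ℕ) :=
  fun _ _ _ _ h => Nat.cast_injective h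

lemma lam_zero {l i : ℕ} (hi : i < l) : lam l i 0 = if i = 0 then 1 else 0 := by
  unfold lam
  split_ifs with h
  · subst h
    have := Lagrange.eval_basis_self (node_inj l) (Finset.mem_range.2 hi)
    simpa using this
  · have := Lagrange.eval_basis_of_ne (s := Finset.range l) (v := fun i : ℕ => (i : ℝ))
      (i := i) (j := 0) h (Finset.mem_range.2 (by omega))
    simpa using this

lemma lam_repro {l : ℕ} (P : Polynomial ℝ) (hP : P.degree < l) (θ : ℝ) :
    ∑ i ∈ Finset.range l, P.eval (i : ℝ) * lam l i θ = P.eval θ := by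
  have h := Lagrange.eq_interpolate (s := Finset.range l) (v := fun i : ℕ => (i : ℝ))
    (f := P) (node_inj l) (by simpa using hP)
  conv_rhs => rw [h]
  rw [Lagrange.interpolate_apply, Polynomial.eval_finsetSum]
  apply Finset.sum_congr rfl
  intro i _
  rw [Polynomial.eval_mul, Polynomial.eval_C]
  rfl

lemma lam_sum {l : ℕ} (hl : 1 ≤ l) (θ : ℝ) : ∑ i ∈ Finset.range l, lam l i θ = 1 := by
  have := lam_repro (l := l) (1 : Polynomial ℝ) (by
    rw [Polynomial.degree_one]; exact_mod_cast hl) θ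
  simpa using this

lemma poly_bound (P : Polynomial ℝ) : ∃ C : ℝ, 0 ≤ C ∧ ∀ θ ∈ Set.Icc (0 : ℝ) 1,
    |P.eval θ| ≤ C ∧ ∀ θ' ∈ Set.Icc (0 : ℝ) 1, |P.eval θ - P.eval θ'| ≤ C * |θ - θ'| := by
  obtain ⟨C₁, h₁⟩ := isCompact_Icc.exists_bound_of_continuousOn
    (f := fun θ => P.eval θ) (s := Set.Icc (0 : ℝ) 1) P.continuous.continuousOn
  obtain ⟨C₂, h₂⟩ := isCompact_Icc.exists_bound_of_continuousOn
    (f := fun θ => P.derivative.eval θ) (s := Set.Icc (0 : ℝ) 1) P.derivative.continuous.continuousOn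
  refine ⟨max (max C₁ C₂) 0, le_max_right _ _, ?_⟩
  intro θ hθ
  refine ⟨?_, ?_⟩
  · have := h₁ θ hθ
    rw [Real.norm_eq_abs] at this
    exact this.trans ((le_max_left _ _).trans (le_max_left _ _))
  · intro θ' hθ'
    have h := (convex_Icc (0 : ℝ) 1).norm_image_sub_le_of_norm_deriv_le
      (f := fun θ => P.eval θ) (C := max (max C₁ C₂) 0)
      (fun x _ => P.differentiable.differentiableAt)
      (fun x hx => by
        rw [Polynomial.deriv]
        exact (h₂ x hx).trans ((le_max_right _ _).trans (le_max_left _ _))) hθ' hθ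
    simpa [Real.norm_eq_abs] using h

lemma lam_bound (l : ℕ) : ∃ C : ℝ, 1 ≤ C ∧ ∀ i < l, ∀ θ ∈ Set.Icc (0 : ℝ) 1,
    |lam l i θ| ≤ C ∧ ∀ θ' ∈ Set.Icc (0 : ℝ) 1, |lam l i θ - lam l i θ'| ≤ C * |θ - θ'| := by
  choose C hC0 hC using fun i : ℕ =>
    poly_bound (Lagrange.basis (Finset.range l) (fun i : ℕ => (i : ℝ)) i)
  refine ⟨1 + ∑ i ∈ Finset.range l, C i, ?_, ?_⟩
  · have : 0 ≤ ∑ i ∈ Finset.range l, C i := Finset.sum_nonneg fun i _ => hC0 i
    linarith
  · intro i hi θ hθ
    have h1 : C i ≤ 1 + ∑ i ∈ Finset.range l, C i := by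
      have := Finset.single_le_sum (f := C) (fun i _ => hC0 i) (Finset.mem_range.2 hi)
      linarith
    refine ⟨(hC i θ hθ).1.trans h1, fun θ' hθ' => ((hC i θ hθ).2 θ' hθ').trans ?_⟩
    exact mul_le_mul_of_nonneg_right h1 (abs_nonneg _)

/-! ### Summation by parts -/

/-- Minus the partial sums. -/
def PS (A : ℕ → ℝ) (j : ℕ) : ℝ := -∑ i ∈ Finset.range (j + 1), A i

variable {F : Type*} [AddCommGroup F] [Module ℝ F]

lemma sbp (A : ℕ → ℝ) (u : ℕ → F) (L : ℕ) :
    ∑ j ∈ Finset.range L, A j • u j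
      = ∑ j ∈ Finset.range L, PS A j • (u (j + 1) - u j)
        + (∑ j ∈ Finset.range L, A j) • u L := by
  induction L with
  | zero => simp
  | succ L ih =>
    rw [Finset.sum_range_succ, ih, Finset.sum_range_succ (fun j => PS A j • (u (j + 1) - u j))]
    have h : PS A L = -(∑ j ∈ Finset.range (L + 1), A j) := rfl
    rw [h, Finset.sum_range_succ A L]
    simp only [smul_sub, neg_smul, add_smul]
    abel

lemma choose_diff (i : ℕ) (j : ℕ) :
    (((j + 1).choose (i + 1) : ℕ) : ℝ) - ((j.choose (i + 1) : ℕ) : ℝ) = (j.choose i : ℝ) := by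
  rw [Nat.choose_succ_succ]
  push_cast; ring

lemma PS_repr (l : ℕ) : ∀ (A : ℕ → ℝ) (u : ℕ → F) (L : ℕ),
    (∀ i < l, ∑ j ∈ Finset.range L, A j * (j.choose i : ℝ) = 0) →
    ∑ j ∈ Finset.range L, A j • u j
      = ∑ j ∈ Finset.range L, (PS^[l] A) j • ((fwdDiff 1)^[l] u) j := by
  induction l with
  | zero => intro A u L _; rfl
  | succ l ih =>
    intro A u L h
    have h0 : ∑ j ∈ Finset.range L, A j = 0 := by
      have := h 0 (by omega)
      simpa using this
    rw [sbp, h0, zero_smul, add_zero]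
    have hmom : ∀ i < l, ∑ j ∈ Finset.range L, PS A j * (j.choose i : ℝ) = 0 := by
      intro i hi
      have h1 := sbp A (fun j => ((j.choose (i + 1) : ℕ) : ℝ)) L
      rw [h0, zero_smul, add_zero] at h1
      simp only [smul_eq_mul, choose_diff] at h1
      rw [← h1]
      exact h (i + 1) (by omega)
    have h2 := ih (PS A) (fwdDiff 1 u) L hmom
    rw [Function.iterate_succ_apply, Function.iterate_succ_apply]
    exact h2

lemma PS_bound (l L : ℕ) : ∀ (A : ℕ → ℝ) (C : ℝ), 0 ≤ C → (∀ j < L, |A j| ≤ C) →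
    ∀ j < L, |(PS^[l] A) j| ≤ (L : ℝ) ^ l * C := by
  induction l with
  | zero => intro A C _ h j hj; simpa using h j hj
  | succ l ih =>
    intro A C hC h j hj
    rw [Function.iterate_succ_apply]
    have h1 : ∀ j < L, |PS A j| ≤ L * C := by
      intro j hj
      unfold PS
      rw [abs_neg]
      refine (Finset.abs_sum_le_sum_abs _ _).trans ?_
      refine (Finset.sum_le_card_nsmul _ _ C ?_).trans ?_
      · intro i hi
        rw [Finset.mem_range] at hi
        exact h i (by omega)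
      · rw [Finset.card_range, nsmul_eq_mul]
        have : ((j + 1 : ℕ) : ℝ) ≤ L := by exact_mod_cast hj
        gcongr
    refine (ih (PS A) (L * C) (by positivity) h1 j hj).trans_eq ?_
    rw [pow_succ]; ring

lemma PS_sub (A A' : ℕ → ℝ) : PS (A - A') = PS A - PS A' := by
  funext j
  simp only [PS, Pi.sub_apply, Finset.sum_sub_distrib]
  ring

lemma PS_iter_sub (l : ℕ) (A A' : ℕ → ℝ) : PS^[l] (A - A') = PS^[l] A - PS^[l] A' := by
  induction l generalizing A A' with
  | zero => rfl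
  | succ l ih =>
    rw [Function.iterate_succ_apply, Function.iterate_succ_apply, Function.iterate_succ_apply,
      PS_sub, ih]

/-! ### The coefficients -/

/-- Coefficients of the difference of two consecutive interpolants. -/
def acf (l ε : ℕ) (θ : ℝ) (j : ℕ) : ℝ :=
  ∑ i ∈ Finset.range l, (if ε + i = j then lam l i θ else 0)
    - ∑ i ∈ Finset.range l, (if 2 * i = j then lam l i ((θ + ε) / 2) else 0)

lemma acf_sum {l ε : ℕ} (hε : ε ≤ 1) (hl : 1 ≤ l) (θ : ℝ) (v : ℕ → F) :
    ∑ j ∈ Finset.range (2 * l), acf l ε θ j • v j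
      = ∑ i ∈ Finset.range l, lam l i θ • v (ε + i)
        - ∑ i ∈ Finset.range l, lam l i ((θ + ε) / 2) • v (2 * i) := by
  unfold acf
  simp only [sub_smul, Finset.sum_sub_distrib, Finset.sum_smul, ite_smul, zero_smul]
  congr 1
  · rw [Finset.sum_comm]
    apply Finset.sum_congr rfl
    intro i hi
    rw [Finset.mem_range] at hi
    rw [Finset.sum_ite_eq, if_pos]
    rw [Finset.mem_range]; omega
  · rw [Finset.sum_comm]
    apply Finset.sum_congr rfl
    intro i hi
    rw [Finset.mem_range] at hi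
    rw [Finset.sum_ite_eq, if_pos]
    rw [Finset.mem_range]; omega

/-- Binomial polynomial. -/
def chP (i : ℕ) : Polynomial ℝ := Polynomial.C ((i.factorial : ℝ)⁻¹) * descPochhammer ℝ i

lemma chP_eval (i j : ℕ) : (chP i).eval (j : ℝ) = (j.choose i : ℝ) := by
  unfold chP
  rw [Polynomial.eval_mul, Polynomial.eval_C, descPochhammer_eval_eq_descFactorial,
    Nat.descFactorial_eq_factorial_mul_choose]
  push_cast
  rw [← mul_assoc, inv_mul_cancel₀ (by positivity), one_mul]

lemma chP_degree {i l : ℕ} (h : i < l) : (chP i).degree < l := by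
  refine lt_of_le_of_lt Polynomial.degree_le_natDegree ?_
  have h1 : (chP i).natDegree ≤ i := by
    unfold chP
    refine (Polynomial.natDegree_C_mul_le _ _).trans ?_
    rw [descPochhammer_natDegree]
  exact_mod_cast lt_of_le_of_lt h1 h

lemma acf_moment {l ε : ℕ} (hε : ε ≤ 1) (hl : 1 ≤ l) (θ : ℝ) {i : ℕ} (hi : i < l) :
    ∑ j ∈ Finset.range (2 * l), acf l ε θ j * (j.choose i : ℝ) = 0 := by
  have h := acf_sum (F := ℝ) hε hl θ (fun j => (j.choose i : ℝ))
  simp only [smul_eq_mul] at h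
  rw [h]
  have h1 : ∑ k ∈ Finset.range l, lam l k θ * ((ε + k).choose i : ℝ) = (chP i).eval (θ + ε) := by
    have h2 := lam_repro (l := l) ((chP i).comp (Polynomial.X + Polynomial.C (ε : ℝ))) ?_ θ
    · rw [Polynomial.eval_comp] at h2
      simp only [Polynomial.eval_add, Polynomial.eval_X, Polynomial.eval_C] at h2
      rw [← h2]
      apply Finset.sum_congr rfl
      intro k _
      rw [Polynomial.eval_comp]
      simp only [Polynomial.eval_add, Polynomial.eval_X, Polynomial.eval_C]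
      rw [mul_comm]
      congr 1
      rw [← chP_eval]
      push_cast
      rw [add_comm]
    · refine lt_of_le_of_lt Polynomial.degree_le_natDegree ?_
      have h3 : ((chP i).comp (Polynomial.X + Polynomial.C (ε : ℝ))).natDegree ≤ i := by
        rw [Polynomial.natDegree_comp, Polynomial.natDegree_X_add_C, mul_one]
        unfold chP
        refine (Polynomial.natDegree_C_mul_le _ _).trans ?_
        rw [descPochhammer_natDegree]
      exact_mod_cast lt_of_le_of_lt h3 hi
  have h1' : ∑ k ∈ Finset.range l, lam l k ((θ + ε) / 2) * ((2 * k).choose i : ℝ)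
      = (chP i).eval (θ + ε) := by
    have h2 := lam_repro (l := l) ((chP i).comp (Polynomial.C (2 : ℝ) * Polynomial.X)) ?_
      ((θ + ε) / 2)
    · rw [Polynomial.eval_comp] at h2
      simp only [Polynomial.eval_mul, Polynomial.eval_X, Polynomial.eval_C] at h2
      rw [mul_div_cancel₀ _ (by norm_num : (2 : ℝ) ≠ 0)] at h2
      rw [← h2]
      apply Finset.sum_congr rfl
      intro k _
      rw [Polynomial.eval_comp]
      simp only [Polynomial.eval_mul, Polynomial.eval_X, Polynomial.eval_C]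
      rw [mul_comm]
      congr 1
      rw [← chP_eval]
      push_cast
      rfl
    · refine lt_of_le_of_lt Polynomial.degree_le_natDegree ?_
      have h3 : ((chP i).comp (Polynomial.C (2 : ℝ) * Polynomial.X)).natDegree ≤ i := by
        rw [Polynomial.natDegree_comp, Polynomial.natDegree_C_mul_X _ (by norm_num), mul_one]
        unfold chP
        refine (Polynomial.natDegree_C_mul_le _ _).trans ?_
        rw [descPochhammer_natDegree]
      exact_mod_cast lt_of_le_of_lt h3 hi
  rw [h1, h1', sub_self]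

/-- The coefficients with respect to `l`-th differences. -/
def mcf (l ε : ℕ) (θ : ℝ) : ℕ → ℝ := PS^[l] (acf l ε θ)

lemma mcf_repr {l ε : ℕ} (hε : ε ≤ 1) (hl : 1 ≤ l) (θ : ℝ) (u : ℕ → F) :
    ∑ i ∈ Finset.range l, lam l i θ • u (ε + i)
        - ∑ i ∈ Finset.range l, lam l i ((θ + ε) / 2) • u (2 * i)
      = ∑ j ∈ Finset.range (2 * l), mcf l ε θ j • ((fwdDiff 1)^[l] u) j := by
  rw [← acf_sum hε hl, PS_repr l (acf l ε θ) u (2 * l) (fun i hi => acf_moment hε hl θ hi)]
  rfl

lemma mcf_bound (l : ℕ) : ∃ C : ℝ, 1 ≤ C ∧ ∀ ε ≤ 1, ∀ θ ∈ Set.Icc (0 : ℝ) 1, ∀ j < 2 * l,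
    |mcf l ε θ j| ≤ C ∧ ∀ θ' ∈ Set.Icc (0 : ℝ) 1, |mcf l ε θ j - mcf l ε θ' j| ≤ C * |θ - θ'| := by
  obtain ⟨C, hC1, hC⟩ := lam_bound l
  have hl0 : (0 : ℝ) ≤ l := by positivity
  -- bounds for acf
  have ha : ∀ ε ≤ 1, ∀ θ ∈ Set.Icc (0 : ℝ) 1, ∀ j, |acf l ε θ j| ≤ 2 * l * C := by
    intro ε hε θ hθ j
    have hε' : (ε : ℝ) ≤ 1 := by exact_mod_cast hε
    have hε0 : (0 : ℝ) ≤ ε := by positivity
    have hθ2 : (θ + ε) / 2 ∈ Set.Icc (0 : ℝ) 1 := by
      constructor
      · have := hθ.1; positivity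
      · have := hθ.2; linarith
    have hs : ∀ (c : ℕ → Prop) [DecidablePred c] (φ : ℕ → ℝ), (∀ i < l, |φ i| ≤ C) →
        |∑ i ∈ Finset.range l, (if c i then φ i else 0)| ≤ l * C := by
      intro c _ φ hφ
      refine (Finset.abs_sum_le_sum_abs _ _).trans ?_
      refine (Finset.sum_le_card_nsmul _ _ C ?_).trans ?_
      · intro i hi
        rw [Finset.mem_range] at hi
        split_ifs
        · exact hφ i hi
        · rw [abs_zero]; linarith
      · rw [Finset.card_range, nsmul_eq_mul]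
    unfold acf
    have h1 := hs (fun i => ε + i = j) (fun i => lam l i θ) (fun i hi => (hC i hi θ hθ).1)
    have h2 := hs (fun i => 2 * i = j) (fun i => lam l i ((θ + ε) / 2))
      (fun i hi => (hC i hi _ hθ2).1)
    have h3 := abs_sub (∑ i ∈ Finset.range l, (if ε + i = j then lam l i θ else 0))
      (∑ i ∈ Finset.range l, (if 2 * i = j then lam l i ((θ + ε) / 2) else 0))
    refine (abs_sub _ _).trans ?_
    linarith
  have hd : ∀ ε ≤ 1, ∀ θ ∈ Set.Icc (0 : ℝ) 1, ∀ θ' ∈ Set.Icc (0 : ℝ) 1, ∀ j,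
      |(acf l ε θ - acf l ε θ') j| ≤ 2 * l * (C * |θ - θ'|) := by
    intro ε hε θ hθ θ' hθ' j
    have hε' : (ε : ℝ) ≤ 1 := by exact_mod_cast hε
    have hε0 : (0 : ℝ) ≤ ε := by positivity
    have hθ2 : ∀ θ ∈ Set.Icc (0 : ℝ) 1, (θ + ε) / 2 ∈ Set.Icc (0 : ℝ) 1 := by
      intro θ hθ
      constructor
      · have := hθ.1; positivity
      · have := hθ.2; linarith
    have hs : ∀ (c : ℕ → Prop) [DecidablePred c] (φ φ' : ℕ → ℝ),
        (∀ i < l, |φ i - φ' i| ≤ C * |θ - θ'|) →
        |∑ i ∈ Finset.range l, (if c i then φ i else 0)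
          - ∑ i ∈ Finset.range l, (if c i then φ' i else 0)| ≤ l * (C * |θ - θ'|) := by
      intro c _ φ φ' hφ
      rw [← Finset.sum_sub_distrib]
      refine (Finset.abs_sum_le_sum_abs _ _).trans ?_
      refine (Finset.sum_le_card_nsmul _ _ (C * |θ - θ'|) ?_).trans ?_
      · intro i hi
        rw [Finset.mem_range] at hi
        split_ifs
        · exact hφ i hi
        · rw [sub_self, abs_zero]; positivity
      · rw [Finset.card_range, nsmul_eq_mul]
    have h1 := hs (fun i => ε + i = j) (fun i => lam l i θ) (fun i => lam l i θ')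
      (fun i hi => (hC i hi θ hθ).2 θ' hθ')
    have h2 := hs (fun i => 2 * i = j) (fun i => lam l i ((θ + ε) / 2))
      (fun i => lam l i ((θ' + ε) / 2))
      (fun i hi => by
        refine ((hC i hi _ (hθ2 θ hθ)).2 _ (hθ2 θ' hθ')).trans ?_
        have : (θ + ε) / 2 - (θ' + ε) / 2 = (θ - θ') / 2 := by ring
        rw [this, abs_div, abs_of_pos (by norm_num : (0 : ℝ) < 2)]
        have h5 := abs_nonneg (θ - θ')
        have : |θ - θ'| / 2 ≤ |θ - θ'| := by linarith
        gcongr)
    simp only [Pi.sub_apply]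
    unfold acf
    set a := ∑ i ∈ Finset.range l, (if ε + i = j then lam l i θ else 0)
    set b := ∑ i ∈ Finset.range l, (if 2 * i = j then lam l i ((θ + ε) / 2) else 0)
    set a' := ∑ i ∈ Finset.range l, (if ε + i = j then lam l i θ' else 0)
    set b' := ∑ i ∈ Finset.range l, (if 2 * i = j then lam l i ((θ' + ε) / 2) else 0)
    have h6 : a - b - (a' - b') = (a - a') - (b - b') := by ring
    rw [h6]
    refine (abs_sub _ _).trans ?_
    linarith
  refine ⟨1 + ((2 * l : ℕ) : ℝ) ^ l * (2 * l * C), ?_, ?_⟩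
  · have : (0 : ℝ) ≤ ((2 * l : ℕ) : ℝ) ^ l * (2 * l * C) := by positivity
    linarith
  intro ε hε θ hθ j hj
  refine ⟨?_, ?_⟩
  · have h1 := PS_bound l (2 * l) (acf l ε θ) (2 * l * C) (by positivity)
      (fun j _ => ha ε hε θ hθ j) j hj
    unfold mcf
    linarith
  · intro θ' hθ'
    have h1 := PS_bound l (2 * l) (acf l ε θ - acf l ε θ') (2 * l * (C * |θ - θ'|))
      (by positivity) (fun j _ => hd ε hε θ hθ θ' hθ' j) j hj
    rw [PS_iter_sub] at h1
    unfold mcf
    refine h1.trans ?_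
    have h2 : 0 ≤ |θ - θ'| := abs_nonneg _
    nlinarith

end

end Run7.h221
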