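import Pool.Agent.Run7.h221.Avg

/-!
Lemma B: sums of `p`-th powers over dyadic grids are controlled by `L_p` norms of differences.
-/

open MeasureTheory Filter Topology
open scoped ENNReal

namespace Run7.h221

noncomputable section

set_option linter.unusedSectionVars false

variable {E : Type*} [NormedAddCommGroup E] [NormedSpace ℝ E]
variable {X : Type*} [TopologicalSpace X] [CompactSpace X] [SecondCountableTopology X]
  [MeasurableSpace X] [BorelSpace X]

/-- Haar probability measure on the circle. -/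
abbrev haarC : Measure Circ := AddCircle.haarAddCircle

lemma eLpNorm_rpow_eq {α : Type*} [MeasurableSpace α] {μ : Measure α} {p : ℝ} (hp : 1 ≤ p)
    (g : α → E) : eLpNorm g (ENNReal.ofReal p) μ ^ p = ∫⁻ z, ‖g z‖ₑ ^ p ∂μ := by
  have hp0 : 0 < p := by linarith
  rw [eLpNorm_eq_lintegral_rpow_enorm_toReal (by simpa using hp0)
    ENNReal.ofReal_ne_top, ENNReal.toReal_ofReal hp0.le, ← ENNReal.rpow_mul, one_div,
    inv_mul_cancel₀ hp0.ne', ENNReal.rpow_one]

lemma eLpNorm_eq_rpow {α : Type*} [MeasurableSpace α] {μ : Measure α} {p : ℝ} (hp : 1 ≤ p)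
    (g : α → E) : eLpNorm g (ENNReal.ofReal p) μ = (∫⁻ z, ‖g z‖ₑ ^ p ∂μ) ^ (1 / p) := by
  have hp0 : 0 < p := by linarith
  rw [eLpNorm_eq_lintegral_rpow_enorm_toReal (by simpa using hp0)
    ENNReal.ofReal_ne_top, ENNReal.toReal_ofReal hp0.le]

lemma sum_enorm_avg_le {g : Circ × X → E} (hg : Continuous g) {p : ℝ} (hp : 1 ≤ p) (i : ℕ)
    (y0 : Circ) (x : X) :
    ∫⁻ y, ‖avg (stp i) g (y, x)‖ₑ ^ p ∂(grid i y0)
      ≤ 2 ^ i * ∫⁻ y, ‖g (y, x)‖ₑ ^ p ∂haarC := by
  rw [lintegral_grid]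
  have hst := stp_pos i
  have h1 : ∀ k ∈ Finset.range (2 ^ i),
      ‖avg (stp i) g (y0 + ((k * stp i : ℝ) : Circ), x)‖ₑ ^ p
        ≤ (ENNReal.ofReal (stp i))⁻¹ * ∫⁻ u in Set.Ioc 0 (stp i),
          ‖g (y0 + ((k * stp i : ℝ) : Circ) + (u : Circ), x)‖ₑ ^ p := by
    intro k _
    unfold avg
    apply enorm_avg_rpow_le _ hst hp
    have h1 := cont_coe
    exact hg.comp ((continuous_const.add h1).prodMk continuous_const)
  refine (Finset.sum_le_sum h1).trans ?_
  rw [← Finset.mul_sum, sum_grid_lintegral (φ := fun y => ‖g (y, x)‖ₑ ^ p) i y0, ← mul_assoc]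
  gcongr
  have h3 : (2 : ℝ≥0∞) ^ i = ENNReal.ofReal (2 ^ i) := by
    rw [ENNReal.ofReal_pow (by norm_num)]; simp
  rw [h3, ← pow_mul_stp i, ENNReal.ofReal_mul (by positivity)]
  rw [mul_comm (ENNReal.ofReal (2 ^ i)), ← mul_assoc, ENNReal.inv_mul_cancel, one_mul]
  · simpa using hst
  · exact ENNReal.ofReal_ne_top

lemma eLpNorm_avg_grid_le (ν : Measure X) [IsFiniteMeasure ν] {g : Circ × X → E}
    (hg : Continuous g) {p : ℝ} (hp : 1 ≤ p) (i : ℕ) (y0 : Circ) :
    eLpNorm (avg (stp i) g) (ENNReal.ofReal p) ((grid i y0).prod ν)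
      ≤ ENNReal.ofReal (2 ^ ((i : ℝ) / p)) * eLpNorm g (ENNReal.ofReal p) (haarC.prod ν) := by
  have hp0 : 0 < p := by linarith
  rw [eLpNorm_eq_rpow hp, eLpNorm_eq_rpow hp]
  have hm1 : AEMeasurable (fun z : Circ × X => ‖avg (stp i) g z‖ₑ ^ p) ((grid i y0).prod ν) :=
    ((avg_continuous hg _).enorm.measurable.pow_const _).aemeasurable
  have hm2 : AEMeasurable (fun z : Circ × X => ‖g z‖ₑ ^ p) (haarC.prod ν) :=
    (hg.enorm.measurable.pow_const _).aemeasurable
  rw [lintegral_prod_symm _ hm1, lintegral_prod_symm _ hm2]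
  have h1 : ∫⁻ x, ∫⁻ y, ‖avg (stp i) g (y, x)‖ₑ ^ p ∂(grid i y0) ∂ν
      ≤ 2 ^ i * ∫⁻ x, ∫⁻ y, ‖g (y, x)‖ₑ ^ p ∂haarC ∂ν := by
    rw [← lintegral_const_mul']
    · exact lintegral_mono fun x => sum_enorm_avg_le hg hp i y0 x
    · exact ENNReal.pow_ne_top (by simp)
  calc (∫⁻ x, ∫⁻ y, ‖avg (stp i) g (y, x)‖ₑ ^ p ∂(grid i y0) ∂ν) ^ (1 / p)
      ≤ (2 ^ i * ∫⁻ x, ∫⁻ y, ‖g (y, x)‖ₑ ^ p ∂haarC ∂ν) ^ (1 / p) := by gcongr
    _ = _ := by
      rw [ENNReal.mul_rpow_of_nonneg _ _ (by positivity)]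
      congr 1
      rw [← ENNReal.rpow_natCast, ← ENNReal.rpow_mul,
        ENNReal.ofReal_rpow_of_pos (by norm_num : (0:ℝ) < 2) |>.symm]
      simp only [ENNReal.ofReal_ofNat]
      congr 1
      ring

lemma grid_mono {j i : ℕ} (h : j ≤ i) (y0 : Circ) : grid j y0 ≤ grid i y0 := by
  obtain ⟨m, rfl⟩ := Nat.exists_eq_add_of_le h
  rw [Measure.le_iff]
  intro s _
  unfold grid
  rw [Measure.finsetSum_apply, Measure.finsetSum_apply]
  have h1 : ∀ k ∈ Finset.range (2 ^ j),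
      (Measure.dirac (y0 + ((k * stp j : ℝ) : Circ))) s
        = (fun k : ℕ => (Measure.dirac (y0 + ((k * stp (j + m) : ℝ) : Circ))) s) (k * 2 ^ m) := by
    intro k _
    simp only
    have h2 : (k : ℝ) * stp j = ((k * 2 ^ m : ℕ) : ℝ) * stp (j + m) := by
      unfold stp
      push_cast
      rw [pow_add]
      field_simp
    rw [h2]
  rw [Finset.sum_congr rfl h1, ← Finset.sum_image (s := Finset.range (2 ^ j))
    (g := fun k => k * 2 ^ m)
    (f := fun k : ℕ => (Measure.dirac (y0 + ((k * stp (j + m) : ℝ) : Circ))) s)]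
  · apply Finset.sum_le_sum_of_subset
    intro k hk
    simp only [Finset.mem_image, Finset.mem_range] at hk ⊢
    obtain ⟨a, ha, rfl⟩ := hk
    rw [pow_add]
    exact Nat.mul_lt_mul_of_pos_right ha (by positivity)
  · intro a _ b _ hab
    exact Nat.eq_of_mul_eq_mul_right (by positivity) hab

lemma eLpNorm_avg_grid_le' (ν : Measure X) [IsFiniteMeasure ν] {g : Circ × X → E}
    (hg : Continuous g) {p : ℝ} (hp : 1 ≤ p) {j i : ℕ} (hji : j ≤ i) (y0 : Circ) :
    eLpNorm (avg (stp i) g) (ENNReal.ofReal p) ((grid j y0).prod ν)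
      ≤ ENNReal.ofReal (2 ^ ((i : ℝ) / p)) * eLpNorm g (ENNReal.ofReal p) (haarC.prod ν) := by
  refine (eLpNorm_mono_measure _ ?_).trans (eLpNorm_avg_grid_le ν hg hp i y0)
  exact Measure.prod_mono (grid_mono hji y0) le_rfl

lemma avg_tendsto [CompleteSpace E] {f : Circ × X → E} (hf : Continuous f) {ε : ℝ} (hε : 0 < ε) :
    ∀ᶠ i : ℕ in atTop, ∀ z, ‖f z - avg (stp i) f z‖ ≤ ε := by
  have h1 : ∀ᶠ u : ℝ in 𝓝 0, ∀ z ∈ (Set.univ : Set (Circ × X)),
      ‖f (z.1 + (u : Circ), z.2) - f z‖ < ε := by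
    apply isCompact_univ.eventually_forall_of_forall_eventually
    intro z _
    have h2 : Continuous (fun w : ℝ × (Circ × X) =>
        ‖f (w.2.1 + (w.1 : Circ), w.2.2) - f w.2‖) := by
      have h1 := cont_coe
      have h3 : Continuous (fun w : ℝ × (Circ × X) => f (w.2.1 + (w.1 : Circ), w.2.2)) :=
        hf.comp (((continuous_fst.comp continuous_snd).add (h1.comp continuous_fst)).prodMk
          (continuous_snd.comp continuous_snd))
      exact (h3.sub (hf.comp continuous_snd)).norm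
    have h3 := h2.tendsto ((0 : ℝ), z)
    have h4 : ‖f (((0 : ℝ), z).2.1 + ((((0 : ℝ), z).1 : ℝ) : Circ), ((0 : ℝ), z).2.2)
        - f ((0 : ℝ), z).2‖ = 0 := by
      simp
    rw [h4] at h3
    exact h3.eventually (gt_mem_nhds hε)
  rw [Metric.eventually_nhds_iff] at h1
  obtain ⟨δ, hδ, h1⟩ := h1
  have h5 : Tendsto (fun i : ℕ => stp i) atTop (𝓝 0) := by
    unfold stp
    have : Tendsto (fun i : ℕ => (2 * Real.pi) * ((1 / 2 : ℝ) ^ i)) atTop (𝓝 (2 * Real.pi * 0)) :=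
      (tendsto_pow_atTop_nhds_zero_of_lt_one (by norm_num) (by norm_num)).const_mul _
    simp only [mul_zero] at this
    refine this.congr fun i => ?_
    rw [one_div, inv_pow]; rfl
  filter_upwards [h5.eventually (gt_mem_nhds hδ)] with i hi z
  have hst := stp_pos i
  have h6 : ∫ u in (0 : ℝ)..stp i, (f z - f (z.1 + (u : Circ), z.2))
      = stp i • f z - ∫ u in (0 : ℝ)..stp i, f (z.1 + (u : Circ), z.2) := by
    rw [intervalIntegral.integral_sub]
    · rw [intervalIntegral.integral_const, sub_zero]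
    · exact intervalIntegrable_const
    · apply Continuous.intervalIntegrable
      have h1 := cont_coe
      exact hf.comp ((continuous_const.add h1).prodMk continuous_const)
  have h7 : f z - avg (stp i) f z
      = (stp i)⁻¹ • ∫ u in (0 : ℝ)..stp i, (f z - f (z.1 + (u : Circ), z.2)) := by
    rw [h6, smul_sub, smul_smul, inv_mul_cancel₀ hst.ne', one_smul]
    rfl
  rw [h7, norm_smul, norm_inv, Real.norm_of_nonneg hst.le]
  have h8 : ‖∫ u in (0 : ℝ)..stp i, (f z - f (z.1 + (u : Circ), z.2))‖ ≤ ε * |stp i - 0| := by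
    apply intervalIntegral.norm_integral_le_of_norm_le_const
    intro u hu
    rw [Set.uIoc_of_le hst.le] at hu
    rw [norm_sub_rev]
    apply le_of_lt
    apply h1 _ z (Set.mem_univ _)
    rw [Real.dist_eq, sub_zero, abs_of_pos hu.1]
    exact lt_of_le_of_lt hu.2 hi
  rw [sub_zero, abs_of_pos hst] at h8
  calc (stp i)⁻¹ * ‖∫ u in (0 : ℝ)..stp i, (f z - f (z.1 + (u : Circ), z.2))‖
      ≤ (stp i)⁻¹ * (ε * stp i) := by gcongr
    _ = ε := by field_simp

/-- The constant in Lemma B. -/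
def cB (p r : ℝ) : ℝ := 1 + 1 / (1 - 2 ^ (-(r - 1 / p)))

lemma cB_base {p r : ℝ} (hr : 1 / p < r) : (0 : ℝ) < 1 - 2 ^ (-(r - 1 / p)) := by
  have h1 : (2 : ℝ) ^ (-(r - 1 / p)) < 1 := by
    apply Real.rpow_lt_one_of_one_lt_of_neg (by norm_num)
    linarith
  linarith

lemma one_le_cB {p r : ℝ} (hr : 1 / p < r) : 1 ≤ cB p r := by
  have h := cB_base hr
  have : 0 < 1 / (1 - (2 : ℝ) ^ (-(r - 1 / p))) := by positivity
  unfold cB; linarith

lemma geom_sum_le_cB {p r : ℝ} (hr : 1 / p < r) (M : ℕ) :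
    ∑ i ∈ Finset.range M, (2 : ℝ) ^ (-((r - 1 / p) * i)) ≤ 1 / (1 - 2 ^ (-(r - 1 / p))) := by
  have h := cB_base hr
  set q : ℝ := 2 ^ (-(r - 1 / p)) with hq
  have hq0 : 0 < q := by positivity
  have h1 : ∀ i ∈ Finset.range M, (2 : ℝ) ^ (-((r - 1 / p) * i)) = q ^ i := by
    intro i _
    rw [hq, ← Real.rpow_natCast, ← Real.rpow_mul (by norm_num)]
    congr 1; ring
  rw [Finset.sum_congr rfl h1]
  have h2 : ∑ i ∈ Finset.range M, q ^ i = (1 - q ^ M) / (1 - q) := by
    rw [geom_sum_eq (by linarith)]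
    rw [← neg_div_neg_eq]; congr 1 <;> ring
  rw [h2]
  have h3 : 0 < q ^ M := by positivity
  gcongr
  linarith

theorem lemB [CompleteSpace E] {p r : ℝ} (hp : 1 ≤ p) (hr : 1 / p < r) (ν : Measure X)
    [IsFiniteMeasure ν] {g : Circ × X → E} (hg : Continuous g) {s : ℕ} {B : ℝ} (hB : 0 ≤ B)
    (h0 : eLpNorm g (ENNReal.ofReal p) (haarC.prod ν) ≤ ENNReal.ofReal B)
    (h1 : ∀ i : ℕ, eLpNorm (shiftDiff (stp (s + i + 1)) g) (ENNReal.ofReal p) (haarC.prod ν)
      ≤ ENNReal.ofReal (B * 2 ^ (-(r * i)))) (y0 : Circ) :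
    eLpNorm g (ENNReal.ofReal p) ((grid s y0).prod ν)
      ≤ ENNReal.ofReal (2 ^ ((s : ℝ) / p) * (cB p r * B)) := by
  have hp0 : 0 < p := by linarith
  have hp1 : 1 ≤ ENNReal.ofReal p := by rw [ENNReal.one_le_ofReal]; exact hp
  set μ := (grid s y0).prod ν with hμ
  have hcontA : ∀ i, Continuous (avg (stp i) g) := fun i => avg_continuous hg _
  have hmA : ∀ i, AEStronglyMeasurable (avg (stp i) g) μ := fun i =>
    (hcontA i).aestronglyMeasurable
  -- first term
  have hA : eLpNorm (avg (stp s) g) (ENNReal.ofReal p) μ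
      ≤ ENNReal.ofReal (2 ^ ((s : ℝ) / p) * B) := by
    refine (eLpNorm_avg_grid_le ν hg hp s y0).trans ?_
    rw [ENNReal.ofReal_mul (by positivity)]
    gcongr
  -- increments
  have hinc : ∀ i : ℕ, eLpNorm (avg (stp (s + i + 1)) g - avg (stp (s + i)) g)
      (ENNReal.ofReal p) μ
        ≤ ENNReal.ofReal (2 ^ ((s : ℝ) / p) * B * 2 ^ (-((r - 1 / p) * i))) := by
    intro i
    have h2 : avg (stp (s + i + 1)) g - avg (stp (s + i)) g
        = (-(1 / 2 : ℝ)) • avg (stp (s + i + 1)) (shiftDiff (stp (s + i + 1)) g) := by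
      ext z
      have := avg_sub hg (stp_pos (s + i + 1)) z
      rw [stp_two_mul] at this
      simp only [Pi.sub_apply, Pi.smul_apply, neg_smul]
      rw [← this]; abel
    rw [h2, eLpNorm_const_smul]
    have h3 := eLpNorm_avg_grid_le' ν (shiftDiff_continuous hg (stp (s + i + 1))) hp
      (show s ≤ s + i + 1 by omega) y0
    have h4 : ‖(-(1 / 2 : ℝ))‖ₑ = ENNReal.ofReal (1 / 2) := by
      rw [enorm_neg, Real.enorm_of_nonneg (by norm_num)]
    rw [h4]
    calc ENNReal.ofReal (1 / 2) *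
          eLpNorm (avg (stp (s + i + 1)) (shiftDiff (stp (s + i + 1)) g)) (ENNReal.ofReal p) μ
        ≤ ENNReal.ofReal (1 / 2) * (ENNReal.ofReal (2 ^ (((s + i + 1 : ℕ) : ℝ) / p))
            * ENNReal.ofReal (B * 2 ^ (-(r * i)))) := by
          gcongr
          exact h3.trans (by gcongr; exact h1 i)
      _ = ENNReal.ofReal (1 / 2 * (2 ^ (((s + i + 1 : ℕ) : ℝ) / p) * (B * 2 ^ (-(r * i))))) := by
          rw [← ENNReal.ofReal_mul (by positivity), ← ENNReal.ofReal_mul (by positivity)]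
      _ ≤ _ := by
          apply ENNReal.ofReal_le_ofReal
          have h5 : (2 : ℝ) ^ (((s + i + 1 : ℕ) : ℝ) / p)
              = 2 ^ ((s : ℝ) / p) * 2 ^ ((i : ℝ) / p) * 2 ^ (1 / p) := by
            rw [← Real.rpow_add (by norm_num), ← Real.rpow_add (by norm_num)]
            congr 1; push_cast; ring
          have h6 : (2 : ℝ) ^ (-(r * i)) * 2 ^ ((i : ℝ) / p) = 2 ^ (-((r - 1 / p) * i)) := by
            rw [← Real.rpow_add (by norm_num)]
            congr 1; ring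
          have h7 : (2 : ℝ) ^ (1 / p) ≤ 2 := by
            calc (2 : ℝ) ^ (1 / p) ≤ 2 ^ (1 : ℝ) := by
                  apply Real.rpow_le_rpow_of_exponent_le (by norm_num)
                  rw [div_le_one hp0]; exact hp
              _ = 2 := by norm_num
          rw [h5]
          calc 1 / 2 * (2 ^ ((s : ℝ) / p) * 2 ^ ((i : ℝ) / p) * 2 ^ (1 / p)
                * (B * 2 ^ (-(r * i))))
              = (1 / 2 * 2 ^ (1 / p)) * (2 ^ ((s : ℝ) / p) * B
                * (2 ^ (-(r * i)) * 2 ^ ((i : ℝ) / p))) := by ring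
            _ ≤ 1 * (2 ^ ((s : ℝ) / p) * B * (2 ^ (-(r * i)) * 2 ^ ((i : ℝ) / p))) := by
                gcongr
                linarith
            _ = _ := by rw [h6]; ring
  -- partial sums
  have hsum : ∀ M : ℕ, eLpNorm (avg (stp (s + M)) g) (ENNReal.ofReal p) μ
      ≤ ENNReal.ofReal (2 ^ ((s : ℝ) / p) * B
        + ∑ i ∈ Finset.range M, 2 ^ ((s : ℝ) / p) * B * 2 ^ (-((r - 1 / p) * i))) := by
    intro M
    induction M with
    | zero => simpa using hA
    | succ M ih =>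
      have h2 : avg (stp (s + (M + 1))) g
          = avg (stp (s + M)) g + (avg (stp (s + M + 1)) g - avg (stp (s + M)) g) := by
        rw [add_sub_cancel, add_assoc]
      rw [h2]
      refine (eLpNorm_add_le (hmA _) ((hmA _).sub (hmA _)) hp1).trans ?_
      refine (add_le_add ih (hinc M)).trans ?_
      rw [← ENNReal.ofReal_add (by positivity) (by positivity), Finset.sum_range_succ, add_assoc]
  have hsum' : ∀ M : ℕ, eLpNorm (avg (stp (s + M)) g) (ENNReal.ofReal p) μ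
      ≤ ENNReal.ofReal (2 ^ ((s : ℝ) / p) * (cB p r * B)) := by
    intro M
    refine (hsum M).trans (ENNReal.ofReal_le_ofReal ?_)
    rw [← Finset.mul_sum]
    have h2 := geom_sum_le_cB hr M
    unfold cB
    have h3 : 2 ^ ((s : ℝ) / p) * B * ∑ i ∈ Finset.range M, (2 : ℝ) ^ (-((r - 1 / p) * i))
        ≤ 2 ^ ((s : ℝ) / p) * B * (1 / (1 - 2 ^ (-(r - 1 / p)))) := by
      gcongr
    calc _ ≤ 2 ^ ((s : ℝ) / p) * B + 2 ^ ((s : ℝ) / p) * B * (1 / (1 - 2 ^ (-(r - 1 / p)))) := by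
          linarith
      _ = _ := by ring
  -- the limit
  apply ENNReal.le_of_forall_pos_le_add
  intro ε hε _
  set c : ℝ≥0∞ := μ Set.univ ^ (1 / p) with hc
  have hctop : c ≠ ⊤ := by
    rw [hc]
    apply ENNReal.rpow_ne_top_of_nonneg (by positivity)
    exact measure_ne_top _ _
  obtain ⟨δ, hδ, hδε⟩ : ∃ δ : ℝ, 0 < δ ∧ c * ENNReal.ofReal δ ≤ ε := by
    refine ⟨ε / (c.toReal + 1), by positivity, ?_⟩
    have h3 : c = ENNReal.ofReal c.toReal := (ENNReal.ofReal_toReal hctop).symm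
    rw [h3, ← ENNReal.ofReal_mul (by positivity), ENNReal.toReal_ofReal (by positivity)]
    rw [← ENNReal.ofReal_coe_nnreal]
    apply ENNReal.ofReal_le_ofReal
    have h4 : 0 ≤ c.toReal := by positivity
    rw [mul_div_assoc', div_le_iff₀ (by positivity)]
    have h5 : (0 : ℝ) ≤ ε := by positivity
    nlinarith
  have h2 := avg_tendsto hg hδ
  rw [eventually_atTop] at h2
  obtain ⟨J0, hJ0⟩ := h2
  have h3 := hJ0 (s + J0) (by omega)
  have h4 : eLpNorm (g - avg (stp (s + J0)) g) (ENNReal.ofReal p) μ ≤ ε := by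
    refine (eLpNorm_le_of_ae_bound (C := δ) (ae_of_all _ h3)).trans ?_
    rw [ENNReal.toReal_ofReal hp0.le, ← one_div]
    exact hδε
  have h5 : g = avg (stp (s + J0)) g + (g - avg (stp (s + J0)) g) := by abel
  calc eLpNorm g (ENNReal.ofReal p) μ
      = eLpNorm (avg (stp (s + J0)) g + (g - avg (stp (s + J0)) g)) (ENNReal.ofReal p) μ := by
        rw [← h5]
    _ ≤ _ := (eLpNorm_add_le (hmA _) (hg.aestronglyMeasurable.sub (hmA _)) hp1).trans
        (add_le_add (hsum' J0) h4)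

end

end Run7.h221
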