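import Mathlib

/-!
Dyadic nets in the plane (bit-reversal points) and local averages over boxes of a net.
-/

namespace Run7.h221

noncomputable section

/-- Reversal of the last `N` binary digits. -/
def rev : ℕ → ℕ → ℕ
  | 0, _ => 0
  | N + 1, u => 2 ^ N * (u % 2) + rev N (u / 2)

lemma rev_lt (N u : ℕ) : rev N u < 2 ^ N := by
  induction N generalizing u with
  | zero => simp [rev]
  | succ N ih =>
    have h1 := ih (u / 2)
    have h2 : u % 2 ≤ 1 := by omega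
    simp only [rev, pow_succ]
    nlinarith

lemma rev_add_div (b c u : ℕ) : rev (b + c) u / 2 ^ b = rev c u := by
  induction c generalizing u with
  | zero => simp only [add_zero, rev]; exact Nat.div_eq_of_lt (rev_lt b u)
  | succ c ih =>
    rw [← add_assoc]
    simp only [rev]
    rw [pow_add, mul_assoc, Nat.mul_add_div (by positivity), ih]

lemma rev_mod (c u : ℕ) : rev c (u % 2 ^ c) = rev c u := by
  induction c generalizing u with
  | zero => simp [rev]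
  | succ c ih =>
    simp only [rev]
    have h1 : u % 2 ^ (c + 1) % 2 = u % 2 := by
      apply Nat.mod_mod_of_dvd
      exact dvd_pow_self 2 (by omega)
    have h2 : u % 2 ^ (c + 1) / 2 = u / 2 % 2 ^ c := by
      rw [pow_succ, mul_comm, Nat.mod_mul_right_div_self]
    rw [h1, h2, ih]

/-- The reversal is an involution modulo `2 ^ c`. -/
lemma rev_succ' (c u : ℕ) : rev (c + 1) u = 2 * rev c u + (u / 2 ^ c) % 2 := by
  induction c generalizing u with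
  | zero => simp [rev]
  | succ c ih =>
    rw [rev, ih (u / 2), rev, Nat.div_div_eq_div_mul, ← pow_succ']
    ring

lemma rev_rev (c u : ℕ) : rev c (rev c u) = u % 2 ^ c := by
  induction c generalizing u with
  | zero => simp [rev, Nat.mod_one]
  | succ c ih =>
    rw [rev_succ' c u]
    simp only [rev]
    have h1 : (2 * rev c u + u / 2 ^ c % 2) % 2 = u / 2 ^ c % 2 := by omega
    have h2 : (2 * rev c u + u / 2 ^ c % 2) / 2 = rev c u := by omega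
    rw [h1, h2, ih]
    rw [pow_succ, Nat.mod_mul]
    ring

/-- Nets: every dyadic box of level `(b₁, b₂)`, `b₁ + b₂ ≤ N`, contains `2^(N-b₁-b₂)` points. -/
structure IsNet (J N : ℕ) (Z : Finset (ℕ × ℕ)) : Prop where
  lt : ∀ z ∈ Z, z.1 < 2 ^ J ∧ z.2 < 2 ^ J
  card : ∀ b₁ b₂ m₁ m₂ : ℕ, b₁ + b₂ ≤ N → m₁ < 2 ^ b₁ → m₂ < 2 ^ b₂ →
    (Z.filter fun z => z.1 / 2 ^ (J - b₁) = m₁ ∧ z.2 / 2 ^ (J - b₂) = m₂).card
      = 2 ^ (N - b₁ - b₂)

/-- The bit-reversal net. -/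
def netZ (J N : ℕ) : Finset (ℕ × ℕ) :=
  (Finset.range (2 ^ N)).image fun i => (i * 2 ^ (J - N), rev N i * 2 ^ (J - N))

lemma netZ_isNet {J N : ℕ} (h : N ≤ J) : IsNet J N (netZ J N) := by
  constructor
  · intro z hz
    simp only [netZ, Finset.mem_image, Finset.mem_range] at hz
    obtain ⟨i, hi, rfl⟩ := hz
    have h1 : 2 ^ N * 2 ^ (J - N) = 2 ^ J := by rw [← pow_add]; congr 1; omega
    have h2 := rev_lt N i
    constructor
    · rw [← h1]; exact Nat.mul_lt_mul_of_pos_right hi (by positivity)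
    · rw [← h1]; exact Nat.mul_lt_mul_of_pos_right h2 (by positivity)
  · intro b₁ b₂ m₁ m₂ hb h₁ h₂
    unfold netZ
    rw [Finset.filter_image, Finset.card_image_of_injective]
    · have hset : (Finset.range (2 ^ N)).filter (fun i =>
          (i * 2 ^ (J - N), rev N i * 2 ^ (J - N)).1 / 2 ^ (J - b₁) = m₁
            ∧ (i * 2 ^ (J - N), rev N i * 2 ^ (J - N)).2 / 2 ^ (J - b₂) = m₂)
          = (Finset.range (2 ^ (N - b₁ - b₂))).image
            (fun w => m₁ * 2 ^ (N - b₁) + (w * 2 ^ b₂ + rev b₂ m₂)) := by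
        have e1 : J - b₁ = (N - b₁) + (J - N) := by omega
        have e2 : J - b₂ = (N - b₂) + (J - N) := by omega
        have e3 : N = (N - b₂) + b₂ := by omega
        have hdiv1 : ∀ i, i * 2 ^ (J - N) / 2 ^ (J - b₁) = i / 2 ^ (N - b₁) := by
          intro i
          rw [e1, pow_add, Nat.mul_div_mul_right _ _ (by positivity)]
        have hdiv2 : ∀ i, rev N i * 2 ^ (J - N) / 2 ^ (J - b₂) = rev b₂ i := by
          intro i
          rw [e2, pow_add, Nat.mul_div_mul_right _ _ (by positivity)]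
          conv_lhs => rw [e3]
          have := rev_add_div (N - b₂) b₂ i
          simpa using this
        ext i
        simp only [Finset.mem_filter, Finset.mem_range, Finset.mem_image, hdiv1, hdiv2]
        have hp1 : 2 ^ (N - b₁) = 2 ^ (N - b₁ - b₂) * 2 ^ b₂ := by
          rw [← pow_add]; congr 1; omega
        have hp2 : 2 ^ N = 2 ^ b₁ * 2 ^ (N - b₁) := by rw [← pow_add]; congr 1; omega
        have hr2 := rev_lt b₂ m₂
        constructor
        · rintro ⟨hi, hi1, hi2⟩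
          refine ⟨i % 2 ^ (N - b₁) / 2 ^ b₂, ?_, ?_⟩
          · rw [Nat.div_lt_iff_lt_mul (by positivity), ← hp1]
            exact Nat.mod_lt _ (by positivity)
          · have h3 : i % 2 ^ (N - b₁) % 2 ^ b₂ = rev b₂ m₂ := by
              rw [Nat.mod_mod_of_dvd _ (by rw [hp1]; exact dvd_mul_left _ _)]
              rw [← hi2, rev_rev]
            have h4 := Nat.div_add_mod i (2 ^ (N - b₁))
            have h5 := Nat.div_add_mod (i % 2 ^ (N - b₁)) (2 ^ b₂)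
            rw [h3] at h5
            rw [hi1] at h4
            rw [mul_comm (2 ^ b₂)] at h5
            rw [mul_comm (2 ^ (N - b₁))] at h4
            omega
        · rintro ⟨w, hw, rfl⟩
          have h6 : w * 2 ^ b₂ + rev b₂ m₂ < 2 ^ (N - b₁) := by
            rw [hp1]
            have : (w + 1) * 2 ^ b₂ ≤ 2 ^ (N - b₁ - b₂) * 2 ^ b₂ :=
              Nat.mul_le_mul_right _ hw
            nlinarith
          refine ⟨?_, ?_, ?_⟩
          · rw [hp2]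
            have : (m₁ + 1) * 2 ^ (N - b₁) ≤ 2 ^ b₁ * 2 ^ (N - b₁) :=
              Nat.mul_le_mul_right _ h₁
            nlinarith
          · rw [mul_comm, Nat.mul_add_div (by positivity), Nat.div_eq_of_lt h6, add_zero]
          · rw [← rev_mod]
            have h7 : (m₁ * 2 ^ (N - b₁) + (w * 2 ^ b₂ + rev b₂ m₂)) % 2 ^ b₂ = rev b₂ m₂ := by
              rw [hp1]
              have : m₁ * (2 ^ (N - b₁ - b₂) * 2 ^ b₂) + (w * 2 ^ b₂ + rev b₂ m₂)
                  = rev b₂ m₂ + 2 ^ b₂ * (m₁ * 2 ^ (N - b₁ - b₂) + w) := by ring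
              rw [this, Nat.add_mul_mod_self_left, Nat.mod_eq_of_lt hr2]
            rw [h7, rev_rev, Nat.mod_eq_of_lt h₂]
      have hset' := hset
      rw [Finset.filter_congr (q := fun i =>
          (i * 2 ^ (J - N), rev N i * 2 ^ (J - N)).1 / 2 ^ (J - b₁) = m₁
            ∧ (i * 2 ^ (J - N), rev N i * 2 ^ (J - N)).2 / 2 ^ (J - b₂) = m₂)
          (by intros; rfl), hset', Finset.card_image_of_injective, Finset.card_range]
      intro w w' hww
      simp only at hww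
      have : w * 2 ^ b₂ = w' * 2 ^ b₂ := by omega
      exact Nat.eq_of_mul_eq_mul_right (by positivity) this
    · intro i i' hii
      simp only [Prod.mk.injEq] at hii
      exact Nat.eq_of_mul_eq_mul_right (by positivity) hii.1

lemma netZ_card (J N : ℕ) : (netZ J N).card ≤ 2 ^ N := by
  unfold netZ
  exact Finset.card_image_le.trans (by simp)

lemma div_div_pow {J a s : ℕ} (hs : s ≤ a) (ha : a ≤ J) (z : ℕ) :
    z / 2 ^ (J - s) = z / 2 ^ (J - a) / 2 ^ (a - s) := by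
  rw [Nat.div_div_eq_div_mul, ← pow_add]
  congr 2; omega

lemma IsNet.swap {J N : ℕ} {Z : Finset (ℕ × ℕ)} (hZ : IsNet J N Z) :
    IsNet J N (Z.image Prod.swap) := by
  constructor
  · intro z hz
    rw [Finset.mem_image] at hz
    obtain ⟨w, hw, rfl⟩ := hz
    exact (hZ.lt w hw).symm
  · intro b₁ b₂ m₁ m₂ hb h₁ h₂
    rw [Finset.filter_image, Finset.card_image_of_injective _ Prod.swap_injective]
    have h := hZ.card b₂ b₁ m₂ m₁ (by omega) h₂ h₁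
    rw [show N - b₁ - b₂ = N - b₂ - b₁ by omega, ← h]
    congr 1
    apply Finset.filter_congr
    intro z _
    simp only [Prod.fst_swap, Prod.snd_swap]
    exact and_comm

lemma IsNet.eq_of_same_box {J N : ℕ} {Z : Finset (ℕ × ℕ)} (hZ : IsNet J N Z)
    {b₁ b₂ : ℕ} (hb : N ≤ b₁ + b₂) (hb1 : b₁ ≤ J) (hb2 : b₂ ≤ J) {z z' : ℕ × ℕ} (hz : z ∈ Z)
    (hz' : z' ∈ Z) (h1 : z.1 / 2 ^ (J - b₁) = z'.1 / 2 ^ (J - b₁))
    (h2 : z.2 / 2 ^ (J - b₂) = z'.2 / 2 ^ (J - b₂)) : z = z' := by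
  set c₁ := min b₁ N with hc1
  set c₂ := N - c₁ with hc2
  have e1 : c₁ ≤ b₁ := min_le_left _ _
  have e2 : c₂ ≤ b₂ := by omega
  have hlt := hZ.lt z hz
  have hd : ∀ c w, c ≤ J → w < 2 ^ J → w / 2 ^ (J - c) < 2 ^ c := by
    intro c w hc hw
    rw [Nat.div_lt_iff_lt_mul (by positivity), ← pow_add]
    rwa [show c + (J - c) = J by omega]
  have hcard := hZ.card c₁ c₂ (z.1 / 2 ^ (J - c₁)) (z.2 / 2 ^ (J - c₂)) (by omega)
    (hd c₁ z.1 (by omega) hlt.1) (hd c₂ z.2 (by omega) hlt.2)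
  rw [show N - c₁ - c₂ = 0 by omega, pow_zero] at hcard
  have hle := Finset.card_le_one.1 hcard.le
  apply hle
  · simp [hz]
  · simp only [Finset.mem_filter]
    refine ⟨hz', ?_, ?_⟩
    · rw [div_div_pow e1 hb1, div_div_pow e1 hb1, h1]
    · rw [div_div_pow e2 hb2, div_div_pow e2 hb2, h2]

/-- Flip of the last binary digit. -/
def flp (m : ℕ) : ℕ := if m % 2 = 0 then m + 1 else m - 1

lemma flp_div_two (m : ℕ) : flp m / 2 = m / 2 := by
  unfold flp; split_ifs <;> omega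

lemma flp_ne (m : ℕ) : flp m ≠ m := by
  unfold flp; split_ifs <;> omega

lemma flp_lt {m b : ℕ} (h : m < 2 ^ (b + 1)) : flp m < 2 ^ (b + 1) := by
  rw [pow_succ] at *
  unfold flp; split_ifs <;> omega

lemma flp_div_pow (m : ℕ) {e : ℕ} (he : 1 ≤ e) : flp m / 2 ^ e = m / 2 ^ e := by
  obtain ⟨f, rfl⟩ := Nat.exists_eq_add_of_le he
  rw [pow_add, pow_one, ← Nat.div_div_eq_div_mul, ← Nat.div_div_eq_div_mul, flp_div_two]

/-- The points of the net whose longest common dyadic part with `(x₁, x₂)` is `(a₁, a₂)`. -/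
def box (J : ℕ) (Z : Finset (ℕ × ℕ)) (x₁ x₂ a₁ a₂ : ℕ) : Finset (ℕ × ℕ) :=
  Z.filter fun z => z.1 / 2 ^ (J - (a₁ + 1)) = flp (x₁ / 2 ^ (J - (a₁ + 1)))
    ∧ z.2 / 2 ^ (J - (a₂ + 1)) = flp (x₂ / 2 ^ (J - (a₂ + 1)))

lemma div_lt_pow {J c w : ℕ} (hc : c ≤ J) (hw : w < 2 ^ J) : w / 2 ^ (J - c) < 2 ^ c := by
  rw [Nat.div_lt_iff_lt_mul (by positivity), ← pow_add]
  rwa [show c + (J - c) = J by omega]

lemma box_card {J N : ℕ} {Z : Finset (ℕ × ℕ)} (hZ : IsNet J N Z) (hNJ : N ≤ J) {x₁ x₂ a₁ a₂ : ℕ}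
    (h₁ : x₁ < 2 ^ J) (h₂ : x₂ < 2 ^ J) (ha : a₁ + a₂ + 2 ≤ N) :
    (box J Z x₁ x₂ a₁ a₂).card = 2 ^ (N - a₁ - a₂ - 2) := by
  unfold box
  rw [hZ.card (a₁ + 1) (a₂ + 1) _ _ (by omega) (flp_lt (div_lt_pow (by omega) h₁))
    (flp_lt (div_lt_pow (by omega) h₂))]
  congr 1; omega

lemma pre_eq {J a s x z : ℕ} (hs : s ≤ a) (ha : a + 1 ≤ J)
    (h : z / 2 ^ (J - (a + 1)) = flp (x / 2 ^ (J - (a + 1)))) :
    z / 2 ^ (J - s) = x / 2 ^ (J - s) := by
  rw [div_div_pow (show s ≤ a + 1 by omega) ha z, div_div_pow (show s ≤ a + 1 by omega) ha x, h,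
    flp_div_pow _ (by omega)]

variable {E : Type*} [NormedAddCommGroup E] [NormedSpace ℝ E]

/-- Average of `v` over the box. -/
def AB (J N : ℕ) (Z : Finset (ℕ × ℕ)) (x₁ x₂ : ℕ) (v : ℕ → ℕ → E) (a₁ a₂ : ℕ) : E :=
  ((2 : ℝ) ^ (N - a₁ - a₂ - 2))⁻¹ • ∑ z ∈ box J Z x₁ x₂ a₁ a₂, v z.1 z.2

lemma AB_swap (J N : ℕ) (Z : Finset (ℕ × ℕ)) (x₁ x₂ : ℕ) (v : ℕ → ℕ → E) (a₁ a₂ : ℕ) :
    AB J N (Z.image Prod.swap) x₂ x₁ (fun m n => v n m) a₂ a₁ = AB J N Z x₁ x₂ v a₁ a₂ := by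
  unfold AB
  rw [show N - a₂ - a₁ - 2 = N - a₁ - a₂ - 2 by omega]
  congr 1
  have : box J (Z.image Prod.swap) x₂ x₁ a₂ a₁ = (box J Z x₁ x₂ a₁ a₂).image Prod.swap := by
    unfold box
    rw [Finset.filter_image]
    congr 1
    apply Finset.filter_congr
    intro z _
    simp only [Prod.fst_swap, Prod.snd_swap]
    exact and_comm
  rw [this, Finset.sum_image (fun _ _ _ _ h => Prod.swap_injective h)]
  rfl

lemma AB_type0 {J N : ℕ} {Z : Finset (ℕ × ℕ)} (hZ : IsNet J N Z) (hNJ : N ≤ J) {x₁ x₂ a₁ a₂ : ℕ}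
    (h₁ : x₁ < 2 ^ J) (h₂ : x₂ < 2 ^ J) (ha : a₁ + a₂ + 2 ≤ N) {s₁ s₂ : ℕ} (hs1 : s₁ ≤ a₁)
    (hs2 : s₂ ≤ a₂) (c : ℕ → ℕ → E) :
    AB J N Z x₁ x₂ (fun z₁ z₂ => c (z₁ / 2 ^ (J - s₁)) (z₂ / 2 ^ (J - s₂))) a₁ a₂
      = c (x₁ / 2 ^ (J - s₁)) (x₂ / 2 ^ (J - s₂)) := by
  unfold AB
  have h3 : ∀ z ∈ box J Z x₁ x₂ a₁ a₂, c (z.1 / 2 ^ (J - s₁)) (z.2 / 2 ^ (J - s₂))
      = c (x₁ / 2 ^ (J - s₁)) (x₂ / 2 ^ (J - s₂)) := by
    intro z hz
    simp only [box, Finset.mem_filter] at hz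
    rw [pre_eq hs1 (by omega) hz.2.1, pre_eq hs2 (by omega) hz.2.2]
  rw [Finset.sum_congr rfl h3, Finset.sum_const, box_card hZ hNJ h₁ h₂ ha, ← Nat.cast_smul_eq_nsmul ℝ,
    smul_smul]
  push_cast
  rw [inv_mul_cancel₀ (by positivity), one_smul]

lemma AB_type1 {J N : ℕ} {Z : Finset (ℕ × ℕ)} (hZ : IsNet J N Z) (hNJ : N ≤ J) {x₁ x₂ a₁ a₂ : ℕ}
    (h₁ : x₁ < 2 ^ J) (_h₂ : x₂ < 2 ^ J) {s₁ s₂ : ℕ} (hs1 : s₁ ≤ a₁)
    (hs2 : a₂ < s₂) (hnear : a₁ + 1 + s₂ ≤ N) (c : ℕ → ℕ → E) :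
    AB J N Z x₁ x₂ (fun z₁ z₂ => c (z₁ / 2 ^ (J - s₁)) (z₂ / 2 ^ (J - s₂))) a₁ a₂
      = ((2 : ℝ) ^ (s₂ - (a₂ + 1)))⁻¹ • ∑ k ∈ (Finset.range (2 ^ s₂)).filter
          (fun k => k / 2 ^ (s₂ - (a₂ + 1)) = flp (x₂ / 2 ^ (J - (a₂ + 1)))),
          c (x₁ / 2 ^ (J - s₁)) k := by
  unfold AB
  set K := (Finset.range (2 ^ s₂)).filter
          (fun k => k / 2 ^ (s₂ - (a₂ + 1)) = flp (x₂ / 2 ^ (J - (a₂ + 1)))) with hK
  have h3 : ∀ z ∈ box J Z x₁ x₂ a₁ a₂, c (z.1 / 2 ^ (J - s₁)) (z.2 / 2 ^ (J - s₂))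
      = c (x₁ / 2 ^ (J - s₁)) (z.2 / 2 ^ (J - s₂)) := by
    intro z hz
    simp only [box, Finset.mem_filter] at hz
    rw [pre_eq hs1 (by omega) hz.2.1]
  have hmaps : ∀ z ∈ box J Z x₁ x₂ a₁ a₂, z.2 / 2 ^ (J - s₂) ∈ K := by
    intro z hz
    simp only [box, Finset.mem_filter] at hz
    simp only [hK, Finset.mem_filter, Finset.mem_range]
    refine ⟨div_lt_pow (by omega) (hZ.lt z hz.1).2, ?_⟩
    rw [← div_div_pow (by omega) (by omega)]
    exact hz.2.2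
  rw [Finset.sum_congr rfl h3, ← Finset.sum_fiberwise_of_maps_to hmaps]
  have h4 : ∀ k ∈ K, ∑ z ∈ (box J Z x₁ x₂ a₁ a₂).filter (fun z => z.2 / 2 ^ (J - s₂) = k),
      c (x₁ / 2 ^ (J - s₁)) (z.2 / 2 ^ (J - s₂))
        = ((2 : ℝ) ^ (N - (a₁ + 1) - s₂)) • c (x₁ / 2 ^ (J - s₁)) k := by
    intro k hk
    simp only [hK, Finset.mem_filter, Finset.mem_range] at hk
    have h5 : ∀ z ∈ (box J Z x₁ x₂ a₁ a₂).filter (fun z => z.2 / 2 ^ (J - s₂) = k),
        c (x₁ / 2 ^ (J - s₁)) (z.2 / 2 ^ (J - s₂)) = c (x₁ / 2 ^ (J - s₁)) k := by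
      intro z hz
      rw [Finset.mem_filter] at hz
      rw [hz.2]
    rw [Finset.sum_congr rfl h5, Finset.sum_const]
    have h6 : (box J Z x₁ x₂ a₁ a₂).filter (fun z => z.2 / 2 ^ (J - s₂) = k)
        = Z.filter (fun z => z.1 / 2 ^ (J - (a₁ + 1)) = flp (x₁ / 2 ^ (J - (a₁ + 1)))
          ∧ z.2 / 2 ^ (J - s₂) = k) := by
      ext z
      simp only [box, Finset.mem_filter]
      constructor
      · rintro ⟨⟨hz, h7, _⟩, h8⟩
        exact ⟨hz, h7, h8⟩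
      · rintro ⟨hz, h7, h8⟩
        refine ⟨⟨hz, h7, ?_⟩, h8⟩
        rw [div_div_pow (show a₂ + 1 ≤ s₂ by omega) (by omega), h8]
        exact hk.2
    rw [h6, hZ.card (a₁ + 1) s₂ _ _ hnear (flp_lt (div_lt_pow (by omega) h₁)) hk.1,
      ← Nat.cast_smul_eq_nsmul ℝ]
    push_cast
    rfl
  rw [Finset.sum_congr rfl h4, ← Finset.smul_sum, smul_smul]
  congr 1
  rw [inv_mul_eq_div, div_eq_iff (by positivity), inv_mul_eq_div, eq_div_iff (by positivity),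
    ← pow_add]
  congr 1; omega

end

end Run7.h221
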