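import Pool.Agent.Run7.h221.Rel

/-!
Grid bounds for differences of order `l`.
-/

open MeasureTheory Filter Topology
open scoped ENNReal

namespace Run7.h221

noncomputable section

set_option linter.unusedSectionVars false

variable {E : Type*} [NormedAddCommGroup E] [NormedSpace ℝ E]

lemma shiftDiff_eq_fwdDiff {X : Type*} [AddCommGroup X] (τ : ℝ) (G : Circ × X → E) :
    shiftDiff τ G = fwdDiff (((τ : ℝ) : Circ), (0 : X)) G := by
  funext z
  simp only [shiftDiff, fwdDiff]
  congr 2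
  ext
  · rfl
  · simp

lemma shiftDiff_iter_eq {X : Type*} [AddCommGroup X] (τ : ℝ) (k : ℕ) (G : Circ × X → E) :
    (shiftDiff τ)^[k] G = (fwdDiff (((τ : ℝ) : Circ), (0 : X)))^[k] G := by
  induction k generalizing G with
  | zero => rfl
  | succ k ih => rw [Function.iterate_succ_apply, Function.iterate_succ_apply, ih,
      shiftDiff_eq_fwdDiff]

lemma shiftDiff_iter_continuous {X : Type*} [TopologicalSpace X] {f : Circ × X → E}
    (hf : Continuous f) (h : ℝ) (k : ℕ) : Continuous ((shiftDiff h)^[k] f) := by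
  induction k generalizing f with
  | zero => exact hf
  | succ k ih => rw [Function.iterate_succ_apply]; exact ih (shiftDiff_continuous hf h)

lemma tinv_fst {X : Type} [TopologicalSpace X] [CompactSpace X] [SecondCountableTopology X]
    [MeasurableSpace X] [BorelSpace X] [AddCommGroup X] (ν : Measure X) [IsFiniteMeasure ν]
    (p : ℝ) (τ : ℝ) : TInv E (haarC.prod ν) p (((τ : ℝ) : Circ), (0 : X)) := by
  intro g hg
  unfold nr
  have h := eLpNorm_translate_fst (ν := ν) (p := ENNReal.ofReal p) hg ((τ : ℝ) : Circ)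
  rw [← h]
  congr 3
  funext z
  congr 1
  ext
  · rfl
  · simp

lemma stp_coe_add (s : ℕ) :
    ((stp (s + 1) : ℝ) : Circ) + ((stp (s + 1) : ℝ) : Circ) = ((stp s : ℝ) : Circ) := by
  rw [← AddCircle.coe_add]
  congr 1
  rw [← stp_two_mul s]; ring

/-- Identity at level zero, `l`-th difference with the dyadic step at the other levels. -/
def opl {X : Type*} (l s : ℕ) (G : Circ × X → E) : Circ × X → E :=
  if s = 0 then G else (shiftDiff (stp s))^[l] G

lemma opl_continuous {X : Type*} [TopologicalSpace X] (l s : ℕ) {G : Circ × X → E}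
    (hG : Continuous G) : Continuous (opl l s G) := by
  unfold opl
  split_ifs
  · exact hG
  · exact shiftDiff_iter_continuous hG _ _

theorem opl_grid [CompleteSpace E] (l : ℕ) (hl : 1 ≤ l) {p r η : ℝ} (hp : 1 ≤ p)
    (hη : 1 / p < η) (hη1 : η < 1) (hηr : η ≤ r) : ∃ C : ℝ, 1 ≤ C ∧
    ∀ {X : Type} [TopologicalSpace X] [CompactSpace X] [SecondCountableTopology X]
      [MeasurableSpace X] [BorelSpace X] [AddCommGroup X] [IsTopologicalAddGroup X]
      (ν : Measure X) [IsFiniteMeasure ν] {G : Circ × X → E} (_hG : Continuous G) {K : ℝ}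
      (_hK : 0 ≤ K)
      (_h0 : eLpNorm G (ENNReal.ofReal p) (haarC.prod ν) ≤ ENNReal.ofReal K)
      (_h1 : ∀ τ : ℝ, eLpNorm ((shiftDiff τ)^[l] G) (ENNReal.ofReal p) (haarC.prod ν)
        ≤ ENNReal.ofReal (K * |τ| ^ r)) (t : ℕ) (y : Circ),
      eLpNorm (opl l t G) (ENNReal.ofReal p) ((grid t y).prod ν)
        ≤ ENNReal.ofReal (C * K * 2 ^ (-((r - 1 / p) * t))) := by
  have hp0 : 0 < p := by linarith
  have hη0 : 0 < η := lt_trans (by positivity) hη
  have hr0 : 0 < r := by linarith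
  have h2pi := one_le_two_pi_rpow hr0
  have hcB := one_le_cB hη
  obtain ⟨C, hC1, hC⟩ := rel_marchaud (E := E) l hη1 hη0
  have hl2 : (1 : ℝ) ≤ 2 ^ l := one_le_pow₀ (by norm_num)
  refine ⟨cB p η * C * (2 ^ l * (2 * Real.pi) ^ r), ?_, ?_⟩
  · have h1 : 1 ≤ cB p η * C := by nlinarith
    have h2 : 1 ≤ 2 ^ l * (2 * Real.pi) ^ r := by nlinarith
    nlinarith
  intro X _ _ _ _ _ _ _ ν _ G hG K hK h0 h1 t y
  set μ : Measure (Circ × X) := haarC.prod ν with hμ
  set g := opl l t G with hg
  have hgc : Continuous g := opl_continuous l t hG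
  set B : ℝ := 2 ^ l * (2 * Real.pi) ^ r * K * 2 ^ (-(r * t)) with hB
  have hB0 : 0 ≤ B := by positivity
  have hGn : nr μ p G ≤ K := (nr_le_iff hG hK).1 h0
  have hGl : ∀ τ : ℝ, nr μ p ((shiftDiff τ)^[l] G) ≤ K * |τ| ^ r := fun τ =>
    (nr_le_iff (shiftDiff_iter_continuous hG τ l) (by positivity)).1 (h1 τ)
  have hinv : ∀ τ : ℝ, TInv E μ p (((τ : ℝ) : Circ), (0 : X)) := fun τ => tinv_fst ν p τ
  -- norm of g
  have hg0 : nr μ p g ≤ B := by
    by_cases ht : t = 0
    · subst ht
      have : g = G := by simp [hg, opl]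
      rw [this]
      refine hGn.trans ?_
      rw [hB]
      simp only [Nat.cast_zero, mul_zero, neg_zero, Real.rpow_zero, mul_one]
      have h2 : 1 ≤ 2 ^ l * (2 * Real.pi) ^ r := by nlinarith
      nlinarith
    · have : g = (shiftDiff (stp t))^[l] G := by simp [hg, opl, ht]
      rw [this]
      refine (hGl (stp t)).trans ?_
      rw [abs_of_pos (stp_pos _), stp_rpow, hB]
      have h3 : 0 ≤ (2 * Real.pi) ^ r * K * 2 ^ (-(r * t)) := by positivity
      nlinarith
  -- l-th differences of g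
  have hgl : ∀ i : ℕ, nr μ p ((shiftDiff (stp (t + i)))^[l] g) ≤ B * 2 ^ (-(η * i)) := by
    intro i
    have hpow : (2 : ℝ) ^ (-(r * i)) ≤ 2 ^ (-(η * i)) := by
      apply Real.rpow_le_rpow_of_exponent_le (by norm_num)
      have : (0 : ℝ) ≤ i := by positivity
      nlinarith
    have hb : nr μ p ((shiftDiff (stp (t + i)))^[l] G)
        ≤ (2 * Real.pi) ^ r * K * 2 ^ (-(r * t)) * 2 ^ (-(η * i)) := by
      refine (hGl _).trans ?_
      rw [abs_of_pos (stp_pos _), stp_rpow]
      have h4 : (2 : ℝ) ^ (-(r * (t + i : ℕ))) = 2 ^ (-(r * t)) * 2 ^ (-(r * i)) := by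
        rw [← Real.rpow_add (by norm_num)]
        congr 1; push_cast; ring
      rw [h4]
      calc K * ((2 * Real.pi) ^ r * (2 ^ (-(r * t)) * 2 ^ (-(r * i))))
          ≤ K * ((2 * Real.pi) ^ r * (2 ^ (-(r * t)) * 2 ^ (-(η * i)))) := by gcongr
        _ = _ := by ring
    have hX : 0 ≤ (2 * Real.pi) ^ r * K * 2 ^ (-(r * t)) * 2 ^ (-(η * i)) := by positivity
    by_cases ht : t = 0
    · have : g = G := by simp [hg, opl, ht]
      rw [this]
      refine hb.trans ?_
      rw [hB]
      nlinarith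
    · have : g = (shiftDiff (stp t))^[l] G := by simp [hg, opl, ht]
      rw [this, shiftDiff_iter_eq, shiftDiff_iter_eq, fwdDiff_iter_comm]
      rw [shiftDiff_iter_eq] at hb
      refine (nr_fwdDiff_iter_le hp (hinv _) (fwdDiff_iter_continuous _ hG l) l).trans ?_
      rw [hB]
      calc 2 ^ l * nr μ p ((fwdDiff (((stp (t + i) : ℝ) : Circ), (0 : X)))^[l] G)
          ≤ 2 ^ l * ((2 * Real.pi) ^ r * K * 2 ^ (-(r * t)) * 2 ^ (-(η * i))) := by gcongr
        _ = _ := by ring
  have hmar := hC hp (fun i => ((((stp (t + i) : ℝ)) : Circ), (0 : X))) (by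
      intro i
      ext
      · exact stp_coe_add (t + i)
      · simp) (fun i => hinv _) hgc hB0 hg0 (by
      intro i
      rw [← shiftDiff_iter_eq]
      exact hgl i) 1 le_rfl hl
  have h := lemB hp hη ν hgc (s := t) (B := C * B) (by positivity) ?_ ?_ y
  · refine h.trans (ENNReal.ofReal_le_ofReal (le_of_eq ?_))
    have h3 : (2 : ℝ) ^ ((t : ℝ) / p) * 2 ^ (-(r * t)) = 2 ^ (-((r - 1 / p) * t)) := by
      rw [← Real.rpow_add (by norm_num)]
      congr 1; field_simp; ring
    rw [← h3, hB]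
    ring
  · rw [nr_le_iff hgc (by positivity)]
    refine hg0.trans ?_
    nlinarith
  · intro i
    rw [nr_le_iff (shiftDiff_continuous hgc _) (by positivity)]
    have h5 := hmar (i + 1)
    rw [Function.iterate_one, ← shiftDiff_eq_fwdDiff, ← add_assoc] at h5
    refine h5.trans ?_
    have h6 : (2 : ℝ) ^ (-(η * (i + 1 : ℕ))) ≤ 2 ^ (-(η * i)) := by
      apply Real.rpow_le_rpow_of_exponent_le (by norm_num)
      push_cast
      nlinarith
    gcongr

end

end Run7.h221
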