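import Pool.Agent.Run7.h221.TwoL
import Pool.Agent.Run7.h221.EmbL

/-!
Choice of the parameters in dimension two and the induction on the dimension.
-/

open MeasureTheory Filter Topology
open scoped ENNReal

namespace Run7.h221

noncomputable section

set_option linter.unusedSectionVars false

/-- Sampling rate at dyadic points: `b` is the exponent of the logarithm in the number of points
and `e` the exponent of the logarithm in the error. -/
def Rate (E : Type) [NormedAddCommGroup E] [NormedSpace ℝ E] (d l : ℕ) (p r b e : ℝ) : Prop :=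
  ∃ C : ℝ, 1 ≤ C ∧ ∀ n : ℕ, ∃ Y : Finset (Tor d), (Y.card : ℝ) ≤ C * 2 ^ n * ((n : ℝ) + 1) ^ b ∧
    ∃ J₀ : ℕ, ∀ J : ℕ, J₀ ≤ J → ∀ k : Fin d → ℕ, (∀ j, k j < 2 ^ J) →
      ∃ Φ : (Tor d → E) → E, IsComb Y Φ ∧ ∀ K : ℝ, 0 ≤ K → ∀ f : Tor d → E, HL l p r K f →
        ‖f (fun j => pt J (k j)) - Φ f‖ ≤ C * K * ((n : ℝ) + 1) ^ e * 2 ^ (-((r - 1 / p) * n))

lemma ceil_pow {a x : ℝ} (ha : 0 ≤ a) (hx : 1 ≤ x) :
    x ^ a ≤ 2 ^ ((⌈a * Real.logb 2 x⌉₊ : ℕ) : ℝ) ∧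
      (2 : ℝ) ^ ((⌈a * Real.logb 2 x⌉₊ : ℕ) : ℝ) ≤ 2 * x ^ a := by
  have hx0 : 0 < x := by linarith
  have hl : 0 ≤ Real.logb 2 x := Real.logb_nonneg (by norm_num) hx
  have h1 : x ^ a = 2 ^ (a * Real.logb 2 x) := by
    rw [mul_comm, Real.rpow_mul (by norm_num), Real.rpow_logb (by norm_num) (by norm_num) hx0]
  constructor
  · rw [h1]
    exact Real.rpow_le_rpow_of_exponent_le (by norm_num) (Nat.le_ceil _)
  · rw [h1]
    have h2 := (Nat.ceil_lt_add_one (mul_nonneg ha hl)).le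
    calc (2 : ℝ) ^ ((⌈a * Real.logb 2 x⌉₊ : ℕ) : ℝ) ≤ 2 ^ (a * Real.logb 2 x + 1) :=
          Real.rpow_le_rpow_of_exponent_le (by norm_num) h2
      _ = _ := by rw [Real.rpow_add (by norm_num), Real.rpow_one]; ring

/-- The gain. -/
def gam (p η : ℝ) : ℝ := (η - 1 / p) * (2 - p) / (p * η)

theorem rate_two (E : Type) [NormedAddCommGroup E] [NormedSpace ℝ E] [CompleteSpace E] (l : ℕ)
    (hl : 1 ≤ l) {p r η : ℝ} (hp : 1 < p) (hp2 : p < 2)
    (hη : 1 / p < η) (hη1 : η < 1) (hηr : η ≤ r) : Rate E 2 l p r 1 (1 - gam p η) := by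
  obtain ⟨C, hC1, hC⟩ := approx2L (E := E) l hl hp.le hη hη1 hηr
  have hp0 : 0 < p := by linarith
  have hpi : 0 < 1 / p := by positivity
  have hη0 : 0 < η := lt_trans hpi hη
  have hp1 : 1 / p < 1 := by rw [div_lt_one hp0]; exact hp
  set κ : ℝ := (1 - 2 / p + η) / η with hκ
  have hκ0 : 0 ≤ κ := by
    rw [hκ]
    apply div_nonneg _ hη0.le
    have : 2 / p = 1 / p + 1 / p := by ring
    linarith
  have hκ1 : 1 - κ = (2 - p) / (p * η) := by
    rw [hκ]; field_simp; ring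
  have hκ1' : 0 ≤ 1 - κ := by
    rw [hκ1]
    apply div_nonneg (by linarith) (by positivity)
  have hgam : gam p η = (η - 1 / p) * (1 - κ) := by
    rw [hκ1]; unfold gam; ring
  have hγ2 : 2 - 1 / p - κ / p = 1 - gam p η := by
    rw [hgam, hκ]; field_simp; ring
  refine ⟨18 * C, by linarith, ?_⟩
  intro n₀
  set ν : ℝ := (n₀ : ℝ) + 1 with hν
  have hν1 : 1 ≤ ν := by
    have : (0 : ℝ) ≤ n₀ := Nat.cast_nonneg _
    linarith
  have hν0 : 0 < ν := by linarith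
  set h : ℕ := ⌈(1 - κ) * Real.logb 2 ν⌉₊ with hh
  set k' : ℕ := ⌈κ * Real.logb 2 ν⌉₊ with hk'
  obtain ⟨a1, a2⟩ := ceil_pow hκ1' hν1
  obtain ⟨b1, b2⟩ := ceil_pow hκ0 hν1
  rw [← hh] at a1 a2
  rw [← hk'] at b1 b2
  refine ⟨YY n₀ (n₀ + h + (2 + k')), ?_, n₀ + h + (2 + k'), ?_⟩
  · have h1 : (YY n₀ (n₀ + h + (2 + k'))).card
        ≤ (n₀ + 1) * 2 ^ (n₀ + 1) + 2 ^ (n₀ + h + (2 + k')) := by
      classical
      unfold YY
      exact (Finset.card_union_le _ _).trans (add_le_add (sparse_card _) (netPts_card _))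
    have h2 : ((YY n₀ (n₀ + h + (2 + k'))).card : ℝ)
        ≤ ν * 2 ^ (n₀ + 1) + 2 ^ (n₀ + h + (2 + k')) := by
      rw [hν]; exact_mod_cast h1
    refine h2.trans ?_
    have h3 : (2 : ℝ) ^ (n₀ + h + (2 + k')) ≤ 16 * ν * 2 ^ n₀ := by
      have h4 : (2 : ℝ) ^ (n₀ + h + (2 + k')) = 4 * 2 ^ n₀ * (2 ^ (h : ℝ) * 2 ^ (k' : ℝ)) := by
        rw [Real.rpow_natCast, Real.rpow_natCast]; ring
      rw [h4]
      have h5 : (2 : ℝ) ^ (h : ℝ) * 2 ^ (k' : ℝ) ≤ (2 * ν ^ (1 - κ)) * (2 * ν ^ κ) := by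
        gcongr
      have h6 : (2 * ν ^ (1 - κ)) * (2 * ν ^ κ) = 4 * ν := by
        have : ν ^ (1 - κ) * ν ^ κ = ν := by
          rw [← Real.rpow_add hν0]; simp
        calc (2 * ν ^ (1 - κ)) * (2 * ν ^ κ) = 4 * (ν ^ (1 - κ) * ν ^ κ) := by ring
          _ = _ := by rw [this]
      rw [h6] at h5
      have h7 : (0 : ℝ) < 4 * 2 ^ n₀ := by positivity
      nlinarith
    rw [Real.rpow_one]
    have h8 : (0 : ℝ) < 2 ^ n₀ := by positivity
    have h9 : ν * 2 ^ (n₀ + 1) = 2 * ν * 2 ^ n₀ := by ring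
    rw [h9]
    have h10 : 18 * ν * 2 ^ n₀ ≤ 18 * C * 2 ^ n₀ * ν := by
      have : 0 ≤ 18 * ν * 2 ^ n₀ := by positivity
      nlinarith
    linarith
  · intro J hJ k hk
    refine ⟨Phi2 l J (n₀ + h + (2 + k')) (n₀ + h) n₀ (k 0) (k 1), Phi2_comb hl hJ, ?_⟩
    intro K hK f hf
    have h1 := hC n₀ (n₀ + h) (2 + k') (by omega) (by omega) J hJ (k 0) (k 1) (hk 0) (hk 1) K hK
      f hf
    have h2 : (fun j => pt J (k j) : Tor 2) = ![pt J (k 0), pt J (k 1)] := by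
      funext j
      fin_cases j <;> simp
    rw [h2]
    refine h1.trans ?_
    have hhν : ((n₀ + h : ℕ) : ℝ) + 1 ≤ 2 * ν := by
      have h3 : (h : ℝ) ≤ ν := by
        have h4 : (h : ℝ) ≤ (n₀ : ℕ) := by
          rw [hh]
          have : ⌈(1 - κ) * Real.logb 2 ν⌉₊ ≤ n₀ := by
            rw [Nat.ceil_le]
            have h5 : Real.logb 2 ν ≤ n₀ := by
              rw [Real.logb_le_iff_le_rpow (by norm_num) hν0, Real.rpow_natCast, hν]
              have := Nat.lt_two_pow_self (n := n₀)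
              have h6 : n₀ + 1 ≤ 2 ^ n₀ := this
              exact_mod_cast h6
            have h7 : 0 ≤ Real.logb 2 ν := Real.logb_nonneg (by norm_num) hν1
            nlinarith
          exact_mod_cast this
        linarith
      push_cast
      linarith
    have h3 : ((n₀ + h : ℕ) : ℝ) - n₀ = h := by push_cast; ring
    rw [h3]
    have h4 : ((2 + k' - 2 : ℕ) : ℝ) = k' := by
      congr 1; omega
    rw [h4]
    have e1 : (((n₀ + h : ℕ) : ℝ) + 1) * 2 ^ (-((η - 1 / p) * (h : ℝ)))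
        ≤ 2 * ν ^ (1 - gam p η) := by
      have h5 : (2 : ℝ) ^ (-((η - 1 / p) * (h : ℝ))) ≤ ν ^ (-gam p η) := by
        have h6 : (2 : ℝ) ^ (-((η - 1 / p) * (h : ℝ))) = ((2 : ℝ) ^ (h : ℝ)) ^ (-(η - 1 / p)) := by
          rw [← Real.rpow_mul (by norm_num)]
          congr 1; ring
        have h7 : ν ^ (-gam p η) = (ν ^ (1 - κ)) ^ (-(η - 1 / p)) := by
          rw [← Real.rpow_mul hν0.le, hgam]
          congr 1; ring
        rw [h6, h7]
        exact Real.rpow_le_rpow_of_nonpos (by positivity) a1 (by linarith)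
      calc (((n₀ + h : ℕ) : ℝ) + 1) * 2 ^ (-((η - 1 / p) * (h : ℝ)))
          ≤ (2 * ν) * ν ^ (-gam p η) := by gcongr
        _ = 2 * (ν ^ (1 : ℝ) * ν ^ (-gam p η)) := by rw [Real.rpow_one]; ring
        _ = _ := by rw [← Real.rpow_add hν0]; congr 2
    have e2 : (((n₀ + h : ℕ) : ℝ) ^ (1 - 1 / p) * (2 : ℝ) ^ (-((k' : ℝ) / p))) * ((n₀ : ℝ) + 1)
        ≤ 2 * ν ^ (1 - gam p η) := by
      have h5 : (2 : ℝ) ^ (-((k' : ℝ) / p)) ≤ ν ^ (-(κ / p)) := by
        have h6 : (2 : ℝ) ^ (-((k' : ℝ) / p)) = ((2 : ℝ) ^ (k' : ℝ)) ^ (-(1 / p)) := by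
          rw [← Real.rpow_mul (by norm_num)]
          congr 1; ring
        have h7 : ν ^ (-(κ / p)) = (ν ^ κ) ^ (-(1 / p)) := by
          rw [← Real.rpow_mul hν0.le]
          congr 1; ring
        rw [h6, h7]
        exact Real.rpow_le_rpow_of_nonpos (by positivity) b1 (by linarith)
      have h8 : ((n₀ + h : ℕ) : ℝ) ^ (1 - 1 / p) ≤ 2 * ν ^ (1 - 1 / p) := by
        calc ((n₀ + h : ℕ) : ℝ) ^ (1 - 1 / p) ≤ (2 * ν) ^ (1 - 1 / p) :=
              Real.rpow_le_rpow (by positivity) (by linarith) (by linarith)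
          _ = 2 ^ (1 - 1 / p) * ν ^ (1 - 1 / p) := Real.mul_rpow (by norm_num) hν0.le
          _ ≤ 2 * ν ^ (1 - 1 / p) := by
            apply mul_le_mul_of_nonneg_right _ (by positivity)
            calc (2 : ℝ) ^ (1 - 1 / p) ≤ 2 ^ (1 : ℝ) :=
                  Real.rpow_le_rpow_of_exponent_le (by norm_num) (by linarith)
              _ = 2 := Real.rpow_one 2
      calc (((n₀ + h : ℕ) : ℝ) ^ (1 - 1 / p) * (2 : ℝ) ^ (-((k' : ℝ) / p))) * ((n₀ : ℝ) + 1)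
          ≤ ((2 * ν ^ (1 - 1 / p)) * ν ^ (-(κ / p))) * ν := by gcongr
        _ = 2 * (ν ^ (1 - 1 / p) * ν ^ (-(κ / p)) * ν ^ (1 : ℝ)) := by
            rw [Real.rpow_one]; ring
        _ = 2 * ν ^ (1 - gam p η) := by
            rw [← Real.rpow_add hν0, ← Real.rpow_add hν0]
            congr 2
            rw [← hγ2]; ring
    have hCK : 0 ≤ C * K * 2 ^ (-((r - 1 / p) * n₀)) := by positivity
    calc C * K * 2 ^ (-((r - 1 / p) * n₀)) * _
        ≤ C * K * 2 ^ (-((r - 1 / p) * n₀)) * (2 * ν ^ (1 - gam p η) + 2 * ν ^ (1 - gam p η)) :=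
          mul_le_mul_of_nonneg_left (add_le_add e1 e2) hCK
      _ = 4 * (C * K * ν ^ (1 - gam p η) * 2 ^ (-((r - 1 / p) * n₀))) := by ring
      _ ≤ 18 * (C * K * ν ^ (1 - gam p η) * 2 ^ (-((r - 1 / p) * n₀))) := by
          apply mul_le_mul_of_nonneg_right (by norm_num) (by positivity)
      _ = _ := by ring

end

end Run7.h221
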