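import Pool.Agent.Run7.h221.Ind

/-!
Partition of unity and the bound for the sampling numbers.
-/

open MeasureTheory Filter Topology
open scoped ENNReal

namespace Run7.h221

noncomputable section

set_option linter.unusedSectionVars false

lemma circ_norm_le (u : ℝ) : ‖((u : ℝ) : Circ)‖ ≤ |u| :=
  (QuotientAddGroup.norm_mk_le_norm (S := AddSubgroup.zmultiples (2 * Real.pi)) (m := u)).trans
    (le_of_eq (Real.norm_eq_abs u))

lemma circ_rep (x : Circ) : ∃ τ : ℝ, ((τ : ℝ) : Circ) = x ∧ |τ| = ‖x‖ := by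
  obtain ⟨t, rfl⟩ := QuotientAddGroup.mk_surjective x
  refine ⟨t - round ((2 * Real.pi)⁻¹ * t) * (2 * Real.pi), ?_, ?_⟩
  · rw [AddCircle.coe_sub]
    have h : ((((round ((2 * Real.pi)⁻¹ * t) : ℤ) : ℝ) * (2 * Real.pi) : ℝ) : Circ) = 0 := by
      rw [AddCircle.coe_eq_zero_iff]
      exact ⟨round ((2 * Real.pi)⁻¹ * t), by simp⟩
    rw [h, sub_zero]
  · exact (AddCircle.norm_eq (2 * Real.pi) (x := t)).symm

lemma exists_pt_near (J : ℕ) (x : Circ) : ∃ k, k < 2 ^ J ∧ ‖x - pt J k‖ ≤ stp J := by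
  obtain ⟨t, rfl⟩ := QuotientAddGroup.mk_surjective x
  obtain ⟨t', h1, h2⟩ : ∃ t' : ℝ, ((t' : ℝ) : Circ) = ((t : ℝ) : Circ) ∧
      t' ∈ Set.Ico 0 (2 * Real.pi) := by
    refine ⟨toIcoMod Real.two_pi_pos 0 t, ?_, ?_⟩
    · rw [← self_sub_toIcoDiv_zsmul, AddCircle.coe_sub, AddCircle.coe_zsmul,
        AddCircle.coe_period, smul_zero, sub_zero]
    · have := toIcoMod_mem_Ico Real.two_pi_pos 0 t
      rwa [zero_add] at this
  have hs := stp_pos J
  refine ⟨⌊t' / stp J⌋₊, ?_, ?_⟩
  · rw [Nat.floor_lt (div_nonneg h2.1 hs.le), div_lt_iff₀ hs]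
    push_cast
    rw [pow_mul_stp]
    exact h2.2
  · change ‖((t : ℝ) : Circ) - pt J ⌊t' / stp J⌋₊‖ ≤ stp J
    rw [← h1]
    unfold pt
    rw [← AddCircle.coe_sub]
    refine (circ_norm_le _).trans ?_
    have h3 := Nat.floor_le (div_nonneg h2.1 hs.le)
    have h4 := Nat.lt_floor_add_one (t' / stp J)
    rw [le_div_iff₀ hs] at h3
    rw [div_lt_iff₀ hs] at h4
    rw [abs_of_nonneg (by linarith)]
    linarith

/-- The partition of unity argument. -/
theorem sampling_of_local {𝕜 : Type} [RCLike 𝕜] {d : ℕ} {m : ℕ} {F : Set C(Tor d, 𝕜)}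
    {Y : Finset (Tor d)} (hY : Y.card ≤ m) {ι : Type} [Fintype ι] (z : ι → Tor d) {δ : ℝ}
    (hcov : ∀ x, ∃ i, dist x (z i) < δ) (Φ : ι → (Tor d → 𝕜) → 𝕜) (hΦ : ∀ i, IsComb Y (Φ i))
    {B : ℝ} (hB : ∀ i, ∀ x, dist x (z i) < δ → ∀ f ∈ F, ‖f x - Φ i f‖ ≤ B) :
    samplingNumber m F ⊤ ≤ ENNReal.ofReal B := by
  classical
  choose w hw using hΦ
  -- the partition
  set G : ι → Tor d → ℝ := fun i x => max 0 (δ - dist x (z i)) with hG
  have hGc : ∀ i, Continuous (G i) := fun i =>
    continuous_const.max (continuous_const.sub (continuous_id.dist continuous_const))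
  have hG0 : ∀ i x, 0 ≤ G i x := fun i x => le_max_left _ _
  set S : Tor d → ℝ := fun x => ∑ i, G i x with hS
  have hSc : Continuous S := continuous_finsetSum _ fun i _ => hGc i
  have hSpos : ∀ x, 0 < S x := by
    intro x
    obtain ⟨i, hi⟩ := hcov x
    apply Finset.sum_pos' (fun i _ => hG0 i x)
    exact ⟨i, Finset.mem_univ i, lt_max_of_lt_right (by linarith)⟩
  have hφc : ∀ i, Continuous (fun x => G i x / S x) := fun i =>
    (hGc i).div hSc fun x => (hSpos x).ne'
  set ψ : Tor d → C(Tor d, 𝕜) := fun y =>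
    ⟨fun x => ((∑ i, G i x / S x * w i y : ℝ) : 𝕜),
      RCLike.continuous_ofReal.comp (continuous_finsetSum _ fun i _ =>
        (hφc i).mul continuous_const)⟩ with hψ
  have herr : ∀ f ∈ F, ∀ x, ‖f x - ∑ y ∈ Y, f y * ψ y x‖ ≤ B := by
    intro f hf x
    have h1 : ∑ i, G i x / S x = 1 := by
      rw [← Finset.sum_div]
      exact div_self (hSpos x).ne'
    have h2 : f x - ∑ y ∈ Y, f y * ψ y x
        = ∑ i, (((G i x / S x : ℝ)) : 𝕜) * (f x - Φ i f) := by
      have h3 : ∑ y ∈ Y, f y * ψ y x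
          = ∑ i, (((G i x / S x : ℝ)) : 𝕜) * Φ i f := by
        simp only [hψ, ContinuousMap.coe_mk, hw]
        push_cast
        simp only [Finset.mul_sum]
        rw [Finset.sum_comm]
        apply Finset.sum_congr rfl
        intro i _
        apply Finset.sum_congr rfl
        intro y _
        rw [RCLike.real_smul_eq_coe_mul]
        ring
      rw [h3]
      simp only [mul_sub]
      rw [Finset.sum_sub_distrib, ← Finset.sum_mul]
      congr 1
      rw [← RCLike.ofReal_sum, h1]
      simp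
    rw [h2]
    refine (norm_sum_le _ _).trans ?_
    calc ∑ i, ‖(((G i x / S x : ℝ)) : 𝕜) * (f x - Φ i f)‖ ≤ ∑ i, G i x / S x * B := by
          apply Finset.sum_le_sum
          intro i _
          rw [norm_mul, RCLike.norm_ofReal, abs_of_nonneg (div_nonneg (hG0 i x) (hSpos x).le)]
          by_cases h4 : dist x (z i) < δ
          · exact mul_le_mul_of_nonneg_left (hB i x h4 f hf) (div_nonneg (hG0 i x) (hSpos x).le)
          · have h5 : G i x = 0 := by
              simp only [hG]
              apply max_eq_left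
              push Not at h4
              linarith
            rw [h5]; simp
      _ = B := by rw [← Finset.sum_mul, h1, one_mul]
  -- the enumeration
  obtain ⟨e⟩ := Function.Embedding.nonempty_of_card_le (α := Y) (β := Fin m) (by simpa using hY)
  refine iInf_le_of_le (Function.extend e (fun y : Y => (y : Tor d)) (fun _ => 0)) ?_
  refine iInf_le_of_le (Function.extend e (fun y : Y => ψ y) (fun _ => 0)) ?_
  refine iSup_le fun f => iSup_le fun hf => ?_
  have h6 : ∀ x, ∑ i : Fin m, f (Function.extend e (fun y : Y => (y : Tor d)) (fun _ => 0) i)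
      * Function.extend e (fun y : Y => ψ y) (fun _ => 0) i x = ∑ y ∈ Y, f y * ψ y x := by
    intro x
    have h8 := Finset.sum_coe_sort Y (fun y => f y * ψ y x)
    rw [← h8]
    symm
    apply Fintype.sum_of_injective e e.injective
    · intro i hi
      rw [Function.extend_apply' _ _ _ (by simpa using hi)]
      have : Function.extend e (fun y : Y => ψ y) (fun _ => 0) i = 0 :=
        Function.extend_apply' _ _ _ (by simpa using hi)
      rw [this]
      simp
    · intro y
      rw [e.injective.extend_apply, e.injective.extend_apply]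
  simp only [h6]
  have h7 := eLpNorm_le_of_ae_bound (p := ⊤) (μ := torMeas d)
    (f := fun x => f x - ∑ y ∈ Y, f y * ψ y x) (C := B) (ae_of_all _ (herr f hf))
  simpa using h7

/-- The uniform bound for the sampling numbers. -/
theorem sampling_trivial {𝕜 : Type} [RCLike 𝕜] {d : ℕ} {m : ℕ} {F : Set C(Tor d, 𝕜)}
    {B : ℝ} (hB : ∀ f ∈ F, ∀ x, ‖f x‖ ≤ B) : samplingNumber m F ⊤ ≤ ENNReal.ofReal B := by
  refine iInf_le_of_le (fun _ => 0) (iInf_le_of_le (fun _ => 0) ?_)
  refine iSup_le fun f => iSup_le fun hf => ?_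
  have h7 := eLpNorm_le_of_ae_bound (p := ⊤) (μ := torMeas d)
    (f := fun x => f x - ∑ i : Fin m, f ((fun _ => 0 : Fin m → Tor d) i)
      * ((fun _ => 0 : Fin m → C(Tor d, 𝕜)) i) x) (C := B) (ae_of_all _ (by
        intro x
        simpa using hB f hf x))
  simpa using h7

end

end Run7.h221
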