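import Pool.Agent.Run7.h221.Coef

/-!
Relative Marchaud inequality and grid bounds for differences of order `l`.
-/

open MeasureTheory Filter Topology
open scoped ENNReal

namespace Run7.h221

noncomputable section

set_option linter.unusedSectionVars false

variable {E : Type*} [NormedAddCommGroup E] [NormedSpace ℝ E]

section general

variable {M : Type*} [TopologicalSpace M] [CompactSpace M] [SecondCountableTopology M]
  [MeasurableSpace M] [BorelSpace M]

/-- Real-valued `L_p` norm. -/
def nr (μ : Measure M) (p : ℝ) (g : M → E) : ℝ := (eLpNorm g (ENNReal.ofReal p) μ).toReal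

variable {μ : Measure M} [IsFiniteMeasure μ]

lemma memLp_of_cont' {p : ℝ≥0∞} {g : M → E} (hg : Continuous g) :
    MemLp g p μ := by
  obtain ⟨C, hC⟩ := (isCompact_univ (X := M)).exists_bound_of_continuousOn hg.continuousOn
  exact MemLp.of_bound hg.aestronglyMeasurable C (ae_of_all _ fun x => hC x (Set.mem_univ x))

lemma eLpNorm_ne_top' {p : ℝ≥0∞} {g : M → E} (hg : Continuous g) :
    eLpNorm g p μ ≠ ⊤ := (memLp_of_cont' hg).eLpNorm_ne_top

lemma nr_nonneg (p : ℝ) (g : M → E) : 0 ≤ nr μ p g := ENNReal.toReal_nonneg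

lemma nr_le_iff {p : ℝ} {g : M → E} (hg : Continuous g) {B : ℝ} (hB : 0 ≤ B) :
    eLpNorm g (ENNReal.ofReal p) μ ≤ ENNReal.ofReal B ↔ nr μ p g ≤ B := by
  unfold nr
  rw [← ENNReal.le_ofReal_iff_toReal_le (eLpNorm_ne_top' hg) hB]

lemma nr_add_le {p : ℝ} (hp : 1 ≤ p) {f g : M → E} (hf : Continuous f) (hg : Continuous g) :
    nr μ p (f + g) ≤ nr μ p f + nr μ p g := by
  unfold nr
  rw [← ENNReal.toReal_add (eLpNorm_ne_top' hf) (eLpNorm_ne_top' hg)]
  apply ENNReal.toReal_mono
  · exact ENNReal.add_ne_top.2 ⟨eLpNorm_ne_top' hf, eLpNorm_ne_top' hg⟩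
  · exact eLpNorm_add_le hf.aestronglyMeasurable hg.aestronglyMeasurable
      (by rw [ENNReal.one_le_ofReal]; exact hp)

lemma nr_smul {p : ℝ} (c : ℝ) (g : M → E) : nr μ p (c • g) = |c| * nr μ p g := by
  unfold nr
  rw [eLpNorm_const_smul, ENNReal.toReal_mul]
  simp

lemma nr_sub_le {p : ℝ} (hp : 1 ≤ p) {f g : M → E} (hf : Continuous f) (hg : Continuous g) :
    nr μ p (f - g) ≤ nr μ p f + nr μ p g := by
  rw [sub_eq_add_neg]
  refine (nr_add_le hp hf hg.neg).trans ?_
  have : nr μ p (-g) = nr μ p g := by unfold nr; rw [eLpNorm_neg]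
  rw [this]

variable [AddCommGroup M] [IsTopologicalAddGroup M]

/-- Invariance of the measure under translation by `a`. -/
def TInv (E : Type*) [NormedAddCommGroup E] [NormedSpace ℝ E] (μ : Measure M) (p : ℝ)
    (a : M) : Prop :=
  ∀ g : M → E, Continuous g → nr μ p (fun x => g (x + a)) = nr μ p g

lemma nr_fwdDiff_le {p : ℝ} (hp : 1 ≤ p) {a : M} (ha : TInv E μ p a) {g : M → E}
    (hg : Continuous g) : nr μ p (fwdDiff a g) ≤ 2 * nr μ p g := by
  have h1 : fwdDiff a g = (fun x => g (x + a)) - g := by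
    ext x; rfl
  rw [h1]
  refine (nr_sub_le hp (by fun_prop) hg).trans ?_
  rw [ha g hg]; linarith

lemma nr_fwdDiff_iter_le {p : ℝ} (hp : 1 ≤ p) {a : M} (ha : TInv E μ p a) {g : M → E}
    (hg : Continuous g) (k : ℕ) : nr μ p ((fwdDiff a)^[k] g) ≤ 2 ^ k * nr μ p g := by
  induction k generalizing g with
  | zero => simp
  | succ k ih =>
    rw [Function.iterate_succ_apply]
    refine (ih (fwdDiff_continuous a hg)).trans ?_
    have := nr_fwdDiff_le hp ha hg
    rw [pow_succ]
    have h2 : (0 : ℝ) < 2 ^ k := by positivity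
    nlinarith

lemma marchaud_step' {p : ℝ} (hp : 1 ≤ p) {a : M} (ha : TInv E μ p a) (k : ℕ) {g : M → E}
    (hg : Continuous g) :
    nr μ p ((fwdDiff a)^[k] g) ≤ (1 / 2) ^ k * nr μ p ((fwdDiff (a + a))^[k] g)
      + (k / 2) * nr μ p ((fwdDiff a)^[k + 1] g) := by
  induction k generalizing g with
  | zero => simp
  | succ k ih =>
    set g' := fwdDiff (a + a) g with hg'
    have hg'c : Continuous g' := fwdDiff_continuous _ hg
    have h1 := ih hg'c
    have hid : ∀ w : M → E, fwdDiff (a + a) w = (2 : ℝ) • fwdDiff a w + (fwdDiff a)^[2] w := by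
      intro w
      ext x
      simp only [Function.iterate_succ, Function.iterate_zero, Function.comp, id, fwdDiff,
        Pi.add_apply, two_smul, add_assoc]
      abel
    have h2 : (fwdDiff a)^[k + 1] g
        = (1 / 2 : ℝ) • ((fwdDiff a)^[k] g' - (fwdDiff a)^[k + 2] g) := by
      have h3 : (fwdDiff a)^[k] g' = (2 : ℝ) • (fwdDiff a)^[k + 1] g + (fwdDiff a)^[k + 2] g := by
        have h4 : (fwdDiff a)^[k] g' = fwdDiff (a + a) ((fwdDiff a)^[k] g) := by
          rw [hg']
          exact fwdDiff_iter_comm a (a + a) k 1 g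
        rw [h4, hid, ← Function.iterate_succ_apply' (fwdDiff a) k g,
          ← Function.iterate_add_apply, add_comm 2 k]
      rw [h3, add_sub_cancel_right, smul_smul]
      norm_num
    have h5 : nr μ p ((fwdDiff a)^[k + 1] g')
        ≤ 2 * nr μ p ((fwdDiff a)^[k + 2] g) := by
      have h6 : (fwdDiff a)^[k + 1] g'
          = (fun x => ((fwdDiff a)^[k + 2] g) (x + a)) + (fwdDiff a)^[k + 2] g := by
        have h4 : (fwdDiff a)^[k + 1] g' = fwdDiff (a + a) ((fwdDiff a)^[k + 1] g) := by
          rw [hg']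
          exact fwdDiff_iter_comm a (a + a) (k + 1) 1 g
        rw [h4, show k + 2 = (k + 1) + 1 by ring, Function.iterate_succ_apply' (fwdDiff a) (k + 1)]
        set w := (fwdDiff a)^[k + 1] g
        ext x
        simp only [fwdDiff, Pi.add_apply, add_assoc]
        abel
      rw [h6]
      have hc := fwdDiff_iter_continuous a hg (k + 2)
      refine (nr_add_le hp (by fun_prop) hc).trans ?_
      rw [ha _ hc]; linarith
    have h7 : nr μ p ((fwdDiff a)^[k + 1] g)
        ≤ 1 / 2 * (nr μ p ((fwdDiff a)^[k] g') + nr μ p ((fwdDiff a)^[k + 2] g)) := by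
      rw [h2, nr_smul, abs_of_pos (by norm_num : (0 : ℝ) < 1 / 2)]
      gcongr
      exact nr_sub_le hp (fwdDiff_iter_continuous a hg'c k)
        (fwdDiff_iter_continuous a hg (k + 2))
    have h8 : (fwdDiff (a + a))^[k] g' = (fwdDiff (a + a))^[k + 1] g := by
      rw [Function.iterate_succ_apply]
    rw [h8] at h1
    have hk : (0 : ℝ) ≤ k / 2 := by positivity
    have h9 := mul_le_mul_of_nonneg_left h5 hk
    rw [pow_succ]
    push_cast
    rw [show k + 1 + 1 = k + 2 by ring]
    nlinarith [h1, h7, h9]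

end general

/-- The constant in the relative Marchaud inequality. -/
theorem rel_marchaud (l : ℕ) {η : ℝ} (hη : η < 1) (hη0 : 0 < η) : ∃ C : ℝ, 1 ≤ C ∧
    ∀ {M : Type} [TopologicalSpace M] [CompactSpace M] [SecondCountableTopology M]
      [MeasurableSpace M] [BorelSpace M] [AddCommGroup M] [IsTopologicalAddGroup M]
      {μ : Measure M} [IsFiniteMeasure μ] {p : ℝ} (_hp : 1 ≤ p) (u : ℕ → M)
      (_hu : ∀ i, u (i + 1) + u (i + 1) = u i) (_hinv : ∀ i, TInv E μ p (u i))
      {g : M → E} (_hg : Continuous g) {B : ℝ} (_hB : 0 ≤ B) (_h0 : nr μ p g ≤ B)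
      (_hl : ∀ i : ℕ, nr μ p ((fwdDiff (u i))^[l] g) ≤ B * 2 ^ (-(η * i))),
      ∀ k : ℕ, 1 ≤ k → k ≤ l → ∀ i : ℕ,
        nr μ p ((fwdDiff (u i))^[k] g) ≤ C * B * 2 ^ (-(η * i)) := by
  have hq : (2 : ℝ) ^ (η - 1) < 1 := by
    apply Real.rpow_lt_one_of_one_lt_of_neg (by norm_num); linarith
  have hq0 : 0 < (2 : ℝ) ^ (η - 1) := by positivity
  have hpos : 0 < 1 - (2 : ℝ) ^ (η - 1) := by linarith
  have main : ∀ m : ℕ, ∃ C : ℝ, 1 ≤ C ∧
    ∀ {M : Type} [TopologicalSpace M] [CompactSpace M] [SecondCountableTopology M]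
      [MeasurableSpace M] [BorelSpace M] [AddCommGroup M] [IsTopologicalAddGroup M]
      {μ : Measure M} [IsFiniteMeasure μ] {p : ℝ} (_hp : 1 ≤ p) (u : ℕ → M)
      (_hu : ∀ i, u (i + 1) + u (i + 1) = u i) (_hinv : ∀ i, TInv E μ p (u i))
      {g : M → E} (_hg : Continuous g) {B : ℝ} (_hB : 0 ≤ B) (_h0 : nr μ p g ≤ B)
      (_hl : ∀ i : ℕ, nr μ p ((fwdDiff (u i))^[l] g) ≤ B * 2 ^ (-(η * i))),
      ∀ k : ℕ, 1 ≤ k → k ≤ l → l ≤ k + m → ∀ i : ℕ,
        nr μ p ((fwdDiff (u i))^[k] g) ≤ C * B * 2 ^ (-(η * i)) := by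
    intro m
    induction m with
    | zero =>
      refine ⟨1, le_rfl, ?_⟩
      intro M _ _ _ _ _ _ _ μ _ p hp u hu hinv g hg B hB h0 hl k hk1 hk2 hk3 i
      have : k = l := by omega
      subst this
      rw [one_mul]; exact hl i
    | succ m ih =>
      obtain ⟨C, hC1, hC⟩ := ih
      refine ⟨C + (2 ^ l + l * C / (1 - 2 ^ (η - 1))), ?_, ?_⟩
      · have h1 : (0 : ℝ) ≤ 2 ^ l + l * C / (1 - 2 ^ (η - 1)) := by positivity
        linarith
      intro M _ _ _ _ _ _ _ μ _ p hp u hu hinv g hg B hB h0 hl k hk1 hk2 hk3 i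
      by_cases hkm : l ≤ k + m
      · refine (hC hp u hu hinv hg hB h0 hl k hk1 hk2 hkm i).trans ?_
        have h2 : (0 : ℝ) ≤ 2 ^ l + l * C / (1 - 2 ^ (η - 1)) := by positivity
        have h3 : (0 : ℝ) < 2 ^ (-(η * i)) := by positivity
        apply mul_le_mul_of_nonneg_right _ h3.le
        apply mul_le_mul_of_nonneg_right _ hB
        linarith
      · have hnext := hC hp u hu hinv hg hB h0 hl (k + 1) (by omega) (by omega) (by omega)
        set C' : ℝ := 2 ^ l + l * C / (1 - 2 ^ (η - 1)) with hC'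
        have hC'0 : 0 ≤ C' := by positivity
        have hC'C : l * C ≤ C' * (1 - 2 ^ (η - 1)) := by
          rw [hC', add_mul, div_mul_cancel₀ _ hpos.ne']
          have : (0 : ℝ) ≤ 2 ^ l * (1 - 2 ^ (η - 1)) := by positivity
          linarith
        have key : ∀ i : ℕ, nr μ p ((fwdDiff (u i))^[k] g) ≤ C' * B * 2 ^ (-(η * i)) := by
          intro i
          induction i with
          | zero =>
            refine (nr_fwdDiff_iter_le hp (hinv 0) hg k).trans ?_
            have h3 : (2 : ℝ) ^ k ≤ 2 ^ l := pow_le_pow_right₀ (by norm_num) hk2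
            have h4 := nr_nonneg (μ := μ) p g
            have h5 : (0 : ℝ) ≤ l * C / (1 - 2 ^ (η - 1)) := by positivity
            simp only [Nat.cast_zero, mul_zero, neg_zero, Real.rpow_zero, mul_one]
            calc 2 ^ k * nr μ p g ≤ 2 ^ l * B := by gcongr
              _ ≤ C' * B := by
                apply mul_le_mul_of_nonneg_right _ hB
                rw [hC']; linarith
          | succ i ihi =>
            have h1 := marchaud_step' hp (hinv (i + 1)) k hg
            rw [hu i] at h1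
            have h2 := hnext (i + 1)
            have h3 : ((1 : ℝ) / 2) ^ k ≤ 1 / 2 := by
              calc ((1 : ℝ) / 2) ^ k ≤ (1 / 2) ^ 1 :=
                    pow_le_pow_of_le_one (by norm_num) (by norm_num) hk1
                _ = 1 / 2 := by norm_num
            have h4 := nr_nonneg (μ := μ) p ((fwdDiff (u i))^[k] g)
            have h5 : (2 : ℝ) ^ (-(η * i)) = 2 ^ η * 2 ^ (-(η * (i + 1 : ℕ))) := by
              rw [← Real.rpow_add (by norm_num)]
              congr 1; push_cast; ring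
            have h6 : (2 : ℝ) ^ (η - 1) = 1 / 2 * 2 ^ η := by
              rw [Real.rpow_sub (by norm_num), Real.rpow_one]; ring
            set P : ℝ := 2 ^ (-(η * (i + 1 : ℕ))) with hP
            have hP0 : 0 < P := by positivity
            have h7 : (k : ℝ) / 2 ≤ l / 2 := by
              have : (k : ℝ) ≤ l := by exact_mod_cast hk2
              linarith
            have hX0 : 0 ≤ C * B * P := by positivity
            have hX1 := nr_nonneg (μ := μ) p ((fwdDiff (u (i + 1)))^[k + 1] g)
            calc nr μ p ((fwdDiff (u (i + 1)))^[k] g)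
                ≤ (1 / 2) ^ k * nr μ p ((fwdDiff (u i))^[k] g)
                  + (k / 2) * nr μ p ((fwdDiff (u (i + 1)))^[k + 1] g) := h1
              _ ≤ 1 / 2 * (C' * B * 2 ^ (-(η * i))) + (l / 2) * (C * B * P) := by
                gcongr
              _ = (2 ^ (η - 1) * C' + l * C / 2) * B * P := by
                rw [h5, h6]; ring
              _ ≤ C' * B * P := by
                apply mul_le_mul_of_nonneg_right _ hP0.le
                apply mul_le_mul_of_nonneg_right _ hB
                have : (0 : ℝ) ≤ l * C := by positivity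
                nlinarith
        refine (key i).trans ?_
        have h3 : (0 : ℝ) < 2 ^ (-(η * i)) := by positivity
        apply mul_le_mul_of_nonneg_right _ h3.le
        apply mul_le_mul_of_nonneg_right _ hB
        linarith
  obtain ⟨C, hC1, hC⟩ := main l
  refine ⟨C, hC1, ?_⟩
  intro M _ _ _ _ _ _ _ μ _ p hp u hu hinv g hg B hB h0 hl k hk1 hk2 i
  exact hC hp u hu hinv hg hB h0 hl k hk1 hk2 (by omega) i

end

end Run7.h221
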