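import Pool.Agent.Run7.h221.Cls

/-!
Slices of functions of the class.
-/

open MeasureTheory Filter Topology
open scoped ENNReal

namespace Run7.h221

noncomputable section

set_option linter.unusedSectionVars false

variable {E : Type*} [NormedAddCommGroup E] [NormedSpace ℝ E] {d : ℕ}

lemma cons_add_single_succ (y : Circ) (x : Tor d) (j : Fin d) (a : Circ) :
    (Fin.cons y x : Tor (d + 1)) + Pi.single j.succ a = Fin.cons y (x + Pi.single j a) := by
  ext i
  refine Fin.cases ?_ (fun i => ?_) i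
  · simp [(Fin.succ_ne_zero j).symm]
  · simp only [Pi.add_apply, Fin.cons_succ, Pi.single_apply, Fin.succ_inj]

lemma cons_add_single_zero (y : Circ) (x : Tor d) (a : Circ) :
    (Fin.cons y x : Tor (d + 1)) + Pi.single 0 a = Fin.cons (y + a) x := by
  ext i
  refine Fin.cases ?_ (fun i => ?_) i
  · simp
  · simp [Fin.succ_ne_zero]

lemma fwdDiff_iter_succ (j : Fin d) (a : Circ) (m : ℕ) (G : Tor (d + 1) → E) (y : Circ)
    (x : Tor d) :
    (fwdDiff (Pi.single j.succ a : Tor (d + 1)))^[m] G (Fin.cons y x)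
      = (fwdDiff (Pi.single j a : Tor d))^[m] (fun x => G (Fin.cons y x)) x := by
  induction m generalizing G with
  | zero => rfl
  | succ m ih =>
    rw [Function.iterate_succ_apply, Function.iterate_succ_apply, ih]
    have h : (fun x : Tor d => fwdDiff (Pi.single j.succ a : Tor (d + 1)) G (Fin.cons y x))
        = fwdDiff (Pi.single j a : Tor d) (fun x => G (Fin.cons y x)) := by
      funext x
      simp only [fwdDiff, cons_add_single_succ]
    rw [h]

lemma fwdDiff_iter_zero (a : Circ) (m : ℕ) (G : Tor (d + 1) → E) (y : Circ)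
    (x : Tor d) :
    (fwdDiff (Pi.single 0 a : Tor (d + 1)))^[m] G (Fin.cons y x)
      = (fwdDiff a)^[m] (fun y => G (Fin.cons y x)) y := by
  induction m generalizing G with
  | zero => rfl
  | succ m ih =>
    rw [Function.iterate_succ_apply, Function.iterate_succ_apply, ih]
    have h : (fun y : Circ => fwdDiff (Pi.single 0 a : Tor (d + 1)) G (Fin.cons y x))
        = fwdDiff a (fun y => G (Fin.cons y x)) := by
      funext y
      simp only [fwdDiff, cons_add_single_zero]
    rw [h]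

lemma foldD_map_succ (L : List (Fin d)) (k : Fin (d + 1) → ℕ) (t : Fin (d + 1) → ℝ)
    (f : Tor (d + 1) → E) (y : Circ) (x : Tor d) :
    foldD (L.map Fin.succ) k t f (Fin.cons y x)
      = foldD L (Fin.tail k) (Fin.tail t) (fun x => f (Fin.cons y x)) x := by
  induction L generalizing x with
  | nil => rfl
  | cons j L ih =>
    rw [List.map_cons, foldD_cons, foldD_cons, fwdDiff_iter_succ]
    have h : (fun x => foldD (L.map Fin.succ) k t f (Fin.cons y x))
        = foldD L (Fin.tail k) (Fin.tail t) (fun x => f (Fin.cons y x)) := by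
      ext x; exact ih x
    rw [h]
    rfl

lemma dOp_cons (k : Fin (d + 1) → ℕ) (t : Fin (d + 1) → ℝ)
    (f : Tor (d + 1) → E) (y : Circ) (x : Tor d) :
    dOp k t f (Fin.cons y x)
      = (fwdDiff ((t 0 : ℝ) : Circ))^[k 0]
        (fun y => dOp (Fin.tail k) (Fin.tail t) (fun x => f (Fin.cons y x)) x) y := by
  unfold dOp
  rw [List.finRange_succ, foldD_cons, fwdDiff_iter_zero]
  have h : (fun y : Circ => foldD ((List.finRange d).map Fin.succ) k t f (Fin.cons y x))
      = fun y => foldD (List.finRange d) (Fin.tail k) (Fin.tail t)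
        (fun x => f (Fin.cons y x)) x := by
    funext y
    exact foldD_map_succ _ _ _ _ _ _
  rw [h]

lemma eLpNorm_cons {p : ℝ≥0∞} {G : Tor (d + 1) → E} (hG : Continuous G) :
    eLpNorm (fun z : Circ × Tor d => G (Fin.cons z.1 z.2)) p (haarC.prod (torMeas d))
      = eLpNorm G p (torMeas (d + 1)) := by
  have h := measurePreserving_piFinSuccAbove (fun _ : Fin (d + 1) => haarC) 0
  have hc : Continuous (fun z : Circ × Tor d => G (Fin.cons z.1 z.2)) := by
    apply hG.comp
    apply continuous_pi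
    intro i
    refine Fin.cases ?_ (fun i => ?_) i
    · exact continuous_fst
    · simp only [Fin.cons_succ]
      exact (continuous_apply i).comp continuous_snd
  have h2 := eLpNorm_comp_measurePreserving (p := p) (hc.aestronglyMeasurable) h
  refine h2.symm.trans ?_
  have h3 : ((fun z : Circ × Tor d => G (Fin.cons z.1 z.2))
      ∘ (MeasurableEquiv.piFinSuccAbove (fun _ : Fin (d + 1) => Circ) 0)) = G := by
    funext x
    simp only [Function.comp]
    congr 1
    funext i
    refine Fin.cases ?_ (fun i => ?_) i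
    · rfl
    · rfl
  rw [h3]
  rfl

lemma continuous_cons {G : Tor (d + 1) → E} (hG : Continuous G) :
    Continuous (fun z : Circ × Tor d => G (Fin.cons z.1 z.2)) := by
  apply hG.comp
  apply continuous_pi
  intro i
  refine Fin.cases ?_ (fun i => ?_) i
  · exact continuous_fst
  · simp only [Fin.cons_succ]
    exact (continuous_apply i).comp continuous_snd

lemma eLpNorm_slice_le {ν : Measure (Tor d)} [IsFiniteMeasure ν] {p : ℝ} (hp : 1 ≤ p)
    {G : Circ × Tor d → E} (hG : Continuous G) (s : ℕ) (y : Circ) :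
    eLpNorm (fun x => G (y, x)) (ENNReal.ofReal p) ν
      ≤ eLpNorm G (ENNReal.ofReal p) ((grid s y).prod ν) := by
  rw [eLpNorm_eq_rpow hp, eLpNorm_eq_rpow hp]
  have hm1 : AEMeasurable (fun z : Circ × Tor d => ‖G z‖ₑ ^ p) ((grid s y).prod ν) :=
    (hG.enorm.measurable.pow_const _).aemeasurable
  rw [lintegral_prod _ hm1, lintegral_grid]
  have hp0 : 0 < p := by linarith
  apply ENNReal.rpow_le_rpow _ (by positivity)
  have h0 : (0 : ℕ) ∈ Finset.range (2 ^ s) := by simp
  refine le_trans (le_of_eq ?_) (Finset.single_le_sum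
    (f := fun k : ℕ => ∫⁻ x, ‖G (y + ((k * stp s : ℝ) : Circ), x)‖ₑ ^ p ∂ν)
    (fun _ _ => zero_le) h0)
  simp

/-- The function of the last variables obtained by a mixed difference in those variables. -/
def slc (k : Fin d → ℕ) (t : Fin d → ℝ) (f : Tor (d + 1) → E) : Circ × Tor d → E :=
  fun z => dOp k t (fun x => f (Fin.cons z.1 x)) z.2

lemma slc_eq (k : Fin d → ℕ) (t : Fin d → ℝ) (f : Tor (d + 1) → E) :
    slc k t f = fun z => dOp (Fin.cons 0 k) (Fin.cons 0 t) f (Fin.cons z.1 z.2) := by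
  ext z
  rw [dOp_cons]
  rfl

lemma slc_continuous (k : Fin d → ℕ) (t : Fin d → ℝ) {f : Tor (d + 1) → E} (hf : Continuous f) :
    Continuous (slc k t f) := by
  rw [slc_eq]
  exact continuous_cons (dOp_continuous _ _ hf)

lemma shiftDiff_slc_eq (k : Fin d → ℕ) (t : Fin d → ℝ) (τ : ℝ) (f : Tor (d + 1) → E) :
    shiftDiff τ (slc k t f)
      = fun z => dOp (Fin.cons 1 k) (Fin.cons τ t) f (Fin.cons z.1 z.2) := by
  ext z
  rw [dOp_cons]
  rfl

lemma HC.slc_bound {p r K : ℝ} {f : Tor (d + 1) → E} (hK : 0 ≤ K) (hf : HC p r K f)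
    (k : Fin d → ℕ) (hk : ∀ j, k j ≤ 1) (t : Fin d → ℝ) :
    eLpNorm (slc k t f) (ENNReal.ofReal p) (haarC.prod (torMeas d))
      ≤ ENNReal.ofReal (K * ∏ j, wt r (k j) (t j)) := by
  have hW : 0 ≤ ∏ j, wt r (k j) (t j) := Finset.prod_nonneg fun j _ => wt_nonneg _ _ _
  rw [slc_eq, eLpNorm_cons (dOp_continuous _ _ hf.cont),
    nrm_le_iff (dOp_continuous _ _ hf.cont) (by positivity)]
  refine (hf.bd (Fin.cons 0 k) ?_ _).trans_eq ?_
  · intro j
    refine Fin.cases ?_ (fun i => ?_) j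
    · simp
    · simpa using hk i
  · rw [Fin.prod_univ_succ]
    simp [wt_zero]

lemma HC.shiftDiff_slc_bound {p r K : ℝ} {f : Tor (d + 1) → E} (hK : 0 ≤ K)
    (hf : HC p r K f) (k : Fin d → ℕ) (hk : ∀ j, k j ≤ 1) (t : Fin d → ℝ) (τ : ℝ) :
    eLpNorm (shiftDiff τ (slc k t f)) (ENNReal.ofReal p) (haarC.prod (torMeas d))
      ≤ ENNReal.ofReal (K * |τ| ^ r * ∏ j, wt r (k j) (t j)) := by
  have hW : 0 ≤ ∏ j, wt r (k j) (t j) := Finset.prod_nonneg fun j _ => wt_nonneg _ _ _
  rw [shiftDiff_slc_eq, eLpNorm_cons (dOp_continuous _ _ hf.cont),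
    nrm_le_iff (dOp_continuous _ _ hf.cont) (by positivity)]
  refine (hf.bd (Fin.cons 1 k) ?_ _).trans_eq ?_
  · intro j
    refine Fin.cases ?_ (fun i => ?_) j
    · simp
    · simpa using hk i
  · rw [Fin.prod_univ_succ]
    simp [wt_pos, mul_assoc]

/-- translation in the first variable preserves the product norm. -/
lemma eLpNorm_translate_fst {X : Type*} [MeasurableSpace X] [TopologicalSpace X]
    [SecondCountableTopology X] [BorelSpace X]
    {ν : Measure X} [IsFiniteMeasure ν] {p : ℝ≥0∞} {G : Circ × X → E} (hG : Continuous G)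
    (a : Circ) :
    eLpNorm (fun z => G (z.1 + a, z.2)) p (haarC.prod ν) = eLpNorm G p (haarC.prod ν) := by
  have h1 : MeasurePreserving (fun y : Circ => y + a) haarC haarC :=
    measurePreserving_add_right haarC a
  have h := h1.prod (MeasurePreserving.id ν)
  exact eLpNorm_comp_measurePreserving hG.aestronglyMeasurable h

lemma eLpNorm_shiftDiff_le {X : Type*} [MeasurableSpace X] [TopologicalSpace X]
    [SecondCountableTopology X] [BorelSpace X]
    {ν : Measure X} [IsFiniteMeasure ν] {p : ℝ} (hp : 1 ≤ p) {G : Circ × X → E}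
    (hG : Continuous G) (τ : ℝ) :
    eLpNorm (shiftDiff τ G) (ENNReal.ofReal p) (haarC.prod ν)
      ≤ 2 * eLpNorm G (ENNReal.ofReal p) (haarC.prod ν) := by
  have h1 : shiftDiff τ G = (fun z => G (z.1 + (τ : Circ), z.2)) - G := by
    ext z; rfl
  have hc : Continuous (fun z : Circ × X => G (z.1 + (τ : Circ), z.2)) := by fun_prop
  rw [h1]
  refine (eLpNorm_sub_le hc.aestronglyMeasurable hG.aestronglyMeasurable
    (by rw [ENNReal.one_le_ofReal]; exact hp)).trans ?_
  rw [eLpNorm_translate_fst hG]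
  exact le_of_eq (two_mul _).symm

lemma shiftDiff_comm {X : Type*} (a b : ℝ) (G : Circ × X → E) :
    shiftDiff a (shiftDiff b G) = shiftDiff b (shiftDiff a G) := by
  ext z
  simp only [shiftDiff]
  rw [show z.1 + (a : Circ) + (b : Circ) = z.1 + (b : Circ) + (a : Circ) by abel]
  abel

lemma one_le_two_pi_rpow {r : ℝ} (hr0 : 0 < r) : 1 ≤ (2 * Real.pi) ^ r := by
  apply Real.one_le_rpow _ hr0.le
  have := Real.pi_gt_three
  linarith

lemma stp_rpow {r : ℝ} (s : ℕ) : stp s ^ r = (2 * Real.pi) ^ r * 2 ^ (-(r * s)) := by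
  unfold stp
  rw [Real.div_rpow (by positivity) (by positivity), ← Real.rpow_natCast, ← Real.rpow_mul
    (by norm_num), div_eq_mul_inv, ← Real.rpow_neg (by norm_num)]
  congr 2
  ring

/-- The basic estimate: a first difference in the first variable, on a dyadic grid. -/
lemma HC.grid_bound [CompleteSpace E] {p r K : ℝ} (hp : 1 ≤ p) (hr : 1 / p < r)
    {f : Tor (d + 1) → E} (hK : 0 ≤ K) (hf : HC p r K f) (k : Fin d → ℕ) (hk : ∀ j, k j ≤ 1)
    (t : Fin d → ℝ) (s : ℕ) {τ : ℝ} (hτ : |τ| ≤ stp s) (y : Circ) :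
    eLpNorm (shiftDiff τ (slc k t f)) (ENNReal.ofReal p) ((grid s y).prod (torMeas d))
      ≤ ENNReal.ofReal (2 ^ ((s : ℝ) / p) * (cB p r *
        (2 * (2 * Real.pi) ^ r * K * (∏ j, wt r (k j) (t j)) * 2 ^ (-(r * s))))) := by
  have hp0 : 0 < p := by linarith
  have hr0 : 0 < r := lt_trans (by positivity) hr
  have hW : 0 ≤ ∏ j, wt r (k j) (t j) := Finset.prod_nonneg fun j _ => wt_nonneg _ _ _
  set W := ∏ j, wt r (k j) (t j) with hWdef
  have hsc := slc_continuous k t hf.cont
  apply lemB hp hr (torMeas d) (shiftDiff_continuous hsc τ) (by positivity)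
  · refine (hf.shiftDiff_slc_bound hK k hk t τ).trans (ENNReal.ofReal_le_ofReal ?_)
    have h1 : |τ| ^ r ≤ stp s ^ r := Real.rpow_le_rpow (abs_nonneg _) hτ hr0.le
    rw [stp_rpow] at h1
    calc K * |τ| ^ r * W ≤ K * ((2 * Real.pi) ^ r * 2 ^ (-(r * s))) * W := by gcongr
      _ ≤ 2 * (K * ((2 * Real.pi) ^ r * 2 ^ (-(r * s))) * W) := by
        have : 0 ≤ K * ((2 * Real.pi) ^ r * 2 ^ (-(r * s))) * W := by positivity
        linarith
      _ = _ := by ring
  · intro i
    rw [shiftDiff_comm]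
    refine (eLpNorm_shiftDiff_le hp (shiftDiff_continuous hsc _) τ).trans ?_
    refine (mul_le_mul_right (hf.shiftDiff_slc_bound hK k hk t (stp (s + i + 1))) 2).trans ?_
    rw [show (2 : ℝ≥0∞) = ENNReal.ofReal 2 by simp, ← ENNReal.ofReal_mul (by norm_num)]
    apply ENNReal.ofReal_le_ofReal
    rw [abs_of_pos (stp_pos _), stp_rpow]
    have h2 : (2 : ℝ) ^ (-(r * (s + i + 1 : ℕ))) ≤ 2 ^ (-(r * s)) * 2 ^ (-(r * i)) := by
      rw [← Real.rpow_add (by norm_num)]
      apply Real.rpow_le_rpow_of_exponent_le (by norm_num)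
      push_cast
      nlinarith
    calc 2 * (K * ((2 * Real.pi) ^ r * 2 ^ (-(r * (s + i + 1 : ℕ)))) * W)
        ≤ 2 * (K * ((2 * Real.pi) ^ r * (2 ^ (-(r * s)) * 2 ^ (-(r * i)))) * W) := by gcongr
      _ = _ := by ring

lemma HC.grid_bound0 [CompleteSpace E] {p r K : ℝ} (hp : 1 ≤ p) (hr : 1 / p < r)
    {f : Tor (d + 1) → E} (hK : 0 ≤ K) (hf : HC p r K f) (k : Fin d → ℕ) (hk : ∀ j, k j ≤ 1)
    (t : Fin d → ℝ) (y : Circ) :
    eLpNorm (slc k t f) (ENNReal.ofReal p) ((grid 0 y).prod (torMeas d))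
      ≤ ENNReal.ofReal (cB p r * ((2 * Real.pi) ^ r * K * (∏ j, wt r (k j) (t j)))) := by
  have hp0 : 0 < p := by linarith
  have hr0 : 0 < r := lt_trans (by positivity) hr
  have hW : 0 ≤ ∏ j, wt r (k j) (t j) := Finset.prod_nonneg fun j _ => wt_nonneg _ _ _
  have h2pi := one_le_two_pi_rpow hr0
  set W := ∏ j, wt r (k j) (t j) with hWdef
  have hsc := slc_continuous k t hf.cont
  have h := lemB hp hr (torMeas d) hsc (s := 0) (B := (2 * Real.pi) ^ r * K * W) (by positivity)
    ?_ ?_ y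
  · simpa using h
  · refine (hf.slc_bound hK k hk t).trans (ENNReal.ofReal_le_ofReal ?_)
    have : 0 ≤ K * W := by positivity
    nlinarith
  · intro i
    refine (hf.shiftDiff_slc_bound hK k hk t (stp (0 + i + 1))).trans
      (ENNReal.ofReal_le_ofReal ?_)
    rw [abs_of_pos (stp_pos _), stp_rpow]
    have h2 : (2 : ℝ) ^ (-(r * (0 + i + 1 : ℕ))) ≤ 2 ^ (-(r * i)) := by
      apply Real.rpow_le_rpow_of_exponent_le (by norm_num)
      push_cast
      nlinarith
    calc K * ((2 * Real.pi) ^ r * 2 ^ (-(r * (0 + i + 1 : ℕ)))) * W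
        ≤ K * ((2 * Real.pi) ^ r * 2 ^ (-(r * i))) * W := by gcongr
      _ = _ := by ring

/-- The constant in the slice lemma. -/
def cS (p r : ℝ) : ℝ := cB p r * (2 * (2 * Real.pi) ^ r)

lemma one_le_cS {p r : ℝ} (hr0 : 0 < r) (hr : 1 / p < r) : 1 ≤ cS p r := by
  have h1 := one_le_cB hr
  have h2 := one_le_two_pi_rpow hr0
  unfold cS
  nlinarith

theorem HC.slice_diff [CompleteSpace E] {p r K : ℝ} (hp : 1 ≤ p) (hr : 1 / p < r)
    {f : Tor (d + 1) → E} (hK : 0 ≤ K) (hf : HC p r K f) (s : ℕ) {τ : ℝ} (hτ : |τ| ≤ stp s)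
    (y : Circ) :
    HC p r (cS p r * K * 2 ^ (-((r - 1 / p) * s)))
      (fun x : Tor d => f (Fin.cons (y + (τ : Circ)) x) - f (Fin.cons y x)) := by
  have hp0 : 0 < p := by linarith
  have hr0 : 0 < r := lt_trans (by positivity) hr
  have hcont : ∀ y : Circ, Continuous (fun x : Tor d => f (Fin.cons y x)) := by
    intro y
    exact (continuous_cons hf.cont).comp (Continuous.prodMk continuous_const continuous_id)
  have hc : Continuous
      (fun x : Tor d => f (Fin.cons (y + (τ : Circ)) x) - f (Fin.cons y x)) :=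
    (hcont _).sub (hcont _)
  refine ⟨hc, ?_⟩
  intro k hk t
  have hW : 0 ≤ ∏ j, wt r (k j) (t j) := Finset.prod_nonneg fun j _ => wt_nonneg _ _ _
  have hcS := one_le_cS hr0 hr
  rw [← nrm_le_iff (dOp_continuous _ _ hc) (by positivity)]
  have h1 : dOp k t (fun x : Tor d => f (Fin.cons (y + (τ : Circ)) x) - f (Fin.cons y x))
      = fun x => shiftDiff τ (slc k t f) (y, x) := by
    have h2 : (fun x : Tor d => f (Fin.cons (y + (τ : Circ)) x) - f (Fin.cons y x))
        = (fun x : Tor d => f (Fin.cons (y + (τ : Circ)) x)) - (fun x => f (Fin.cons y x)) := rfl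
    rw [h2, dOp_sub]
    rfl
  rw [h1]
  refine (eLpNorm_slice_le hp (shiftDiff_continuous (slc_continuous k t hf.cont) τ) s y).trans ?_
  refine (hf.grid_bound hp hr hK k hk t s hτ y).trans (ENNReal.ofReal_le_ofReal (le_of_eq ?_))
  have h3 : (2 : ℝ) ^ ((s : ℝ) / p) * 2 ^ (-(r * s)) = 2 ^ (-((r - 1 / p) * s)) := by
    rw [← Real.rpow_add (by norm_num)]
    congr 1; field_simp; ring
  rw [← h3]
  unfold cS
  ring

theorem HC.slice_eval [CompleteSpace E] {p r K : ℝ} (hp : 1 ≤ p) (hr : 1 / p < r)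
    {f : Tor (d + 1) → E} (hK : 0 ≤ K) (hf : HC p r K f) (y : Circ) :
    HC p r (cS p r * K) (fun x : Tor d => f (Fin.cons y x)) := by
  have hp0 : 0 < p := by linarith
  have hr0 : 0 < r := lt_trans (by positivity) hr
  have hc : Continuous (fun x : Tor d => f (Fin.cons y x)) :=
    (continuous_cons hf.cont).comp (Continuous.prodMk continuous_const continuous_id)
  refine ⟨hc, ?_⟩
  intro k hk t
  have hW : 0 ≤ ∏ j, wt r (k j) (t j) := Finset.prod_nonneg fun j _ => wt_nonneg _ _ _
  have hcS := one_le_cS hr0 hr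
  have hcB := one_le_cB hr
  rw [← nrm_le_iff (dOp_continuous _ _ hc) (by positivity)]
  have h1 : dOp k t (fun x : Tor d => f (Fin.cons y x)) = fun x => slc k t f (y, x) := rfl
  rw [h1]
  refine (eLpNorm_slice_le hp (slc_continuous k t hf.cont) 0 y).trans ?_
  refine (hf.grid_bound0 hp hr hK k hk t y).trans (ENNReal.ofReal_le_ofReal ?_)
  unfold cS
  have : 0 ≤ cB p r * ((2 * Real.pi) ^ r * K * ∏ j, wt r (k j) (t j)) := by positivity
  calc _ ≤ 2 * (cB p r * ((2 * Real.pi) ^ r * K * ∏ j, wt r (k j) (t j))) := by linarith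
    _ = _ := by ring

end

end Run7.h221
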