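import Pool.Agent.Run7.h221.Net

/-!
The far terms and the staircase identity: error of the net functional on step functions.
-/

namespace Run7.h221

noncomputable section

variable {E : Type*} [NormedAddCommGroup E] [NormedSpace ℝ E]

lemma AB_far_sum {J N : ℕ} {Z : Finset (ℕ × ℕ)} (hZ : IsNet J N Z) (hNJ : N ≤ J) {x₁ x₂ : ℕ}
    (h₁ : x₁ < 2 ^ J) (h₂ : x₂ < 2 ^ J) {s₁ s₂ : ℕ} (hs₂J : s₂ ≤ J) (c : ℕ → ℕ → E)
    {p L : ℝ} (hp : 1 ≤ p) (hL : 0 ≤ L)
    (hcL : ∑ m₁ ∈ Finset.range (2 ^ s₁), ∑ m₂ ∈ Finset.range (2 ^ s₂), ‖c m₁ m₂‖ ^ p ≤ L ^ p)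
    (hs₁J : s₁ ≤ J)
    {tot : ℕ} (htot : tot + 2 ≤ N) (F : Finset ℕ)
    (hF : ∀ a ∈ F, a ≤ tot ∧ a < s₂ ∧ s₁ ≤ tot - a ∧ N ≤ tot - a + 1 + s₂) :
    ∑ a ∈ F, ‖AB J N Z x₁ x₂ (fun z₁ z₂ => c (z₁ / 2 ^ (J - s₁)) (z₂ / 2 ^ (J - s₂))) (tot - a) a‖
      ≤ (F.card : ℝ) ^ (1 - 1 / p) * (2 : ℝ) ^ (-(((N - tot - 2 : ℕ) : ℝ) / p)) * L := by
  have hp0 : 0 < p := by linarith
  set M : ℝ := 2 ^ (N - tot - 2) with hM
  have hM0 : 0 < M := by positivity
  set h : ℕ → ℝ := fun k => ‖c (x₁ / 2 ^ (J - s₁)) k‖ with hh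
  -- each average
  have hA : ∀ a ∈ F, ‖AB J N Z x₁ x₂ (fun z₁ z₂ => c (z₁ / 2 ^ (J - s₁)) (z₂ / 2 ^ (J - s₂)))
      (tot - a) a‖ ≤ M⁻¹ * ∑ z ∈ box J Z x₁ x₂ (tot - a) a, h (z.2 / 2 ^ (J - s₂)) := by
    intro a ha
    obtain ⟨f1, f2, f3, f4⟩ := hF a ha
    unfold AB
    rw [norm_smul, norm_inv, norm_pow, Real.norm_ofNat,
      show N - (tot - a) - a - 2 = N - tot - 2 by omega]
    apply mul_le_mul_of_nonneg_left _ (by positivity)
    refine (norm_sum_le _ _).trans (Finset.sum_le_sum ?_)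
    intro z hz
    simp only [box, Finset.mem_filter] at hz
    simp only [hh]
    rw [pre_eq f3 (by omega) hz.2.1]
  refine (Finset.sum_le_sum hA).trans ?_
  rw [← Finset.mul_sum, Finset.sum_sigma']
  set I := F.sigma fun a => box J Z x₁ x₂ (tot - a) a with hI
  -- injectivity
  have hinj : Set.InjOn (fun w : (_ : ℕ) × (ℕ × ℕ) => w.2.2 / 2 ^ (J - s₂)) (I : Set _) := by
    rintro ⟨a, z⟩ hz ⟨a', z'⟩ hz' heq
    simp only [hI, Finset.coe_sigma, Set.mem_sigma_iff, Finset.mem_coe] at hz hz'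
    obtain ⟨haF, hz⟩ := hz
    obtain ⟨haF', hz'⟩ := hz'
    obtain ⟨f1, f2, f3, f4⟩ := hF a haF
    obtain ⟨g1, g2, g3, g4⟩ := hF a' haF'
    simp only [box, Finset.mem_filter] at hz hz'
    simp only at heq
    -- helper: same coarse part
    have coarse : ∀ b, b ≤ s₂ → z.2 / 2 ^ (J - b) = z'.2 / 2 ^ (J - b) := by
      intro b hb
      rw [div_div_pow hb hs₂J, div_div_pow hb hs₂J, heq]
    have haa : a = a' := by
      rcases lt_trichotomy a a' with hlt | heq' | hgt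
      · exfalso
        have h5 := coarse (a + 1) (by omega)
        rw [hz.2.2, pre_eq (show a + 1 ≤ a' by omega) (by omega) hz'.2.2] at h5
        exact flp_ne _ h5
      · exact heq'
      · exfalso
        have h5 := coarse (a' + 1) (by omega)
        rw [hz'.2.2, pre_eq (show a' + 1 ≤ a by omega) (by omega) hz.2.2] at h5
        exact flp_ne _ h5.symm
    subst haa
    have : z = z' := by
      apply hZ.eq_of_same_box (b₁ := tot - a + 1) (b₂ := s₂) f4 (by omega) hs₂J hz.1 hz'.1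
      · rw [hz.2.1, hz'.2.1]
      · exact heq
    rw [this]
  have hcardI : (I.card : ℝ) = F.card * M := by
    rw [hI, Finset.card_sigma]
    have h5 : ∀ a ∈ F, (box J Z x₁ x₂ (tot - a) a).card = 2 ^ (N - tot - 2) := by
      intro a ha
      obtain ⟨f1, f2, f3, f4⟩ := hF a ha
      rw [box_card hZ hNJ h₁ h₂ (by omega)]
      congr 1; omega
    rw [Finset.sum_congr rfl h5, Finset.sum_const, smul_eq_mul]
    push_cast
    rfl
  have hsum : ∑ w ∈ I, h (w.2.2 / 2 ^ (J - s₂)) ^ p ≤ L ^ p := by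
    have h6 : ∑ w ∈ I, h (w.2.2 / 2 ^ (J - s₂)) ^ p
        = ∑ k ∈ I.image (fun w : (_ : ℕ) × (ℕ × ℕ) => w.2.2 / 2 ^ (J - s₂)), h k ^ p := by
      rw [Finset.sum_image hinj]
    rw [h6]
    have h7 : I.image (fun w : (_ : ℕ) × (ℕ × ℕ) => w.2.2 / 2 ^ (J - s₂))
        ⊆ Finset.range (2 ^ s₂) := by
      intro k hk
      rw [Finset.mem_image] at hk
      obtain ⟨w, hw, rfl⟩ := hk
      rw [hI, Finset.mem_sigma] at hw
      simp only [box, Finset.mem_filter] at hw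
      rw [Finset.mem_range]
      exact div_lt_pow hs₂J (hZ.lt _ hw.2.1).2
    refine (Finset.sum_le_sum_of_subset_of_nonneg h7 (fun k _ _ => by positivity)).trans ?_
    refine le_trans ?_ hcL
    have h8 : x₁ / 2 ^ (J - s₁) ∈ Finset.range (2 ^ s₁) := by
      rw [Finset.mem_range]; exact div_lt_pow hs₁J h₁
    exact Finset.single_le_sum (f := fun m₁ => ∑ m₂ ∈ Finset.range (2 ^ s₂), ‖c m₁ m₂‖ ^ p)
      (fun m₁ _ => Finset.sum_nonneg fun m₂ _ => by positivity) h8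
  -- Hölder
  have hHol := Real.rpow_sum_le_const_mul_sum_rpow I
    (fun w : (_ : ℕ) × (ℕ × ℕ) => h (w.2.2 / 2 ^ (J - s₂))) hp
  have habs : ∀ w : (_ : ℕ) × (ℕ × ℕ), |h (w.2.2 / 2 ^ (J - s₂))| = h (w.2.2 / 2 ^ (J - s₂)) :=
    fun w => abs_of_nonneg (norm_nonneg _)
  simp only [habs] at hHol
  set S := ∑ w ∈ I, h (w.2.2 / 2 ^ (J - s₂)) with hS
  have hS0 : 0 ≤ S := Finset.sum_nonneg fun w _ => norm_nonneg _
  have h9 : S ^ p ≤ ((F.card : ℝ) * M) ^ (p - 1) * L ^ p := by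
    refine hHol.trans ?_
    rw [hcardI]
    gcongr
  have h10 : S ≤ ((F.card : ℝ) * M) ^ (1 - 1 / p) * L := by
    have h11 := Real.rpow_le_rpow (by positivity) h9 (show 0 ≤ 1 / p by positivity)
    rw [← Real.rpow_mul hS0, mul_one_div_cancel hp0.ne', Real.rpow_one,
      Real.mul_rpow (by positivity) (by positivity), ← Real.rpow_mul (by positivity),
      ← Real.rpow_mul hL, mul_one_div_cancel hp0.ne', Real.rpow_one] at h11
    refine h11.trans_eq ?_
    congr 2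
    field_simp
  calc M⁻¹ * S ≤ M⁻¹ * (((F.card : ℝ) * M) ^ (1 - 1 / p) * L) := by gcongr
    _ = (F.card : ℝ) ^ (1 - 1 / p) * (M⁻¹ * M ^ (1 - 1 / p)) * L := by
      rw [Real.mul_rpow (by positivity) hM0.le]; ring
    _ = _ := by
      congr 2
      have h12 : M⁻¹ * M ^ (1 - 1 / p) = M ^ (-(1 / p)) := by
        rw [← Real.rpow_neg_one M, ← Real.rpow_add hM0]
        congr 1; ring
      rw [h12, hM, ← Real.rpow_natCast, ← Real.rpow_mul (by norm_num)]
      congr 1; ring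

lemma staircase {E : Type*} [AddCommGroup E] (W : ℕ → ℕ → E) (n b : ℕ) (hb : b ≤ n) :
    ∑ a ∈ Finset.range (n + 1), W (n - a) a - ∑ a ∈ Finset.range n, W (n - 1 - a) a
      = W (n - b) b + ∑ a ∈ Finset.range b, (W (n - a) a - W (n - 1 - a) a)
        + ∑ a ∈ Finset.range (n - b), (W a (n - a) - W a (n - 1 - a)) := by
  obtain ⟨c, rfl⟩ := Nat.exists_eq_add_of_le hb
  have h1 : ∑ a ∈ Finset.range (b + c + 1), W (b + c - a) a
      = ∑ a ∈ Finset.range b, W (b + c - a) a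
        + (∑ a ∈ Finset.range c, W a (b + c - a) + W c b) := by
    rw [add_assoc b c 1, Finset.sum_range_add]
    congr 1
    have h2 := Finset.sum_range_reflect (fun j => W j (b + c - j)) (c + 1)
    have h4 : ∑ j ∈ Finset.range (c + 1), W j (b + c - j)
        = ∑ a ∈ Finset.range c, W a (b + c - a) + W c b := by
      rw [Finset.sum_range_succ, show b + c - c = b by omega]
    rw [← h4, ← h2]
    apply Finset.sum_congr rfl
    intro x hx
    rw [Finset.mem_range] at hx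
    rw [show b + c - (b + x) = c + 1 - 1 - x by omega,
      show b + c - (c + 1 - 1 - x) = b + x by omega]
  have h3 : ∑ a ∈ Finset.range (b + c), W (b + c - 1 - a) a
      = ∑ a ∈ Finset.range b, W (b + c - 1 - a) a
        + ∑ a ∈ Finset.range c, W a (b + c - 1 - a) := by
    rw [Finset.sum_range_add]
    congr 1
    have h2 := Finset.sum_range_reflect (fun j => W j (b + c - 1 - j)) c
    rw [← h2]
    apply Finset.sum_congr rfl
    intro x hx
    rw [Finset.mem_range] at hx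
    rw [show b + c - 1 - (b + x) = c - 1 - x by omega,
      show b + c - 1 - (c - 1 - x) = b + x by omega]
  rw [h1, h3, show b + c - b = c by omega, Finset.sum_sub_distrib, Finset.sum_sub_distrib]
  abel

end

end Run7.h221
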