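import Pool.Agent.Run7.h221.Coef

/-!
Hierarchical (telescoping) decomposition at dyadic points.
-/

open MeasureTheory Filter Topology
open scoped ENNReal

namespace Run7.h221

noncomputable section

set_option linter.unusedSectionVars false

/-- The dyadic point `m * 2π / 2^s` of the circle. -/
def pt (s m : ℕ) : Circ := ((m * stp s : ℝ) : Circ)

lemma pt_two_mul (s m : ℕ) : pt (s + 1) (2 * m) = pt s m := by
  unfold pt
  congr 1
  rw [← stp_two_mul s]; push_cast; ring

lemma pt_zero (s : ℕ) : pt s 0 = 0 := by simp [pt]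

lemma pt_add (s m n : ℕ) : pt s (m + n) = pt s m + pt s n := by
  unfold pt
  rw [← AddCircle.coe_add]
  congr 1; push_cast; ring

lemma pt_scale (s e m : ℕ) : pt (s + e) (m * 2 ^ e) = pt s m := by
  unfold pt stp
  congr 1
  push_cast
  rw [pow_add]
  field_simp

variable {F : Type*} [AddCommGroup F]

/-- The hierarchical coefficient of level `s` of a function on the circle. -/
def coef (s : ℕ) (h : Circ → F) (m : ℕ) : F :=
  if s = 0 then h 0 else if m % 2 = 1 then h (pt s m) - h (pt s (m - 1)) else 0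

lemma coef_telescope (J k : ℕ) (hk : k < 2 ^ J) (h : Circ → F) (j : ℕ) (hj : j ≤ J) :
    h (pt j (k / 2 ^ (J - j))) = ∑ s ∈ Finset.range (j + 1), coef s h (k / 2 ^ (J - s)) := by
  induction j with
  | zero =>
    simp only [zero_add, Finset.sum_range_one, coef, if_true, Nat.sub_zero]
    rw [Nat.div_eq_of_lt hk, pt_zero]
  | succ j ih =>
    rw [Finset.sum_range_succ, ← ih (by omega)]
    have h1 : k / 2 ^ (J - j) = k / 2 ^ (J - (j + 1)) / 2 := by
      rw [Nat.div_div_eq_div_mul, ← pow_succ]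
      congr 2; omega
    set m := k / 2 ^ (J - (j + 1)) with hm
    rw [h1]
    unfold coef
    rw [if_neg (by omega)]
    by_cases hodd : m % 2 = 1
    · rw [if_pos hodd]
      have h2 : m - 1 = 2 * (m / 2) := by omega
      rw [h2, pt_two_mul]
      abel
    · rw [if_neg hodd]
      have h2 : m = 2 * (m / 2) := by omega
      conv_lhs => rw [h2]
      rw [pt_two_mul, add_zero]

lemma coef_telescope' (J k : ℕ) (hk : k < 2 ^ J) (h : Circ → F) :
    h (pt J k) = ∑ s ∈ Finset.range (J + 1), coef s h (k / 2 ^ (J - s)) := by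
  have := coef_telescope J k hk h J le_rfl
  simpa using this

/-- Two-dimensional hierarchical coefficient. -/
def coef2 (s₁ s₂ : ℕ) (G : Circ × Circ → F) (m₁ m₂ : ℕ) : F :=
  coef s₁ (fun y => coef s₂ (fun x => G (y, x)) m₂) m₁

lemma coef2_telescope (J k₁ k₂ : ℕ) (hk₁ : k₁ < 2 ^ J) (hk₂ : k₂ < 2 ^ J)
    (G : Circ × Circ → F) :
    G (pt J k₁, pt J k₂) = ∑ s₁ ∈ Finset.range (J + 1), ∑ s₂ ∈ Finset.range (J + 1),
      coef2 s₁ s₂ G (k₁ / 2 ^ (J - s₁)) (k₂ / 2 ^ (J - s₂)) := by
  have h1 := coef_telescope' J k₁ hk₁ (fun y => G (y, pt J k₂))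
  rw [h1]
  apply Finset.sum_congr rfl
  intro s₁ _
  have h2 : (fun y => G (y, pt J k₂))
      = fun y => ∑ s₂ ∈ Finset.range (J + 1), coef s₂ (fun x => G (y, x)) (k₂ / 2 ^ (J - s₂)) := by
    funext y
    exact coef_telescope' J k₂ hk₂ (fun x => G (y, x))
  rw [h2]
  unfold coef2 coef
  by_cases hs : s₁ = 0
  · simp only [hs, if_true]
  · simp only [hs, if_false]
    split_ifs
    · rw [← Finset.sum_sub_distrib]
    · simp

variable {E : Type*} [NormedAddCommGroup E] [NormedSpace ℝ E]

/-- Base point shift. -/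
def ysh (s : ℕ) : Circ := if s = 0 then 0 else ((-(stp s) : ℝ) : Circ)

lemma coef_eq_op {X : Type*} (s : ℕ) (G : Circ × X → E) (x : X) (m : ℕ) (hm : m < 2 ^ s) :
    coef s (fun y => G (y, x)) m = 0 ∨
      coef s (fun y => G (y, x)) m = op1 s G (ysh s + ((m * stp s : ℝ) : Circ), x) := by
  unfold coef op1 ysh
  by_cases hs : s = 0
  · subst hs
    right
    have : m = 0 := by simpa using hm
    subst this
    simp
  · simp only [hs, if_false]
    by_cases hodd : m % 2 = 1
    · right
      rw [if_pos hodd]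
      simp only [shiftDiff]
      have h1 : ((-(stp s) : ℝ) : Circ) + ((m * stp s : ℝ) : Circ) = pt s (m - 1) := by
        unfold pt
        rw [← AddCircle.coe_add]
        congr 1
        have : 1 ≤ m := by omega
        push_cast [this]; ring
      have h2 : pt s (m - 1) + ((stp s : ℝ) : Circ) = pt s m := by
        unfold pt
        rw [← AddCircle.coe_add]
        congr 1
        have : 1 ≤ m := by omega
        push_cast [this]; ring
      rw [h1, h2]
    · left
      rw [if_neg hodd]

lemma norm_coef2_le (s₁ s₂ : ℕ) (G : Circ × Circ → E) (m₁ m₂ : ℕ) (h₁ : m₁ < 2 ^ s₁)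
    (h₂ : m₂ < 2 ^ s₂) :
    ‖coef2 s₁ s₂ G m₁ m₂‖
      ≤ ‖op1 s₁ (op2 s₂ G) (ysh s₁ + ((m₁ * stp s₁ : ℝ) : Circ),
          ysh s₂ + ((m₂ * stp s₂ : ℝ) : Circ))‖ := by
  -- the inner coefficient, for all `y` at once
  have hin : (∀ y, coef s₂ (fun x => G (y, x)) m₂ = 0) ∨
      (∀ y, coef s₂ (fun x => G (y, x)) m₂
        = op2 s₂ G (y, ysh s₂ + ((m₂ * stp s₂ : ℝ) : Circ))) := by
    by_cases hc : s₂ = 0 ∨ m₂ % 2 = 1
    · right
      intro y
      rcases coef_eq_op s₂ (G ∘ Prod.swap) y m₂ h₂ with h | h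
      · -- value zero: still equal by definition
        unfold coef op2 ysh at *
        by_cases hs : s₂ = 0
        · subst hs
          have : m₂ = 0 := by simpa using h₂
          subst this
          simp
        · simp only [hs, if_false, false_or] at *
          rw [if_pos hc]
          simp only [sd2]
          have h1 : ((-(stp s₂) : ℝ) : Circ) + ((m₂ * stp s₂ : ℝ) : Circ) = pt s₂ (m₂ - 1) := by
            unfold pt
            rw [← AddCircle.coe_add]
            congr 1
            have : 1 ≤ m₂ := by omega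
            push_cast [this]; ring
          have h2 : pt s₂ (m₂ - 1) + ((stp s₂ : ℝ) : Circ) = pt s₂ m₂ := by
            unfold pt
            rw [← AddCircle.coe_add]
            congr 1
            have : 1 ≤ m₂ := by omega
            push_cast [this]; ring
          rw [h1, h2]
      · rw [op2_swap]
        exact h
    · left
      intro y
      push Not at hc
      unfold coef
      rw [if_neg hc.1, if_neg hc.2]
  unfold coef2
  rcases hin with h | h
  · simp only [h]
    have : coef s₁ (fun _ : Circ => (0 : E)) m₁ = 0 := by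
      unfold coef; split_ifs <;> simp
    rw [this, norm_zero]
    exact norm_nonneg _
  · simp only [h]
    rcases coef_eq_op s₁ (op2 s₂ G) (ysh s₂ + ((m₂ * stp s₂ : ℝ) : Circ)) m₁ h₁ with h' | h'
    · rw [h', norm_zero]; exact norm_nonneg _
    · rw [h']

/-- `ℓ_p` bound for the hierarchical coefficients. -/
theorem HC2.coef_bound [CompleteSpace E] {p r K : ℝ} (hp : 1 ≤ p) (hr : 1 / p < r)
    (hK : 0 ≤ K) {G : Circ × Circ → E} (hG : HC2 p r K G) (s₁ s₂ : ℕ) :
    ∑ m₁ ∈ Finset.range (2 ^ s₁), ∑ m₂ ∈ Finset.range (2 ^ s₂), ‖coef2 s₁ s₂ G m₁ m₂‖ ^ p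
      ≤ (cS p r ^ 2 * K * 2 ^ (-((r - 1 / p) * (s₁ + s₂ : ℕ)))) ^ p := by
  have hp0 : 0 < p := by linarith
  refine le_trans ?_ (hG.sum_sum hp hr hK s₁ s₂ (ysh s₁) (ysh s₂))
  apply Finset.sum_le_sum
  intro m₁ h₁
  apply Finset.sum_le_sum
  intro m₂ h₂
  apply Real.rpow_le_rpow (norm_nonneg _) _ hp0.le
  exact norm_coef2_le s₁ s₂ G m₁ m₂ (Finset.mem_range.1 h₁) (Finset.mem_range.1 h₂)

end

end Run7.h221
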