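import Pool.Agent.Run7.h221.Comb

/-!
The sampling algorithm in dimension two.
-/

namespace Run7.h221

noncomputable section

set_option linter.unusedSectionVars false

/-- Levels of the sparse grid. -/
def D0 (n₀ : ℕ) : Finset (ℕ × ℕ) :=
  (Finset.range (n₀ + 1) ×ˢ Finset.range (n₀ + 1)).filter fun s => s.1 + s.2 ≤ n₀

open scoped Classical in
/-- The sparse grid. -/
def sparse (n₀ : ℕ) : Finset (Tor 2) :=
  (D0 n₀).biUnion fun s =>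
    (Finset.range (2 ^ s.1) ×ˢ Finset.range (2 ^ s.2)).image fun j => ![pt s.1 j.1, pt s.2 j.2]

open scoped Classical in
/-- The points of the net. -/
def netPts (N : ℕ) : Finset (Tor 2) :=
  (Finset.range (2 ^ N)).image fun i => ![pt N i, pt N (rev N i)]

open scoped Classical in
/-- The sparse grid together with the net. -/
def YY (n₀ N : ℕ) : Finset (Tor 2) := sparse n₀ ∪ netPts N

lemma mem_YY_left {n₀ N : ℕ} {x : Tor 2} (h : x ∈ sparse n₀) : x ∈ YY n₀ N := by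
  classical
  unfold YY; rw [Finset.mem_union]; exact Or.inl h

lemma mem_YY_right {n₀ N : ℕ} {x : Tor 2} (h : x ∈ netPts N) : x ∈ YY n₀ N := by
  classical
  unfold YY; rw [Finset.mem_union]; exact Or.inr h

lemma sum_two_pow_lt (k : ℕ) : ∑ i ∈ Finset.range k, 2 ^ i < 2 ^ k := by
  induction k with
  | zero => simp
  | succ k ih => rw [Finset.sum_range_succ, pow_succ]; omega

lemma sum_D0 (n₀ : ℕ) : ∑ s ∈ D0 n₀, 2 ^ s.1 * 2 ^ s.2 ≤ (n₀ + 1) * 2 ^ (n₀ + 1) := by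
  unfold D0
  rw [Finset.sum_filter, Finset.sum_product]
  have h : ∀ a ∈ Finset.range (n₀ + 1),
      ∑ b ∈ Finset.range (n₀ + 1), (if (a, b).1 + (a, b).2 ≤ n₀ then 2 ^ (a, b).1 * 2 ^ (a, b).2
        else 0) ≤ 2 ^ (n₀ + 1) := by
    intro a ha
    rw [Finset.mem_range] at ha
    simp only
    rw [← Finset.sum_filter]
    have h1 : (Finset.range (n₀ + 1)).filter (fun b => a + b ≤ n₀)
        = Finset.range (n₀ - a + 1) := by
      ext b; simp only [Finset.mem_filter, Finset.mem_range]; omega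
    rw [h1, ← Finset.mul_sum]
    have h2 := sum_two_pow_lt (n₀ - a + 1)
    calc 2 ^ a * ∑ i ∈ Finset.range (n₀ - a + 1), 2 ^ i ≤ 2 ^ a * 2 ^ (n₀ - a + 1) :=
          Nat.mul_le_mul_left _ h2.le
      _ = 2 ^ (n₀ + 1) := by rw [← pow_add]; congr 1; omega
  refine (Finset.sum_le_sum h).trans ?_
  rw [Finset.sum_const, Finset.card_range, smul_eq_mul]

lemma sparse_card (n₀ : ℕ) : (sparse n₀).card ≤ (n₀ + 1) * 2 ^ (n₀ + 1) := by
  classical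
  unfold sparse
  refine Finset.card_biUnion_le.trans (le_trans ?_ (sum_D0 n₀))
  apply Finset.sum_le_sum
  intro s _
  refine Finset.card_image_le.trans ?_
  rw [Finset.card_product, Finset.card_range, Finset.card_range]

lemma netPts_card (N : ℕ) : (netPts N).card ≤ 2 ^ N := by
  classical
  unfold netPts
  exact Finset.card_image_le.trans (by simp)

lemma mem_sparse {n₀ s₁ s₂ j₁ j₂ : ℕ} (hs : s₁ + s₂ ≤ n₀) (h₁ : j₁ < 2 ^ s₁)
    (h₂ : j₂ < 2 ^ s₂) : (![pt s₁ j₁, pt s₂ j₂] : Tor 2) ∈ sparse n₀ := by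
  classical
  unfold sparse
  rw [Finset.mem_biUnion]
  refine ⟨(s₁, s₂), ?_, ?_⟩
  · simp only [D0, Finset.mem_filter, Finset.mem_product, Finset.mem_range]; omega
  · rw [Finset.mem_image]
    exact ⟨(j₁, j₂), by simp [h₁, h₂], rfl⟩

variable {E : Type*} [NormedAddCommGroup E] [NormedSpace ℝ E]

lemma AB_congr {J N : ℕ} {Z : Finset (ℕ × ℕ)} {x₁ x₂ a₁ a₂ : ℕ} {v v' : ℕ → ℕ → E}
    (h : ∀ z ∈ Z, v z.1 z.2 = v' z.1 z.2) : AB J N Z x₁ x₂ v a₁ a₂ = AB J N Z x₁ x₂ v' a₁ a₂ := by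
  unfold AB
  congr 1
  apply Finset.sum_congr rfl
  intro z hz
  exact h z (Finset.mem_of_mem_filter z hz)

lemma AB_sum {J N : ℕ} {Z : Finset (ℕ × ℕ)} {x₁ x₂ a₁ a₂ : ℕ} {ι : Type*} (S : Finset ι)
    (v : ι → ℕ → ℕ → E) : AB J N Z x₁ x₂ (fun z₁ z₂ => ∑ s ∈ S, v s z₁ z₂) a₁ a₂
      = ∑ s ∈ S, AB J N Z x₁ x₂ (v s) a₁ a₂ := by
  unfold AB
  rw [← Finset.smul_sum, Finset.sum_comm]

/-- The net functional. -/
def nu (J N n : ℕ) (Z : Finset (ℕ × ℕ)) (x₁ x₂ : ℕ) (v : ℕ → ℕ → E) : E :=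
  ∑ a ∈ Finset.range (n + 1), AB J N Z x₁ x₂ v (n - a) a
    - ∑ a ∈ Finset.range n, AB J N Z x₁ x₂ v (n - 1 - a) a

lemma nu_congr {J N n : ℕ} {Z : Finset (ℕ × ℕ)} {x₁ x₂ : ℕ} {v v' : ℕ → ℕ → E}
    (h : ∀ z ∈ Z, v z.1 z.2 = v' z.1 z.2) : nu J N n Z x₁ x₂ v = nu J N n Z x₁ x₂ v' := by
  unfold nu
  simp_rw [AB_congr h]

lemma nu_sum {J N n : ℕ} {Z : Finset (ℕ × ℕ)} {x₁ x₂ : ℕ} {ι : Type*} (S : Finset ι)
    (v : ι → ℕ → ℕ → E) : nu J N n Z x₁ x₂ (fun z₁ z₂ => ∑ s ∈ S, v s z₁ z₂)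
      = ∑ s ∈ S, nu J N n Z x₁ x₂ (v s) := by
  unfold nu
  simp_rw [AB_sum]
  rw [Finset.sum_sub_distrib]
  congr 1
  · rw [Finset.sum_comm]
  · rw [Finset.sum_comm]

/-- The step function with the hierarchical coefficients of level `(s₁, s₂)`. -/
def cc (J : ℕ) (f : Tor 2 → E) (s : ℕ × ℕ) (z₁ z₂ : ℕ) : E :=
  coef2 s.1 s.2 (fun z : Circ × Circ => f ![z.1, z.2]) (z₁ / 2 ^ (J - s.1)) (z₂ / 2 ^ (J - s.2))

/-- The functional of the algorithm. -/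
def Phi (J N n n₀ : ℕ) (x₁ x₂ : ℕ) (f : Tor 2 → E) : E :=
  ∑ s ∈ D0 n₀, cc J f s x₁ x₂
    + nu J N n (netZ J N) x₁ x₂
      (fun z₁ z₂ => f ![pt J z₁, pt J z₂] - ∑ s ∈ D0 n₀, cc J f s z₁ z₂)

lemma Phi_comb {J N n n₀ : ℕ} (hn : n₀ ≤ n) (hN : n ≤ N) (hJ : N ≤ J) {x₁ x₂ : ℕ}
    (h₁ : x₁ < 2 ^ J) (h₂ : x₂ < 2 ^ J) :
    IsComb (YY n₀ N) (Phi (E := E) J N n n₀ x₁ x₂) := by
  classical
  set Y := YY n₀ N with hY
  have hcc : ∀ z₁ z₂, z₁ < 2 ^ J → z₂ < 2 ^ J → IsComb Y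
      (fun f : Tor 2 → E => ∑ s ∈ D0 n₀, cc J f s z₁ z₂) := by
    intro z₁ z₂ hz₁ hz₂
    apply IsComb.sum
    intro s hs
    simp only [D0, Finset.mem_filter, Finset.mem_product, Finset.mem_range] at hs
    apply comb_coef2
    · exact div_lt_pow (by omega) hz₁
    · exact div_lt_pow (by omega) hz₂
    · intro j₁ j₂ hj₁ hj₂
      exact mem_YY_left (mem_sparse hs.2 hj₁ hj₂)
  have hnetpt : ∀ z ∈ netZ J N, (![pt J z.1, pt J z.2] : Tor 2) ∈ Y := by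
    intro z hz
    simp only [netZ, Finset.mem_image, Finset.mem_range] at hz
    obtain ⟨i, hi, rfl⟩ := hz
    obtain ⟨e, rfl⟩ := Nat.exists_eq_add_of_le hJ
    apply mem_YY_right
    unfold netPts
    rw [Finset.mem_image]
    refine ⟨i, Finset.mem_range.2 hi, ?_⟩
    rw [Nat.add_sub_cancel_left, pt_scale, pt_scale]
  have hAB : ∀ a₁ a₂, IsComb Y (fun f : Tor 2 → E => AB J N (netZ J N) x₁ x₂
      (fun z₁ z₂ => f ![pt J z₁, pt J z₂] - ∑ s ∈ D0 n₀, cc J f s z₁ z₂) a₁ a₂) := by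
    intro a₁ a₂
    unfold AB
    apply IsComb.smul
    apply IsComb.sum
    intro z hz
    have hzZ : z ∈ netZ J N := Finset.mem_of_mem_filter z hz
    have hlt := (netZ_isNet hJ).lt z hzZ
    exact (IsComb.eval (hnetpt z hzZ)).sub (hcc z.1 z.2 hlt.1 hlt.2)
  unfold Phi nu
  exact (hcc x₁ x₂ h₁ h₂).add ((IsComb.sum _ fun a _ => hAB _ _).sub
    (IsComb.sum _ fun a _ => hAB _ _))

theorem approx2 [CompleteSpace E] {p r : ℝ} (hp : 1 ≤ p) (hr : 1 / p < r) {n₀ n k : ℕ}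
    (hn : n₀ ≤ n) (hk : 2 ≤ k) {J : ℕ} (hJ : n + k ≤ J) {x₁ x₂ : ℕ} (h₁ : x₁ < 2 ^ J)
    (h₂ : x₂ < 2 ^ J) {K : ℝ} (hK : 0 ≤ K) {f : Tor 2 → E} (hf : HC p r K f) :
    ‖f ![pt J x₁, pt J x₂] - Phi J (n + k) n n₀ x₁ x₂ f‖
      ≤ cS p r ^ 2 * K * cG (r - 1 / p) * (2 * (((n : ℝ) + 1) * 2 ^ (-((r - 1 / p) * n)))
        + 4 * ((n : ℝ) ^ (1 - 1 / p) * (2 : ℝ) ^ (-(((k - 2 : ℕ) : ℝ) / p)))
          * (((n₀ : ℝ) + 1) * 2 ^ (-((r - 1 / p) * n₀)))) := by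
  have hp0 : 0 < p := by linarith
  have hr0 : 0 < r := lt_trans (by positivity) hr
  set α := r - 1 / p with hα
  have hα0 : 0 < α := by rw [hα]; linarith
  have hG := hf.toHC2 hK
  set G : Circ × Circ → E := fun z => f ![z.1, z.2] with hGdef
  set R := (Finset.range (J + 1) ×ˢ Finset.range (J + 1)) with hR
  set Dc := R.filter (fun s => ¬ s.1 + s.2 ≤ n₀) with hDc
  have hD0 : D0 n₀ = R.filter (fun s => s.1 + s.2 ≤ n₀) := by
    ext s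
    simp only [D0, hR, Finset.mem_filter, Finset.mem_product, Finset.mem_range]
    omega
  have htel : ∀ z₁ z₂, z₁ < 2 ^ J → z₂ < 2 ^ J →
      f ![pt J z₁, pt J z₂] = ∑ s ∈ D0 n₀, cc J f s z₁ z₂ + ∑ s ∈ Dc, cc J f s z₁ z₂ := by
    intro z₁ z₂ hz₁ hz₂
    rw [hD0, hDc, Finset.sum_filter_add_sum_filter_not, hR, Finset.sum_product]
    exact coef2_telescope J z₁ z₂ hz₁ hz₂ G
  have hZ := netZ_isNet hJ
  have hPhi : Phi J (n + k) n n₀ x₁ x₂ f = ∑ s ∈ D0 n₀, cc J f s x₁ x₂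
      + ∑ s ∈ Dc, nu J (n + k) n (netZ J (n + k)) x₁ x₂ (cc J f s) := by
    unfold Phi
    congr 1
    rw [← nu_sum]
    apply nu_congr
    intro z hz
    have hlt := hZ.lt z hz
    rw [htel z.1 z.2 hlt.1 hlt.2]
    abel
  have hdiff : f ![pt J x₁, pt J x₂] - Phi J (n + k) n n₀ x₁ x₂ f
      = ∑ s ∈ Dc, (cc J f s x₁ x₂ - nu J (n + k) n (netZ J (n + k)) x₁ x₂ (cc J f s)) := by
    rw [hPhi, htel x₁ x₂ h₁ h₂, Finset.sum_sub_distrib]
    abel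
  rw [hdiff]
  refine (norm_sum_le _ _).trans ?_
  set Q : ℝ := (n : ℝ) ^ (1 - 1 / p) * (2 : ℝ) ^ (-(((k - 2 : ℕ) : ℝ) / p)) with hQ
  have hQ0 : 0 ≤ Q := by positivity
  have hterm : ∀ s ∈ Dc, ‖cc J f s x₁ x₂ - nu J (n + k) n (netZ J (n + k)) x₁ x₂ (cc J f s)‖
      ≤ ((if n ≤ s.1 + s.2 then 2 * ((1 + ((s.1 + s.2 - n : ℕ) : ℝ))
            * 2 ^ (-(α * (s.1 + s.2 : ℕ)))) else 0)
        + 4 * Q * ((1 + ((s.1 + s.2 - n₀ : ℕ) : ℝ)) * 2 ^ (-(α * (s.1 + s.2 : ℕ)))))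
        * (cS p r ^ 2 * K) := by
    intro s hs
    simp only [hDc, hR, Finset.mem_filter, Finset.mem_product, Finset.mem_range] at hs
    have h3 := net_error (E := E) (J := J) (N := n + k) (n := n) (k := k) rfl hk hJ hZ h₁ h₂
      (s₁ := s.1) (s₂ := s.2) (by omega) (by omega) (coef2 s.1 s.2 G) hp
      (L := cS p r ^ 2 * K * 2 ^ (-(α * (s.1 + s.2 : ℕ)))) (by positivity)
      (hG.coef_bound hp hr hK s.1 s.2)
    have h4 : ‖cc J f s x₁ x₂ - nu J (n + k) n (netZ J (n + k)) x₁ x₂ (cc J f s)‖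
        ≤ (if s.1 + s.2 ≤ n then 0 else 2 + 2 * ((s.1 + s.2 - n : ℕ) : ℝ))
          * (cS p r ^ 2 * K * 2 ^ (-(α * (s.1 + s.2 : ℕ))))
        + 4 * (Q * (cS p r ^ 2 * K * 2 ^ (-(α * (s.1 + s.2 : ℕ))))) := by
      rw [hQ]
      exact h3
    refine h4.trans ?_
    set P : ℝ := 2 ^ (-(α * (s.1 + s.2 : ℕ))) with hP
    have hP0 : 0 < P := by positivity
    have hCK : 0 ≤ cS p r ^ 2 * K := by positivity
    have h5 : (if s.1 + s.2 ≤ n then (0 : ℝ) else 2 + 2 * ((s.1 + s.2 - n : ℕ) : ℝ)) * P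
        ≤ (if n ≤ s.1 + s.2 then 2 * ((1 + ((s.1 + s.2 - n : ℕ) : ℝ)) * P) else 0) := by
      by_cases h6 : s.1 + s.2 ≤ n
      · rw [if_pos h6, zero_mul]
        split_ifs <;> positivity
      · rw [if_neg h6, if_pos (by omega)]
        exact le_of_eq (by ring)
    have h7 : 4 * (Q * P) ≤ 4 * Q * ((1 + ((s.1 + s.2 - n₀ : ℕ) : ℝ)) * P) := by
      have : (0 : ℝ) ≤ ((s.1 + s.2 - n₀ : ℕ) : ℝ) := by positivity
      have h8 : 0 ≤ 4 * Q * (((s.1 + s.2 - n₀ : ℕ) : ℝ) * P) := by positivity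
      calc 4 * (Q * P) ≤ 4 * (Q * P) + 4 * Q * (((s.1 + s.2 - n₀ : ℕ) : ℝ) * P) := by linarith
        _ = _ := by ring
    calc _ = ((if s.1 + s.2 ≤ n then (0 : ℝ) else 2 + 2 * ((s.1 + s.2 - n : ℕ) : ℝ)) * P
          + 4 * (Q * P)) * (cS p r ^ 2 * K) := by ring
      _ ≤ _ := mul_le_mul_of_nonneg_right (add_le_add h5 h7) hCK
  refine (Finset.sum_le_sum hterm).trans ?_
  rw [← Finset.sum_mul, Finset.sum_add_distrib, ← Finset.mul_sum]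
  have hs1 : ∑ s ∈ Dc, (if n ≤ s.1 + s.2 then 2 * ((1 + ((s.1 + s.2 - n : ℕ) : ℝ))
            * 2 ^ (-(α * (s.1 + s.2 : ℕ)))) else 0)
      ≤ 2 * (cG α * ((n : ℝ) + 1) * 2 ^ (-(α * n))) := by
    rw [← Finset.sum_filter, ← Finset.mul_sum]
    apply mul_le_mul_of_nonneg_left _ (by norm_num)
    refine le_trans ?_ (sum_levels hα0 J n)
    apply Finset.sum_le_sum_of_subset_of_nonneg
    · intro s hs
      simp only [hDc, hR, Finset.mem_filter] at hs ⊢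
      exact ⟨hs.1.1, hs.2⟩
    · intro s _ _
      positivity
  have hs2 : ∑ s ∈ Dc, (1 + ((s.1 + s.2 - n₀ : ℕ) : ℝ)) * 2 ^ (-(α * (s.1 + s.2 : ℕ)))
      ≤ cG α * ((n₀ : ℝ) + 1) * 2 ^ (-(α * n₀)) := by
    refine le_trans ?_ (sum_levels hα0 J n₀)
    apply Finset.sum_le_sum_of_subset_of_nonneg
    · intro s hs
      simp only [hDc, hR, Finset.mem_filter] at hs ⊢
      exact ⟨hs.1, by omega⟩
    · intro s _ _
      positivity
  have hCK : 0 ≤ cS p r ^ 2 * K := by positivity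
  calc _ ≤ (2 * (cG α * ((n : ℝ) + 1) * 2 ^ (-(α * n)))
        + 4 * Q * (cG α * ((n₀ : ℝ) + 1) * 2 ^ (-(α * n₀)))) * (cS p r ^ 2 * K) := by
        apply mul_le_mul_of_nonneg_right _ hCK
        exact add_le_add hs1 (mul_le_mul_of_nonneg_left hs2 (by positivity))
    _ = _ := by ring

end

end Run7.h221
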