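import Pool.Agent.Run7.h221.CoefL
import Pool.Agent.Run7.h221.TwoD

/-!
The sampling algorithm in dimension two for all smoothness parameters.
-/

namespace Run7.h221

noncomputable section

set_option linter.unusedSectionVars false

variable {E : Type} [NormedAddCommGroup E] [NormedSpace ℝ E]

/-- Surplus operators as combinations of values at dyadic points. -/
lemma Wo_pts {l t J k : ℕ} (hl : 1 ≤ l) : ∃ (w : ℕ → ℝ) (P : ℕ → Circ),
    (∀ i, ∃ a j, a ≤ t ∧ j < 2 ^ a ∧ P i = pt a j) ∧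
    ∀ {F : Type} [AddCommGroup F] [Module ℝ F] (h : Circ → F),
      Wo l t J k h = ∑ i ∈ Finset.range (2 * l), w i • h (P i) := by
  by_cases ht : t = 0
  · refine ⟨fun i => if i = 0 then 1 else 0, fun _ => 0, ?_, ?_⟩
    · intro i
      exact ⟨0, 0, by omega, by simp, (pt_zero 0).symm⟩
    · intro F _ _ h
      rw [Finset.sum_eq_single 0]
      · simp [Wo, ht]
      · intro i _ hi
        simp [hi]
      · intro h0
        exact absurd (Finset.mem_range.2 (by omega)) h0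
  · refine ⟨fun i => if i < l then lam l i (tht J t k) else -lam l (i - l) (tht J (t - 1) k),
      fun i => if i < l then pt t (k / 2 ^ (J - t) + i)
        else pt (t - 1) (k / 2 ^ (J - (t - 1)) + (i - l)), ?_, ?_⟩
    · intro i
      beta_reduce
      split_ifs
      · exact ⟨t, _, le_rfl, Nat.mod_lt _ (by positivity), (pt_mod _ _).symm⟩
      · exact ⟨t - 1, _, by omega, Nat.mod_lt _ (by positivity), (pt_mod _ _).symm⟩
    · intro F _ _ h
      unfold Wo IP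
      rw [if_neg ht, two_mul, Finset.sum_range_add, sub_eq_add_neg]
      congr 1
      · apply Finset.sum_congr rfl
        intro i hi
        rw [Finset.mem_range] at hi
        simp [hi]
      · rw [← Finset.sum_neg_distrib]
        apply Finset.sum_congr rfl
        intro i _
        simp

lemma comb_W2 {Y : Finset (Tor 2)} {l J : ℕ} (hl : 1 ≤ l) (t : ℕ × ℕ) (z₁ z₂ : ℕ)
    (hY : ∀ a b j₁ j₂, a ≤ t.1 → b ≤ t.2 → j₁ < 2 ^ a → j₂ < 2 ^ b →
      (![pt a j₁, pt b j₂] : Tor 2) ∈ Y) :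
    IsComb Y (fun f : Tor 2 → E => W2 l J t (fun y x => f ![y, x]) z₁ z₂) := by
  obtain ⟨w, P, hP, h⟩ := Wo_pts (l := l) (t := t.1) (J := J) (k := z₁) hl
  obtain ⟨w', P', hP', h'⟩ := Wo_pts (l := l) (t := t.2) (J := J) (k := z₂) hl
  have e1 : IsComb Y (fun f : Tor 2 → E => ∑ j ∈ Finset.range (2 * l), w' j •
      ∑ i ∈ Finset.range (2 * l), w i • f ![P i, P' j]) := by
    apply IsComb.sum
    intro j _
    apply IsComb.smul
    apply IsComb.sum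
    intro i _
    apply IsComb.smul
    apply IsComb.eval
    obtain ⟨a, j₁, ha, hj₁, e⟩ := hP i
    obtain ⟨b, j₂, hb, hj₂, e'⟩ := hP' j
    rw [e, e']
    exact hY a b j₁ j₂ ha hb hj₁ hj₂
  apply e1.congr
  intro f
  unfold W2
  rw [h', h]
  apply Finset.sum_congr rfl
  intro j _
  simp only [Finset.sum_apply, Pi.smul_apply]

/-- The functional of the algorithm. -/
def Phi2 (l J N n n₀ : ℕ) (x₁ x₂ : ℕ) (f : Tor 2 → E) : E :=
  ∑ t ∈ D0 n₀, W2 l J t (fun y x => f ![y, x]) x₁ x₂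
    + nu J N n (netZ J N) x₁ x₂
      (fun z₁ z₂ => f ![pt J z₁, pt J z₂] - ∑ t ∈ D0 n₀, W2 l J t (fun y x => f ![y, x]) z₁ z₂)

lemma Phi2_comb {l J N n n₀ : ℕ} (hl : 1 ≤ l) (hJ : N ≤ J) {x₁ x₂ : ℕ} :
    IsComb (YY n₀ N) (Phi2 (E := E) l J N n n₀ x₁ x₂) := by
  classical
  set Y := YY n₀ N with hY
  have hcc : ∀ z₁ z₂, IsComb Y
      (fun f : Tor 2 → E => ∑ t ∈ D0 n₀, W2 l J t (fun y x => f ![y, x]) z₁ z₂) := by
    intro z₁ z₂
    apply IsComb.sum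
    intro t ht
    simp only [D0, Finset.mem_filter, Finset.mem_product, Finset.mem_range] at ht
    apply comb_W2 hl
    intro a b j₁ j₂ ha hb hj₁ hj₂
    exact mem_YY_left (mem_sparse (by omega) hj₁ hj₂)
  have hnetpt : ∀ z ∈ netZ J N, (![pt J z.1, pt J z.2] : Tor 2) ∈ Y := by
    intro z hz
    simp only [netZ, Finset.mem_image, Finset.mem_range] at hz
    obtain ⟨i, hi, rfl⟩ := hz
    obtain ⟨e, rfl⟩ := Nat.exists_eq_add_of_le hJ
    apply mem_YY_right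
    unfold netPts
    rw [Finset.mem_image]
    refine ⟨i, Finset.mem_range.2 hi, ?_⟩
    rw [Nat.add_sub_cancel_left, pt_scale, pt_scale]
  have hAB : ∀ a₁ a₂, IsComb Y (fun f : Tor 2 → E => AB J N (netZ J N) x₁ x₂
      (fun z₁ z₂ => f ![pt J z₁, pt J z₂]
        - ∑ t ∈ D0 n₀, W2 l J t (fun y x => f ![y, x]) z₁ z₂) a₁ a₂) := by
    intro a₁ a₂
    unfold AB
    apply IsComb.smul
    apply IsComb.sum
    intro z hz
    have hzZ : z ∈ netZ J N := Finset.mem_of_mem_filter z hz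
    exact (IsComb.eval (hnetpt z hzZ)).sub (hcc z.1 z.2)
  unfold Phi2 nu
  exact (hcc x₁ x₂).add ((IsComb.sum _ fun a _ => hAB _ _).sub
    (IsComb.sum _ fun a _ => hAB _ _))

lemma W2_telescope {l J : ℕ} (hl : 1 ≤ l) {z₁ z₂ : ℕ} (h₁ : z₁ < 2 ^ J) (h₂ : z₂ < 2 ^ J)
    (G : Circ → Circ → E) :
    G (pt J z₁) (pt J z₂) = ∑ t ∈ Finset.range (J + 1) ×ˢ Finset.range (J + 1),
      W2 l J t G z₁ z₂ := by
  rw [Finset.sum_product]
  have h3 : G (pt J z₁) = ∑ a ∈ Finset.range (J + 1), Wo l a J z₁ G := Wo_telescope' hl h₁ G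
  rw [Wo_telescope' hl h₂ (G (pt J z₁)), h3]
  unfold W2
  simp only
  rw [Finset.sum_comm]
  apply Finset.sum_congr rfl
  intro b _
  -- linearity of `Wo` in the function argument
  have h4 : ∀ S : Finset ℕ, Wo l b J z₂ (∑ a ∈ S, Wo l a J z₁ G)
      = ∑ a ∈ S, Wo l b J z₂ (Wo l a J z₁ G) := by
    intro S
    induction S using Finset.induction_on with
    | empty => rw [Finset.sum_empty, Finset.sum_empty, Wo_zero]
    | insert i S hi ih =>
      rw [Finset.sum_insert hi, Finset.sum_insert hi, ← ih]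
      have h5 := Wo_sub l b J z₂ (Wo l i J z₁ G + ∑ a ∈ S, Wo l a J z₁ G)
        (∑ a ∈ S, Wo l a J z₁ G)
      rw [add_sub_cancel_right] at h5
      rw [h5]; abel
  exact h4 _

lemma geom_sum_le' {ρ : ℝ} (hρ : 0 < ρ) (s J : ℕ) (hs : s ≤ J) :
    ∑ t ∈ Finset.range (J + 1), (if t ≤ s then (2 : ℝ) ^ (-(ρ * (s - t : ℕ))) else 0)
      ≤ 1 / (1 - 2 ^ (-ρ)) := by
  have h1 : ∑ t ∈ Finset.range (J + 1), (if t ≤ s then (2 : ℝ) ^ (-(ρ * (s - t : ℕ))) else 0)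
      = ∑ t ∈ Finset.range (s + 1), (2 : ℝ) ^ (-(ρ * (s - t : ℕ))) := by
    rw [← Finset.sum_filter]
    apply Finset.sum_congr _ (fun _ _ => rfl)
    ext t; simp only [Finset.mem_filter, Finset.mem_range]; omega
  rw [h1]
  have h2 := Finset.sum_range_reflect (fun j : ℕ => (2 : ℝ) ^ (-(ρ * j))) (s + 1)
  simp only [Nat.add_sub_cancel] at h2
  rw [h2]
  set q : ℝ := 2 ^ (-ρ) with hq
  have hq0 : 0 < q := by positivity
  have hq1 : q < 1 := Real.rpow_lt_one_of_one_lt_of_neg (by norm_num) (by linarith)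
  have h3 : ∀ i ∈ Finset.range (s + 1), (2 : ℝ) ^ (-(ρ * i)) = q ^ i := by
    intro i _
    rw [hq, ← Real.rpow_natCast, ← Real.rpow_mul (by norm_num)]
    congr 1; ring
  rw [Finset.sum_congr rfl h3]
  have h4 : ∑ i ∈ Finset.range (s + 1), q ^ i = (1 - q ^ (s + 1)) / (1 - q) := by
    rw [geom_sum_eq (by linarith), ← neg_div_neg_eq]; congr 1 <;> ring
  rw [h4]
  have h5 : 0 < q ^ (s + 1) := by positivity
  have h6 : 0 < 1 - q := by linarith
  gcongr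
  linarith

theorem approx2L [CompleteSpace E] (l : ℕ) (hl : 1 ≤ l) {p r η : ℝ} (hp : 1 ≤ p)
    (hη : 1 / p < η) (hη1 : η < 1) (hηr : η ≤ r) : ∃ C : ℝ, 1 ≤ C ∧
    ∀ (n₀ n k : ℕ), n₀ ≤ n → 2 ≤ k → ∀ J : ℕ, n + k ≤ J → ∀ x₁ x₂ : ℕ, x₁ < 2 ^ J → x₂ < 2 ^ J →
    ∀ K : ℝ, 0 ≤ K → ∀ f : Tor 2 → E, HL l p r K f →
    ‖f ![pt J x₁, pt J x₂] - Phi2 l J (n + k) n n₀ x₁ x₂ f‖
      ≤ C * K * 2 ^ (-((r - 1 / p) * n₀)) *
        (((n : ℝ) + 1) * 2 ^ (-((η - 1 / p) * ((n : ℝ) - n₀)))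
        + ((n : ℝ) ^ (1 - 1 / p) * (2 : ℝ) ^ (-(((k - 2 : ℕ) : ℝ) / p))) * ((n₀ : ℝ) + 1)) := by
  obtain ⟨C, hC1, hC⟩ := HL2.coef_bound (E := E) l hl hp hη hη1 hηr
  have hp0 : 0 < p := by linarith
  have hp1 : 1 / p ≤ 1 := by rw [div_le_one hp0]; exact hp
  set α := r - 1 / p with hα
  set δ' := η - 1 / p with hδ'
  set ρ := 1 - η with hρ
  have hρ0 : 0 < ρ := by rw [hρ]; linarith
  have hδ'0 : 0 < δ' := by rw [hδ']; linarith
  have hαδ : δ' ≤ α := by rw [hα, hδ']; linarith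
  set g : ℝ := 1 / (1 - 2 ^ (-ρ)) with hg
  have hq1 : (2 : ℝ) ^ (-ρ) < 1 := Real.rpow_lt_one_of_one_lt_of_neg (by norm_num) (by linarith)
  have hq0 : 0 < (2 : ℝ) ^ (-ρ) := by positivity
  have hg1 : 1 ≤ g := by
    rw [hg, le_div_iff₀ (by linarith)]; linarith
  have hcG := one_le_cG hδ'0
  refine ⟨4 * (cG δ' * (C * (g * g))), ?_, ?_⟩
  · have h1 : 1 ≤ g * g := by nlinarith
    have h2 : 1 ≤ C * (g * g) := by nlinarith
    nlinarith
  intro n₀ n k hn hk J hJ x₁ x₂ h₁ h₂ K hK f hf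
  have hG := hf.toHL2 hl hK
  set G : Circ → Circ → E := fun y x => f ![y, x] with hGdef
  set R := (Finset.range (J + 1) ×ˢ Finset.range (J + 1)) with hR
  set Tc := R.filter (fun t => ¬ t.1 + t.2 ≤ n₀) with hTc
  have hD0 : D0 n₀ = R.filter (fun t => t.1 + t.2 ≤ n₀) := by
    ext s
    simp only [D0, hR, Finset.mem_filter, Finset.mem_product, Finset.mem_range]
    omega
  have htel : ∀ z₁ z₂, z₁ < 2 ^ J → z₂ < 2 ^ J →
      f ![pt J z₁, pt J z₂] = ∑ t ∈ D0 n₀, W2 l J t G z₁ z₂ + ∑ t ∈ Tc, W2 l J t G z₁ z₂ := by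
    intro z₁ z₂ hz₁ hz₂
    rw [hD0, hTc, Finset.sum_filter_add_sum_filter_not]
    exact W2_telescope hl hz₁ hz₂ G
  have hZ := netZ_isNet hJ
  -- step functions
  set c : ℕ × ℕ → ℕ × ℕ → ℕ → ℕ → E := fun t s z₁ z₂ =>
    dcoef2 J s (W2 l J t G) (z₁ / 2 ^ (J - s.1)) (z₂ / 2 ^ (J - s.2)) with hc
  have htel2 : ∀ t z₁ z₂, z₁ < 2 ^ J → z₂ < 2 ^ J →
      W2 l J t G z₁ z₂ = ∑ s ∈ R, c t s z₁ z₂ := by
    intro t z₁ z₂ hz₁ hz₂
    rw [dcoef2_telescope J z₁ z₂ hz₁ hz₂ (W2 l J t G), hR, Finset.sum_product]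
  have hPhi : Phi2 l J (n + k) n n₀ x₁ x₂ f = ∑ t ∈ D0 n₀, W2 l J t G x₁ x₂
      + ∑ t ∈ Tc, ∑ s ∈ R, nu J (n + k) n (netZ J (n + k)) x₁ x₂ (c t s) := by
    unfold Phi2
    congr 1
    simp_rw [← nu_sum]
    apply nu_congr
    intro z hz
    have hlt := hZ.lt z hz
    rw [htel z.1 z.2 hlt.1 hlt.2, add_sub_cancel_left]
    apply Finset.sum_congr rfl
    intro t _
    exact htel2 t z.1 z.2 hlt.1 hlt.2
  have hdiff : f ![pt J x₁, pt J x₂] - Phi2 l J (n + k) n n₀ x₁ x₂ f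
      = ∑ t ∈ Tc, ∑ s ∈ R, (c t s x₁ x₂ - nu J (n + k) n (netZ J (n + k)) x₁ x₂ (c t s)) := by
    rw [hPhi, htel x₁ x₂ h₁ h₂]
    have h3 : ∑ t ∈ Tc, W2 l J t G x₁ x₂ = ∑ t ∈ Tc, ∑ s ∈ R, c t s x₁ x₂ :=
      Finset.sum_congr rfl fun t _ => htel2 t x₁ x₂ h₁ h₂
    rw [h3]
    simp_rw [Finset.sum_sub_distrib]
    abel
  rw [hdiff]
  refine (norm_sum_le _ _).trans ?_
  refine (Finset.sum_le_sum fun t _ => norm_sum_le _ _).trans ?_
  set Q : ℝ := (n : ℝ) ^ (1 - 1 / p) * (2 : ℝ) ^ (-(((k - 2 : ℕ) : ℝ) / p)) with hQ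
  have hQ0 : 0 ≤ Q := by positivity
  -- factor depending on s only
  set e : ℕ × ℕ → ℝ := fun s =>
    (if s.1 + s.2 ≤ n then 0 else 2 + 2 * ((s.1 + s.2 - n : ℕ) : ℝ)) + 4 * Q with he
  have he0 : ∀ s, 0 ≤ e s := by
    intro s
    simp only [he]
    split_ifs <;> positivity
  set m : ℕ × ℕ → ℕ × ℕ → ℝ := fun t s =>
    if t.1 ≤ s.1 ∧ t.2 ≤ s.2 then
      2 ^ (-(ρ * (s.1 - t.1 : ℕ))) * 2 ^ (-(ρ * (s.2 - t.2 : ℕ))) else 0 with hm
  have hterm : ∀ t ∈ Tc, ∀ s ∈ R,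
      ‖c t s x₁ x₂ - nu J (n + k) n (netZ J (n + k)) x₁ x₂ (c t s)‖
        ≤ (C * K * 2 ^ (-(α * n₀))) * (if n₀ ≤ s.1 + s.2 then
          e s * 2 ^ (-(δ' * ((s.1 + s.2 : ℕ) - (n₀ : ℝ)))) * m t s else 0) := by
    intro t ht s hs
    simp only [hTc, hR, Finset.mem_filter, Finset.mem_product, Finset.mem_range] at ht hs
    by_cases hts : t.1 ≤ s.1 ∧ t.2 ≤ s.2
    · have hb := hC K hK _ hG J s t (by omega) (by omega) hts.1 hts.2
      have h3 := net_error (E := E) (J := J) (N := n + k) (n := n) (k := k) rfl hk hJ hZ h₁ h₂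
        (s₁ := s.1) (s₂ := s.2) (by omega) (by omega) (dcoef2 J s (W2 l J t G)) hp
        (L := C * K * (2 ^ (-((1 - 1 / p) * ((s.1 - t.1 : ℕ) + (s.2 - t.2 : ℕ))))
          * 2 ^ (-(α * (t.1 + t.2 : ℕ))))) (by positivity) hb
      set L : ℝ := C * K * (2 ^ (-((1 - 1 / p) * ((s.1 - t.1 : ℕ) + (s.2 - t.2 : ℕ))))
          * 2 ^ (-(α * (t.1 + t.2 : ℕ)))) with hL
      have h4 : ‖c t s x₁ x₂ - nu J (n + k) n (netZ J (n + k)) x₁ x₂ (c t s)‖ ≤ e s * L := by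
        refine h3.trans (le_of_eq ?_)
        simp only [he]
        rw [hQ]; ring
      refine h4.trans ?_
      rw [if_pos (by omega)]
      have hm1 : m t s = 2 ^ (-(ρ * (s.1 - t.1 : ℕ))) * 2 ^ (-(ρ * (s.2 - t.2 : ℕ))) := by
        simp only [hm]; rw [if_pos hts]
      rw [hm1]
      have h5 : (2 : ℝ) ^ (-((1 - 1 / p) * ((s.1 - t.1 : ℕ) + (s.2 - t.2 : ℕ))))
          * 2 ^ (-(α * (t.1 + t.2 : ℕ)))
          ≤ 2 ^ (-(α * n₀)) * (2 ^ (-(δ' * ((s.1 + s.2 : ℕ) - (n₀ : ℝ)))) *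
            (2 ^ (-(ρ * (s.1 - t.1 : ℕ))) * 2 ^ (-(ρ * (s.2 - t.2 : ℕ))))) := by
        rw [← Real.rpow_add (by norm_num), ← Real.rpow_add (by norm_num),
          ← Real.rpow_add (by norm_num), ← Real.rpow_add (by norm_num)]
        apply Real.rpow_le_rpow_of_exponent_le (by norm_num)
        have e1 : ((s.1 - t.1 : ℕ) : ℝ) = s.1 - t.1 := by push_cast [hts.1]; rfl
        have e2 : ((s.2 - t.2 : ℕ) : ℝ) = s.2 - t.2 := by push_cast [hts.2]; rfl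
        have e3 : ((n₀ : ℕ) : ℝ) + 1 ≤ (t.1 : ℝ) + t.2 := by
          have : n₀ + 1 ≤ t.1 + t.2 := by omega
          exact_mod_cast this
        rw [e1, e2]
        push_cast
        have h6 : 0 ≤ (α - δ') * ((t.1 : ℝ) + t.2 - n₀) := by
          apply mul_nonneg (by linarith); linarith
        have h7 : 1 - 1 / p = δ' + ρ := by rw [hδ', hρ]; ring
        rw [h7]
        nlinarith [h6]
      rw [hL]
      have hes := he0 s
      calc e s * (C * K * (2 ^ (-((1 - 1 / p) * ((s.1 - t.1 : ℕ) + (s.2 - t.2 : ℕ))))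
          * 2 ^ (-(α * (t.1 + t.2 : ℕ)))))
          ≤ e s * (C * K * (2 ^ (-(α * n₀)) * (2 ^ (-(δ' * ((s.1 + s.2 : ℕ) - (n₀ : ℝ)))) *
            (2 ^ (-(ρ * (s.1 - t.1 : ℕ))) * 2 ^ (-(ρ * (s.2 - t.2 : ℕ))))))) := by
            gcongr
        _ = _ := by ring
    · -- vanishing coefficients
      obtain ⟨C', -, hC'⟩ := dcoef_Wo l hl
      have hzero : ∀ m₁ m₂, m₁ < 2 ^ s.1 → m₂ < 2 ^ s.2 → dcoef2 J s (W2 l J t G) m₁ m₂ = 0 := by
        intro m₁ m₂ hm₁ hm₂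
        obtain ⟨β₁, hβ₁, hr₁⟩ := hC' J s.1 t.1 m₁ (by omega) (by omega) hm₁
        obtain ⟨β₂, hβ₂, hr₂⟩ := hC' J s.2 t.2 m₂ (by omega) (by omega) hm₂
        rw [dcoef_W2, hr₂]
        by_cases h8 : t.2 ≤ s.2
        · rw [if_pos h8, hr₁, if_neg (by omega)]
          have h9 : opc l t.2 (0 : Circ → E) = 0 := by
            have := opc_sum_smul (F := E) (ι := ℕ) l t.2 ∅ (fun _ => 0) (fun _ => 0)
            simpa using this
          rw [h9]
          simp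
        · rw [if_neg h8]
      have h3 := net_error (E := E) (J := J) (N := n + k) (n := n) (k := k) rfl hk hJ hZ h₁ h₂
        (s₁ := s.1) (s₂ := s.2) (by omega) (by omega) (dcoef2 J s (W2 l J t G)) hp
        (L := 0) le_rfl (by
          rw [Real.zero_rpow hp0.ne']
          apply le_of_eq
          apply Finset.sum_eq_zero
          intro m₁ hm₁
          apply Finset.sum_eq_zero
          intro m₂ hm₂
          rw [hzero m₁ m₂ (Finset.mem_range.1 hm₁) (Finset.mem_range.1 hm₂), norm_zero,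
            Real.zero_rpow hp0.ne'])
      simp only [mul_zero, add_zero] at h3
      refine le_trans h3 ?_
      apply mul_nonneg (by positivity)
      split_ifs
      · have : 0 ≤ m t s := by simp only [hm]; split_ifs <;> positivity
        have := he0 s
        positivity
      · exact le_rfl
  refine (Finset.sum_le_sum fun t ht => Finset.sum_le_sum fun s hs => hterm t ht s hs).trans ?_
  rw [Finset.sum_comm]
  -- sum over t
  have hm0 : ∀ t s, 0 ≤ m t s := by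
    intro t s
    simp only [hm]; split_ifs <;> positivity
  have hsumt : ∀ s ∈ R, ∑ t ∈ Tc, m t s ≤ g * g := by
    intro s hs
    simp only [hR, Finset.mem_product, Finset.mem_range] at hs
    have h3 : ∑ t ∈ Tc, m t s ≤ ∑ t ∈ R, m t s :=
      Finset.sum_le_sum_of_subset_of_nonneg (Finset.filter_subset _ _) (fun t _ _ => hm0 t s)
    refine h3.trans ?_
    have h4 : ∑ t ∈ R, m t s
        = (∑ t₁ ∈ Finset.range (J + 1), (if t₁ ≤ s.1 then (2 : ℝ) ^ (-(ρ * (s.1 - t₁ : ℕ))) else 0))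
        * (∑ t₂ ∈ Finset.range (J + 1),
          (if t₂ ≤ s.2 then (2 : ℝ) ^ (-(ρ * (s.2 - t₂ : ℕ))) else 0)) := by
      rw [hR, Finset.sum_product, Finset.sum_mul_sum]
      apply Finset.sum_congr rfl
      intro t₁ _
      apply Finset.sum_congr rfl
      intro t₂ _
      simp only [hm]
      by_cases h5 : t₁ ≤ s.1 <;> by_cases h6 : t₂ ≤ s.2 <;> simp [h5, h6]
    rw [h4]
    have h5 := geom_sum_le' hρ0 s.1 J (by omega)
    have h6 := geom_sum_le' hρ0 s.2 J (by omega)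
    rw [← hg] at h5 h6
    apply mul_le_mul h5 h6 _ (by linarith)
    apply Finset.sum_nonneg
    intro t _
    split_ifs <;> positivity
  have hstep : ∀ s ∈ R, ∑ t ∈ Tc, (C * K * 2 ^ (-(α * n₀))) * (if n₀ ≤ s.1 + s.2 then
          e s * 2 ^ (-(δ' * ((s.1 + s.2 : ℕ) - (n₀ : ℝ)))) * m t s else 0)
      ≤ (C * K * 2 ^ (-(α * n₀))) * (g * g) * (if n₀ ≤ s.1 + s.2 then
          e s * 2 ^ (-(δ' * ((s.1 + s.2 : ℕ) - (n₀ : ℝ)))) else 0) := by
    intro s hs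
    rw [← Finset.mul_sum]
    by_cases h3 : n₀ ≤ s.1 + s.2
    · simp only [h3, if_true]
      rw [← Finset.mul_sum]
      have h4 := hsumt s hs
      have h5 := he0 s
      calc (C * K * 2 ^ (-(α * n₀))) * (e s * 2 ^ (-(δ' * ((s.1 + s.2 : ℕ) - (n₀ : ℝ))))
            * ∑ t ∈ Tc, m t s)
          ≤ (C * K * 2 ^ (-(α * n₀))) * (e s * 2 ^ (-(δ' * ((s.1 + s.2 : ℕ) - (n₀ : ℝ))))
            * (g * g)) := by gcongr
        _ = _ := by ring
    · simp only [h3, if_false, Finset.sum_const_zero, mul_zero, le_refl]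
  refine (Finset.sum_le_sum hstep).trans ?_
  rw [← Finset.mul_sum, ← Finset.sum_filter]
  -- sum over s
  have hsumS : ∑ s ∈ R.filter (fun s => n₀ ≤ s.1 + s.2),
      e s * 2 ^ (-(δ' * ((s.1 + s.2 : ℕ) - (n₀ : ℝ))))
      ≤ 4 * cG δ' * (((n : ℝ) + 1) * 2 ^ (-(δ' * ((n : ℝ) - n₀))) + Q * ((n₀ : ℝ) + 1)) := by
    have h3 : ∀ s ∈ R.filter (fun s => n₀ ≤ s.1 + s.2),
        e s * 2 ^ (-(δ' * ((s.1 + s.2 : ℕ) - (n₀ : ℝ))))
        ≤ 2 ^ (δ' * n₀) * ((if n ≤ s.1 + s.2 then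
            2 * ((1 + ((s.1 + s.2 - n : ℕ) : ℝ)) * 2 ^ (-(δ' * (s.1 + s.2 : ℕ)))) else 0)
          + 4 * Q * ((1 + ((s.1 + s.2 - n₀ : ℕ) : ℝ)) * 2 ^ (-(δ' * (s.1 + s.2 : ℕ))))) := by
      intro s _
      have h4 : (2 : ℝ) ^ (-(δ' * ((s.1 + s.2 : ℕ) - (n₀ : ℝ))))
          = 2 ^ (δ' * n₀) * 2 ^ (-(δ' * (s.1 + s.2 : ℕ))) := by
        rw [← Real.rpow_add (by norm_num)]
        congr 1; ring
      rw [h4]
      set P : ℝ := 2 ^ (-(δ' * (s.1 + s.2 : ℕ))) with hP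
      have hP0 : 0 < P := by positivity
      have h5 : (if s.1 + s.2 ≤ n then (0 : ℝ) else 2 + 2 * ((s.1 + s.2 - n : ℕ) : ℝ)) * P
          ≤ (if n ≤ s.1 + s.2 then 2 * ((1 + ((s.1 + s.2 - n : ℕ) : ℝ)) * P) else 0) := by
        by_cases h6 : s.1 + s.2 ≤ n
        · rw [if_pos h6, zero_mul]
          split_ifs <;> positivity
        · rw [if_neg h6, if_pos (by omega)]
          exact le_of_eq (by ring)
      have h7 : 4 * Q * P ≤ 4 * Q * ((1 + ((s.1 + s.2 - n₀ : ℕ) : ℝ)) * P) := by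
        have : 0 ≤ 4 * Q * (((s.1 + s.2 - n₀ : ℕ) : ℝ) * P) := by positivity
        calc 4 * Q * P ≤ 4 * Q * P + 4 * Q * (((s.1 + s.2 - n₀ : ℕ) : ℝ) * P) := by linarith
          _ = _ := by ring
      have h8 : 0 < (2 : ℝ) ^ (δ' * n₀) := by positivity
      calc e s * (2 ^ (δ' * n₀) * P) = 2 ^ (δ' * n₀) *
            ((if s.1 + s.2 ≤ n then (0 : ℝ) else 2 + 2 * ((s.1 + s.2 - n : ℕ) : ℝ)) * P
              + 4 * Q * P) := by simp only [he]; ring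
        _ ≤ _ := mul_le_mul_of_nonneg_left (add_le_add h5 h7) h8.le
    refine (Finset.sum_le_sum h3).trans ?_
    rw [← Finset.mul_sum, Finset.sum_add_distrib, ← Finset.mul_sum]
    have hs1 : ∑ s ∈ R.filter (fun s => n₀ ≤ s.1 + s.2), (if n ≤ s.1 + s.2 then
        2 * ((1 + ((s.1 + s.2 - n : ℕ) : ℝ)) * 2 ^ (-(δ' * (s.1 + s.2 : ℕ)))) else 0)
        ≤ 2 * (cG δ' * ((n : ℝ) + 1) * 2 ^ (-(δ' * n))) := by
      rw [← Finset.sum_filter, ← Finset.mul_sum]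
      apply mul_le_mul_of_nonneg_left _ (by norm_num)
      refine le_trans ?_ (sum_levels hδ'0 J n)
      apply Finset.sum_le_sum_of_subset_of_nonneg
      · intro s hs
        simp only [hR, Finset.mem_filter] at hs ⊢
        exact ⟨hs.1.1, hs.2⟩
      · intro s _ _
        positivity
    have hs2 := sum_levels hδ'0 J n₀
    have h9 : (2 : ℝ) ^ (δ' * n₀) * 2 ^ (-(δ' * n)) = 2 ^ (-(δ' * ((n : ℝ) - n₀))) := by
      rw [← Real.rpow_add (by norm_num)]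
      congr 1; ring
    have h10 : (2 : ℝ) ^ (δ' * n₀) * 2 ^ (-(δ' * n₀)) = 1 := by
      rw [← Real.rpow_add (by norm_num)]
      simp
    calc _ ≤ 2 ^ (δ' * n₀) * (2 * (cG δ' * ((n : ℝ) + 1) * 2 ^ (-(δ' * n)))
          + 4 * Q * (cG δ' * ((n₀ : ℝ) + 1) * 2 ^ (-(δ' * n₀)))) := by
          apply mul_le_mul_of_nonneg_left _ (by positivity)
          exact add_le_add hs1 (mul_le_mul_of_nonneg_left hs2 (by positivity))
      _ = 2 * cG δ' * (((n : ℝ) + 1) * (2 ^ (δ' * n₀) * 2 ^ (-(δ' * n))))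
          + 4 * cG δ' * (Q * ((n₀ : ℝ) + 1)) * (2 ^ (δ' * n₀) * 2 ^ (-(δ' * n₀))) := by ring
      _ ≤ _ := by
          rw [h9, h10]
          have h11 : 0 ≤ cG δ' * (((n : ℝ) + 1) * 2 ^ (-(δ' * ((n : ℝ) - n₀)))) := by positivity
          nlinarith
  calc C * K * 2 ^ (-(α * n₀)) * (g * g) * ∑ s ∈ R.filter (fun s => n₀ ≤ s.1 + s.2),
      e s * 2 ^ (-(δ' * ((s.1 + s.2 : ℕ) - (n₀ : ℝ))))
      ≤ C * K * 2 ^ (-(α * n₀)) * (g * g) * (4 * cG δ' * (((n : ℝ) + 1)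
        * 2 ^ (-(δ' * ((n : ℝ) - n₀))) + Q * ((n₀ : ℝ) + 1))) := by gcongr
    _ = _ := by ring

end

end Run7.h221
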